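import Pool.Agent.MP_1037db_co.LP.Chk

/-! A checker of case distinctions for wake-up trees (natural number arithmetic only).
A set of cells is a number: the cell in row `j` and column `k` is bit `16 * k + j`. -/

namespace Pool.Agent.MP_1037db_co.Q

open Nat (add mul sub land lor xor shiftLeft shiftRight ble beq)
open Pool.Agent.MP_1037db_co.LP

noncomputable section

def fn (n : Nat) (f : Nat → Nat) : Nat := Nat.rec (nat_lit 0) (fun k _ => f k) (add n (nat_lit 1))

/-- the cells of row zero -/
def ON : Nat := (nat_lit 0x100010001000100010001000100010001000100010001000100010001000100010001000100010001000100010001000100010001000100010001000100010001000100010001000100010001000100010001000100010001000100010001000100010001000100010001000100010001000100010001000100010001000100010001000100010001000100010001000100010001000100010001000100010001000100010001000100010001000100010001000100010001000100010001000100010001000100010001000100010001000100010001000100010001000100010001000100010001000100010001000100010001000100010001000100010001000100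01000100010001000100010001000100010001000100010001000100010001000100010001000100010001000100010001000100010001000100010001000100010001000100010001000100010001000100010001000100010001000100010001000100010001000100010001000100010001000100010001000100010001000100010001000100010001000100010001000100010001000100010001000100010001000100010001000100010001000100010001000100010001000100010001000100010001000100010001000100010001000100010001000100010001000100010001000100010001000100010001000100010001000100010001000100010001000100010001000100010001000100010001000100010001000100010001000100010001000100010001000100010001000100010001000100010001000100010001000100010001000100010001000100010001000100010001000100010001000100010001000100010001000100010001000100010001000100010001000100010001000100010001000100010001000100010001000100010001000100010001000100010001000100010001000100010001000100010001000100010001000100010001000100010001000100010001000100010001000100010001000100010001000100010001000100010001000100010001000100010001000100010001000100010001000100010001000100010001000100010001000100010001000100010001000100010001000100010001000100010001000100010001000100010001000100010001000100010001000100010001000100010001000100010001000100010001000100010001000100010001000100010001000100010001000100010001000100010001000100010001000100010001000100010001000100010001000100010001000100010001000100010001000100010001000100010001000100010001000100010001000100010001000100010001000100010001000100010001000100010001000100010001000100010001)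

/-- the columns that are congruent to column 255 -/
def LV : Nat := (nat_lit 0xffff00000000000000000000000000000000000000000000000000000000000000000000000000000000000000000000000000000000000000000000000000000000000000000000000000000000000000000000000000000000000000000000000000000000000000000000000000000000000000000000000000000000000000000000000000000000000000000000000000000000000000000000000000000000000000000000000000000000000000000000000000000000000000000000000000000000000000000000000000000000000000000000000000000000000000000000000000000000000000000000ffff00000000000000000000000000000000000000000000000000000000000000000000000000000000000000000000000000000000000000000000000000000000000000000000000000000000000000000000000000000000000000000000000000000000000000000000000000000000000000000000000000000000000000000000000000000000000000000000000000000000000000000000000000000000000000000000000000000000000000000000000000000000000000000000000000000000000000000000000000000000000000000000000000000000000000000000000000000000000000000000ffff00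000000000000000000000000000000000000000000000000000000000000000000000000000000000000000000000000000000000000000000000000000000000000000000000000000000000000000000000000000000000000000000000000000000000000000000000000000000000000000000000000000000000000000000000000000000000000000000000000000000000000000000000000000000000000000000000000000000000000000000000000000000000000000000000000000000000000000000000000000000000000000000000000000000000000000000000000000000000000000000ffff00000000000000000000000000000000000000000000000000000000000000000000000000000000000000000000000000000000000000000000000000000000000000000000000000000000000000000000000000000000000000000000000000000000000000000000000000000000000000000000000000000000000000000000000000000000000000000000000000000000000000000000000000000000000000000000000000000000000000000000000000000000000000000000000000000000000000000000000000000000000000000000000000000000000000000000000000000000000000000000ffff000000000000000000000000000000000000000000000000000000000000)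

def dl (N M : Nat) : Nat := xor N (land N M)

/-- the bits from `lo` to `hi - 1` -/
def iv (lo hi : Nat) : Nat := sub (shiftLeft (nat_lit 1) hi) (shiftLeft (nat_lit 1) lo)

/-- bits `lo ≤ 16 * k < hi` of row zero, times a set of rows -/
def bo (lo hi rows : Nat) : Nat := mul (land (iv lo hi) ON) rows

def ro (r1 r2 : Nat) : Nat := land (iv r1 r2) (nat_lit 65535)

def per (W : Nat) : Nat :=
  lor (lor W (lor (shiftLeft W (nat_lit 1920)) (shiftRight W (nat_lit 1920)))) (lor (shiftLeft W (nat_lit 3840)) (shiftRight W (nat_lit 3840)))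

/-- the cells of row `c` at distance less than `s` from column 255 -/
def wn (s c : Nat) : Nat := shiftLeft (land (iv (mul (sub (nat_lit 256) s) (nat_lit 16)) (mul (add (nat_lit 255) s) (nat_lit 16))) ON) c

def un (n : Nat) (f : Nat → Nat) : Nat := Nat.rec (nat_lit 0) (fun k r => lor (f k) r) n

def mf (n : Nat) (f : Nat → Nat) : Nat := Nat.rec (nat_lit 255) (fun k r => mn (f k) r) n

/-- cells that are excluded by a point in row `j` and column 255 -/
def zp (XT j : Nat) : Nat := per (un (nat_lit 16) fun c => wn (sub (xe XT (add (mul j (nat_lit 32)) (nat_lit 1)) c) (nat_lit 1)) c)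

def sd (S a b c : Nat) : Nat := bt S (mul (add (add (mul a (nat_lit 256)) (mul b (nat_lit 16))) c) (nat_lit 8)) (nat_lit 255)

def s3 (S a b c : Nat) : Nat :=
  fn (mn a (mn b c)) fun x => fn (mx a (mx b c)) fun z => sd S x (sub (add (add a b) c) (add x z)) z

def ub (S ab : Nat) : Nat := un (nat_lit 16) fun c => wn (s3 S (shiftRight ab (nat_lit 4)) (land ab (nat_lit 15)) c) c

def w3u (U Y : Nat) : Nat := per (land (land U Y) (mul (bt Y (nat_lit 4080) (nat_lit 65535)) ON))

/-- cells that are excluded by two points: `k = (16 * a + b) * 128 + y`, row `a` in column `195 + y`,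
row `b` in column 255 -/
def w3 (S k : Nat) : Nat := fn (shiftRight k (nat_lit 7)) fun ab =>
  w3u (ub S ab) (shiftRight (shiftLeft (ub S ab) (mul (add (land k (nat_lit 127)) (nat_lit 195)) (nat_lit 16))) (nat_lit 4080))

/-- columns `x` such that `x`, `195 + lo`, `195 + hi` have span less than `s` -/
def wk (s k : Nat) : Nat :=
  cn (lt (land k (nat_lit 127)) (add (shiftRight k (nat_lit 7)) s))
    (per (iv (mul (sub (add (land k (nat_lit 127)) (nat_lit 196)) s) (nat_lit 16)) (mul (add (add (shiftRight k (nat_lit 7)) (nat_lit 195)) s) (nat_lit 16)))) (nat_lit 0)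

def s3b (S j r1 r2 : Nat) : Nat :=
  mf (sub r2 r1) fun b => mf (add b (nat_lit 1)) fun c => s3 S j (add r1 b) (add r1 c)

def s3a (S r1 r2 : Nat) : Nat :=
  mf (sub r2 r1) fun c => mf (add c (nat_lit 1)) fun b => mf (add b (nat_lit 1)) fun a => sd S (add r1 a) (add r1 b) (add r1 c)

/-- cell of anchor `u` -/
def ce (A u : Nat) : Nat := bt A (mul u (nat_lit 12)) (nat_lit 4095)

/-- column of cell `x` when cell `c` is in column 60 -/
def yy (x c : Nat) : Nat := Nat.mod (sub (add (shiftRight x (nat_lit 4)) (nat_lit 300)) (shiftRight c (nat_lit 4))) (nat_lit 120)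

def k3 (x c : Nat) : Nat := add (mul (add (mul (land x (nat_lit 15)) (nat_lit 16)) (land c (nat_lit 15))) (nat_lit 128)) (yy x c)

def k4 (y z : Nat) : Nat := add (mul (mn (nat_lit 60) (mn y z)) (nat_lit 128)) (mx (nat_lit 60) (mx y z))

def k5 (y z w : Nat) : Nat := add (mul (mn (mn (nat_lit 60) y) (mn z w)) (nat_lit 128)) (mx (mx (nat_lit 60) y) (mx z w))

/-- number 7 is a second cell of anchor 0 -/
def l7 (u v : Nat) : Bool := ble (mx (land (add u (nat_lit 1)) (nat_lit 7)) (nat_lit 1)) v

/-- a list of exclusions for a new point in cell `c` -/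
def xl (S s4 s5 A n c : Nat) (f : Nat → Nat → Bool) : Nat → Nat → Bool :=
  Nat.rec (motive := fun _ => Nat → Nat → Bool) (fun _ _ => false)
    (fun _ ih s Z => Nat.rec (f (shiftRight s (nat_lit 2)) Z)
      (fun m _ => Nat.rec
        (an (ble (land (add (bt s (nat_lit 2) (nat_lit 7)) (nat_lit 1)) (nat_lit 7)) n) (fb (k3 (ce A (bt s (nat_lit 2) (nat_lit 7))) c) fun k => ih (shiftRight s (nat_lit 5)) (lor (w3 S k) Z)))
        (fun m' _ => Nat.rec
          (an (an (l7 (bt s (nat_lit 2) (nat_lit 7)) (bt s (nat_lit 5) (nat_lit 7))) (lt (bt s (nat_lit 5) (nat_lit 7)) n))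
            (fb (k4 (yy (ce A (bt s (nat_lit 2) (nat_lit 7))) c) (yy (ce A (bt s (nat_lit 5) (nat_lit 7))) c)) fun k =>
              ih (shiftRight s (nat_lit 8)) (lor (wk s4 k) Z)))
          (fun _ _ => an (an (l7 (bt s (nat_lit 2) (nat_lit 7)) (bt s (nat_lit 5) (nat_lit 7))) (an (lt (bt s (nat_lit 5) (nat_lit 7)) (bt s (nat_lit 8) (nat_lit 7))) (lt (bt s (nat_lit 8) (nat_lit 7)) n)))
            (fb (k5 (yy (ce A (bt s (nat_lit 2) (nat_lit 7))) c) (yy (ce A (bt s (nat_lit 5) (nat_lit 7))) c) (yy (ce A (bt s (nat_lit 8) (nat_lit 7))) c)) fun k =>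
              ih (shiftRight s (nat_lit 11)) (lor (wk s5 k) Z))) m') m) (land s (nat_lit 3))) (nat_lit 40)

/-- shift that moves column 255 to the column of cell `c` -/
def sf (c : Nat) : Nat := sub (nat_lit 4080) (land c (nat_lit 4080))

/-- a new anchor in cell `c` -/
def ent (XT S s4 s5 A n c s N : Nat) (f : Nat → Nat → Nat → Bool) : Bool :=
  fb (land c (nat_lit 15)) fun j => xl S s4 s5 A n c
    (fun s' Z => f (add A (shiftLeft c (mul n (nat_lit 12)))) s' (dl N (shiftRight Z (sf c)))) s (zp XT j)

/-- a pointer to a program -/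
def pt (MT : Tr) (s : Nat) : Nat := fn (land s (nat_lit 262143)) fun k => shiftRight (MT.get k) (bt s (nat_lit 18) (nat_lit 4095))

/-- a list of cells, each with a program `f`; `g` is run on the remaining cells -/
def lst (MT : Tr) (f : Nat → Nat → Nat → Bool) (g : Nat → Nat → Bool) : Nat → Nat → Bool :=
  Nat.rec (motive := fun _ => Nat → Nat → Bool) (fun _ _ => false)
    (fun _ ih s M => Nat.rec (g (shiftRight s (nat_lit 2)) M)
      (fun m _ => Nat.rec
        (fb (bt s (nat_lit 2) (nat_lit 4095)) fun c => an (f c (shiftRight s (nat_lit 26)) M)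
          (ih (shiftRight s (add (bt s (nat_lit 14) (nat_lit 4095)) (nat_lit 26))) (dl M (shiftLeft (nat_lit 1) c))))
        (fun _ _ => ih (pt MT (shiftRight s (nat_lit 2))) M) m) (land s (nat_lit 3))) (nat_lit 9999)

/-- the next anchor is in one of the cells of `P` -/
def ca2 (MT : Tr) (XT S s4 s5 A n : Nat) (f : Nat → Nat → Nat → Nat → Bool) (g : Nat → Bool)
    (s N P : Nat) : Bool :=
  lst MT (fun c s' _ => ent XT S s4 s5 A n c s' N (f c)) (fun _ => g) s (land N P)

def cas (MT : Tr) (XT S s4 s5 A n : Nat) (f : Nat → Nat → Nat → Nat → Bool) : Nat → Nat → Nat → Bool :=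
  ca2 MT XT S s4 s5 A n f fun M => beq M (nat_lit 0)

/-- a tree of case distinctions -/
def tp (MT : Tr) (XT S s4 s5 : Nat) (lf : Nat → Nat → Nat → Nat → Bool) : Nat → Nat → Nat → Nat → Bool :=
  Nat.rec (motive := fun _ => Nat → Nat → Nat → Nat → Bool) (fun _ _ _ _ => false)
    (fun _ ih n A => lst MT (fun c s M => ent XT S s4 s5 A n c s M (ih (add n (nat_lit 1)))) (lf n A)) (nat_lit 9)

def rf (r : Nat) : Nat := add (add (mul (shiftRight r (nat_lit 1)) (nat_lit 8)) (nat_lit 2)) (land r (nat_lit 1))

def hh (H : Tr) (r : Nat) : Nat := land (hx H (rf r)) (nat_lit 340282366920938463463374607431768211455)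

def hk (H : Tr) (r : Nat) : Nat := bt (hh H r) (nat_lit 36) (nat_lit 3)

def rz (ref : Nat) : Nat := add (mul (land ref (nat_lit 6)) (nat_lit 39857368760327970583363107259099906048)) (mul ref (nat_lit 1361129467683753853853498429727072845824))

def hy (H : Tr) (r : Nat) : Nat := add (land (hh H r) (nat_lit 169559402822469627489769461608636809215)) (rz (rf r))

def hzx (x ref : Nat) : Nat := add (add (land x (nat_lit 169559321693759672634918283878271549440)) (rz ref)) (mul (land x (nat_lit 81128709954854851177730365259775)) (nat_lit 8749002899259362446010914288862263316938264250957424987683741951865249249594447408324457076761821184))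

def hz (H : Tr) (r : Nat) : Nat := hzx (hh H r) (rf r)

/-- the same for a point on the left side of its cell: the values of the right side are erased -/
def he (H : Tr) (r : Nat) : Nat :=
  hzx (land (hh H r) (Nat.rec (nat_lit 340282285792228508608523429718582624255) (fun _ _ => (nat_lit 340282366920938463463374607414588538880)) (land r (nat_lit 1)))) (rf r)

def b2 (x p a rows : Nat) (f g : Nat → Nat) : Nat :=
  Nat.rec (fn (bo (add a (nat_lit 2160)) (sub (nat_lit 6240) (bt x (nat_lit 115) (nat_lit 4080))) rows) f)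
    (fun _ _ => fn (bo (add (bt x (nat_lit 115) (nat_lit 4080)) (nat_lit 1936)) (sub (nat_lit 6016) a) rows) g) p

def cu3 (B : Nat) : Nat := lor B (lor (shiftLeft B (nat_lit 1920)) (shiftRight B (nat_lit 1920)))

def b1 (x p rows : Nat) : Nat :=
  Nat.rec (b2 x p (bt x (nat_lit 104) (nat_lit 4080)) rows cu3 cu3)
    (fun _ _ => b2 x p (mx (bt x (nat_lit 104) (nat_lit 4080)) (nat_lit 1920)) rows (fun B => lor B (shiftRight B (nat_lit 1920)))
      fun B => lor B (shiftLeft B (nat_lit 1920))) (bt x (nat_lit 60) (nat_lit 1))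

def b0 (x p : Nat) : Nat :=
  b1 x p (ro (Nat.rec (bt x (nat_lit 46) (nat_lit 31)) (fun _ _ => mx (bt x (nat_lit 46) (nat_lit 31)) (bt x (nat_lit 40) (nat_lit 31))) (bt x (nat_lit 62) (nat_lit 1)))
    (Nat.rec (sub (nat_lit 31) (bt x (nat_lit 52) (nat_lit 31))) (fun _ _ => mn (sub (nat_lit 31) (bt x (nat_lit 52) (nat_lit 31))) (add (bt x (nat_lit 40) (nat_lit 31)) (nat_lit 1))) (bt x (nat_lit 64) (nat_lit 1))))

/-- the cells of the region of a node whose point is in column 255 -/
def bm (H : Tr) (r : Nat) : Nat := b0 (hh H r) (land r (nat_lit 1))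

def dp (d : Nat) : Nat := add (mul (land d (nat_lit 5575122496445468265719638887927621074354175)) (nat_lit 5708990770823839524233143877797980545530986496)) (mul (shiftRight d (nat_lit 72)) (nat_lit 127314748520905380391777855525586135065716774604121015664758778084648831235208544136462336))

def dz (DT : Tr) (k y : Nat) : Nat :=
  fn (shiftRight k (nat_lit 7)) fun p => dp (land (shiftRight (DT.get p) (mul y (nat_lit 72))) (nat_lit 26327771615106622073631788543845694075442754821128109490054168575))

def dz0 (DT : Tr) (k : Nat) : Nat := dz DT k (land k (nat_lit 127))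

def dz1 (DT : Tr) (k : Nat) : Nat := dz DT k (sub (nat_lit 120) (land k (nat_lit 127)))

/-- rows and difference of columns for a move from cell `x` to cell `c` -/
def ky (x c : Nat) : Nat := add (mul (add (mul (land x (nat_lit 15)) (nat_lit 32)) (land c (nat_lit 15))) (nat_lit 128))
  (Nat.mod (sub (add (shiftRight c (nat_lit 4)) (nat_lit 360)) (shiftRight x (nat_lit 4))) (nat_lit 120))

def cc (X z d G : Nat) : Bool := beq (land (sub (sub X z) d) (add G (nat_lit 34084860461056))) G

/-- use of a node at a point with known time -/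
def cp (H : Tr) (T0 T1 r e0 e1 : Nat) : Bool :=
  beq (land (sub (Nat.rec (add T0 e0) (fun _ _ => add T1 e1) (land r (nat_lit 1))) (hy H r)) (nat_lit 2854496066309122862835527115449378651557199872)) (nat_lit 2854496066309122862835527115449344566696738816)

/-- use of a node after a move -/
def cq (z : Nat → Nat) (DT : Tr) (X0 X1 k G0 G1 r e0 e1 : Nat) : Bool :=
  Nat.rec (cc (add X0 e0) (z r) (dz0 DT k) G0) (fun _ _ => cc (add X1 e1) (z r) (dz1 DT k) G1) (land r (nat_lit 1))

def us (H : Tr) (cu : Nat → Nat → Nat → Bool) (r e0 e1 F : Nat) (f : Nat → Bool) : Bool :=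
  Nat.rec false (fun K _ => an (cu r (add e0 (mul K (nat_lit 68719476736))) (add e1 (mul K (nat_lit 68719476736)))) (f (sub K (hk H r)))) F

def u1 (H : Tr) (cu : Nat → Nat → Nat → Bool) (e L sh : Nat) (ih : Nat → Nat → Nat → Nat → Bool)
    (F s N V : Nat) : Bool :=
  fb (bt s (nat_lit 3) (nat_lit 262143)) fun r => us H cu r e e F fun F' =>
    ih F' (shiftRight s (nat_lit 21)) (dl N (shiftRight (dl (bm H r) L) sh)) V

def u2 (H : Tr) (cu : Nat → Nat → Nat → Bool) (e e' L sh : Nat) (ih : Nat → Nat → Nat → Nat → Bool)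
    (F s N V x y : Nat) : Bool :=
  fb x fun r => fb y fun r' => us H cu r e e F fun F' => us H cu r' e' e' F' fun F'' =>
    ih F'' (shiftRight s (nat_lit 39))
      (dl N (shiftRight (lor (dl (lor (bm H r) (bm H r')) L) (land (bm H r) (bm H r'))) sh)) V

def st2 (H : Tr) (cu : Nat → Nat → Nat → Bool) (J sh c : Nat)
    (sp : (Nat → Nat → Nat → Nat → Bool) → Nat → Nat → Nat → Nat → Bool)
    (ih : Nat → Nat → Nat → Nat → Bool) (F s N V m : Nat) : Bool :=
  Nat.rec (u1 H cu (add J (nat_lit 864691128455135232)) LV sh ih F s N V)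
    (fun m1 _ => Nat.rec (u1 H cu (add J (nat_lit 23058430092136939520)) (shiftLeft ON (land c (nat_lit 15))) sh ih F s N V)
      (fun m2 _ => Nat.rec
        (u2 H cu (add J (nat_lit 864691128455135232)) (add J (nat_lit 864691128455135232)) LV sh ih F s N V (lor (bt s (nat_lit 3) (nat_lit 262143)) (nat_lit 1)) (bt s (nat_lit 21) (nat_lit 262142)))
        (fun m3 _ => Nat.rec
          (u2 H cu (add J (nat_lit 18446744073709551616)) (add J (nat_lit 4611686018427387904)) (shiftLeft ON (land c (nat_lit 15))) sh ih F s N V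
            (bt s (nat_lit 3) (nat_lit 262143)) (bt s (nat_lit 21) (nat_lit 262143)))
          (fun _ _ => sp ih F s N V) m3) m2) m1) m

def u0 (H : Tr) (cu : Nat → Nat → Nat → Bool) (O0 O1 sh : Nat) (ih : Nat → Nat → Nat → Nat → Bool)
    (F s N V : Nat) : Bool :=
  fb (bt s (nat_lit 3) (nat_lit 262143)) fun r => us H cu r O0 O1 F fun F' =>
    ih F' (shiftRight s (nat_lit 21)) (dl N (shiftRight (bm H r) sh)) V

/-- one instruction for the robots at a point -/
def stp (H : Tr) (cu : Nat → Nat → Nat → Bool) (J O0 O1 sh c : Nat)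
    (mo sp : (Nat → Nat → Nat → Nat → Bool) → Nat → Nat → Nat → Nat → Bool)
    (κ : Nat → Nat → Nat → Bool) (ih : Nat → Nat → Nat → Nat → Bool) (F s N V : Nat) : Bool :=
  Nat.rec (κ (shiftRight s (nat_lit 3)) N V)
    (fun m _ => Nat.rec (u0 H cu O0 O1 sh ih F s N V)
      (fun m1 _ => Nat.rec (mo ih F s N V) (fun m2 _ => st2 H cu J sh c sp ih F s N V m2) m1) m) (land s (nat_lit 7))

def bk1 (H : Tr) (cu : Nat → Nat → Nat → Bool) (J O0 O1 sh c : Nat)
    (mo sp : (Nat → Nat → Nat → Nat → Bool) → Nat → Nat → Nat → Nat → Bool)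
    (κ' κ : Nat → Nat → Nat → Bool) : Nat → Nat → Nat → Nat → Bool :=
  stp H cu J O0 O1 sh c mo sp κ' (Nat.rec (motive := fun _ => Nat → Nat → Nat → Nat → Bool)
    (fun _ _ _ _ => false) (fun _ ih => stp H cu J O0 O1 sh c mo sp κ ih) (nat_lit 30))

def vis (V w : Nat) (f : Nat → Bool) : Bool :=
  Nat.rec (f (add V (shiftLeft (nat_lit 1) w))) (fun _ _ => false) (bt V w (nat_lit 1))

def rk (C v : Nat) : Nat := bt C (add (mul v (nat_lit 3)) (nat_lit 4)) (nat_lit 7)

def od (C v w : Nat) : Bool := an (lt (nat_lit 0) (rk C v)) (lt (rk C v) (rk C w))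

def gs (C v w x c g : Nat) (f : Nat → Nat → Bool) : Bool :=
  Nat.rec (f (nat_lit 1419612298781011615649678952475016771720260989886843619185417813866810540483857042694292115230126086047217080772174804169130042720256) (nat_lit 1419612298781011615649678952475016771720260989886843619185417813866810540483857042694292115230126086047217080772174804169130042720256))
    (fun m _ => Nat.rec
      (an (an (beq v (nat_lit 0)) (an (beq (bt C (nat_lit 1) (nat_lit 1)) (nat_lit 1)) (beq (land x (nat_lit 15)) (land c (nat_lit 15))))) (f (nat_lit 1419606883410515285933156337238064059264866959790027494531097747491732173807104316811933577388984253498001448008243454537694590271488) (nat_lit 1419606883410515285933156337238064059264866959790027494531097747491732173807104316811933577388984253498001448008243454537694590271488)))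
      (fun m1 _ => Nat.rec
        (an (an (beq v (nat_lit 0)) (an (beq (bt C (nat_lit 2) (nat_lit 1)) (nat_lit 1)) (beq (land x (nat_lit 15)) (land c (nat_lit 15))))) (f (nat_lit 1419612298760353616624983683757765043842787328868357226911993076622904995903906035794550437531846357570377827477677261096049478467584) (nat_lit 1419612298760353616624983683757765043842787328868357226911993076622904995903906035794550437531846357570377827477677261096049478467584)))
        (fun m2 _ => an (beq (shiftRight x (nat_lit 4)) (shiftRight c (nat_lit 4))) (Nat.rec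
          (an (orr (an (beq v (nat_lit 0)) (beq (land C (nat_lit 1)) (nat_lit 1))) (od C v w)) (f (nat_lit 1419612298781011615649678952475016771720260989886843619185417813853330515728068146331750118256537153253433353924168612207730544869376) (nat_lit 300614597348733166342637721397432804271559715654932206222926367701946803336314258965696871408759412306084888576)))
          (fun _ _ => an (od C w v) (f (nat_lit 300614597348733166342637721397432804271559715654932206222926367701946803336314258965696871408759412306084888576) (nat_lit 1419612298781011615649678952475016771720260989886843619185417813853330515728068146331750118256537153253433353924168612207730544869376))) m2)) m1) m) g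

def vq (y : Nat) : Nat := add (land y (nat_lit 65535)) (mul (land y (nat_lit 17179607040)) (nat_lit 262144))

def xx (i p q : Nat) : Nat := add (add (nat_lit 1419612298781011615649678952475016771720260989886843619185417813866810540483857042694292115229014230638747742532099027082287830269952) (mul i (nat_lit 10889035741470030830827987437816582766592))) (add (mul p (nat_lit 7067415219060204468974481253372378698352689322148743724669014129235722240)) (mul q (nat_lit 157608626012479106950455875032358246031540767862531061979056877007350196635150709975299591994347402807817141055651840)))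

def xa (i x : Nat) : Nat := xx i (vq (shiftRight x (nat_lit 72))) (vq x)

def xb (i x : Nat) : Nat := xx i (vq x) (vq (shiftRight x (nat_lit 72)))

def kf (_ _ _ : Nat) : Bool := false

abbrev BK := Nat → Nat → (Nat → Nat → Nat → Bool) → Nat → Nat → Nat → (Nat → Nat → Nat → Bool) →
  (Nat → Nat → Nat → Bool) → Nat → Nat → Nat → Nat → Bool

abbrev OP := (Nat → Nat → Nat → Nat → Bool) → Nat → Nat → Nat → Nat → Bool

def mo2 (i : Nat) (b : BK) (w c : Nat) (cu κ : Nat → Nat → Nat → Bool) (l s N V x : Nat) : Bool :=
  b w c cu (xa i x) (xb i x) (nat_lit 0) κ κ (add l (nat_lit 2)) (shiftRight s (nat_lit 85)) N V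

def mo1 (z : Nat → Nat) (DT : Tr) (i : Nat) (b : BK) (X0 X1 w c k G0 G1 l : Nat) (κ : Nat → Nat → Nat → Bool)
    (s N V : Nat) : Bool :=
  Nat.rec (b w c (cq z DT X0 X1 k G0 G1) (nat_lit 0) (nat_lit 0) (nat_lit 0) kf κ (add l (nat_lit 2)) (shiftRight s (nat_lit 13)) N V)
    (fun m _ => Nat.rec (an (cc X0 (nat_lit 2801973672888163648873723073972345503744) (dz0 DT k) G0) (κ (shiftRight s (nat_lit 13)) N V))
      (fun _ _ => fb (add (bt s (nat_lit 13) (nat_lit 17179672575)) (mul (bt s (nat_lit 49) (nat_lit 17179672575)) (nat_lit 4722366482869645213696))) fun x =>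
        an (cc X0 (hzx x (nat_lit 2)) (dz0 DT k) G0)
          (mo2 i b w c (cq z DT X0 X1 k G0 G1) κ l s N V (Nat.rec (lor x (nat_lit 81128709954854851177713185587200)) (fun _ _ => x) w))) m)
    (bt s (nat_lit 11) (nat_lit 3))

/-- some robots move to another anchor -/
def mo (H DT : Tr) (i C A : Nat) (b : BK) (v x X0 X1 : Nat) (ih : Nat → Nat → Nat → Nat → Bool)
    (F s N V : Nat) : Bool :=
  Nat.rec false (fun _ _ => an (lt (bt s (nat_lit 6) (nat_lit 3)) F) (vis V (bt s (nat_lit 3) (nat_lit 7)) fun V' =>
    fb (ce A (bt s (nat_lit 3) (nat_lit 7))) fun c => fb (ky x c) fun k => gs C v (bt s (nat_lit 3) (nat_lit 7)) x c (bt s (nat_lit 8) (nat_lit 7)) fun G0 G1 =>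
      mo1 (Nat.rec (he H) (fun _ _ => hz H) (bt s (nat_lit 3) (nat_lit 7))) DT i b X0 X1 (bt s (nat_lit 3) (nat_lit 7)) c k G0 G1 (bt s (nat_lit 6) (nat_lit 3)) (ih (sub F (add (bt s (nat_lit 6) (nat_lit 3)) (nat_lit 1)))) s N V')) X0

def rp (i x y : Nat) : Nat := add (add (nat_lit 2854494954453714393497287039672257724484288512) (mul i (nat_lit 10889035741470030830827987437816582766592))) (w2 x y)

def rx (i x y : Nat) : Nat := xx i (vb x y) (vb x y)

def tw2 (R : Nat) : Nat := land (mul (rd R (nat_lit 35)) (nat_lit 2)) (nat_lit 65535)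

def f1 (C : Nat) : Nat := add (mul (bt C (nat_lit 1) (nat_lit 1)) (nat_lit 4611686018427387904)) (mul (bt C (nat_lit 2) (nat_lit 1)) (nat_lit 18446744073709551616))

def f0 (C : Nat) : Nat := add (f1 C) (mul (land C (nat_lit 1)) (nat_lit 864691128455135232))

def sp1 (H : Tr) (R i A : Nat) (b : BK) (ih : Nat → Nat → Nat → Nat → Bool) (F s N V : Nat) : Bool :=
  an (lt (bt s (nat_lit 4) (nat_lit 3)) F) (vis V (nat_lit 1) fun V' => fb (ce A (nat_lit 1)) fun c =>
    b (nat_lit 1) c (cp H (rp i (tw2 R) (tw2 R)) (rp i (tw2 R) (tw2 R))) (rx i (tw2 R) (tw2 R)) (rx i (tw2 R) (tw2 R)) (nat_lit 2)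
      (ih (sub F (add (bt s (nat_lit 4) (nat_lit 3)) (nat_lit 1)))) (ih (sub F (add (bt s (nat_lit 4) (nat_lit 3)) (nat_lit 1)))) (add (bt s (nat_lit 4) (nat_lit 3)) (nat_lit 2)) (shiftRight s (nat_lit 6)) N V')

/-- the move along a short edge (`md = 3`), the moves after it (`md = 2`) and the uses of the second
cell of the root (`md = 1, 3`) -/
def sp (H : Tr) (R i A : Nat) (Q Q' : OP) (b : BK) (md : Nat) (ih : Nat → Nat → Nat → Nat → Bool)
    (F s N V : Nat) : Bool :=
  Nat.rec false (fun m _ => Nat.rec (Q' ih F s N V)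
    (fun m1 _ => Nat.rec
      (Nat.rec (Nat.rec false (fun K _ => vis V (bt s (nat_lit 4) (nat_lit 7)) fun V' => ih K (shiftRight s (nat_lit 7)) N V') F)
        (fun _ _ => Q ih F s N V) (bt s (nat_lit 3) (nat_lit 1)))
      (fun _ _ => Nat.rec (sp1 H R i A b ih F s N V) (fun _ _ => Q' ih F s N V) (bt s (nat_lit 3) (nat_lit 1))) m1) m) md

def bk0 (H DT : Tr) (R i C A : Nat) (Q Q' : OP) (b : BK) (v c : Nat) (cu : Nat → Nat → Nat → Bool) (X0 X1 md J : Nat) :
    (Nat → Nat → Nat → Bool) → (Nat → Nat → Nat → Bool) → Nat → Nat → Nat → Nat → Bool :=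
  bk1 H cu J (Nat.rec (add J (f0 C)) (fun _ _ => J) v) (Nat.rec (add J (f1 C)) (fun _ _ => J) v) (sf c) c
    (mo H DT i C A b v c X0 X1) (sp H R i A Q Q' b md)

/-- the program of the robots at anchor `v` in cell `c` -/
def bk (H DT : Tr) (R i C A : Nat) (Q Q' : OP) : BK :=
  Nat.rec (motive := fun _ => BK) (fun _ _ _ _ _ _ _ _ _ _ _ _ => false)
    (fun _ b v c cu X0 X1 md => bk0 H DT R i C A Q Q' b v c cu X0 X1 md (mul (land c (nat_lit 15)) (nat_lit 1099511627776))) (nat_lit 9)

def k0 (_ N V : Nat) : Bool := an (beq N (nat_lit 0)) (beq V (nat_lit 255))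

/-- an anchor that is treated like an unknown point -/
def tu (A w V N : Nat) (f : Nat → Nat → Bool) : Bool :=
  Nat.rec (f N V) (fun u _ => vis V u (f (lor N (shiftLeft (nat_lit 1) (ce A u))))) w

/-- the time that is left at radius number `j` -/
def tq (R j : Nat) : Nat := sub (rd R (nat_lit 34)) (Nat.div (add (mul (rd R (nat_lit 35)) (rq R j)) (nat_lit 9999)) (nat_lit 10000))

def ra (R i j : Nat) : Nat := rp i (tq R j) (tq R (add j (nat_lit 1)))

def rb (R i j : Nat) : Nat := rx i (tq R j) (tq R (add j (nat_lit 1)))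

def sl (K a b c d : Nat) : Nat :=
  Nat.rec a (fun x _ => Nat.rec b (fun y _ => Nat.rec c (fun _ _ => d) y) x) K

/-- a cell of `P` -/
def lg (P : Nat) : Nat := Nat.rec (nat_lit 0) (fun k r => fn r fun c =>
  cn (beq (shiftRight P (add c (shiftRight (nat_lit 2048) k))) (nat_lit 0)) c (add c (shiftRight (nat_lit 2048) k))) (nat_lit 12)

/-- any two cells of `Q` exclude each other -/
def one (XT Q : Nat) : Nat → Bool :=
  Nat.rec (motive := fun _ => Nat → Bool) (fun _ => false)
    (fun _ ih P => Nat.rec true (fun _ _ => fb (lg P) fun c => fb (land c (nat_lit 15)) fun j =>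
      an (beq (land Q (shiftRight (zp XT j) (sf c))) Q) (ih (dl P (shiftLeft (nat_lit 1) c)))) P) (nat_lit 999)

def oka (V y : Nat) : Bool := orr (lt y (nat_lit 2)) (beq (bt V y (nat_lit 1)) (nat_lit 0))

def fe1 (XT S s4 s5 A K e c l r1 r2 y z N V M : Nat) : Bool :=
  Nat.rec (ble l (sl K (nat_lit 0) (s3a S r1 r2) s4 s5))
    (fun e1 _ => Nat.rec
      (an (oka V y) (fb (land (ce A y) (nat_lit 15)) fun j =>
        lt (sub (mx (add l (nat_lit 59)) (yy (ce A y) c)) (mn (nat_lit 60) (yy (ce A y) c))) (sl K (s3b S j r1 r2) s4 s5 (nat_lit 0))))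
      (fun e2 _ => Nat.rec
        (an (an (lt y z) (an (oka V y) (oka V z)))
          (lt (sub (mx (add l (nat_lit 59)) (mx (yy (ce A y) c) (yy (ce A z) c))) (mn (nat_lit 60) (mn (yy (ce A y) c) (yy (ce A z) c))))
            (sl K s4 s5 (nat_lit 0) (nat_lit 0))))
        (fun _ _ => one XT (land N M) (land N M)) e2) e1) e

/-- a region with at most one point for each robot, for robots that can reach every point -/
def fe (XT S s4 s5 A : Nat) : OP := fun ih F s N V =>
  fb (bt s (nat_lit 22) (nat_lit 15)) fun r1 => fb (add (bt s (nat_lit 26) (nat_lit 15)) (nat_lit 1)) fun r2 =>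
    fb (shiftRight (per (bo (nat_lit 4080) (mul (add (bt s (nat_lit 16) (nat_lit 63)) (nat_lit 255)) (nat_lit 16)) (ro r1 r2))) (sf (bt s (nat_lit 4) (nat_lit 4080)))) fun M =>
      an (an (lt (bt s (nat_lit 4) (nat_lit 3)) F) (fe1 XT S s4 s5 A (bt s (nat_lit 4) (nat_lit 3)) (bt s (nat_lit 6) (nat_lit 3)) (bt s (nat_lit 4) (nat_lit 4080)) (bt s (nat_lit 16) (nat_lit 63)) r1 r2
        (bt s (nat_lit 30) (nat_lit 7)) (bt s (nat_lit 33) (nat_lit 7)) N V M))
        (ih (sub F (add (bt s (nat_lit 4) (nat_lit 3)) (nat_lit 1))) (shiftRight s (nat_lit 36)) (dl N M) V)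

def pi (i x : Nat) : Nat := add (add (nat_lit 2854494954453714393497287039672257724484288512) (mul i (nat_lit 10889035741470030830827987437816582766592))) x

/-- the times of a root on the left side of its cell -/
def rc (R j : Nat) : Nat := add (add (tq R j) (mul (tq R (add j (nat_lit 1))) (nat_lit 262144))) (nat_lit 81128709954854851177713185587200)

def r0 (R i j : Nat) : Nat := pi i (rc R j)

def r1 (R i j : Nat) : Nat := pi i (sw (rc R j))

def r2 (R i j : Nat) : Nat := xa i (rc R j)

def r3 (R i j : Nat) : Nat := xb i (rc R j)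

/-- use of a node for the cell to the left of the root -/
def ua (H : Tr) (R i C j : Nat) : OP := fun ih F s N V =>
  u0 H (cp H (r1 R i j) (r0 R i j)) (add (mul j (nat_lit 1099511627776)) (f1 C)) (add (mul j (nat_lit 1099511627776)) (f1 C)) (nat_lit 2176) ih F
    (shiftRight s (nat_lit 1)) N V

def ko0 : OP := fun _ _ _ _ _ => false

/-- a wake-up tree for all points -/
def lfT (H DT : Tr) (R i XT S s4 s5 C n A s N : Nat) : Bool :=
  an (ble n (nat_lit 7)) (vis (sub (nat_lit 256) (shiftLeft (nat_lit 1) n)) (land s (nat_lit 7)) fun V =>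
    fb (ce A (land s (nat_lit 7))) fun c => fb (land c (nat_lit 15)) fun j => tu A (bt s (nat_lit 3) (nat_lit 7)) V N
      (Nat.rec (motive := fun _ => Nat → Nat → Bool)
        (bk H DT R i C A (fe XT S s4 s5 A) (ua H R i C j) (nat_lit 0) c (cp H (r0 R i j) (r1 R i j)) (r2 R i j) (r3 R i j)
          (add (bt C (nat_lit 2) (nat_lit 2)) (nat_lit 1)) k0 k0 (nat_lit 2) (shiftRight s (nat_lit 6)))
        (fun u _ => bk H DT R i C A ko0 ko0 (add u (nat_lit 1)) c (cp H (ra R i j) (ra R i j)) (rb R i j) (rb R i j)
          (nat_lit 0) k0 k0 (nat_lit 2) (shiftRight s (nat_lit 6))) (land s (nat_lit 7))))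

/-- a wake-up forest for the robots of a node -/
def lfN (H DT : Tr) (i C c T0 T1 X0 X1 F n A s N : Nat) : Bool :=
  an (ble n (nat_lit 7)) (tu A (land s (nat_lit 7)) (sub (nat_lit 257) (shiftLeft (nat_lit 1) n)) N
    (bk H DT (nat_lit 0) i C A ko0 ko0 (nat_lit 0) c (cp H T0 T1) X0 X1 (nat_lit 0) k0 k0 F (shiftRight s (nat_lit 3))))

/-- the cells of the region of a node that are not excluded by its point -/
def nm (XT h jp : Nat) : Nat :=
  dl (bo (bt h (nat_lit 104) (nat_lit 4080)) (sub (nat_lit 4080) (bt h (nat_lit 115) (nat_lit 4080))) (ro (bt h (nat_lit 46) (nat_lit 31)) (sub (nat_lit 31) (bt h (nat_lit 52) (nat_lit 31)))))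
    (shiftRight (zp XT jp) (nat_lit 2160))

def nc (m h : Nat) : Bool :=
  an (an (lt (bt h (nat_lit 40) (nat_lit 31)) m) (ble (sub (nat_lit 31) (bt h (nat_lit 52) (nat_lit 31))) m))
    (an (lt (bt h (nat_lit 46) (nat_lit 31)) (sub (nat_lit 31) (bt h (nat_lit 52) (nat_lit 31)))) (lt (bt h (nat_lit 108) (nat_lit 255)) (sub (nat_lit 255) (bt h (nat_lit 119) (nat_lit 255)))))

def nf (h : Nat) : Nat := add (bt h (nat_lit 60) (nat_lit 1)) (add (mul (bt h (nat_lit 62) (nat_lit 1)) (nat_lit 2)) (mul (bt h (nat_lit 64) (nat_lit 1)) (nat_lit 4)))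

def gn (H DT MT : Tr) (XT S s4 s5 i s h : Nat) : Bool :=
  fb (bt h (nat_lit 40) (nat_lit 31)) fun jp => fb (add jp (nat_lit 1920)) fun c => fb (nf h) fun C =>
    tp MT XT S s4 s5 (lfN H DT i C c (pi i (land h (nat_lit 81128709954854851177730365259775))) (pi i (sw h)) (xa i h) (xb i h) (add (bt h (nat_lit 36) (nat_lit 3)) (nat_lit 1)))
      (nat_lit 1) (mul c (nat_lit 19342813113834066795298817)) (pt MT s) (nm XT h jp)

/-- the region holds at most one point for each robot -/
def few (S s4 s5 K jp a b r1 r2 e : Nat) : Bool :=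
  Nat.rec (ble (sub b a) (sl K (nat_lit 0) (s3a S r1 r2) s4 s5))
    (fun _ _ => ble (sub (mx b (nat_lit 121)) (mn a (nat_lit 120))) (sl K (s3b S jp r1 r2) s4 s5 (nat_lit 0))) e

/-- all cells can be reached -/
def fr (DT : Tr) (C x X0 T : Nat) : Nat → Nat → Bool :=
  Nat.rec (motive := fun _ => Nat → Nat → Bool) (fun _ _ => false)
    (fun _ ih s M => Nat.rec (beq M (nat_lit 0))
      (fun m _ => Nat.rec
        (fb (bt s (nat_lit 2) (nat_lit 4095)) fun c => fb (ky x c) fun k =>
          an (gs C (nat_lit 0) (nat_lit 0) x c (bt s (nat_lit 14) (nat_lit 3)) fun G _ => cc X0 (nat_lit 2801973672888163648873723073972345503744) (dz0 DT k) G)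
            (ih (shiftRight s (nat_lit 16)) (dl M (shiftLeft (nat_lit 1) c))))
        (fun _ _ => an (qc (nat_lit 0) (nat_lit 2) T (nat_lit 0) (fn (add (mul (land x (nat_lit 15)) (nat_lit 32)) (bt s (nat_lit 8) (nat_lit 15))) fun p =>
            land (shiftRight (DT.get p) (mul (ko (bt s (nat_lit 12) (nat_lit 255)) s) (nat_lit 72))) (nat_lit 1180578109866989387775)))
          (ih (shiftRight s (nat_lit 20))
            (dl M (shiftLeft (land (iv (nat_lit 0) (mul (bt s (nat_lit 2) (nat_lit 63)) (nat_lit 16))) ON) (bt s (nat_lit 8) (nat_lit 4095)))))) m) (land s (nat_lit 3))) (nat_lit 999)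

def far (DT : Tr) (XT S s4 s5 i s h : Nat) : Bool :=
  fb (bt h (nat_lit 40) (nat_lit 31)) fun jp => fb (bt h (nat_lit 46) (nat_lit 31)) fun r1 => fb (sub (nat_lit 31) (bt h (nat_lit 52) (nat_lit 31))) fun r2 =>
    an (few S s4 s5 (bt h (nat_lit 36) (nat_lit 3)) jp (bt h (nat_lit 108) (nat_lit 255)) (sub (nat_lit 255) (bt h (nat_lit 119) (nat_lit 255))) r1 r2 (land s (nat_lit 1)))
      (fr DT (nf h) (add jp (nat_lit 1920)) (xa i h)
        (add (add (nat_lit 63657617094990558659628931840444436415748767203047124268458381110765022754053004504072192) (mul i (nat_lit 10889035741470030830827987437816582766592))) (mul (vb (mn (land h (nat_lit 65535)) (bt h (nat_lit 72) (nat_lit 65535)))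
          (mn (bt h (nat_lit 18) (nat_lit 65535)) (bt h (nat_lit 90) (nat_lit 65535)))) (nat_lit 7067415219060204468974481253372378698352689322148743724669014129235722240)))
        (shiftRight s (nat_lit 1)) (nm XT h jp))

def nod (H DT MT : Tr) (XT S s4 s5 R m i s : Nat) : Bool :=
  Nat.rec (node H DT XT R m i (shiftRight s (nat_lit 17)))
    (fun k _ => fb (land (hx H (mul i (nat_lit 8))) (nat_lit 340282366920938463463374607431768211455)) fun h => an (nc m h)
      (Nat.rec (gn H DT MT XT S s4 s5 i (shiftRight s (nat_lit 17)) h)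
        (fun _ _ => far DT XT S s4 s5 i (shiftRight s (nat_lit 17)) h) k)) (bt s (nat_lit 15) (nat_lit 3))

/-- a block of `n` nodes starting at `i` -/
def blq (H DT MT : Tr) (XT S s4 s5 R m n : Nat) : Nat → Nat → Bool :=
  Nat.rec (motive := fun _ => Nat → Nat → Bool) (fun _ _ => true)
    (fun _ ih i s => an (nod H DT MT XT S s4 s5 R m i s)
      (fb (add i (nat_lit 1)) fun i' => fb (shiftRight s (add (land s (nat_lit 32767)) (nat_lit 17))) fun s' => ih i' s')) n

def rnq (H DT MT : Tr) (XT S s4 s5 R m o c n : Nat) : Bool :=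
  al n fun x => fb (mul (add c x) (nat_lit 32)) fun i => fb (MT.get (add o x)) fun s =>
    blq H DT MT XT S s4 s5 R m (nat_lit 32) i s

def xok (XT : Nat) : Bool :=
  al (nat_lit 16) fun a => al (nat_lit 16) fun b => Bool.not (beq (xe XT (add (mul a (nat_lit 32)) (nat_lit 1)) b) (nat_lit 61))

def ini (XT : Nat) : Bool := al (nat_lit 16) fun a => al (nat_lit 16) fun b => ble (xe XT (add (mul a (nat_lit 32)) (nat_lit 1)) b) (nat_lit 1)

/-- all cells -/
def fm (jn m : Nat) : Nat := bo (nat_lit 976) (nat_lit 2896) (ro jn m)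

def a1 (XT jn m a : Nat) : Nat := dl (fm jn m) (lor (shiftRight (zp XT a) (nat_lit 2160)) (shiftRight (zp XT a) (nat_lit 2176)))

/-- anchor 0 lies on the common side of the columns 119 and 120 -/
def a0 (a : Nat) : Nat := add (add a (nat_lit 1920)) (mul (add a (nat_lit 1904)) (nat_lit 19342813113834066795298816))

/-- two anchors: row `a` in column 120 and row `b` in column `120 + x` -/
def a2 (XT S jn m a b x : Nat) (f : Nat → Nat → Bool) : Bool :=
  fb (add (add (mul x (nat_lit 16)) (nat_lit 1920)) b) fun c => fb (k3 (add a (nat_lit 1920)) c) fun k => fb (k3 (add a (nat_lit 1904)) c) fun k' =>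
    Nat.rec true (fun _ _ => f (add (a0 a) (mul c (nat_lit 4096)))
      (dl (a1 XT jn m a) (shiftRight (lor (zp XT b) (lor (w3 S k) (w3 S k'))) (sf c)))) (bt (a1 XT jn m a) c (nat_lit 1))

def rg (jn m a : Nat) : Bool := an (ble jn a) (lt a m)

def xup (MT : Tr) (T : Nat → Nat → Nat → Nat → Nat → Bool) (XT S jn m XA a b s e : Nat) : Bool :=
  an (an (an (rg jn m a) (rg jn m b)) (an (an (ble (nat_lit 1) e) (ble e (nat_lit 61))) (beq (xe XA (add (mul b (nat_lit 32)) (nat_lit 1)) a) e)))
    (a2 XT S jn m a b (sub e (nat_lit 1)) fun A N => T (nat_lit 272) (nat_lit 2) A (pt MT s) N)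

/-- the possible cells of the middle point when the other end is anchor 0 -/
def mr (Q c x : Nat) : Nat := un (add x (nat_lit 1)) fun y =>
  shiftLeft (mul (bt Q (add (mul (add y (nat_lit 120)) (nat_lit 16)) c) (nat_lit 1)) (nat_lit 65537)) (add (mul (sub (add x (nat_lit 119)) y) (nat_lit 16)) c)

def su1 (MT : Tr) (T : Nat → Nat → Nat → Nat → Nat → Bool) (XT S s4 s5 jn m a b c x s : Nat) : Bool :=
  a2 XT S jn m a b x fun A N => ca2 MT XT S s4 s5 A (nat_lit 2) (fun _ => T (nat_lit 2448) (nat_lit 3))
    (fun Q => Nat.rec true (fun _ _ => cb (beq a b) (beq (land (mr Q c x) Q) (nat_lit 0))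
      (a2 XT S jn m b a x fun A' N' => cas MT XT S s4 s5 A' (nat_lit 2) (fun _ => T (nat_lit 2448) (nat_lit 3)) (pt MT (shiftRight s (nat_lit 30))) N'
        (land (mr Q c x) (iv (nat_lit 1920) (nat_lit 4096))))) Q)
    (pt MT s) N (bo (nat_lit 1920) (mul (add x (nat_lit 121)) (nat_lit 16)) (shiftLeft (nat_lit 1) c))

def sup (MT : Tr) (T : Nat → Nat → Nat → Nat → Nat → Bool) (XT S s4 s5 jn m a b c s x : Nat) : Bool :=
  an (an (an (ble jn a) (ble a b)) (an (ble b c) (an (lt c m) (ble x (nat_lit 60)))))
    (an (su1 MT T XT S s4 s5 jn m a b c x s)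
      (an (orr (beq b c) (su1 MT T XT S s4 s5 jn m a c b x (shiftRight s (nat_lit 60))))
        (orr (beq a b) (su1 MT T XT S s4 s5 jn m b c a x (shiftRight s (nat_lit 120))))))

def prt (MT : Tr) (T : Nat → Nat → Nat → Nat → Nat → Bool) (XT S s4 s5 jn m tg a b x1 x2 s : Nat) : Bool :=
  an (an (rg jn m a) (rg jn m b)) (Nat.rec
    (cas MT XT S s4 s5 (a0 a) (nat_lit 1) (fun _ => T (nat_lit 280) (nat_lit 2)) s (a1 XT jn m a)
      (bo (mul (add x1 (nat_lit 120)) (nat_lit 16)) (mul (add x2 (nat_lit 120)) (nat_lit 16)) (shiftLeft (nat_lit 1) b)))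
    (fun g _ => Nat.rec
      (an (ble s4 (nat_lit 60)) (a2 XT S jn m a b s4 fun A N => cas MT XT S s4 s5 A (nat_lit 2) (fun c A' s' N' =>
        cas MT XT S s4 s5 A' (nat_lit 3) (fun _ => T (nat_lit 27152) (nat_lit 4)) s' N' (iv (land c (nat_lit 4080)) (mul (add s4 (nat_lit 121)) (nat_lit 16)))) s N
        (iv (mul (add x1 (nat_lit 120)) (nat_lit 16)) (mul (add x2 (nat_lit 120)) (nat_lit 16)))))
      (fun _ _ => an (ble s5 (nat_lit 60)) (a2 XT S jn m a b s5 fun A N => cas MT XT S s4 s5 A (nat_lit 2) (fun c A' s' N' =>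
        cas MT XT S s4 s5 A' (nat_lit 3) (fun c' A'' s'' N'' =>
          cas MT XT S s4 s5 A'' (nat_lit 4) (fun _ => T (nat_lit 289424) (nat_lit 5)) s'' N'' (iv (land c' (nat_lit 4080)) (mul (add s5 (nat_lit 121)) (nat_lit 16))))
          s' N' (iv (land c (nat_lit 4080)) (mul (add s5 (nat_lit 121)) (nat_lit 16)))) s N
        (iv (mul (add x1 (nat_lit 120)) (nat_lit 16)) (mul (add x2 (nat_lit 120)) (nat_lit 16))))) g) tg)

/-- all parts are done -/
def don (D jn m x : Nat) (e : Bool) : Bool :=
  al m fun a => al m fun b => orr (orr (lt a jn) (lt b jn))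
    (orr (beq (bt D (mul (add (mul a (nat_lit 16)) b) (nat_lit 64)) (iv (nat_lit 0) x)) (iv (nat_lit 0) x))
      (an e (beq (bt D (mul (add (mul b (nat_lit 16)) a) (nat_lit 64)) (iv (nat_lit 0) x)) (iv (nat_lit 0) x))))

def xi (XA a b : Nat) : Nat :=
  add (add XA (shiftLeft (nat_lit 1) (mul (add (add (mul a (nat_lit 32)) (nat_lit 1)) b) (nat_lit 8))))
    (cn (beq a b) (nat_lit 0) (shiftLeft (nat_lit 1) (mul (add (add (mul b (nat_lit 32)) (nat_lit 1)) a) (nat_lit 8))))

abbrev ST := Nat → Nat → Nat → Nat → Nat → Nat → Nat → Nat → Nat → Nat → Bool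

def tt (H DT MT : Tr) (R i XT S s4 s5 C : Nat) : Nat → Nat → Nat → Nat → Bool :=
  tp MT XT S s4 s5 (lfT H DT R i XT S s4 s5 C)

def rn2 (MT : Tr) (m : Nat) (ih : ST) (XT S XA SA jn s4 s5 tg D s o : Nat) : Bool :=
  Nat.rec (fb XA fun X' => fb SA fun S' => ih X' S' X' S' jn s4 s5 tg D (shiftRight s (nat_lit 4)))
    (fun o1 _ => Nat.rec (ih XT S XA SA jn s4 s5 (bt s (nat_lit 4) (nat_lit 3)) (nat_lit 0) (shiftRight s (nat_lit 6)))
      (fun o2 _ => Nat.rec
        (Nat.rec (an (don D jn m (nat_lit 60) false) (ih XT S XA SA (add m (nat_lit 1)) s4 s5 (nat_lit 0) (nat_lit 0) (shiftRight s (nat_lit 4))))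
          (fun g _ => Nat.rec
            (an (don D jn m (add s4 (nat_lit 1)) true)
              (fb (add s4 (nat_lit 1)) fun x => ih XT S XA SA jn x s5 (nat_lit 1) (nat_lit 0) (shiftRight s (nat_lit 4))))
            (fun _ _ => an (don D jn m (add s5 (nat_lit 1)) true)
              (fb (add s5 (nat_lit 1)) fun x => ih XT S XA SA jn s4 x (nat_lit 2) (nat_lit 0) (shiftRight s (nat_lit 4)))) g) tg)
        (fun o3 _ => Nat.rec
          (an (lt s4 (s3a SA jn m)) (fb (add s4 (nat_lit 1)) fun x => ih XT S XA SA jn x s5 (nat_lit 0) (nat_lit 0) (shiftRight s (nat_lit 4))))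
          (fun o4 _ => Nat.rec
            (an (lt s5 s4) (fb (add s5 (nat_lit 1)) fun x => ih XT S XA SA jn s4 x (nat_lit 0) (nat_lit 0) (shiftRight s (nat_lit 4))))
            (fun _ _ => ih XT S XA SA jn s4 s5 tg D (pt MT (shiftRight s (nat_lit 4)))) o4) o3) o2) o1) o

def rn1 (H DT MT : Tr) (R m i : Nat) (ih : ST) (XT S XA SA jn s4 s5 tg D s o : Nat) : Bool :=
  Nat.rec
    (fb (bt s (nat_lit 4) (nat_lit 15)) fun a => fb (bt s (nat_lit 8) (nat_lit 15)) fun b =>
      an (xup MT (tt H DT MT R i XT S s4 s5) XT S jn m XA a b (shiftRight s (nat_lit 12)) (xe XA (add (mul a (nat_lit 32)) (nat_lit 1)) b))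
        (ih XT S (xi XA a b) SA jn s4 s5 tg D (shiftRight s (nat_lit 42))))
    (fun o1 _ => Nat.rec
      (fb (bt s (nat_lit 4) (nat_lit 15)) fun a => fb (bt s (nat_lit 8) (nat_lit 15)) fun b => fb (bt s (nat_lit 12) (nat_lit 15)) fun c =>
        an (sup MT (tt H DT MT R i XT S s4 s5) XT S s4 s5 jn m a b c (shiftRight s (nat_lit 16)) (sd SA a b c))
          (ih XT S XA (add SA (shiftLeft (nat_lit 1) (mul (add (add (mul a (nat_lit 256)) (mul b (nat_lit 16))) c) (nat_lit 8)))) jn s4 s5 tg D
            (shiftRight s (nat_lit 196))))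
      (fun o2 _ => Nat.rec
        (fb (bt s (nat_lit 4) (nat_lit 15)) fun a => fb (bt s (nat_lit 8) (nat_lit 15)) fun b =>
          an (prt MT (tt H DT MT R i XT S s4 s5) XT S s4 s5 jn m tg a b (bt s (nat_lit 12) (nat_lit 63)) (bt s (nat_lit 18) (nat_lit 63))
              (pt MT (shiftRight s (nat_lit 24))))
            (ih XT S XA SA jn s4 s5 tg (lor D (shiftLeft (iv (bt s (nat_lit 12) (nat_lit 63)) (bt s (nat_lit 18) (nat_lit 63)))
              (mul (add (mul a (nat_lit 16)) b) (nat_lit 64)))) (shiftRight s (nat_lit 54))))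
        (fun o3 _ => Nat.rec
          (an (an (lt jn m) (tt H DT MT R i XT S s4 s5 (nat_lit 2) (nat_lit 1) (a0 jn) (pt MT (shiftRight s (nat_lit 4))) (a1 XT jn m jn)))
            (fb (cn (beq (add jn (nat_lit 1)) m) (add m (nat_lit 1)) (add jn (nat_lit 1))) fun x =>
              ih XT S XA SA x s4 s5 tg D (shiftRight s (nat_lit 34))))
          (fun o4 _ => rn2 MT m ih XT S XA SA jn s4 s5 tg D s o4) o3) o2) o1) o

/-- a sequence of improvements of the invariants -/
def rnd (H DT MT : Tr) (R m i X' S' jn' s4' s5' tg' D' : Nat) : ST :=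
  Nat.rec (motive := fun _ => ST) (fun _ _ _ _ _ _ _ _ _ _ => false)
    (fun _ ih XT S XA SA jn s4 s5 tg D s => Nat.rec
      (an (an (beq XA X') (beq SA S')) (an (an (beq jn jn') (beq s4 s4'))
        (an (beq s5 s5') (an (beq tg tg') (beq D D')))))
      (fun o _ => rn1 H DT MT R m i ih XT S XA SA jn s4 s5 tg D s o) (land s (nat_lit 15))) (nat_lit 9999)

def ov (OV a : Nat) (f : Nat → Bool) : Bool :=
  al (sub (bt OV (add (mul a (nat_lit 16)) (nat_lit 8)) (nat_lit 255)) (bt OV (mul a (nat_lit 16)) (nat_lit 255))) fun x => f (add (bt OV (mul a (nat_lit 16)) (nat_lit 255)) x)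

def ok1 (R m jn R' a lo hi : Nat) : Bool :=
  an (an (lt lo hi) (ble hi m)) (an (orr (ble lo jn) (ble (rd R lo) (rd R' a)))
    (orr (beq hi m) (ble (rd R' (add a (nat_lit 1))) (rd R hi))))

/-- passage to another grid -/
def glq (R m jn XT S R' m' jn' X' S' OV : Nat) : Bool :=
  an (an (ble (rd R' jn') (rd R jn)) (an (ble jn m) (ble jn' m')))
  (an (al m' fun a => ok1 R m jn R' a (bt OV (mul a (nat_lit 16)) (nat_lit 255)) (bt OV (add (mul a (nat_lit 16)) (nat_lit 8)) (nat_lit 255)))
  (an (al (nat_lit 16) fun a => al (nat_lit 16) fun b => fb (xe X' (add (mul a (nat_lit 32)) (nat_lit 1)) b) fun e => orr (ble e (nat_lit 1))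
      (an (an (lt a m') (lt b m')) (ov OV a fun x => ov OV b fun y => ble e (xe XT (add (mul x (nat_lit 32)) (nat_lit 1)) y))))
    (al (nat_lit 16) fun c => al (add c (nat_lit 1)) fun b => al (add b (nat_lit 1)) fun a => fb (sd S' a b c) fun e => orr (beq e (nat_lit 0))
      (an (lt c m') (ov OV a fun x => ov OV b fun y => ov OV c fun z => ble e (s3 S x y z))))))

theorem rnq_app {H DT MT : Tr} {XT S s4 s5 R m o c n : Nat} (k : Nat)
    (a : rnq H DT MT XT S s4 s5 R m o c n = true)
    (b : rnq H DT MT XT S s4 s5 R m (o + n) (c + n) k = true) :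
    rnq H DT MT XT S s4 s5 R m o c (n + k) = true := by
  have e : ∀ x y : Bool, an x y = true ↔ x = true ∧ y = true := by decide
  induction k with
  | zero => exact a
  | succ k ih =>
    have b := (e _ _).mp b
    refine (e _ _).mpr ⟨?_, ih b.right⟩
    simpa only [Nat.add_eq, Nat.add_assoc] using b.left

end

end Pool.Agent.MP_1037db_co.Q
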