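import Pool.Agent.MP_1037db_co.LP.SoundB
import Pool.Agent.MP_1037db_co.J.Fin8c
import Pool.Agent.MP_1037db_co.Q.Chk

section
set_option linter.unusedSectionVars false

/-! Groups of robots at several known points; invariants of the sleeping points. -/

namespace Pool.Agent.MP_1037db_co.LP

section
variable {α : Type} [DecidableEq α] {D : α → α → ℝ} {a a' : ℕ → α} {f f' : ℕ → ℕ} {T T' : ℕ → ℝ}
  {S : Finset α} {k u w l : ℕ} {p : α} {V : ℝ}

theorem WK.zero (h : WK D 0 p S V) : S = ∅ := by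
  obtain ⟨-, L, h1, h2, -⟩ := h
  obtain rfl : L = [] := List.length_eq_zero_iff.1 (by omega)
  exact Finset.val_eq_zero.1 (by simpa using h2.symm)

/-- one robot for every point -/
theorem WK.card (h : S.card ≤ k) (h0 : 0 ≤ V) (hD : ∀ s ∈ S, D p s ≤ V) : WK D k p S V := by
  refine ⟨h0, S.toList.map fun s => .node s .nil .nil, by simpa using h, ?_, fun t ht => ?_⟩
  · rw [List.map_map, ← S.coe_toList]
    induction S.toList with
    | nil => rfl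
    | cons x L ih => simp [labels, ih]
  · obtain ⟨s, hs, rfl⟩ := List.mem_map.1 ht
    simpa [sp] using hD s (Finset.mem_toList.1 hs)

/-- `f u` robots at `a u` with the time `T u` wake `S` -/
def MW (D : α → α → ℝ) (a : ℕ → α) (f : ℕ → ℕ) (T : ℕ → ℝ) (S : Finset α) : Prop :=
  ∃ o : α → ℕ, ∀ u, S.filter (o · = u) = ∅ ∨ WK D (f u) (a u) (S.filter (o · = u)) (T u)

theorem MW.empty : MW D a f T ∅ := ⟨fun _ => 0, fun _ => .inl rfl⟩

theorem MW.mono (h : MW D a' f' T' S) (hf : ∀ u, f' u ≤ f u)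
    (hT : ∀ u, 0 < f' u → a' u = a u ∧ T' u ≤ T u) : MW D a f T S := by
  obtain ⟨o, h⟩ := h
  refine ⟨o, fun u => (h u).elim .inl fun g => ?_⟩
  rcases Nat.eq_zero_or_pos (f' u) with c | c
  · exact .inl (c ▸ g).zero
  · exact .inr ((hT u c).1 ▸ g.mono (hf u) (hT u c).2)

theorem MW.one (h : MW D a f T S) (hf : ∀ v, v ≠ u → f v = 0) (h0 : 0 ≤ T u) :
    WK D (f u) (a u) S (T u) := by
  obtain ⟨o, h⟩ := h
  have e : S.filter (o · = u) = S := Finset.filter_true_of_mem fun s hs => by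
    by_contra c
    have : S.filter (o · = o s) = ∅ := (h (o s)).elim id fun g => (hf _ c ▸ g).zero
    exact Finset.notMem_empty s (this ▸ Finset.mem_filter.2 ⟨hs, rfl⟩)
  have := h u
  rw [e] at this
  exact this.elim (fun c => c ▸ WK.empty h0) id

theorem MW.none (h : MW D a f T S) (hf : ∀ v, f v = 0) : S = ∅ := by
  obtain ⟨o, h⟩ := h
  refine Finset.eq_empty_of_forall_notMem fun s hs => ?_
  have : S.filter (o · = o s) = ∅ := (h (o s)).elim id fun g => (hf _ ▸ g).zero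
  exact Finset.notMem_empty s (this ▸ Finset.mem_filter.2 ⟨hs, rfl⟩)

/-- `k` robots at `a u` wake the points with the property `P` -/
theorem MW.use (P : α → Prop) (h1 : ∀ S' : Finset α, (∀ s ∈ S', s ∈ S ∧ P s) → WK D k (a u) S' (T u))
    (h2 : ∀ S' : Finset α, (∀ s, s ∈ S' ↔ s ∈ S ∧ ¬ P s) → MW D a f' T S') (hu : f' u + k ≤ f u)
    (hf : ∀ v, f' v ≤ f v) : MW D a f T S := by
  classical
  obtain ⟨o, h⟩ := h2 (S.filter fun s => ¬ P s) fun s => Finset.mem_filter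
  refine ⟨fun s => if P s then u else o s, fun v => ?_⟩
  by_cases c : v = u
  · subst c
    have g := h1 (S.filter P) fun s => Finset.mem_filter.1
    refine .inr ((WK.split P (k := k) (l := f' v) ?_ ?_).mono (by omega) le_rfl)
    · convert g using 1
      ext s
      by_cases e : P s <;> simp [e]
    · have e : (S.filter fun s => (if P s then v else o s) = v).filter (fun s => ¬ P s) =
          (S.filter fun s => ¬ P s).filter (o · = v) := by
        ext s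
        by_cases e : P s <;> simp [e]
      rw [e]
      exact (h v).elim (fun c => c ▸ WK.empty g.1) id
  · have e : (S.filter fun s => (if P s then u else o s) = v) =
        (S.filter fun s => ¬ P s).filter (o · = v) := by
      ext s
      by_cases e : P s <;> simp [e, Ne.symm c]
    rw [e]
    exact (h v).imp_right fun g => g.mono (hf v) le_rfl

/-- `l + 1` robots go from `a u` to the sleeping point `a w` -/
theorem MW.move (hD : Met D) (hw : a w ∈ S) (huw : u ≠ w) (h : MW D a f' T' (S.erase (a w)))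
    (h1 : f' w ≤ l + 2) (h2 : f' u + (l + 1) ≤ f u) (hf : ∀ v, v ≠ w → f' v ≤ f v)
    (hT : ∀ v, v ≠ w → T' v ≤ T v) (h0 : 0 ≤ T' w) (hd : D (a u) (a w) + T' w ≤ T u) :
    MW D a f T S := by
  obtain ⟨o, h⟩ := h
  have t0 : 0 ≤ T u := by linarith [hD.nn (a u) (a w)]
  refine ⟨fun s => if s = a w ∨ o s = w then u else o s, fun v => ?_⟩
  by_cases c : v = u
  · subst c
    refine .inr ((WK.split (fun s => s = a w ∨ o s = w) (k := l + 1) (l := f' v) ?_ ?_).mono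
      (by omega) le_rfl)
    · refine WK.step hD (q := a w) (by simp [hw]) (T' := T' w) ?_ hd
      have e : ((S.filter fun s => (if s = a w ∨ o s = w then v else o s) = v).filter
          fun s => s = a w ∨ o s = w).erase (a w) = (S.erase (a w)).filter (o · = w) := by
        ext s
        by_cases e : s = a w <;> by_cases g : o s = w <;> simp [e, g]
      rw [e]
      exact (h w).elim (fun c => c ▸ WK.empty h0) fun g => g.mono h1 le_rfl
    · have e : ((S.filter fun s => (if s = a w ∨ o s = w then v else o s) = v).filter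
          fun s => ¬ (s = a w ∨ o s = w)) = (S.erase (a w)).filter (o · = v) := by
        ext s
        by_cases e : s = a w <;> by_cases g : o s = w <;> simp [e, g, huw.symm]
      rw [e]
      exact (h v).elim (fun c => c ▸ WK.empty t0) fun g => g.mono le_rfl (hT v huw)
  · by_cases c' : v = w
    · refine .inl (Finset.filter_eq_empty_iff.2 fun s _ => ?_)
      beta_reduce
      split_ifs with e
      · exact Ne.symm c
      · exact fun g => e (.inr (g.trans c'))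
    · have e : (S.filter fun s => (if s = a w ∨ o s = w then u else o s) = v) =
          (S.erase (a w)).filter (o · = v) := by
        ext s
        by_cases e : s = a w <;> by_cases g : o s = w <;> simp [e, g, Ne.symm c, Ne.symm c']
      rw [e]
      exact (h v).imp_right fun g => g.mono (hf v c') (hT v c')

end

noncomputable section

variable [G : Geo] {α : Type} {E : Env α} {t : α → ℝ} {p q s : α} {c d e : ℤ} {S : Finset α}
  {a b f j m jn K c1 c2 xL xR xI xO : ℕ}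

theorem Env.At.add (h : E.At t c j p) (k : ℤ) : E.At (fun s => t s + k) (c + k) j p :=
  ⟨by push_cast; linarith [h.a], by push_cast; linarith [h.b], h.lo, h.hi⟩

theorem Env.At.neg (h : E.At t c j p) : E.At (fun s => -t s) (-c - 1) j p :=
  ⟨by push_cast; linarith [h.b], by push_cast; linarith [h.a], h.lo, h.hi⟩

theorem Env.At.of_eq {t' : α → ℝ} {z : ℤ} (h : E.At t c j p) (e : t' p = t p + 120 * z) :
    E.At t' (c + 120 * z) j p :=
  ⟨by push_cast; linarith [h.a], by push_cast; linarith [h.b], h.lo, h.hi⟩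

theorem Env.Ch.sh (h : E.Ch t) (z : α → ℤ) : E.Ch fun s => t s + 120 * z s :=
  h.per fun s => ⟨z s, rfl⟩

/-- use of a node for points that lie in its region up to full turns -/
theorem Env.Go.box {A B w0 w1 w2 w3 : ℝ} (h : E.Go K j c1 c2 xL xR xI xO A B w0 w1 w2 w3)
    (ht : E.Ch t) (hp : E.At t c j p) (hS : p ∉ S)
    (H : ∀ s ∈ S, ∃ z : ℤ, c + A ≤ t s + 120 * z ∧ t s + 120 * z ≤ c + B ∧ E.r c1 ≤ E.ρ s ∧
      E.ρ s ≤ E.r c2 ∧ (xL = 1 → t p ≤ t s + 120 * z) ∧ (xR = 1 → t s + 120 * z ≤ t p) ∧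
      (xI = 1 → E.ρ p ≤ E.ρ s) ∧ (xO = 1 → E.ρ s ≤ E.ρ p)) :
    WK E.D (K + 1) p S (bil w0 w1 w2 w3 (t p - c) (E.fr j p)) := by
  classical
  choose! z H using H
  have := h _ (ht.sh fun s => if s = p then 0 else z s) c p S
    ⟨by simpa using hp.a, by simpa using hp.b, hp.lo, hp.hi⟩ hS fun s hs => by
      have e : s ≠ p := fun e => hS (e ▸ hs)
      obtain ⟨h1, h2, h3, h4, h5, h6, h7, h8⟩ := H s hs
      refine ⟨⟨?_, ?_, h3, h4⟩, ?_, ?_, h7, h8⟩ <;> simpa [e]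
  simpa using this

/-- the columns of `k` points are spread out -/
def Env.Win (E : Env α) (k w : ℕ) : Prop := ∀ t, E.Ch t → ∀ (p : Fin k → α) (c : Fin k → ℤ),
  Function.Injective p → (∀ i, c i ≤ t (p i) ∧ t (p i) ≤ c i + 1) → ∃ i j, (w : ℤ) ≤ c j - c i

def sp3 (c d e : ℤ) : ℤ := max c (max d e) - min c (min d e)

/-- what is known about the points -/
structure Env.IV (E : Env α) (m jn : ℕ) (X : ℕ → ℕ → ℕ) (Y : ℕ → ℕ → ℕ → ℕ) (w4 w5 : ℕ) : Prop where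
  rows : ∀ p, E.r jn ≤ E.ρ p ∧ E.ρ p ≤ E.r m
  pair : ∀ t, E.Ch t → ∀ p q, p ≠ q → ∀ (c d : ℤ), ∀ a < m, ∀ b < m, E.At t c a p → E.At t d b q →
    X a b ≤ fz (d - c)
  tri : ∀ t, E.Ch t → ∀ p q s, p ≠ q → p ≠ s → q ≠ s → ∀ (c d e : ℤ), ∀ a < m, ∀ b < m, ∀ f < m,
    E.At t c a p → E.At t d b q → E.At t e f s → Y a b f ≤ sp3 c d e
  w4 : E.Win 4 w4
  w5 : E.Win 5 w5

variable {X X' : ℕ → ℕ → ℕ} {Y Y' : ℕ → ℕ → ℕ → ℕ} {w4 w5 k w : ℕ}

theorem Env.Win.zero (E : Env α) (k : ℕ) : E.Win (k + 1) 0 := fun _ _ _ _ _ _ => ⟨0, 0, by simp⟩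

theorem Env.IV.init (h0 : E.r 0 = 0) (h : ∀ p, E.ρ p ≤ E.r m) :
    E.IV m 0 (fun _ _ => 0) (fun _ _ _ => 0) 0 0 :=
  ⟨fun p => ⟨h0 ▸ E.nn p, h p⟩, fun _ _ _ _ _ _ _ _ _ _ _ _ _ => Nat.zero_le _,
    fun _ _ _ _ _ _ _ _ c d e _ _ _ _ _ _ _ _ _ => by unfold sp3; omega, .zero E 3, .zero E 4⟩

theorem Env.IV.mono {jn' w4' w5' : ℕ} (h : E.IV m jn X Y w4 w5) (hj : jn' ≤ jn)
    (hX : ∀ a < m, ∀ b < m, X' a b ≤ X a b) (hY : ∀ a < m, ∀ b < m, ∀ f < m, Y' a b f ≤ Y a b f)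
    (h4 : w4' ≤ w4) (h5 : w5' ≤ w5) : E.IV m jn' X' Y' w4' w5' :=
  ⟨fun p => ⟨(E.mono.monotone hj).trans (h.rows p).1, (h.rows p).2⟩,
    fun t ht p q n c d a ha b hb u v => (hX a ha b hb).trans (h.pair t ht p q n c d a ha b hb u v),
    fun t ht p q s n1 n2 n3 c d e a ha b hb f hf u v w => (Int.ofNat_le.2 (hY a ha b hb f hf)).trans
      (h.tri t ht p q s n1 n2 n3 c d e a ha b hb f hf u v w),
    fun t ht p c i g => (h.w4 t ht p c i g).imp fun _ => .imp fun _ x => (Int.ofNat_le.2 h4).trans x,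
    fun t ht p c i g => (h.w5 t ht p c i g).imp fun _ => .imp fun _ x => (Int.ofNat_le.2 h5).trans x⟩

/-- triples up to full turns -/
theorem Env.IV.tri' (h : E.IV m jn X Y w4 w5) (ht : E.Ch t) (n1 : p ≠ q) (n2 : p ≠ s) (n3 : q ≠ s)
    (ha : a < m) (hb : b < m) (hf : f < m) (u : E.At t c a p) (v : E.At t d b q) (w : E.At t e f s)
    (x y z : ℤ) : Y a b f ≤ sp3 (c + 120 * x) (d + 120 * y) (e + 120 * z) := by
  classical
  exact h.tri _ (ht.sh fun r => if r = p then x else if r = q then y else z) p q s n1 n2 n3 _ _ _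
    a ha b hb f hf (u.of_eq (by simp)) (v.of_eq (by simp [n1.symm])) (w.of_eq (by simp [n2.symm, n3.symm]))

theorem Env.Win.per (h : E.Win k w) (ht : E.Ch t) {p : Fin k → α} {c : Fin k → ℤ}
    (hp : Function.Injective p) (hc : ∀ i, ∃ z : ℤ, c i ≤ t (p i) + 120 * z ∧ t (p i) + 120 * z ≤ c i + 1) :
    ∃ i j, (w : ℤ) ≤ c j - c i := by
  choose z hc using hc
  exact h _ (ht.sh (Function.extend p z 0)) p c hp fun i => by simpa only [hp.extend_apply] using hc i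

/-- few points in a short window -/
theorem Env.Win.card (h : E.Win k w) (ht : E.Ch t)
    (H : ∀ s ∈ S, ∃ d z : ℤ, c ≤ d ∧ d < c + w ∧ d ≤ t s + 120 * z ∧ t s + 120 * z ≤ d + 1) :
    S.card < k := by
  refine not_le.1 fun g => ?_
  choose! d z H using H
  obtain ⟨S', h1, h2⟩ := Finset.exists_subset_card_eq g
  let p : Fin k → α := fun i => (S'.equivFinOfCardEq h2).symm i
  have hp : ∀ i, p i ∈ S := fun i => h1 ((S'.equivFinOfCardEq h2).symm i).2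
  obtain ⟨i, j, e⟩ := h.per ht (p := p) (c := fun i => d (p i))
    (Subtype.val_injective.comp (Equiv.injective _)) fun i => ⟨z (p i), (H _ (hp i)).2.2⟩
  have := H _ (hp i)
  have := H _ (hp j)
  omega

theorem Env.IV.win3 (h : E.IV m jn X Y w4 w5) (hj : jn < m)
    (hw : ∀ a b f, jn ≤ a → a < m → jn ≤ b → b < m → jn ≤ f → f < m → w ≤ Y a b f) : E.Win 3 w := by
  intro t ht p c hp hc
  choose j j1 j2 j3 j4 using fun i => exists_cell E.r hj (h.rows (p i)).1 (h.rows (p i)).2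
  have g := fun i => (⟨(hc i).1, (hc i).2, j3 i, j4 i⟩ : E.At t (c i) (j i) (p i))
  have a := h.tri t ht _ _ _ (hp.ne (by decide : (0 : Fin 3) ≠ 1)) (hp.ne (by decide : (0 : Fin 3) ≠ 2))
    (hp.ne (by decide : (1 : Fin 3) ≠ 2)) _ _ _ _ (j2 0) _ (j2 1) _ (j2 2) (g 0) (g 1) (g 2)
  have b := hw _ _ _ (j1 0) (j2 0) (j1 1) (j2 1) (j1 2) (j2 2)
  by_contra n
  push Not at n
  have := n 0 1; have := n 0 2; have := n 1 0; have := n 1 2; have := n 2 0; have := n 2 1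
  have := n 0 0
  unfold sp3 at a
  omega

/-- a pair can be turned and reflected -/
theorem Env.Ch.two (ht : E.Ch t) (n : p ≠ q) (u : E.At t c a p) (v : E.At t d b q) (c0 : ℤ) :
    ∃ t', E.Ch t' ∧ E.At t' c0 a p ∧ E.At t' (c0 + fz (d - c)) b q := by
  classical
  have key : ∀ t c d (z : ℤ), E.Ch t → E.At t c a p → E.At t d b q → ∀ e, d + 120 * z - c = e →
      ∃ t', E.Ch t' ∧ E.At t' c0 a p ∧ E.At t' (c0 + e) b q := fun t c d z ht u v e he => by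
    have h1 := (u.of_eq (t' := fun r => t r + 120 * ((if r = p then 0 else z : ℤ) : ℝ)) (z := 0)
      (by simp)).add (c0 - c)
    have h2 := (v.of_eq (t' := fun r => t r + 120 * ((if r = p then 0 else z : ℤ) : ℝ)) (z := z)
      (by simp [n.symm])).add (c0 - c)
    rw [show c + 120 * 0 + (c0 - c) = c0 by ring] at h1
    rw [show d + 120 * z + (c0 - c) = c0 + e by omega] at h2
    exact ⟨_, (ht.sh _).add _, h1, h2⟩
  rcases le_total ((d - c) % 120) 60 with h | h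
  · exact key t c d (-((d - c) / 120)) ht u v _ (by unfold fz; omega)
  · exact key _ _ _ ((d - c) / 120 + 1) ht.neg u.neg v.neg _ (by unfold fz; omega)

theorem fz_neg (n : ℤ) : fz (-n) = fz n := by unfold fz; omega

/-- one more excluded distance for a pair of rows -/
theorem Env.IV.xup (h : E.IV m jn X Y w4 w5) {e : ℕ} (c0 : ℤ)
    (hw : ∀ t, E.Ch t → ∀ p q, p ≠ q → E.At t c0 a p → E.At t (c0 + e) b q → False)
    (hX : ∀ u < m, ∀ v < m, X' u v ≤ X u v ∨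
      (u = a ∧ v = b ∨ u = b ∧ v = a) ∧ e ≤ X u v ∧ X' u v ≤ e + 1) : E.IV m jn X' Y w4 w5 := by
  refine ⟨h.rows, fun t ht p q n c d u hu v hv x y => ?_, h.tri, h.w4, h.w5⟩
  have g := h.pair t ht p q n c d u hu v hv x y
  rcases hX u hu v hv with k | ⟨k, k1, k2⟩
  · exact k.trans g
  refine k2.trans (Nat.succ_le_of_lt (lt_of_le_of_ne (k1.trans g) fun z => ?_))
  rcases k with ⟨rfl, rfl⟩ | ⟨rfl, rfl⟩
  · obtain ⟨t', h1, h2, h3⟩ := ht.two n x y c0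
    exact hw t' h1 p q n h2 (z ▸ h3)
  · obtain ⟨t', h1, h2, h3⟩ := ht.two n.symm y x c0
    rw [← neg_sub, fz_neg] at h3
    exact hw t' h1 q p n.symm h2 (z ▸ h3)

/-- the last step: a special pair cannot exist -/
theorem Env.IV.fin (h : E.IV m jn X Y w4 w5) (hj : jn < m) (ht : E.Ch t) (n : p ≠ q) (c0 : ℤ) :
    ∃ t' a b, ∃ e : ℕ, E.Ch t' ∧ jn ≤ a ∧ a < m ∧ jn ≤ b ∧ b < m ∧ e ≤ 60 ∧ X a b ≤ e ∧
      E.At t' c0 a p ∧ E.At t' (c0 + e) b q := by
  obtain ⟨a, a1, a2, a3, a4⟩ := exists_cell E.r hj (h.rows p).1 (h.rows p).2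
  obtain ⟨b, b1, b2, b3, b4⟩ := exists_cell E.r hj (h.rows q).1 (h.rows q).2
  have u : E.At t ⌊t p⌋ a p := ⟨Int.floor_le _, (Int.lt_floor_add_one _).le, a3, a4⟩
  have v : E.At t ⌊t q⌋ b q := ⟨Int.floor_le _, (Int.lt_floor_add_one _).le, b3, b4⟩
  obtain ⟨t', h1, h2, h3⟩ := ht.two n u v c0
  exact ⟨t', a, b, _, h1, a1, a2, b1, b2, fz_le _, h.pair t ht p q n _ _ a a2 b b2 u v, h2, h3⟩

/-- the lowest row is empty -/
theorem Env.IV.near [Fintype α] (h : E.IV m jn X Y w4 w5) (ht : E.Ch t) (c0 : ℤ)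
    (hw : ∀ t, E.Ch t → ∀ p, (∀ s, E.ρ p ≤ E.ρ s) → E.At t c0 jn p → False) :
    E.IV m (jn + 1) X Y w4 w5 := by
  refine ⟨fun s => ⟨not_lt.1 fun g => ?_, (h.rows s).2⟩, h.pair, h.tri, h.w4, h.w5⟩
  obtain ⟨p, -, hp⟩ := Finset.univ.exists_min_image E.ρ ⟨s, Finset.mem_univ s⟩
  have u : E.At t ⌊t p⌋ jn p := ⟨Int.floor_le _, (Int.lt_floor_add_one _).le, (h.rows p).1,
    (hp s (Finset.mem_univ s)).trans g.le⟩
  have := u.add (c0 - ⌊t p⌋)
  rw [add_sub_cancel] at this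
  exact hw _ (ht.add _) p (fun s => hp s (Finset.mem_univ s)) this

/-- no sorted triple with outer rows `a`, `b`, middle row `f`, outer columns `c0`, `c0 + w` and
middle column `c0 + k` -/
def Env.NT (E : Env α) (c0 : ℤ) (a b f w k : ℕ) : Prop := ∀ t, E.Ch t → ∀ p q s, p ≠ q → p ≠ s →
  q ≠ s → E.At t c0 a p → E.At t (c0 + w) b q → E.At t (c0 + k) f s → t p ≤ t s → t s ≤ t q → False

theorem Env.NT.mir {c0 : ℤ} (h : E.NT c0 a b f w k) (hk : k ≤ w) : E.NT c0 b a f w (w - k) := by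
  intro t ht p q s n1 n2 n3 u v x o1 o2
  have u' := u.neg.add (2 * c0 + w + 1)
  have v' := v.neg.add (2 * c0 + w + 1)
  have x' := x.neg.add (2 * c0 + w + 1)
  rw [show -c0 - 1 + (2 * c0 + w + 1) = c0 + w by ring] at u'
  rw [show -(c0 + w) - 1 + (2 * c0 + w + 1) = c0 by ring] at v'
  rw [show -(c0 + (w - k : ℕ)) - 1 + (2 * c0 + w + 1) = c0 + k by omega] at x'
  exact h _ (ht.neg.add _) q p s n1.symm n3 n2 v' u' x' (by linarith) (by linarith)

/-- all middle columns -/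
def Env.NA (E : Env α) (c0 : ℤ) (a b f w : ℕ) : Prop := ∀ k ≤ w, E.NT c0 a b f w k

theorem Env.NA.mir {c0 : ℤ} (h : E.NA c0 a b f w) : E.NA c0 b a f w := fun k hk => by
  simpa only [Nat.sub_sub_self hk] using (h (w - k) (Nat.sub_le _ _)).mir (Nat.sub_le _ _)

theorem Env.NA.half {c0 : ℤ} (h : ∀ k, 2 * k ≤ w → E.NT c0 a a f w k) : E.NA c0 a a f w := fun k hk => by
  rcases le_total (2 * k) w with c | c
  · exact h k c
  · simpa only [Nat.sub_sub_self hk] using (h (w - k) (by omega)).mir (Nat.sub_le _ _)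

theorem col_le {x y : ℝ} (h1 : c ≤ x) (h2 : y ≤ d + 1) (h : x < y) : c ≤ d :=
  Int.lt_add_one_iff.1 (by exact_mod_cast h1.trans_lt (h.trans_le h2))

theorem Env.NA.no {c0 : ℤ} (h : E.NA c0 a b f w) (ht : E.Ch t) (n1 : p ≠ q) (n2 : p ≠ s) (n3 : q ≠ s)
    (u : E.At t c a p) (v : E.At t d b q) (x : E.At t e f s) (o1 : t p ≤ t s) (o2 : t s ≤ t q)
    (k1 : c ≤ e) (k2 : e ≤ d) (z : sp3 c d e = w) : False := by
  unfold sp3 at z
  have u' := u.add (c0 - c)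
  have v' := v.add (c0 - c)
  have x' := x.add (c0 - c)
  rw [add_sub_cancel] at u'
  rw [show d + (c0 - c) = c0 + w by omega] at v'
  rw [show e + (c0 - c) = c0 + (e - c).toNat by omega] at x'
  exact h _ (by omega) _ (ht.add _) p q s n1 n2 n3 u' v' x' (by linarith) (by linarith)

theorem Env.At.cmp (u : E.At t c a p) (v : E.At t d b q) : t p ≤ t q ∧ c ≤ d ∨ t q ≤ t p ∧ d ≤ c := by
  rcases lt_trichotomy (t p) (t q) with g | g | g
  · exact .inl ⟨g.le, col_le u.a v.b g⟩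
  · exact (le_total c d).imp (fun x => ⟨g.le, x⟩) fun x => ⟨g.ge, x⟩
  · exact .inr ⟨g.le, col_le v.a u.b g⟩

theorem Env.NA.all {c0 : ℤ} (h1 : E.NA c0 a b f w) (h2 : E.NA c0 a f b w) (h3 : E.NA c0 b f a w)
    (ht : E.Ch t) (n1 : p ≠ q) (n2 : p ≠ s) (n3 : q ≠ s) (u : E.At t c a p) (v : E.At t d b q)
    (x : E.At t e f s) : sp3 c d e ≠ w := fun z => by
  have z' : ∀ {c' d' e' : ℤ}, max c' (max d' e') = max c (max d e) → min c' (min d' e') = min c (min d e) →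
      sp3 c' d' e' = w := fun a b => by rw [← z, sp3, sp3, a, b]
  rcases u.cmp v with ⟨a1, a2⟩ | ⟨a1, a2⟩ <;> rcases u.cmp x with ⟨b1, b2⟩ | ⟨b1, b2⟩ <;>
    rcases v.cmp x with ⟨d1, d2⟩ | ⟨d1, d2⟩
  · exact h2.no ht n2 n1 n3.symm u x v a1 d1 a2 d2 (z' (by omega) (by omega))
  · exact h1.no ht n1 n2 n3 u v x b1 d1 b2 d2 z
  · exact h1.no ht n1 n2 n3 u v x (a1.trans d1) (b1.trans a1) (by omega) (by omega) z
  · exact h3.mir.no ht n3.symm n2.symm n1.symm x v u b1 a1 b2 a2 (z' (by omega) (by omega))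
  · exact h3.no ht n3 n1.symm n2.symm v x u a1 b1 a2 b2 (z' (by omega) (by omega))
  · exact h1.no ht n1 n2 n3 u v x b1 d1 b2 d2 z
  · exact h1.mir.no ht n1.symm n3 n2 v u x d1 b1 d2 b2 (z' (by omega) (by omega))
  · exact h2.mir.no ht n2.symm n3.symm n1 x u v d1 a1 d2 a2 (z' (by omega) (by omega))

/-- one more excluded span for a triple of rows -/
theorem Env.IV.sup (h : E.IV m jn X Y w4 w5) (c0 : ℤ) (h1 : E.NA c0 a b f w) (h2 : E.NA c0 a f b w)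
    (h3 : E.NA c0 b f a w) (hY : ∀ u < m, ∀ v < m, ∀ x < m, Y' u v x ≤ Y u v x ∨
      (u = a ∧ v = b ∧ x = f ∨ u = a ∧ v = f ∧ x = b ∨ u = b ∧ v = a ∧ x = f ∨ u = b ∧ v = f ∧ x = a ∨
        u = f ∧ v = a ∧ x = b ∨ u = f ∧ v = b ∧ x = a) ∧ w ≤ Y u v x ∧ Y' u v x ≤ w + 1) :
    E.IV m jn X Y' w4 w5 := by
  refine ⟨h.rows, h.pair, fun t ht p q s n1 n2 n3 c d e u hu v hv x hx i j k => ?_, h.w4, h.w5⟩
  have g := h.tri t ht p q s n1 n2 n3 c d e u hu v hv x hx i j k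
  rcases hY u hu v hv x hx with y | ⟨y, y1, y2⟩
  · exact (Int.ofNat_le.2 y).trans g
  suffices sp3 c d e ≠ w by omega
  rcases y with ⟨rfl, rfl, rfl⟩ | ⟨rfl, rfl, rfl⟩ | ⟨rfl, rfl, rfl⟩ | ⟨rfl, rfl, rfl⟩ |
    ⟨rfl, rfl, rfl⟩ | ⟨rfl, rfl, rfl⟩
  · exact h1.all h2 h3 ht n1 n2 n3 i j k
  · exact h2.all h1 h3.mir ht n1 n2 n3 i j k
  · exact h1.mir.all h3 h2 ht n1 n2 n3 i j k
  · exact h3.all h1.mir h2.mir ht n1 n2 n3 i j k
  · exact h2.mir.all h3.mir h1 ht n1 n2 n3 i j k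
  · exact h3.mir.all h2.mir h1.mir ht n1 n2 n3 i j k

/-- no sorted tuple with the given columns and rows -/
def Env.NK (E : Env α) (c0 : ℤ) (k : ℕ) (c j : Fin k → ℕ) : Prop := ∀ t, E.Ch t → ∀ p : Fin k → α,
  Function.Injective p → (∀ i, E.At t (c0 + c i) (j i) (p i)) → Monotone (fun i => t (p i)) → False

theorem Env.NK.mir {c0 : ℤ} {c j : Fin k → ℕ} (hc : ∀ i, c i ≤ w)
    (h : E.NK c0 k (fun i => w - c i.rev) fun i => j i.rev) : E.NK c0 k c j := by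
  intro t ht p hp u o
  refine h _ (ht.neg.add (2 * c0 + w + 1)) (fun i => p i.rev) (hp.comp Fin.rev_injective)
    (fun i => ?_) fun i i' g => ?_
  · have := (u i.rev).neg.add (2 * c0 + w + 1)
    have := hc i.rev
    rwa [show -(c0 + c i.rev) - 1 + (2 * c0 + w + 1) = c0 + (w - c i.rev : ℕ) by omega] at *
  · linarith [o (Fin.rev_le_rev.2 g)]

/-- one more excluded span for tuples -/
theorem Env.Win.up (h : E.Win (k + 1) w) (hj : jn < m) (hr : ∀ p, E.r jn ≤ E.ρ p ∧ E.ρ p ≤ E.r m) (c0 : ℤ)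
    (hw : ∀ c j : Fin (k + 1) → ℕ, Monotone c → c 0 = 0 → c (Fin.last k) = w →
      (∀ i, jn ≤ j i ∧ j i < m) → E.NK c0 (k + 1) c j) : E.Win (k + 1) (w + 1) := by
  intro t ht p c hp hc
  by_contra n
  push Not at n
  obtain ⟨i0, j0, g⟩ := h t ht p c hp hc
  let σ := Tuple.sort fun i => toLex (t (p i), c i)
  have hσ : Monotone ((fun i => toLex (t (p i), c i)) ∘ σ) := Tuple.monotone_sort _
  have o : ∀ i j, i ≤ j → t (p (σ i)) ≤ t (p (σ j)) ∧ c (σ i) ≤ c (σ j) := fun i j x => by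
    rcases Prod.Lex.toLex_le_toLex.1 (hσ x) with y | ⟨y, z⟩
    · exact ⟨y.le, col_le (hc _).1 (hc _).2 y⟩
    · exact ⟨y.le, z⟩
  choose j j1 j2 j3 j4 using fun i => exists_cell E.r hj (hr (p (σ i))).1 (hr (p (σ i))).2
  have a := (o 0 (σ.symm i0) (Fin.zero_le _)).2
  have b := (o (σ.symm j0) (Fin.last k) (Fin.le_last _)).2
  rw [σ.apply_symm_apply] at a b
  have d := n (σ 0) (σ (Fin.last k))
  refine hw (fun i => (c (σ i) - c (σ 0)).toNat) j (fun i i' x => ?_) (by simp) (by omega)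
    (fun i => ⟨j1 i, j2 i⟩) _ (ht.add (c0 - c (σ 0))) (fun i => p (σ i)) (hp.comp σ.injective)
    (fun i => ?_) fun i i' x => add_le_add_left (o i i' x).1 _
  · exact Int.toNat_le_toNat (sub_le_sub_right (o i i' x).2 _)
  · have := (o 0 i (Fin.zero_le _)).2
    have e := Env.At.add (⟨(hc _).1, (hc _).2, j3 i, j4 i⟩ : E.At t (c (σ i)) (j i) (p (σ i))) (c0 - c (σ 0))
    rwa [show c (σ i) + (c0 - c (σ 0)) = c0 + (c (σ i) - c (σ 0)).toNat by omega] at e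

/-- passage to another grid -/
theorem Env.IV.re (h : E.IV m jn X Y w4 w5) {E' : Env α} (hρ : E'.ρ = E.ρ) (hM : E'.M = E.M)
    {m' jn' : ℕ} (lo hi : ℕ → ℕ) (P : ℕ → Prop) (h1 : E'.r jn' ≤ E.r jn) (h2 : E.r m ≤ E'.r m')
    (hP : ∀ u, P u → lo u < hi u ∧ hi u ≤ m ∧ (E.r (lo u) ≤ E'.r u ∨ lo u ≤ jn) ∧
      (E'.r (u + 1) ≤ E.r (hi u) ∨ hi u = m))
    (hX : ∀ u < m', ∀ v < m', X' u v = 0 ∨ P u ∧ P v ∧
      ∀ a b, lo u ≤ a → a < hi u → lo v ≤ b → b < hi v → X' u v ≤ X a b)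
    (hY : ∀ u < m', ∀ v < m', ∀ x < m', Y' u v x = 0 ∨ P u ∧ P v ∧ P x ∧ ∀ a b f, lo u ≤ a → a < hi u →
      lo v ≤ b → b < hi v → lo x ≤ f → f < hi x → Y' u v x ≤ Y a b f) : E'.IV m' jn' X' Y' w4 w5 := by
  have ch : ∀ t, E'.Ch t → E.Ch t := fun t ht p q => by rw [← hM, ← hρ]; exact ht p q
  have cell : ∀ {t c u p}, P u → E'.At t c u p → ∃ a, lo u ≤ a ∧ a < hi u ∧ a < m ∧ E.At t c a p := by
    intro t c u p hu x
    obtain ⟨a1, a2, a3, a4⟩ := hP u hu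
    obtain ⟨a, b1, b2, b3, b4⟩ := exists_cell E.r a1 (x := E.ρ p)
      (a3.elim (fun g => g.trans (hρ ▸ x.lo)) fun g => (E.mono.monotone g).trans (h.rows p).1)
      (a4.elim (fun g => (hρ ▸ x.hi).trans g) fun g => g ▸ (h.rows p).2)
    exact ⟨a, b1, b2, b2.trans_le a2, x.a, x.b, b3, b4⟩
  refine ⟨fun p => hρ ▸ ⟨h1.trans (h.rows p).1, (h.rows p).2.trans h2⟩,
    fun t ht p q n c d u hu v hv x y => ?_,
    fun t ht p q s n1 n2 n3 c d e u hu v hv x hx i j k => ?_,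
    fun t ht => h.w4 t (ch t ht), fun t ht => h.w5 t (ch t ht)⟩
  · rcases hX u hu v hv with g | ⟨g1, g2, g⟩
    · exact g ▸ Nat.zero_le _
    obtain ⟨a, a1, a2, a3, a4⟩ := cell g1 x
    obtain ⟨b, b1, b2, b3, b4⟩ := cell g2 y
    exact (g a b a1 a2 b1 b2).trans (h.pair t (ch t ht) p q n c d a a3 b b3 a4 b4)
  · rcases hY u hu v hv x hx with g | ⟨g1, g2, g3, g⟩
    · rw [g]
      unfold sp3
      omega
    obtain ⟨a, a1, a2, a3, a4⟩ := cell g1 i
    obtain ⟨b, b1, b2, b3, b4⟩ := cell g2 j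
    obtain ⟨f, f1, f2, f3, f4⟩ := cell g3 k
    exact (Int.ofNat_le.2 (g a b f a1 a2 b1 b2 f1 f2)).trans
      (h.tri t (ch t ht) p q s n1 n2 n3 c d e a a3 b b3 f f3 a4 b4 f4)

end

end Pool.Agent.MP_1037db_co.LP

end

section
set_option linter.unusedSectionVars false

namespace Pool.Agent.MP_1037db_co.LP

noncomputable section

variable [G : Geo] {α : Type} {E : Env α} {t : α → ℝ} {p q s : α} {c d e : ℤ} {S : Finset α}
  {a b f j jp k m jn row XT R : ℕ} {X : ℕ → ℕ → ℕ} {Y : ℕ → ℕ → ℕ → ℕ} {w4 w5 : ℕ}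

/-- four comparisons for a pair of columns -/
def Blk (row y : ℕ) (z z' : ℝ) (v v' w w' : ℕ) : Prop :=
  bt row (y * 72) 65535 + w ≤ v ∧ (z < z' → bt row (y * 72 + 18) 65535 + w' ≤ v) ∧
    (z' < z → bt row (y * 72 + 36) 65535 + w ≤ v') ∧ bt row (y * 72 + 54) 65535 + w' ≤ v'

theorem co_mod {x y : ℤ} (h : (x - y) % 120 = 0) : co x = co y := by
  rw [← fz_co, ← fz_co y, show fz x = fz y by unfold fz; omega]

theorem co_mod' {x y : ℤ} (h : (x + y) % 120 = 0) : co x = co y := by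
  rw [← fz_co, ← fz_co y, show fz x = fz y by unfold fz; omega]

theorem Blk.rad {y v v' w w' : ℕ} {a a' b b' z z' : ℝ} {i j : ℤ} (hR : RB 1 row a a' b b')
    (hy : y < 123) (hc : (y - 1 - (j - i)) % 120 = 0) (h0 : 0 ≤ z) (h1 : z ≤ 1) (h2 : 0 ≤ z')
    (h3 : z' ≤ 1) (h : Blk row y z z' v v' w w') :
    1 * dd (a + z * (a' - a)) i (b + z' * (b' - b)) j + ((1 - z') * w + z' * w') ≤
      (1 - z) * v + z * v' := by
  obtain ⟨q0, q1, q2, q3⟩ := hR y hy i j (by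
    have := co_mod' (x := y - 1) (y := i - j) (by omega)
    push_cast at this
    exact this.le)
  obtain ⟨s0, s1, s2, s3⟩ := h
  have u : ∀ {x m n : ℕ} {d : ℝ}, d ≤ x → x + m ≤ n → d + m ≤ n := fun h1 h2 =>
    (add_le_add_left h1 _).trans (by exact_mod_cast h2)
  exact conv_r zero_le_one h0 h1 h2 h3 (u q0 s0) (u q3 s3) (fun h => u q1 (s1 h)) fun h => u q2 (s2 h)

/-- a move from `p` to `q` -/
theorem edge {v0 v1 v2 v3 w0 w1 w2 w3 : ℕ} (ht : E.Ch t) (hp : E.At t c jp p) (hq : E.At t d j q)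
    (hR : RB 1 row (E.r jp) (E.r (jp + 1)) (E.r j) (E.r (j + 1))) (hk : k ≤ 120)
    (hc : (k - (d - c)) % 120 = 0)
    (h0 : Blk row (k + 1) (E.fr jp p) (E.fr j q) v0 v2 w0 w2)
    (h1 : Blk row (k + 1) (E.fr jp p) (E.fr j q) v1 v3 w1 w3)
    (h2 : t p - c < t q - d → Blk row (k + 2) (E.fr jp p) (E.fr j q) v0 v2 w1 w3)
    (h3 : t q - d < t p - c → Blk row k (E.fr jp p) (E.fr j q) v1 v3 w0 w2) :
    E.D p q + bil w0 w1 w2 w3 (t q - d) (E.fr j q) ≤ bil v0 v1 v2 v3 (t p - c) (E.fr jp p) := by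
  have := conv_a zero_le_one hp.x0 hp.x1 hq.x0 hq.x1
    (h0.rad (i := c) (j := d) hR (by omega) (by push_cast; omega) hp.f0 hp.f1 hq.f0 hq.f1)
    (h1.rad hR (by omega) (by push_cast; omega) hp.f0 hp.f1 hq.f0 hq.f1)
    (fun h => (h2 h).rad hR (by omega) (by push_cast; omega) hp.f0 hp.f1 hq.f0 hq.f1)
    fun h => (h3 h).rad hR (by omega) (by omega) hp.f0 hp.f1 hq.f0 hq.f1
  rw [← ht.eq] at this
  unfold bil
  linarith [E.le p q]

/-- the table of excluded cells of the old nodes -/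
theorem Env.IV.xb (h : E.IV m jn X Y w4 w5) (hX : ∀ a < m, ∀ b < m,
    xe XT (a * 32 + 1) b ≤ X a b + 1 ∧ xe XT (a * 32 + 1) b ≤ 60 ∨ 61 ≤ X a b) : E.XB XT m := by
  intro a ha b hb k s hk he t ht p q n hne u v k1 k2
  obtain ⟨o1, -, o3⟩ := ko_spec (s := s) hk k1 k2
  have g := h.pair t ht p q hne _ _ a ha b hb u v
  have o : ∀ x y : ℤ, x = 120 ∨ x = 120 + 1 → y = n ∨ y = n + 1 → fz (x - y) ≤ ko k s - 1 :=
    fun x y hx hy => fz_of_co (by simpa [Nat.cast_sub o1] using o3 x y hx hy)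
  have a1 := o _ _ (.inl rfl) (.inr rfl)
  have a2 := o _ _ (.inr rfl) (.inl rfl)
  have a3 := o _ _ (.inl rfl) (.inl rfl)
  have := hX a ha b hb
  unfold fz at g a1 a2 a3
  omega

/-- the true budgets -/
structure Env.Bud (E : Env α) (C0 : ℕ) (β : α → ℝ) : Prop where
  root : ∀ a, G.lim - C0 * E.τ a / 10000 ≤ β a
  pair : ∃ p q, p ≠ q ∧ ∃ γ : ℝ, 2 * C0 ≤ γ ∧ E.D p q + γ ≤ β p ∧ ∀ a b, E.D a b ≤ γ

/-- budgets at the corners of a cell -/
theorem bil_root {x y C0 : ℕ} {z : ℝ} (hR : E.RR R m) (hP : PR R m) (hj : j < m) (hp : E.At t c j p)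
    (hx : x * 10000 + C0 * rq R j ≤ G.lim * 10000) (hy : y * 10000 + C0 * rq R (j + 1) ≤ G.lim * 10000) :
    bil x x y y z (E.fr j p) ≤ G.lim - C0 * E.τ p / 10000 := by
  have hx := (Nat.cast_le (α := ℝ)).2 hx
  have hy := (Nat.cast_le (α := ℝ)).2 hy
  push_cast at hx hy
  rw [tau_eq hR hP hj hp, bil]
  nlinarith [mul_le_mul_of_nonneg_left hx (sub_nonneg.2 hp.f1), mul_le_mul_of_nonneg_left hy hp.f0]

def Env.Goal [Fintype α] [DecidableEq α] (E : Env α) (β : α → ℝ) : Prop :=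
  ∃ a, WK E.D 2 a (Finset.univ.erase a) (β a)

end

/-- the certificates of a class of norms are valid -/
def Many2 (G : Geo) (ro C0 : ℕ) : Prop := ∀ (n : ℕ) (E : Env (Fin n)) (β : Fin n → ℝ), (∃ t, E.Ch t) →
  (∀ p, E.ρ p ≤ ro) → E.Bud C0 β → E.Goal β

theorem Many2.use {G : Geo} {ro C0 n : ℕ} (h : Many2 G ro C0) (hG : 10000 ≤ G.c0) (hn : 7 < n) (η : Seminorm ℝ (ℝ × ℝ))
    (hη : ∀ x, η x = 0 → x = 0) (p : Fin n → ℝ × ℝ) (hp : ∀ i, η (p i) ≤ 1) {c : ℝ} (hc : 0 < c)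
    (c0 : C0 ≤ c) (hL : G.lim - C0 ≤ c * Lam η) (ρ t : Fin n → ℝ)
    (h0 : ∀ i, 10000 * η (p i) ≤ ρ i) (h1 : ∀ i, ρ i ≤ ro)
    (hD : ∀ i j, c * η (p j - p i) ≤ dd (ρ i) (t i) (ρ j) (t j)) :
    ∃ T : BinaryTree (Fin n), labels T = Finset.univ.val ∧ span η p 0 T ≤ 1 + Lam η := by
  obtain ⟨a, h⟩ := h n ⟨fun i j => c * η (p j - p i), ρ, fun j => j, Nat.strictMono_cast,
    fun i => le_trans (by positivity) (h0 i), ⟨fun i j => by positivity, fun i j k => by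
      have := map_add_le_add η (p j - p i) (p k - p j)
      rw [add_comm, sub_add_sub_cancel] at this
      nlinarith⟩, fun i j => dd (ρ i) (t i) (ρ j) (t j), hD⟩
    (fun i => c * (1 + Lam η - η (p i))) ⟨t, fun _ _ => rfl⟩ h1 ⟨fun i => by
      have g : (10000 : ℝ) ≤ G.c0 := by exact_mod_cast hG
      have a : 10000 * η (p i) ≤ min (ρ i) G.c0 := le_min (h0 i) (by linarith [hp i])
      have b := C0.cast_nonneg (α := ℝ)
      unfold Env.τ
      nlinarith [mul_le_mul_of_nonneg_right c0 (sub_nonneg.2 (hp i)), mul_le_mul_of_nonneg_left a b],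
    by
      obtain ⟨i, j, ne, e⟩ := J.pair8 hη (fun i => p (Fin.castLE hn i)) fun i => hp _
      refine ⟨Fin.castLE hn i, Fin.castLE hn j, (Fin.castLE_injective hn).ne ne, 2 * c, by linarith,
        by nlinarith, fun a b => ?_⟩
      have := map_sub_le_add η (p b) (p a)
      nlinarith [hp a, hp b]⟩
  obtain ⟨l, r, L, h1, h2, h3, h4, -⟩ := WK.pair (k := 0) h
  obtain rfl : L = [] := List.length_eq_zero_iff.1 (by omega)
  refine ⟨.node a l r, ?_, ?_⟩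
  · rw [labels, show labels l + labels r = _ by simpa using h2,
      Multiset.cons_erase (Finset.mem_univ a)]
  · rw [sp_mul _ hc.le] at h3 h4
    rw [span, span_eq, span_eq, sub_zero]
    linarith [max_le (le_of_mul_le_mul_left h3 hc) (le_of_mul_le_mul_left h4 hc)]

end Pool.Agent.MP_1037db_co.LP

end

section
set_option linter.unusedSectionVars false

/-! Configurations whose first point has a known angle. -/

namespace Pool.Agent.MP_1037db_co.LP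

noncomputable section

variable [G : Geo] {α : Type} {E : Env α} {t : α → ℝ} {p q s : α} {a b f j m jn k w e w4 w5 : ℕ}
  {X X' : ℕ → ℕ → ℕ} {Y : ℕ → ℕ → ℕ → ℕ}

theorem Env.Ch.addr (h : E.Ch t) (x : ℝ) : E.Ch fun s => t s + x := fun p q => by
  rw [h]
  simp only [dd, add_sub_add_right_eq_sub]

def Env.Rw (E : Env α) (j : ℕ) (p : α) : Prop := E.r j ≤ E.ρ p ∧ E.ρ p ≤ E.r (j + 1)

theorem Env.At.rw {c : ℤ} (h : E.At t c j p) : E.Rw j p := ⟨h.lo, h.hi⟩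

theorem Env.Rw.fl (h : E.Rw j p) (t : α → ℝ) : E.At t ⌊t p⌋ j p :=
  ⟨Int.floor_le _, (Int.lt_floor_add_one _).le, h.1, h.2⟩

theorem Env.IV.row (h : E.IV m jn X Y w4 w5) (hj : jn < m) (p : α) : ∃ j, jn ≤ j ∧ j < m ∧ E.Rw j p :=
  exists_cell E.r hj (h.rows p).1 (h.rows p).2

/-- no pair with the property `Z` -/
def Env.NP (E : Env α) (Z : α → α → Prop) (a b x : ℕ) : Prop := ∀ t, E.Ch t → ∀ p q, p ≠ q → Z p q →
  t p = 120 → E.Rw a p → E.At t (120 + x) b q → False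

theorem Env.IV.xupx (h : E.IV m jn X Y w4 w5) (hw : E.NP (fun _ _ => True) a b e) (ha : a < m) (hb : b < m)
    (he : e ≤ X a b) (hX : ∀ u < m, ∀ v < m, X' u v ≤ X u v ∨
      (u = a ∧ v = b ∨ u = b ∧ v = a) ∧ e ≤ X u v ∧ X' u v ≤ e + 1) : E.IV m jn X' Y w4 w5 := by
  refine h.xup 120 (fun t ht p q n u v => ?_) hX
  have a1 := u.a
  have a2 := u.b
  have a3 := v.a
  have a4 := v.b
  push_cast at a1 a2 a3 a4
  rcases le_total (t p + e) (t q) with c | c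
  · exact hw _ (ht.addr (120 - t p)) p q n trivial (by ring) u.rw
      ⟨by push_cast; linarith, by push_cast; linarith, v.lo, v.hi⟩
  · cases e with
    | zero =>
      exact hw _ (ht.neg.addr (120 + t p)) p q n trivial (by ring) u.rw
        ⟨by push_cast at *; linarith, by push_cast at *; linarith, v.lo, v.hi⟩
    | succ e =>
      have := h.pair _ (ht.addr (-t p)) p q n 0 e a ha b hb ⟨by simp, by simp, u.lo, u.hi⟩
        ⟨by push_cast at *; linarith, by push_cast at *; linarith, v.lo, v.hi⟩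
      unfold fz at this
      omega

/-- no sorted triple -/
def Env.NE (E : Env α) (a b f w : ℕ) : Prop := ∀ t, E.Ch t → ∀ p q s, p ≠ q → p ≠ s → q ≠ s →
  t p = 120 → E.Rw a p → E.At t (120 + w) b q → E.Rw f s → 120 ≤ t s → t s ≤ t q → False

theorem fl_lt {x : ℝ} (h0 : 0 ≤ x) (h : x < w) : 0 ≤ ⌊x⌋ ∧ ⌊x⌋ < w :=
  ⟨Int.floor_nonneg.2 h0, Int.floor_lt.2 (by exact_mod_cast h)⟩

theorem Env.NE.na (g : E.NE a b f w) (h : E.IV m jn X Y w4 w5) (ha : a < m) (hb : b < m) (hf : f < m)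
    (hw : w ≤ Y a b f) : E.NA 120 a b f w := by
  intro k _ t ht p q s n1 n2 n3 u v x o1 o2
  have a1 := u.a
  have a4 := v.b
  push_cast at a1 a4
  rcases le_or_gt (t p + w) (t q) with c | c
  · exact g _ (ht.addr (120 - t p)) p q s n1 n2 n3 (by ring) u.rw
      ⟨by push_cast; linarith, by push_cast; linarith, v.lo, v.hi⟩ x.rw (by linarith) (by linarith)
  · have := h.tri _ (ht.addr (-t p)) p q s n1 n2 n3 _ _ _ a ha b hb f hf (u.rw.fl _) (v.rw.fl _) (x.rw.fl _)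
    have := fl_lt (x := t p + -t p) (w := w) (by linarith) (by linarith)
    have := fl_lt (x := t q + -t p) (w := w) (by linarith) (by linarith)
    have := fl_lt (x := t s + -t p) (w := w) (by linarith) (by linarith)
    unfold sp3 at *
    omega

/-- no sorted tuple whose second point is in column `120 + x` -/
def Env.NY (E : Env α) (k a b w x : ℕ) : Prop := ∀ t, E.Ch t → ∀ p : Fin (k + 2) → α, Function.Injective p →
  Monotone (fun i => t (p i)) → t (p 0) = 120 → E.Rw a (p 0) → E.At t (120 + w) b (p (Fin.last _)) →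
  120 + x ≤ t (p 1) → t (p 1) ≤ 120 + (x + 1 : ℕ) → False

theorem Env.Win.upx (h : E.Win (k + 2) w) (hI : E.IV m jn X Y w4 w5) (hj : jn < m)
    (hw : ∀ a b, jn ≤ a → a < m → jn ≤ b → b < m → (∀ x ≤ w, E.NY k a b w x) ∨ ∀ x ≤ w, E.NY k b a w x) :
    E.Win (k + 2) (w + 1) := by
  intro t ht p c hp hc
  by_contra n
  push Not at n
  let σ := Tuple.sort fun i => t (p i)
  have o : Monotone fun i => t (p (σ i)) := Tuple.monotone_sort fun i => t (p i)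
  have d : ((c (σ (Fin.last _)) - c (σ 0) : ℤ) : ℝ) ≤ (w : ℤ) :=
    Int.cast_le.2 (by have := n (σ 0) (σ (Fin.last _)); omega)
  have d0 := (hc (σ 0)).1
  have d1 := (hc (σ (Fin.last _))).2
  push_cast at d
  rcases le_or_gt (t (p (σ 0)) + w) (t (p (σ (Fin.last _)))) with g | g
  · have key : ∀ τ (q : Fin (k + 2) → α) a b, E.Ch τ → Function.Injective q → Monotone (fun i => τ (q i)) →
        τ (q 0) = 120 → 120 + w ≤ τ (q (Fin.last _)) → τ (q (Fin.last _)) ≤ 121 + w → E.Rw a (q 0) →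
        E.Rw b (q (Fin.last _)) → (∀ x ≤ w, E.NY k a b w x) → False := fun τ q a b h1 h2 h3 h4 h5 h6 h7 h8 h9 => by
      obtain ⟨x, -, x1, x2, x3⟩ := exists_cell (fun n => 120 + n) (x := τ (q 1)) w.succ_pos
        (by simpa [h4] using h3 (Fin.zero_le 1)) (by push_cast; linarith [h3 (Fin.le_last 1)])
      exact h9 x (by omega) τ h1 q h2 h3 h4 h7 ⟨by push_cast; linarith, by push_cast; linarith, h8.1, h8.2⟩ x2 x3
    obtain ⟨a, a1, a2, a3⟩ := hI.row hj (p (σ 0))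
    obtain ⟨b, b1, b2, b3⟩ := hI.row hj (p (σ (Fin.last _)))
    rcases hw a b a1 a2 b1 b2 with u | u
    · exact key _ (fun i => p (σ i)) a b (ht.addr (120 - t (p (σ 0)))) (hp.comp σ.injective)
        (fun _ _ x => add_le_add_left (o x) _) (by ring) (by linarith) (by linarith) a3 b3 u
    · exact key _ (fun i => p (σ i.rev)) b a (ht.neg.addr (120 + t (p (σ (Fin.last _)))))
        (hp.comp (σ.injective.comp Fin.rev_injective))
        (fun _ _ x => add_le_add_left (neg_le_neg (o (Fin.rev_le_rev.2 x))) _) (by simp)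
        (by rw [Fin.rev_last]; linarith) (by rw [Fin.rev_last]; linarith) b3 (by rwa [Fin.rev_last]) u
  · obtain ⟨i, j, e⟩ := h _ (ht.addr (-t (p (σ 0)))) p (fun i => ⌊t (p i) + -t (p (σ 0))⌋) hp
      fun i => ⟨Int.floor_le _, (Int.lt_floor_add_one _).le⟩
    have k : ∀ i, 0 ≤ ⌊t (p i) + -t (p (σ 0))⌋ ∧ ⌊t (p i) + -t (p (σ 0))⌋ < w := fun i => by
      have a := o (Fin.zero_le (σ.symm i))
      have b := o (Fin.le_last (σ.symm i))
      simp only [σ.apply_symm_apply] at a b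
      exact fl_lt (by linarith) (by linarith)
    have := k i
    have := k j
    omega

theorem Env.Win.succ {w' : ℕ} (h : E.Win k w) (hw : w' ≤ w) : E.Win (k + 1) w' := fun t ht p c hp hc =>
  let ⟨i, j, e⟩ := h t ht (fun i => p i.succ) (fun i => c i.succ) (hp.comp (Fin.succ_injective _))
    fun i => hc i.succ
  ⟨i.succ, j.succ, (Int.ofNat_le.2 hw).trans e⟩

theorem Env.IV.finx (h : E.IV m jn X Y w4 w5) (hj : jn < m) (ht : E.Ch t) {Z : α → α → Prop} (n : p ≠ q)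
    (hZ : Z p q) (hw : ∀ a b, jn ≤ a → a < m → jn ≤ b → b < m → ∀ x < 60, E.NP Z a b x) : False := by
  obtain ⟨u, hu, -, -, u1, u2⟩ := ht.pair p q
  obtain ⟨a, a1, a2, a3⟩ := h.row hj p
  obtain ⟨b, b1, b2, b3⟩ := h.row hj q
  obtain ⟨x, -, x1, x2, x3⟩ := exists_cell (fun n => n) (x := u q - u p) (lo := 0) (hi := 60) (by norm_num)
    (by push_cast; linarith) (by push_cast; linarith)
  exact hw a b a1 a2 b1 b2 x x1 _ (hu.addr (120 - u p)) p q n hZ (by ring) a3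
    ⟨by push_cast; linarith, by push_cast at *; linarith, b3.1, b3.2⟩

theorem Env.IV.nearx [Fintype α] (h : E.IV m jn X Y w4 w5) (ht : E.Ch t)
    (hw : ∀ t, E.Ch t → ∀ p, (∀ s, E.ρ p ≤ E.ρ s) → t p = 120 → E.Rw jn p → False) :
    E.IV m (jn + 1) X Y w4 w5 ∧ (jn + 1 = m → IsEmpty α) :=
  ⟨h.near ht 0 fun t ht p a b => hw _ (ht.addr (120 - t p)) p a (by ring) b.rw, fun e => ⟨fun s => by
    obtain ⟨p, -, hp⟩ := Finset.univ.exists_min_image E.ρ ⟨s, Finset.mem_univ s⟩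
    exact hw _ (ht.addr (120 - t p)) p (fun s => hp s (Finset.mem_univ s)) (by ring)
      ⟨(h.rows p).1, e ▸ (h.rows p).2⟩⟩⟩

end

end Pool.Agent.MP_1037db_co.LP

end

section
/-! Sets of cells as numbers. -/

namespace Pool.Agent.MP_1037db_co.Q

open LP

def mb (N c : ℕ) : Prop := N.testBit c = true

variable {N M a b c i j k r s x y lo hi n : ℕ} {f : ℕ → ℕ}

theorem fn_eq (n : ℕ) (f : ℕ → ℕ) : fn n f = f n := (rfl)

theorem mb_and : mb (a &&& b) c ↔ mb a c ∧ mb b c := by simp [mb]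

theorem mb_or : mb (a ||| b) c ↔ mb a c ∨ mb b c := by simp [mb]

theorem mb_shr : mb (a >>> i) c ↔ mb a (i + c) := by simp [mb]

theorem mb_shl : mb (a <<< i) c ↔ i ≤ c ∧ mb a (c - i) := by simp [mb]

theorem mb_zero : ¬ mb 0 c := by simp [mb]

theorem mb_pow : mb (2 ^ n - 1) c ↔ c < n := by simp [mb]

theorem mb_one : mb (1 <<< i) c ↔ c = i := by
  rw [mb_shl, show mb 1 (c - i) ↔ c - i < 1 from mb_pow (n := 1)]
  omega

theorem mb_dl : mb (dl N M) c ↔ mb N c ∧ ¬ mb M c := by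
  simp only [mb, dl, Nat.xor_eq, Nat.land_eq, Nat.testBit_xor, Nat.testBit_and]
  cases N.testBit c <;> cases M.testBit c <;> simp

theorem mb_iv : mb (iv lo hi) c ↔ lo ≤ c ∧ c < hi := by
  simp only [iv, Nat.sub_eq, Nat.shiftLeft_eq', Nat.one_shiftLeft]
  rcases le_total hi lo with h | h
  · rw [Nat.sub_eq_zero_of_le (Nat.pow_le_pow_right two_pos h)]
    exact iff_of_false mb_zero (by omega)
  · rw [show 2 ^ hi - 2 ^ lo = (2 ^ (hi - lo) - 1) <<< lo by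
      rw [Nat.shiftLeft_eq, Nat.sub_mul, ← pow_add, Nat.sub_add_cancel h, one_mul], mb_shl, mb_pow]
    omega

theorem mb_bt : bt a i 1 = 1 ↔ mb a i := by
  simp [bt, mb, Nat.testBit, Nat.and_comm]

theorem mb_bt0 : bt a i 1 = 0 ↔ ¬ mb a i := by
  have := bt_le a i 1
  rw [← mb_bt]
  omega

theorem mb_lt (h : a < 2 ^ n) (hc : mb a c) : c < n := not_le.1 fun e =>
  Bool.noConfusion ((Nat.testBit_lt_two_pow (h.trans_le (Nat.pow_le_pow_right two_pos e))).symm.trans hc)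

theorem mb_ON : mb ON c ↔ c % 16 = 0 ∧ c < 8192 := by
  have h : (al 8192 fun c => Nat.beq (bt ON c 1) (cn (Nat.beq (c % 16) 0) 1 0)) = true := by
    decide +kernel
  have g : ∀ c < 8192, mb ON c ↔ c % 16 = 0 := fun c hc => by
    rw [← mb_bt, Nat.eq_of_beq_eq_true (al_iff.1 h c hc), cn_eq]
    simp
  exact ⟨fun e => have := mb_lt (n := 8192) (by decide +kernel) e; ⟨(g c this).1 e, this⟩,
    fun e => (g c e.2).2 e.1⟩

theorem mb_LV : mb LV c ↔ c / 16 % 120 = 15 ∧ c < 8192 := by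
  have h : (al 8192 fun c => Nat.beq (bt LV c 1) (cn (Nat.beq (c / 16 % 120) 15) 1 0)) = true := by
    decide +kernel
  have g : ∀ c < 8192, mb LV c ↔ c / 16 % 120 = 15 := fun c hc => by
    rw [← mb_bt, Nat.eq_of_beq_eq_true (al_iff.1 h c hc), cn_eq]
    simp
  exact ⟨fun e => have := mb_lt (n := 8192) (by decide +kernel) e; ⟨(g c this).1 e, this⟩,
    fun e => (g c e.2).2 e.1⟩

theorem mb_mul (hr : r < 2 ^ 16) (k : ℕ) (hj : j < 16) : ∀ X, (∀ c, mb X c → c % 16 = 0) →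
    (mb (X * r) (16 * k + j) ↔ mb X (16 * k) ∧ mb r j) := by
  have key : ∀ X, (∀ c, mb X c → c % 16 = 0) → X * r = 2 ^ 16 * (X >>> 16 * r) +
      if X.testBit 0 = true then r else 0 := fun X h => by
    have : X % 2 ^ 16 = if X.testBit 0 = true then 1 else 0 := Nat.eq_of_testBit_eq fun i => by
      rw [Nat.testBit_mod_two_pow, Bool.eq_iff_iff, Bool.and_eq_true, decide_eq_true_eq]
      refine ⟨fun ⟨a, b⟩ => ?_, fun a => ?_⟩
      · obtain rfl : i = 0 := by have := h i b; omega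
        rw [if_pos b]
        rfl
      · split_ifs at a with e
        · obtain rfl : i = 0 := mb_one (i := 0).1 a
          exact ⟨by norm_num, e⟩
        · exact absurd a mb_zero
    conv_lhs => rw [← Nat.div_add_mod X (2 ^ 16), this, Nat.add_mul, Nat.mul_assoc,
      ← Nat.shiftRight_eq_div_pow]
    simp
  have lt : ∀ X : ℕ, (if X.testBit 0 = true then r else 0) < 2 ^ 16 := fun X => by split_ifs <;> omega
  induction k with
  | zero =>
    intro X h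
    rw [key X h, mb, Nat.testBit_two_pow_mul_add _ (lt X), if_pos (by omega)]
    split_ifs with e <;> simp [e, mb]
  | succ k ih =>
    intro X h
    rw [key X h, mb, Nat.testBit_two_pow_mul_add _ (lt X), if_neg (by omega),
      show 16 * (k + 1) + j - 16 = 16 * k + j by omega, show 16 * (k + 1) = 16 + 16 * k by omega, ← mb_shr]
    exact ih _ fun c hc => by have := h _ (mb_shr.1 hc); omega

theorem mb_bo (hr : r < 2 ^ 16) :
    mb (bo lo hi r) c ↔ lo ≤ 16 * (c / 16) ∧ 16 * (c / 16) < hi ∧ c < 8192 ∧ mb r (c % 16) := by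
  have := mb_mul hr (c / 16) (Nat.mod_lt c (by norm_num)) (iv lo hi &&& ON)
    fun c h => (mb_ON.1 (mb_and.1 h).2).1
  rw [Nat.div_add_mod, mb_and, mb_iv, mb_ON] at this
  refine this.trans ⟨fun h => ⟨h.1.1.1, h.1.1.2, by omega, h.2⟩,
    fun h => ⟨⟨⟨h.1, h.2.1⟩, by omega, by omega⟩, h.2.2.2⟩⟩

theorem mb_ro : mb (ro a b) j ↔ a ≤ j ∧ j < b ∧ j < 16 := by
  rw [ro, Nat.land_eq, mb_and, mb_iv, and_assoc]
  exact and_congr_right' (and_congr_right' (mb_pow (n := 16)))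

theorem ro_lt (a b : ℕ) : ro a b < 2 ^ 16 := Nat.lt_succ_of_le Nat.and_le_right

theorem mb_box : mb (bo lo hi (ro a b)) c ↔
    lo ≤ 16 * (c / 16) ∧ 16 * (c / 16) < hi ∧ c < 8192 ∧ a ≤ c % 16 ∧ c % 16 < b := by
  rw [mb_bo (ro_lt _ _), mb_ro]
  omega

theorem mb_per {W : ℕ} (h : mb (per W) c) : ∃ d, mb W d ∧ ((d : ℤ) - c) % 1920 = 0 := by
  simp only [per, Nat.lor_eq, Nat.shiftLeft_eq', Nat.shiftRight_eq', mb_or, mb_shl, mb_shr] at h
  rcases h with (h | ⟨e, h⟩ | h) | ⟨e, h⟩ | h <;> exact ⟨_, h, by omega⟩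

theorem mb_wn : mb (wn s j) c ↔ j ≤ c ∧ (c - j) % 16 = 0 ∧ c - j < 8192 ∧ (256 - s) * 16 ≤ c - j ∧
    c - j < (255 + s) * 16 := by
  simp only [wn, Nat.shiftLeft_eq', Nat.land_eq, Nat.mul_eq, Nat.sub_eq, Nat.add_eq, mb_shl, mb_and,
    mb_iv, mb_ON]
  tauto

theorem mb_un : mb (un n f) c ↔ ∃ k < n, mb (f k) c := by
  induction n with
  | zero => exact iff_of_false mb_zero (by simp)
  | succ n ih =>
    change mb (f n ||| un n f) c ↔ _
    rw [mb_or, ih, Nat.exists_lt_succ_right, or_comm]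

theorem mf_le (h : k < n) : mf n f ≤ f k := by
  induction n with
  | zero => omega
  | succ n ih =>
    change mn (f n) (mf n f) ≤ _
    rw [mn_eq]
    rcases Nat.lt_succ_iff_lt_or_eq.1 h with h | rfl
    · exact (min_le_right _ _).trans (ih h)
    · exact min_le_left _ _

/-- a union of windows, one for every row -/
theorem mb_win (h : mb (un 16 fun j => wn (f j) j) c) :
    (255 : ℤ) - f (c % 16) < c / 16 ∧ (c / 16 : ℤ) < 255 + f (c % 16) := by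
  obtain ⟨j, hj, h⟩ := mb_un.1 h
  rw [mb_wn] at h
  obtain rfl : j = c % 16 := by omega
  omega

/-- the table of pairs -/
def XX (XT a b : ℕ) : ℕ := xe XT (a * 32 + 1) b - 1

theorem mb_zp {XT : ℕ} (h : mb (zp XT j) c) : fz ((c / 16 : ℕ) - 255) < XX XT j (c % 16) := by
  obtain ⟨d, h, e⟩ := mb_per h
  have := mb_win (f := fun c => XX XT j c) h
  rw [show d % 16 = c % 16 by omega] at this
  unfold fz
  omega

theorem and15 (x : ℕ) : x &&& 15 = x % 16 := Nat.and_two_pow_sub_one_eq_mod x 4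

theorem and127 (x : ℕ) : x &&& 127 = x % 128 := Nat.and_two_pow_sub_one_eq_mod x 7

theorem shr (x n : ℕ) : x >>> n = x / 2 ^ n := Nat.shiftRight_eq_div_pow x n

theorem yy_eq (x c : ℕ) : yy x c = (x / 16 + 300 - c / 16) % 120 := by
  simp only [yy, Nat.add_eq, Nat.sub_eq, Nat.shiftRight_eq', shr]
  rfl

theorem mb_w3 {S z : ℕ} (hc : c < 4096) (h : mb (w3 S (k3 x c)) z) : ∃ d e : ℤ,
    (d - (255 + (x / 16 : ℕ) - (c / 16 : ℕ))) % 120 = 0 ∧ (e - (z / 16 : ℕ)) % 120 = 0 ∧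
      sp3 d 255 e < s3 S (x % 16) (c % 16) (z % 16) := by
  have hy : yy x c < 120 := by rw [yy_eq]; omega
  have e1 : k3 x c / 2 ^ 7 = x % 16 * 16 + c % 16 ∧ k3 x c % 128 = yy x c := by
    simp only [k3, Nat.add_eq, Nat.mul_eq, Nat.land_eq, and15]
    omega
  simp only [w3, w3u, fn_eq, Nat.shiftRight_eq', Nat.shiftLeft_eq', Nat.land_eq, Nat.mul_eq, Nat.add_eq,
    and127, shr (k3 x c), e1.1, e1.2] at h
  obtain ⟨d, h, e⟩ := mb_per h
  have u : ∀ w, mb (ub S (x % 16 * 16 + c % 16)) w → _ := fun w h => by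
    have := mb_win h
    simp only [Nat.shiftRight_eq', Nat.land_eq, and15, shr] at this
    rwa [show (x % 16 * 16 + c % 16) / 2 ^ 4 = x % 16 by omega,
      show (x % 16 * 16 + c % 16) % 16 = c % 16 by omega] at this
  rw [mb_and, mb_and, mb_shr, mb_shl, Nat.mul_comm _ ON, ← Nat.div_add_mod d 16,
    mb_mul (Nat.lt_succ_of_le (bt_le _ _ _)) _ (Nat.mod_lt _ (by norm_num)) _ fun _ h => (mb_ON.1 h).1,
    Nat.div_add_mod, bt, Nat.land_eq, Nat.shiftRight_eq', mb_and, mb_shr, mb_shr, mb_shl] at h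
  obtain ⟨⟨h1, h2, h3⟩, -, ⟨h4, h5⟩, -⟩ := h
  have a1 := u _ h1
  have a3 := u _ h3
  have a5 := u _ h5
  rw [show (4080 + d - (yy x c + 195) * 16) % 16 = d % 16 by omega] at a3
  rw [show (4080 + (4080 + d % 16) - (yy x c + 195) * 16) % 16 = d % 16 by omega] at a5
  rw [show d % 16 = z % 16 by omega] at a1 a3 a5
  refine ⟨195 + yy x c, d / 16, by rw [yy_eq]; omega, by omega, ?_⟩
  unfold sp3
  omega

/-- the column is congruent to a column of a window -/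
def Iw (c : ℤ) (w : ℕ) (k : ℤ) : Prop := ∃ d : ℤ, c ≤ d ∧ d < c + w ∧ (d - k) % 120 = 0

theorem mb_wk {z : ℕ} (hh : hi < 128) (hl : lo ≤ hi) (h : mb (wk s (lo * 128 + hi)) z) : ∃ c : ℤ,
    Iw c s (z / 16 : ℕ) ∧ ∀ y, lo ≤ y → y ≤ hi → ∀ k : ℤ, (195 + y - k) % 120 = 0 → Iw c s k := by
  simp only [wk, cn_eq, lt_iff, Nat.shiftRight_eq', Nat.land_eq, Nat.mul_eq, Nat.add_eq, Nat.sub_eq,
    and127, shr, show (lo * 128 + hi) / 2 ^ 7 = lo by omega, show (lo * 128 + hi) % 128 = hi by omega] at h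
  split_ifs at h with e
  · obtain ⟨d, h, e'⟩ := mb_per h
    rw [mb_iv] at h
    exact ⟨min (d / 16) (195 + lo), ⟨d / 16, by omega, by omega, by omega⟩,
      fun y a b k g => ⟨195 + y, by omega, by omega, g⟩⟩
  · exact absurd h mb_zero

theorem sf_eq (hc : c < 4096) : sf c = 4080 - 16 * (c / 16) := by
  have : c &&& 4080 = _ := fld c 4 255
  rw [bt, Nat.land_eq, Nat.shiftRight_eq', shr, Nat.and_two_pow_sub_one_eq_mod _ 8] at this
  simp only [sf, Nat.sub_eq, Nat.land_eq]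
  omega

theorem bt_eq (x p n : ℕ) : bt x p (2 ^ n - 1) = x / 2 ^ p % 2 ^ n := by
  rw [bt, Nat.land_eq, Nat.shiftRight_eq', shr, Nat.and_two_pow_sub_one_eq_mod]

/-- one more unit in a field -/
theorem bt_inc {X p q n : ℕ} (h : bt X p (2 ^ n - 1) + 1 < 2 ^ n) (hq : q + n ≤ p ∨ p + n ≤ q) :
    bt (X + 1 <<< p) q (2 ^ n - 1) = bt X q (2 ^ n - 1) := by
  simp only [bt_eq, Nat.one_shiftLeft] at h ⊢
  rcases hq with e | e
  · obtain ⟨w, rfl⟩ := Nat.exists_eq_add_of_le e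
    rw [show 2 ^ (q + n + w) = 2 ^ q * (2 ^ n * 2 ^ w) by ring, Nat.add_mul_div_left _ _ (by positivity),
      Nat.add_mul_mod_self_left]
  · obtain ⟨w, rfl⟩ := Nat.exists_eq_add_of_le e
    simp only [pow_add, ← Nat.div_div_eq_div_mul]
    rw [Nat.add_div_right _ (by positivity), Nat.succ_div_of_not_dvd fun d => by
      have := (Nat.succ_mod_succ_eq_zero_iff (a := X / 2 ^ p) (b := 2 ^ n - 1)).1 (by
        rw [Nat.sub_add_cancel Nat.one_le_two_pow]; exact Nat.mod_eq_zero_of_dvd d)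
      rw [Nat.sub_add_cancel Nat.one_le_two_pow] at this
      omega]

theorem bt_inc' {X p n : ℕ} : bt (X + 1 <<< p) p (2 ^ n - 1) ≤ bt X p (2 ^ n - 1) + 1 := by
  simp only [bt_eq, Nat.one_shiftLeft]
  rw [Nat.add_div_right _ (by positivity), Nat.add_mod]
  exact (Nat.mod_le _ _).trans (Nat.add_le_add_left (Nat.mod_le _ _) _)

theorem s3_eq (S a b c : ℕ) : s3 S a b c = sd S (min a (min b c))
    (a + b + c - (min a (min b c) + max a (max b c))) (max a (max b c)) := by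
  simp only [s3, fn_eq, mn_eq, mx_eq, Nat.add_eq, Nat.sub_eq]

theorem s3_12 (S a b c : ℕ) : s3 S a b c = s3 S b a c := by
  rw [s3_eq, s3_eq]
  congr 1 <;> omega

theorem s3_23 (S a b c : ℕ) : s3 S a b c = s3 S a c b := by
  rw [s3_eq, s3_eq]
  congr 1 <;> omega

theorem s3a_le {S r1 r2 : ℕ} (h1 : r1 ≤ a) (h2 : a < r2) (h3 : r1 ≤ b) (h4 : b < r2) (h5 : r1 ≤ c)
    (h6 : c < r2) : s3a S r1 r2 ≤ s3 S a b c := by
  refine (mf_le (k := max a (max b c) - r1) (by simp only [Nat.sub_eq]; omega)).trans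
    ((mf_le (k := a + b + c - (min a (min b c) + max a (max b c)) - r1)
      (by simp only [Nat.add_eq]; omega)).trans
    ((mf_le (k := min a (min b c) - r1) (by simp only [Nat.add_eq]; omega)).trans_eq ?_))
  rw [s3_eq]
  simp only [Nat.add_eq]
  congr 1 <;> omega

theorem s3b_le {S r1 r2 : ℕ} (h3 : r1 ≤ b) (h4 : b < r2) (h5 : r1 ≤ c) (h6 : c < r2) :
    s3b S j r1 r2 ≤ s3 S j b c := by
  have key : ∀ b c, r1 ≤ c → c ≤ b → b < r2 → s3b S j r1 r2 ≤ s3 S j b c := fun b c h1 h2 h3 =>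
    (mf_le (k := b - r1) (by simp only [Nat.sub_eq]; omega)).trans ((mf_le (k := c - r1)
      (by simp only [Nat.add_eq]; omega)).trans_eq (by simp only [Nat.add_eq]; congr 1 <;> omega))
  rcases le_total c b with e | e
  · exact key b c h5 e h4
  · exact (key c b h3 e h6).trans_eq (s3_23 S j c b)

end Pool.Agent.MP_1037db_co.Q

end

section
set_option linter.unusedSectionVars false

/-! What the packed comparisons say. -/

namespace Pool.Agent.MP_1037db_co.Q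

open LP

noncomputable section

/-- the value of a header -/
def hv (x : ℕ) (z w : ℝ) : ℝ := bil (bt x 0 65535) (bt x 72 65535) (bt x 18 65535) (bt x 90 65535) z w

def ee (K j xL xI xO : ℕ) : ℕ := 2 ^ 36 * K + 2 ^ 40 * j + 864691128455135232 * xL + 2 ^ 62 * xI + 2 ^ 64 * xO

structure Fc (x r K j xL xI xO i : ℕ) : Prop where
  k : bt x 36 3 ≤ K
  p : bt x 40 31 = j
  l : bt x 60 1 ≤ xL
  fi : bt x 62 1 ≤ xI
  fo : bt x 64 1 ≤ xO
  n : r / 2 < i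

/-- position in the cell, seen from the node -/
def pz (r : ℕ) (z : ℝ) : ℝ := if r % 2 = 0 then z else 1 - z

/-- the test for the use of a node is sound -/
def CU (H : Tr) (i : ℕ) (cu : ℕ → ℕ → ℕ → Bool) (j : ℕ) (z w β : ℝ) : Prop :=
  ∀ r K xL xR xI xO, r ≤ 262143 → K ≤ 7 → xL ≤ 1 → xR ≤ 1 → xI ≤ 1 → xO ≤ 1 →
    cu r (ee K j xL xI xO) (ee K j xR xI xO) = true →
    Fc (hh H r) r K j (if r % 2 = 0 then xL else xR) xI xO i ∧ hv (hh H r) (pz r z) w ≤ β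

def XS (i X0 X1 : ℕ) (z w β : ℝ) : Prop := ∃ v0 ≤ 65535, ∃ v1 ≤ 65535, ∃ v2 ≤ 65535, ∃ v3 ≤ 65535,
  X0 = xx i (vb v1 v3) (vb v0 v2) ∧ X1 = xx i (vb v0 v2) (vb v1 v3) ∧ bil v0 v1 v2 v3 z w ≤ β

variable {H DT : Tr} {i j r x K xL xI xO v0 v1 v2 v3 G0 G1 X0 X1 ref y k : ℕ} {z w β : ℝ}

theorem and1 (r : ℕ) : r &&& 1 = r % 2 := Nat.and_one_is_mod r

theorem rf_eq (r : ℕ) : rf r = r / 2 * 8 + 2 + r % 2 := by
  simp only [rf, Nat.add_eq, Nat.mul_eq, Nat.land_eq, Nat.shiftRight_eq', and1, shr, pow_one]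

theorem fc_of (h : Cov x (rf r) K j 31 31 xL xI xO 135 0 0 120 i) : Fc x r K j xL xI xO i := by
  obtain ⟨a, b, -, -, c, d, e, -, -, f⟩ := h
  have := bt_le x 60 1
  rw [rf_eq] at c f
  exact ⟨a, b, by omega, d, e, by omega⟩

theorem bil_mir (a b c d z w : ℝ) : bil b a d c (1 - z) w = bil a b c d z w := by
  unfold bil
  ring

theorem cp_spec [Geo] (hi : i ≤ 262144) (hj : j ≤ 31) (h0 : v0 ≤ 65535) (h1 : v1 ≤ 65535) (h2 : v2 ≤ 65535)
    (h3 : v3 ≤ 65535) (z0 : 0 ≤ z) (z1 : z ≤ 1) (w0 : 0 ≤ w) (w1 : w ≤ 1)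
    (hb : bil v0 v1 v2 v3 z w ≤ β) : CU H i (cp H (pi i (wv v0 v2 v1 v3)) (pi i (wv v1 v3 v0 v2))) j z w β := by
  intro r K xL xR xI xO hr hK a1 a2 a3 a4 h
  have hr' : rf r ≤ 1048575 := by rw [rf_eq]; omega
  have key : ∀ {xL v0 v1 v2 v3 : ℕ} {z : ℝ}, xL ≤ 1 → v0 ≤ 65535 → v1 ≤ 65535 → v2 ≤ 65535 → v3 ≤ 65535 →
      0 ≤ z → z ≤ 1 → bil v0 v1 v2 v3 z w ≤ β → (pi i (wv v0 v2 v1 v3) + ee K j xL xI xO - hy H r) &&& 2854496066309122862835527115449378651557199872 = 2854496066309122862835527115449344566696738816 →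
      Fc (hh H r) r K j xL xI xO i ∧ hv (hh H r) z w ≤ β := fun a1 h0 h1 h2 h3 z0 z1 hb h => by
    obtain ⟨g, u0, u1, u2, u3⟩ := pl_aux (U := 0) (c1 := 31) (c2 := 31) (A := 135) (cA := 0) (B := 0)
      (cB := 120) hr' hK hj le_rfl le_rfl a1 a3 a4 (by norm_num) (by norm_num) (by norm_num) (by norm_num)
      hi h0 h2 h1 h3 (by
        simp only [pi, ee, cx, Nat.add_eq, Nat.mul_eq]
        ring) h
    exact ⟨fc_of g, (bil_le z0 z1 w0 w1 (by exact_mod_cast u0) (by exact_mod_cast u2)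
      (by exact_mod_cast u1) (by exact_mod_cast u3)).trans hb⟩
  have h' := Nat.eq_of_beq_eq_true h
  simp only [nrec, Nat.land_eq, and1] at h'
  unfold pz
  split_ifs at h' ⊢
  · exact key a1 h0 h1 h2 h3 z0 z1 hb h'
  · exact key a2 h1 h0 h3 h2 (by linarith) (by linarith) (by rwa [bil_mir]) h'

/-- comparisons that may be skipped -/
def Gk2 (G0 G1 : ℕ) (L R I O : Prop) : Prop := ∃ a a1 a2 c e b b1 b2, G0 = gx a a1 a2 c e b b1 b2 ∧
  G1 = gx b b1 b2 c e a a1 a2 ∧ (a ≤ 131072 ∧ a1 ≤ 131072 ∧ a2 ≤ 131072) ∧ c ≤ 131072 ∧ e ≤ 131072 ∧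
  (b ≤ 131072 ∧ b1 ≤ 131072 ∧ b2 ≤ 131072) ∧ (¬ L → a = 131072 ∧ a1 = c ∧ a2 = e) ∧
  (¬ R → b = 131072 ∧ b1 = c ∧ b2 = e) ∧ (¬ O → c = 131072) ∧ (¬ I → e = 131072)

theorem Gk2.symm {L R I O : Prop} (h : Gk2 G0 G1 L R I O) : Gk2 G1 G0 R L I O :=
  let ⟨a, a1, a2, c, e, b, b1, b2, h0, h1, h2, h3, h4, h5, h6, h7, h8⟩ := h
  ⟨b, b1, b2, c, e, a, a1, a2, h1, h0, h5, h3, h4, h2, h7, h6, h8⟩

theorem gk2 {L R I O : Prop} (h : Gk G0 G1 L I O) : Gk2 G0 G1 L R I O :=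
  let ⟨a, a1, a2, c, e, h0, h1, h2, h3, h4, h5, h6, h7, h8⟩ := h
  ⟨a, a1, a2, c, e, 131072, c, e, h0, h1, ⟨h2, h3, h4⟩, h5, h6, ⟨le_rfl, h5, h6⟩, h7,
    fun _ => ⟨rfl, rfl, rfl⟩, h8⟩

variable [G : Geo] {α : Type} {E : Env α} {t : α → ℝ} {p q : α} {c d : ℤ} {jp m : ℕ}

theorem cc_eq (X x ref d G : ℕ) : cc X (hzx x ref) (dp d) G = qe x ref X 0 d G := by
  simp only [cc, hzx, dp, rz, qe, Nat.sub_eq, Nat.sub_sub, Nat.add_eq, Nat.add_assoc, Nat.zero_add]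

theorem cc_go (hi : i ≤ 262144) (hr : ref ≤ 1048575) (hK : K ≤ 7) (hj : j ≤ 31) (a1 : xL ≤ 1)
    (a3 : xI ≤ 1) (a4 : xO ≤ 1) (h0 : v0 ≤ 65535) (h1 : v1 ≤ 65535) (h2 : v2 ≤ 65535) (h3 : v3 ≤ 65535)
    (ht : E.Ch t) {jq : ℕ} (hp : E.At t c jp p) (hq : E.At t d jq q)
    (hR : RB 1 (DT.get (k >>> 7)) (E.r jp) (E.r (jp + 1)) (E.r jq) (E.r (jq + 1))) (hy : y ≤ 120)
    (hc : (y - (d - c)) % 120 = 0) (hG : Gk2 G0 G1 (t p - c ≤ t q - d) (t q - d ≤ t p - c)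
      (E.fr jp p ≤ E.fr jq q) (E.fr jq q ≤ E.fr jp p))
    (h : cc (xx i (vb v1 v3) (vb v0 v2) + ee K j xL xI xO) (hzx x ref) (dz DT k y) G0 = true) :
    Cov x ref K j 31 31 xL xI xO 135 0 0 120 i ∧ E.D p q + hv x (t q - d) (E.fr jq q) ≤
      bil v0 v1 v2 v3 (t p - c) (E.fr jp p) := by
  obtain ⟨a, a1', a2, c', e, b, b1, b2, e0, -, n1, n2, n3, n4, sL, sR, sO, sI⟩ := hG
  rw [e0] at h
  obtain ⟨cv, s0, s1, s2, s3⟩ := qe_spec (U := 0) (x := x) (y := DT.get (k >>> 7) >>> (y * 72))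
    (A := 135) (cA := 0) (B := 0) (cB := 120) (T := xx i (vb v1 v3) (vb v0 v2) + ee K j xL xI xO)
    hr hK hj le_rfl le_rfl a1 a3 a4 (by norm_num) (by norm_num) (by norm_num) (by norm_num) hi h1 h3 h0 h2
    ⟨n1.1, n1.2.1, n1.2.2, n2, n3, n4⟩ (by
      simp only [xx, ee, cx, Nat.add_eq, Nat.mul_eq]
      ring) (by simpa only [dz, fn_eq, cc_eq, Nat.land_eq, Nat.shiftRight_eq', Nat.mul_eq] using h)
  generalize DT.get (k >>> 7) = row at *
  have bk : ∀ {g f e' o v v' w w' : ℕ} n, S4 g f e' (row >>> (y * 72)) o v v' w w' → o = n * 72 →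
      g = 131072 ∧ f = c' ∧ e' = e → Blk row (y + n) (E.fr jp p) (E.fr jq q) v v' w w' :=
    fun n h o g => by
      obtain ⟨rfl, rfl, rfl⟩ := g
      subst o
      simp only [S4, bt_sh, ← Nat.add_assoc, ← Nat.add_mul, true_implies] at h
      exact ⟨h.1, fun g => h.2.1 (sO g.not_ge), fun g => h.2.2.1 (sI g.not_ge), h.2.2.2⟩
  exact ⟨cv, edge ht hp hq hR hy hc (bk 1 s2 rfl ⟨rfl, rfl, rfl⟩) (bk 1 s1 rfl ⟨rfl, rfl, rfl⟩)
    (fun g => bk 2 s3 rfl (sR g.not_ge)) fun g => bk 0 s0 rfl (sL g.not_ge)⟩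

/-- the point lies in the cell -/
def Ac (E : Env α) (t : α → ℝ) (m c : ℕ) (p : α) : Prop :=
  c < 4096 ∧ c % 16 < m ∧ E.At t (c / 16 : ℕ) (c % 16) p

/-- coordinates in the cell -/
def zx (t : α → ℝ) (c : ℕ) (p : α) : ℝ := t p - ((c / 16 : ℕ) : ℤ)

def zy (E : Env α) (c : ℕ) (p : α) : ℝ := E.fr (c % 16) p

def GG (E : Env α) (t : α → ℝ) (G0 G1 a b : ℕ) (p q : α) : Prop :=
  Gk2 G0 G1 (zx t a p ≤ zx t b q) (zx t b q ≤ zx t a p) (zy E a p ≤ zy E b q) (zy E b q ≤ zy E a p)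

variable {a b : ℕ}

theorem ky_eq (a b : ℕ) : ky a b >>> 7 = a % 16 * 32 + b % 16 ∧
    ky a b &&& 127 = (b / 16 + 360 - a / 16) % 120 := by
  simp only [ky, Nat.add_eq, Nat.mul_eq, Nat.sub_eq, Nat.land_eq, Nat.shiftRight_eq', and15, and127, shr, Nat.reducePow]
  change (_ + _ % 120) / _ = _ ∧ (_ + _ % 120) % 128 = _
  omega

theorem tb_get (hT : E.TB DT m) (ha : a < m) (hb : b < m) :
    RB 1 (DT.get (a * 32 + b)) (E.r a) (E.r (a + 1)) (E.r b) (E.r (b + 1)) := by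
  have := hT a ha b hb
  rwa [dr, Nat.add_eq, Nat.add_right_comm] at this

theorem cc0 (hi : i ≤ 262144) (hr : ref ≤ 1048575) (hK : K ≤ 7) (hj : j ≤ 31) (a1 : xL ≤ 1)
    (a3 : xI ≤ 1) (a4 : xO ≤ 1) (ht : E.Ch t) (hT : E.TB DT m) (hp : Ac E t m a p) (hq : Ac E t m b q)
    (hX : XS i X0 X1 (zx t a p) (zy E a p) β) (hG : GG E t G0 G1 a b p q)
    (h : cc (X0 + ee K j xL xI xO) (hzx x ref) (dz0 DT (ky a b)) G0 = true) :
    Cov x ref K j 31 31 xL xI xO 135 0 0 120 i ∧ E.D p q + hv x (zx t b q) (zy E b q) ≤ β := by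
  obtain ⟨v0, h0, v1, h1, v2, h2, v3, h3, rfl, -, hb⟩ := hX
  obtain ⟨e1, e2⟩ := ky_eq a b
  have := hp.1
  exact (cc_go hi hr hK hj a1 a3 a4 h0 h1 h2 h3 ht hp.2.2 hq.2.2 (e1 ▸ tb_get hT hp.2.1 hq.2.1)
    (y := ky a b &&& 127) (by omega) (by omega) hG h).imp_right fun g => g.trans hb

theorem cc1 (hi : i ≤ 262144) (hr : ref ≤ 1048575) (hK : K ≤ 7) (hj : j ≤ 31) (a1 : xL ≤ 1)
    (a3 : xI ≤ 1) (a4 : xO ≤ 1) (ht : E.Ch t) (hT : E.TB DT m) (hp : Ac E t m a p) (hq : Ac E t m b q)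
    (hX : XS i X0 X1 (zx t a p) (zy E a p) β) (hG : GG E t G0 G1 a b p q)
    (h : cc (X1 + ee K j xL xI xO) (hzx x ref) (dz1 DT (ky a b)) G1 = true) :
    Cov x ref K j 31 31 xL xI xO 135 0 0 120 i ∧ E.D p q + hv x (1 - zx t b q) (zy E b q) ≤ β := by
  obtain ⟨v0, h0, v1, h1, v2, h2, v3, h3, -, rfl, hb⟩ := hX
  obtain ⟨e1, e2⟩ := ky_eq a b
  have := hp.1
  have e : ∀ (c : ℕ) (s : α), -t s - (-((c / 16 : ℕ) : ℤ) - 1 : ℤ) = 1 - zx t c s := fun c s => by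
    unfold zx
    push_cast
    ring
  have := cc_go hi hr hK hj a1 a3 a4 h1 h0 h3 h2 ht.neg hp.2.2.neg hq.2.2.neg
    (e1 ▸ tb_get hT hp.2.1 hq.2.1) (y := 120 - (ky a b &&& 127)) (by omega) (by omega)
    (by simp only [e, sub_le_sub_iff_left]; exact hG.symm) h
  rw [e, e, bil_mir] at this
  exact this.imp_right fun g => g.trans hb

theorem bt_and {M p n : ℕ} (h : bt M p n = n) (x : ℕ) : bt (x &&& M) p n = bt x p n := by
  simp only [bt, Nat.land_eq, Nat.shiftRight_eq'] at h ⊢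
  rw [Nat.shiftRight_and_distrib, Nat.and_assoc, h]

theorem cq_spec (hi : i ≤ 262144) (ht : E.Ch t) (hT : E.TB DT m) (hp : Ac E t m a p) (hq : Ac E t m b q)
    (hX : XS i X0 X1 (zx t a p) (zy E a p) β) (hG : GG E t G0 G1 a b p q) {u : ℕ}
    (hu : u = 0 → zx t b q = 0) : CU H i (cq (Nat.rec (he H) (fun _ _ => hz H) u) DT X0 X1 (ky a b) G0 G1)
      (b % 16) (zx t b q) (zy E b q) (β - E.D p q) := by
  intro r K xL xR xI xO hr hK a1 a2 a3 a4 h
  have hr' : rf r ≤ 1048575 := by rw [rf_eq]; omega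
  have hj : b % 16 ≤ 31 := by omega
  simp only [cq, nrec, Nat.land_eq, and1, Nat.add_eq] at h
  have fc : ∀ {M xL}, bt M 36 3 = 3 ∧ bt M 40 31 = 31 ∧ bt M 60 1 = 1 ∧ bt M 62 1 = 1 ∧ bt M 64 1 = 1 →
      Fc (hh H r &&& M) r K (b % 16) xL xI xO i → Fc (hh H r) r K (b % 16) xL xI xO i :=
    fun ⟨b1, b2, b3, b4, b5⟩ g => ⟨bt_and b1 _ ▸ g.k, bt_and b2 _ ▸ g.p, bt_and b3 _ ▸ g.l,
      bt_and b4 _ ▸ g.fi, bt_and b5 _ ▸ g.fo, g.n⟩
  unfold pz
  split_ifs at h ⊢ with c1 c2 c2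
  · simp only [he, nrec, Nat.land_eq, and1, if_pos c1] at h
    obtain ⟨g, e⟩ := cc0 hi hr' hK hj a1 a3 a4 ht hT hp hq hX hG h
    refine ⟨fc (by decide) (fc_of g), le_sub_iff_add_le'.2 (le_of_eq_of_le ?_ e)⟩
    simp only [hv, bil, hu c2]
    rw [bt_and (p := 0) (by decide), bt_and (p := 18) (by decide)]
    ring
  · exact (cc0 hi hr' hK hj a1 a3 a4 ht hT hp hq hX hG h).imp fc_of le_sub_iff_add_le'.2
  · simp only [he, nrec, Nat.land_eq, and1, if_neg c1] at h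
    obtain ⟨g, e⟩ := cc1 hi hr' hK hj a2 a3 a4 ht hT hp hq hX hG h
    refine ⟨fc (by decide) (fc_of g), le_sub_iff_add_le'.2 (le_of_eq_of_le ?_ e)⟩
    simp only [hv, bil, hu c2]
    rw [bt_and (p := 72) (by decide), bt_and (p := 90) (by decide)]
    ring
  · exact (cc1 hi hr' hK hj a2 a3 a4 ht hT hp hq hX hG h).imp fc_of le_sub_iff_add_le'.2

/-- a move with an explicit budget -/
theorem cc_x (hi : i ≤ 262144) (ht : E.Ch t) (hT : E.TB DT m) (hp : Ac E t m a p) (hq : Ac E t m b q)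
    (hX : XS i X0 X1 (zx t a p) (zy E a p) β) (hG : GG E t G0 G1 a b p q)
    (h : cc X0 (hzx x 2) (dz0 DT (ky a b)) G0 = true) : E.D p q + hv x (zx t b q) (zy E b q) ≤ β :=
  (cc0 (K := 0) (j := 0) (xL := 0) (xI := 0) (xO := 0) hi (by norm_num) (by norm_num) (by norm_num)
    (by norm_num) (by norm_num) (by norm_num) ht hT hp hq hX hG h).2

theorem cc_z (hi : i ≤ 262144) (ht : E.Ch t) (hT : E.TB DT m) (hp : Ac E t m a p) (hq : Ac E t m b q)
    (hX : XS i X0 X1 (zx t a p) (zy E a p) β) (hG : GG E t G0 G1 a b p q)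
    (h : cc X0 2801973672888163648873723073972345503744 (dz0 DT (ky a b)) G0 = true) : E.D p q ≤ β := by
  simpa [hv, bil, bt] using cc_x (x := 0) hi ht hT hp hq hX hG h

theorem vq_eq (y : ℕ) : vq y = vb (bt y 0 65535) (bt y 18 65535) := by
  have : y &&& 17179607040 = _ := fld y 18 65535
  simp only [vq, vb, Nat.add_eq, Nat.mul_eq, Nat.land_eq, this, bt_zero]
  ring

theorem xs_of (h : hv x z w ≤ β) : XS i (xa i x) (xb i x) z w β :=
  ⟨_, bt_le _ _ _, _, bt_le _ _ _, _, bt_le _ _ _, _, bt_le _ _ _,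
    by simp only [xa, vq_eq, Nat.shiftRight_eq', bt_sh], by simp only [xb, vq_eq, Nat.shiftRight_eq', bt_sh], h⟩

/-- a coarse bound for a group of columns -/
theorem qc_go {s : ℕ} (hi : i ≤ 262144) (ht : E.Ch t) (hT : E.TB DT m) (hj : jp < m) (hp : E.At t 120 jp p)
    (hq : Ac E t m b q) (hk : k < 256) (k1 : k ≤ b / 16) (k2 : b / 16 < k + bt s 2 63)
    (h0 : v0 ≤ 65535) (h2 : v2 ≤ 65535)
    (h : qc 0 2 (63657617094990558659628931840444436415748767203047124268458381110765022754053004504072192 + i * 10889035741470030830827987437816582766592 + vb (min v0 v1) (min v2 v3) * 7067415219060204468974481253372378698352689322148743724669014129235722240) 0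
      (DT.get (jp * 32 + b % 16) >>> (ko k s * 72) &&& 1180578109866989387775) = true) :
    E.D p q ≤ bil v0 v1 v2 v3 (t p - (120 : ℤ)) (E.fr jp p) := by
  obtain ⟨-, o2, o3⟩ := ko_spec (s := s) hk k1 k2
  obtain ⟨-, s0, -⟩ := qc_spec (K := 0) (jx := 0) (c1 := 31) (c2 := 31) (xL := 0) (xI := 0) (xO := 0)
    (A := 135) (cA := 0) (B := 0) (cB := 120) (by norm_num) (by norm_num) (by norm_num) le_rfl le_rfl
    (by norm_num) (by norm_num) (by norm_num) (by norm_num) (by norm_num) (by norm_num) (by norm_num) hi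
    ((min_le_left v0 v1).trans h0) ((min_le_left v2 v3).trans h2) (by
      simp only [cx]
      ring) h
  have z0 : ∀ n, bt 0 n 65535 = 0 := fun n => by simp [bt]
  simp only [le_min_iff, z0] at s0
  have c := hq.2.2
  have r := fun (v v' : ℕ) (u n' : ℤ) hu hn (h0 h1 h2 h3) => rad (v := v) (v' := v') (w := 0)
    (w' := 0) zero_le_one hp.f0 hp.f1 c.f0 c.f1 ⟨fun _ => h0, fun _ => h1, fun _ => h2, fun _ => h3⟩
    (Q4.sh (p := 0) (tb_get hT hj hq.2.1 (ko k s) (by omega) u n' (o3 u n' hu hn))) rfl (fun _ => rfl)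
    fun _ => rfl
  have := conv_a zero_le_one hp.x0 hp.x1 c.x0 c.x1
    (r _ _ _ _ (.inl rfl) (.inl rfl) s0.1.1 s0.2.1.1 s0.2.2.1.1 s0.2.2.2.1)
    (r _ _ _ _ (.inr rfl) (.inr rfl) s0.1.2 s0.2.1.2 s0.2.2.1.2 s0.2.2.2.2)
    (fun _ => r _ _ _ _ (.inl rfl) (.inr rfl) s0.1.1 s0.2.1.1 s0.2.2.1.1 s0.2.2.2.1)
    fun _ => r _ _ _ _ (.inr rfl) (.inl rfl) s0.1.2 s0.2.1.2 s0.2.2.1.2 s0.2.2.2.2
  rw [← ht.eq] at this
  unfold bil
  push_cast at this ⊢
  linarith [E.le p q]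

end

end Pool.Agent.MP_1037db_co.Q

end

section
set_option linter.unusedSectionVars false

/-! The use of a node. -/

namespace Pool.Agent.MP_1037db_co.Q

open LP

noncomputable section

theorem bt16 (x p : ℕ) : bt x p 4080 = 16 * bt x (p + 4) 255 := by
  rw [← bt_sh]
  exact fld (x >>> p) 4 255

theorem bm_spec {x p z c : ℕ} (hc : c ≤ 255) (h : mb (b0 x p) (4080 - 16 * c + z)) :
    (∃ w y : ℤ, y = (if p = 0 then (z / 16 : ℕ) - (c : ℤ) else c - (z / 16 : ℕ)) + 120 * w ∧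
      bt x 108 255 ≤ 120 + y ∧ 120 + y + bt x 119 255 < 255 ∧ (bt x 60 1 = 1 → 0 ≤ w ∧ 0 ≤ y)) ∧
    bt x 46 31 ≤ z % 16 ∧ z % 16 + bt x 52 31 < 31 ∧ (bt x 62 1 = 1 → bt x 40 31 ≤ z % 16) ∧
      (bt x 64 1 = 1 → z % 16 ≤ bt x 40 31) := by
  simp only [b0, b1, b2, cu3, nrec, fn_eq, bt16, mx_eq, mn_eq, Nat.add_eq, Nat.sub_eq, Nat.lor_eq,
    Nat.shiftLeft_eq', Nat.shiftRight_eq', Nat.reduceAdd] at h
  generalize hu : (if bt x 62 1 = 0 then bt x 46 31 else max (bt x 46 31) (bt x 40 31)) = u at h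
  generalize hv : (if bt x 64 1 = 0 then 31 - bt x 52 31 else min (31 - bt x 52 31) (bt x 40 31 + 1)) = v at h
  have key : ∀ {P : Prop}, P ∧ u ≤ z % 16 ∧ z % 16 < v → P ∧ bt x 46 31 ≤ z % 16 ∧ z % 16 + bt x 52 31 < 31 ∧
      (bt x 62 1 = 1 → bt x 40 31 ≤ z % 16) ∧ (bt x 64 1 = 1 → z % 16 ≤ bt x 40 31) :=
    fun h => ⟨h.1, by split_ifs at hu hv <;> omega⟩
  refine key ?_
  clear key hu hv
  split_ifs at h ⊢ <;> simp only [mb_or, mb_shl, mb_shr, mb_box] at h <;> casesm* _ ∨ _ <;>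
    first | exact ⟨⟨0, _, rfl, by omega⟩, by omega⟩ | exact ⟨⟨1, _, rfl, by omega⟩, by omega⟩ |
      exact ⟨⟨-1, _, rfl, by omega⟩, by omega⟩

variable [G : Geo] {α : Type} {E : Env α} {t : α → ℝ} {p q : α} {H : Tr} {i j r c m : ℕ} {S : Finset α}
  {κ : α → ℕ}

theorem sem_hh (hS : E.NS H i) (h : r / 2 < i) : E.Sem (hh H r) := by
  have := hS _ h
  rw [show r / 2 * 8 = rf r / 8 * 8 by rw [rf_eq]; omega, ← hx_eq] at this
  simp only [Env.Sem, hh, Nat.land_eq]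
  iterate 13 rw [bt_and (by decide)]
  exact this

/-- the conditions of a node hold for a point of its region -/
def Ok (E : Env α) (t : α → ℝ) (x r c j z : ℕ) (p s : α) : Prop :=
  (bt x 60 1 = 1 → (if r % 2 = 0 then t p ≤ t s else t s ≤ t p) ∨ ((z / 16 : ℕ) - (c : ℤ)) % 120 ≠ 0) ∧
  (bt x 62 1 = 1 → E.ρ p ≤ E.ρ s ∨ z % 16 ≠ j) ∧ (bt x 64 1 = 1 → E.ρ s ≤ E.ρ p ∨ z % 16 ≠ j)

theorem use_go (hS : E.NS H i) (h : r / 2 < i) (hj : bt (hh H r) 40 31 = j) (ht : E.Ch t) (hc : c ≤ 255)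
    (hp : E.At t c j p) (hpS : p ∉ S) (hin : ∀ s ∈ S, Ac E t m (κ s) s ∧
      mb (bm H r) (4080 - 16 * c + κ s) ∧ Ok E t (hh H r) r c j (κ s) p s) :
    WK E.D (hk H r + 1) p S (hv (hh H r) (pz r (t p - (c : ℤ))) (E.fr j p)) := by
  have g := sem_hh hS h
  rw [Env.Sem, hj] at g
  have key : ∀ (τ : α → ℝ) (d : ℤ), E.Ch τ → E.At τ d j p → (∀ s ∈ S, ∃ e : ℤ, E.At τ e (κ s % 16) s ∧
      e - d = (if r % 2 = 0 then (κ s / 16 : ℕ) - (c : ℤ) else c - (κ s / 16 : ℕ)) ∧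
      ((if r % 2 = 0 then t p ≤ t s else t s ≤ t p) → τ p ≤ τ s)) →
      WK E.D (hk H r + 1) p S (hv (hh H r) (τ p - d) (E.fr j p)) := fun τ d h1 h2 h3 =>
    g.box h1 h2 hpS fun s hs => by
      obtain ⟨e, a1, a2, a3⟩ := h3 s hs
      obtain ⟨-, b1, b2, b3, b4⟩ := hin s hs
      obtain ⟨⟨w, y, c1, c2, c3, c4⟩, c5, c6, c7, c8⟩ := bm_spec hc b1
      rw [Nat.land_eq, and1, ← a2] at c1
      have d1 : ((d + bt (hh H r) 108 255 - 120 : ℤ) : ℝ) ≤ (e + 120 * w : ℤ) := Int.cast_le.2 (by omega)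
      have d2 : ((e + 120 * w + 1 : ℤ) : ℝ) ≤ (d + (255 - bt (hh H r) 119 255 : ℕ) - 120 : ℤ) :=
        Int.cast_le.2 (by omega)
      push_cast at d1 d2
      refine ⟨w, by linarith [a1.a], by linarith [a1.b], (E.mono.monotone c5).trans a1.lo,
        a1.hi.trans (E.mono.monotone (by omega)), fun f => ?_, nofun, fun f => ?_, fun f => ?_⟩
      · obtain ⟨e1, e2⟩ := c4 f
        rcases b2 f with u | u
        · have : (0 : ℝ) ≤ w := by exact_mod_cast e1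
          linarith [a3 u]
        · have : ((d + 1 : ℤ) : ℝ) ≤ (e + 120 * w : ℤ) := Int.cast_le.2 (by split_ifs at a2 <;> omega)
          push_cast at this
          linarith [a1.a, h2.b]
      · exact (b3 f).elim id fun u => h2.hi.trans ((E.mono.monotone (by have := c7 f; omega)).trans a1.lo)
      · exact (b4 f).elim id fun u => a1.hi.trans ((E.mono.monotone (by have := c8 f; omega)).trans h2.lo)
  unfold pz
  split_ifs at key ⊢
  · exact key t c ht hp fun s hs => ⟨_, (hin s hs).1.2.2, rfl, id⟩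
  · have := key _ _ ht.neg hp.neg fun s hs => ⟨_, (hin s hs).1.2.2.neg, by ring, neg_le_neg⟩
    convert this using 2
    push_cast
    ring

end

end Pool.Agent.MP_1037db_co.Q

end

section
set_option linter.unusedSectionVars false

/-! The programs of the robots. -/

namespace Pool.Agent.MP_1037db_co.Q

open LP

noncomputable section

theorem bt_add {X p q n k c : ℕ} (h : bt X p (2 ^ n - 1) + c < 2 ^ n) (hq : q + k ≤ p ∨ p + n ≤ q) :
    bt (X + c <<< p) q (2 ^ k - 1) = bt X q (2 ^ k - 1) := by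
  simp only [bt_eq, Nat.shiftLeft_eq] at h ⊢
  rcases hq with e | e
  · obtain ⟨w, rfl⟩ := Nat.exists_eq_add_of_le e
    rw [show c * 2 ^ (q + k + w) = 2 ^ q * (2 ^ k * (2 ^ w * c)) by ring,
      Nat.add_mul_div_left _ _ (by positivity), Nat.add_mul_mod_self_left]
  · obtain ⟨w, rfl⟩ := Nat.exists_eq_add_of_le e
    have c0 : c < 2 ^ n := by omega
    simp only [pow_add, ← Nat.div_div_eq_div_mul]
    rw [Nat.add_mul_div_right _ _ (by positivity), Nat.add_div_eq_of_add_mod_lt (by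
      rwa [Nat.mod_eq_of_lt c0]), Nat.div_eq_of_lt c0, Nat.add_zero]

theorem bt_add' {X p n c : ℕ} (h : bt X p (2 ^ n - 1) + c < 2 ^ n) :
    bt (X + c <<< p) p (2 ^ n - 1) = bt X p (2 ^ n - 1) + c := by
  simp only [bt_eq, Nat.shiftLeft_eq] at h ⊢
  rw [Nat.add_mul_div_right _ _ (by positivity), ← Nat.mod_add_mod, Nat.mod_eq_of_lt h]

theorem vis_spec {V w : ℕ} {f : ℕ → Bool} (h : vis V w f = true) :
    ¬ mb V w ∧ ∃ V', f V' = true ∧ ∀ u, mb V' u ↔ mb V u ∨ u = w := by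
  rw [vis, nrec] at h
  split_ifs at h with c
  refine ⟨mb_bt0.1 c, _, h, fun u => ?_⟩
  have e : bt V w (2 ^ 1 - 1) + 1 < 2 ^ 1 := by simp [c]
  rcases eq_or_ne u w with rfl | g
  · exact iff_of_true (mb_bt.1 ((bt_add' e).trans (by simp [c]))) (.inr rfl)
  · rw [← mb_bt, ← mb_bt, or_iff_left g]
    exact Eq.congr_left (bt_add (k := 1) e (by omega))

/-- points with cells, some of which are anchors -/
structure Cx (α : Type) where
  t : α → ℝ
  U : Finset α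
  κ : α → ℕ
  A : ℕ
  n : ℕ
  P : ℕ → α

variable [G : Geo] {α : Type} [DecidableEq α] {E : Env α} {X : Cx α} {H DT : Tr}
  {m i C N N' V V' M F F' K v w md j c r l R : ℕ} {S S' : Finset α} {β γ : ℝ} {Q Q' : Finset α → Prop}
  {D : α → α → ℝ} {p q : α} {cu κ κ' : ℕ → ℕ → ℕ → Bool} {g ih : ℕ → ℕ → ℕ → ℕ → Bool}

structure Cf (E : Env α) (m : ℕ) (X : Cx α) : Prop where
  ch : E.Ch X.t
  ac : ∀ s ∈ X.U, Ac E X.t m (X.κ s) s
  mem : ∀ u < X.n, X.P u ∈ X.U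
  cl : ∀ u < X.n, ce X.A u = X.κ (X.P u)
  inj : ∀ u < X.n, ∀ v < X.n, X.P u = X.P v → u = v
  n1 : 0 < X.n
  z : ∀ u, X.n ≤ u → u < 7 → ce X.A u = 0
  a7 : Ac E X.t m (ce X.A 7) (X.P 0)

theorem Cf.at (h : Cf E m X) (hv : v < X.n) : Ac E X.t m (ce X.A v) (X.P v) :=
  h.cl v hv ▸ h.ac _ (h.mem v hv)

/-- the first anchor is on the left side of column 120 -/
def Cx.Ex (X : Cx α) : Prop := X.t (X.P 0) = 120 ∧ ce X.A 0 / 16 = 120

def Cx.Pe (X : Cx α) (V : ℕ) (s : α) : Prop := ∃ u < X.n, ¬ mb V u ∧ s = X.P u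

/-- `S` is the set of sleeping points -/
structure Cx.Inv (X : Cx α) (N V : ℕ) (S : Finset α) : Prop where
  sub : S ⊆ X.U
  cov : ∀ s ∈ S, X.Pe V s ∨ mb N (X.κ s)
  pen : ∀ s, X.Pe V s → s ∈ S
  top : ∀ u, X.n ≤ u → u < 8 → mb V u
  ex : mb V 0 ∨ X.Ex

theorem Cx.Inv.flt (h : X.Inv N V S) (Z : α → Prop) [DecidablePred Z] (h1 : ∀ s, Z s → ¬ X.Pe V s)
    (h2 : ∀ s ∈ S, ¬ X.Pe V s → ¬ Z s → mb N (X.κ s) → mb N' (X.κ s)) :
    X.Inv N' V (S.filter fun s => ¬ Z s) :=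
  ⟨(Finset.filter_subset _ _).trans h.sub, fun s hs => or_iff_not_imp_left.2 fun a =>
    have := Finset.mem_filter.1 hs; h2 s this.1 a this.2 ((h.cov s this.1).resolve_left a),
    fun s hs => Finset.mem_filter.2 ⟨h.pen s hs, fun z => h1 s z hs⟩, h.top, h.ex⟩

theorem Cx.Inv.lt (h : X.Inv N V S) (h1 : ¬ mb V w) (h2 : w ≤ 7) : w < X.n :=
  not_le.1 fun c => h1 (h.top w c (by omega))

theorem Cx.Inv.vis (h : X.Inv N V S) (hf : Cf E m X) (hw : w < X.n)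
    (hV : ∀ u, mb V' u ↔ mb V u ∨ u = w) : X.Inv N V' (S.erase (X.P w)) :=
  ⟨(Finset.erase_subset _ _).trans h.sub, fun s hs => have := Finset.mem_erase.1 hs
    (h.cov s this.2).imp_left fun ⟨u, a, b, c⟩ => ⟨u, a, fun e => ((hV u).1 e).elim b fun e =>
      this.1 (e ▸ c), c⟩,
    fun s ⟨u, a, b, c⟩ => Finset.mem_erase.2 ⟨fun e => b ((hV u).2 (.inr (hf.inj u a w hw (c ▸ e)))),
      h.pen s ⟨u, a, fun e => b ((hV u).2 (.inl e)), c⟩⟩,
    fun u a b => (hV u).2 (.inl (h.top u a b)), h.ex.imp_left fun e => (hV 0).2 (.inl e)⟩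

/-- the robots wake a part of `S`, and the rest has the property `Q` -/
def Rs (D : α → α → ℝ) (p : α) (β : ℝ) (Q : Finset α → Prop) (F : ℕ) (S : Finset α) : Prop :=
  ∃ S' ⊆ S, WK D F p (S \ S') β ∧ Q S'

theorem Rs.cat (h : Rs D p β Q F' S') (h1 : S' ⊆ S) (h2 : WK D K p (S \ S') β) (hF : K + F' ≤ F) :
    Rs D p β Q F S := by
  obtain ⟨T, a, b, c⟩ := h
  refine ⟨T, a.trans h1, (WK.split (· ∉ S') (k := K) (l := F') ?_ ?_).mono hF le_rfl, c⟩
  · convert h2 using 1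
    ext s
    have := @a s
    simp only [Finset.mem_filter, Finset.mem_sdiff]
    tauto
  · convert b using 1
    ext s
    have := @h1 s
    simp only [Finset.mem_filter, Finset.mem_sdiff]
    tauto

theorem Rs.nil (h0 : 0 ≤ β) (h : Q S) : Rs D p β Q F S :=
  ⟨S, subset_rfl, by rw [Finset.sdiff_self]; exact WK.empty h0, h⟩

theorem Rs.move (hD : Met D) (hq : q ∈ S) (h : Rs D q γ Q' (l + 2) (S.erase q))
    (hQ : ∀ T ⊆ S, Q' T → Rs D p β Q F' T) (hd : D p q + γ ≤ β) (hF : l + 1 + F' ≤ F) : Rs D p β Q F S := by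
  obtain ⟨T, a, b, c⟩ := h
  have e := a.trans (Finset.erase_subset _ _)
  refine (hQ T e c).cat e (WK.step hD (q := q) (Finset.mem_sdiff.2 ⟨hq, fun x =>
    Finset.notMem_erase _ _ (a x)⟩) ?_ hd) hF
  rwa [← Finset.erase_sdiff_comm]

def Cx.W (X : Cx α) (D : α → α → ℝ) (v md : ℕ) (β : ℝ) (Q : Finset α → Prop) (F : ℕ) (S : Finset α) : Prop :=
  X.P v ∉ S → (md = 2 → X.P 0 ∉ S) → Rs D (X.P v) β Q F S

def Cx.Kt (X : Cx α) (κ : ℕ → ℕ → ℕ → Bool) (Q : Finset α → Prop) : Prop :=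
  ∀ s N V S, κ s N V = true → X.Inv N V S → Q S

def Cx.Pg (X : Cx α) (D : α → α → ℝ) (v md : ℕ) (β : ℝ) (Q : Finset α → Prop)
    (g : ℕ → ℕ → ℕ → ℕ → Bool) : Prop := ∀ F ≤ 8, X.Kt (g F) (X.W D v md β Q F)

def Cx.Op (X : Cx α) (D : α → α → ℝ) (v md : ℕ) (β : ℝ) (op : OP) : Prop :=
  ∀ ih Q, (0 ≤ β → X.Pg D v md β Q ih) → X.Pg D v md β Q (op ih)

theorem Cx.W.use (Z : α → Prop) [DecidablePred Z] (hF : K + F' ≤ F)
    (h1 : X.P v ∉ S → (md = 2 → X.P 0 ∉ S) → WK D K (X.P v) (S.filter Z) β)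
    (h2 : 0 ≤ β → X.W D v md β Q F' (S.filter fun s => ¬ Z s)) : X.W D v md β Q F S := fun a b => by
  have e := Finset.filter_subset (fun s => ¬ Z s) S
  refine (h2 (h1 a b).1 (fun x => a (e x)) fun y x => b y (e x)).cat e ?_ hF
  convert h1 a b using 1
  ext s
  simp only [Finset.mem_filter, Finset.mem_sdiff]
  tauto

structure Hy (E : Env α) (H DT : Tr) (m i C : ℕ) (X : Cx α) : Prop where
  ns : E.NS H i
  tb : E.TB DT m
  hi : i ≤ 262144
  cf : Cf E m X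
  fl : ∀ s ∈ X.U, E.Fl X.t (X.P 0) (C &&& 1) 0 (bt C 1 1) (bt C 2 1) s
  od : ∀ v w, od C v w = true → v < X.n ∧ w < X.n ∧ X.t (X.P v) ≤ X.t (X.P w)

def Fg (x l a b : ℕ) : Prop := bt x 60 1 ≤ l ∧ bt x 62 1 ≤ a ∧ bt x 64 1 ≤ b

/-- the position of the robots -/
structure Po (E : Env α) (H : Tr) (i : ℕ) (t : α → ℝ) (cu : ℕ → ℕ → ℕ → Bool) (c j : ℕ) (p : α) (β : ℝ) :
    Prop where
  a : E.At t c j p
  c1 : c ≤ 255
  j1 : j < 16
  cu : CU H i cu j (t p - (c : ℤ)) (E.fr j p) β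

variable {xL xR xI xO e0 e1 sh : ℕ}

theorem us_go {f : ℕ → Bool} (hy : Hy E H DT m i C X) (hp : Po E H i X.t cu c j p β) (hr : r ≤ 262143)
    (hF : F ≤ 8) (a : xL ≤ 1 ∧ xR ≤ 1 ∧ xI ≤ 1 ∧ xO ≤ 1) (h0 : e0 = ee 0 j xL xI xO) (h1 : e1 = ee 0 j xR xI xO)
    (h : us H cu r e0 e1 F f = true) : ∃ F', f F' = true ∧ hk H r + 1 + F' ≤ F ∧
      Fg (hh H r) (if r % 2 = 0 then xL else xR) xI xO ∧ ∀ S : Finset α, p ∉ S → (∀ s ∈ S, s ∈ X.U ∧
        mb (bm H r) (4080 - 16 * c + X.κ s) ∧ Ok E X.t (hh H r) r c j (X.κ s) p s) →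
        WK E.D (hk H r + 1) p S β := by
  rw [us, nrec] at h
  split_ifs at h with e
  obtain ⟨b, h⟩ := an_iff.1 h
  have k : ∀ x, Nat.add (ee 0 j x xI xO) (Nat.mul (F - 1) 68719476736) = ee (F - 1) j x xI xO := fun x => by
    simp only [ee, Nat.add_eq, Nat.mul_eq]
    ring
  rw [h0, h1] at b
  obtain ⟨u, w⟩ := hp.cu r (F - 1) xL xR xI xO hr (by omega) a.1 a.2.1 a.2.2.1 a.2.2.2 (k xL ▸ k xR ▸ b)
  have : hk H r ≤ F - 1 := u.k
  exact ⟨_, h, by simp only [Nat.sub_eq]; omega, ⟨u.l, u.fi, u.fo⟩, fun S x y => (use_go hy.ns u.n u.p hy.cf.ch hp.c1 hp.a x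
    fun s hs => ⟨hy.cf.ac s (y s hs).1, (y s hs).2⟩).mono le_rfl w⟩

theorem u_go {s : ℕ} (hy : Hy E H DT m i C X) (hp : Po E H i X.t cu c j (X.P v) β) (hr : r ≤ 262143)
    (hF : F ≤ 8) (a : xL ≤ 1 ∧ xR ≤ 1 ∧ xI ≤ 1 ∧ xO ≤ 1) (h0 : e0 = ee 0 j xL xI xO) (h1 : e1 = ee 0 j xR xI xO)
    (hs : sh = 4080 - 16 * c) (hM : Fg (hh H r) (if r % 2 = 0 then xL else xR) xI xO → ∀ z ∈ X.U,
      mb M (sh + X.κ z) → mb (bm H r) (sh + X.κ z) ∧ Ok E X.t (hh H r) r c j (X.κ z) (X.P v) z)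
    (hi : 0 ≤ β → X.Pg E.D v md β Q ih) (hI : X.Inv N V S)
    (h : us H cu r e0 e1 F (fun F' => ih F' s (dl N (M >>> sh)) V) = true) : X.W E.D v md β Q F S := by
  classical
  obtain ⟨F', a1, a2, a3, a4⟩ := us_go hy hp hr hF a h0 h1 h
  refine .use (fun z => ¬ X.Pe V z ∧ mb M (sh + X.κ z)) a2 (fun b _ => a4 _ (fun x => b
    (Finset.mem_filter.1 x).1) fun z hz => ?_) fun b => hi b F' (by omega) _ _ _ _ a1
      (hI.flt _ (fun _ => And.left) fun z _ x y u => mb_dl.2 ⟨u, fun e => y ⟨x, mb_shr.1 e⟩⟩)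
  obtain ⟨x, -, y⟩ := Finset.mem_filter.1 hz
  exact ⟨hI.sub x, hs ▸ hM a3 z (hI.sub x) y⟩

theorem u0_go (hy : Hy E H DT m i C X) (hp : Po E H i X.t cu c j (X.P v) β)
    (a : xL ≤ 1 ∧ xI ≤ 1 ∧ xO ≤ 1) (h0 : e0 = ee 0 j xL xI xO) (h1 : e1 = ee 0 j 0 xI xO)
    (hs : sh = 4080 - 16 * c) (hf : ∀ s ∈ X.U, E.Fl X.t (X.P v) xL 0 xI xO s) :
    X.Op E.D v md β (u0 H cu e0 e1 sh) := fun ih Q hi F hF s N V S h hI =>
  u_go hy hp (bt_le _ _ _) hF ⟨a.1, zero_le_one, a.2⟩ h0 h1 hs (fun ⟨b, d, e⟩ z hz x => ⟨x, fun y => .inl (by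
    rw [y] at b
    split_ifs at b ⊢
    · exact (hf z hz).l (by omega)
    · omega), fun y => .inl ((hf z hz).i (by omega)), fun y => .inl ((hf z hz).o (by omega))⟩) hi hI h

theorem lv_line {z : ℕ} (hc : c ≤ 255) (hz : z < 4096) (h : ¬ mb LV (4080 - 16 * c + z)) :
    ((z / 16 : ℕ) - (c : ℤ)) % 120 ≠ 0 := fun e => h (mb_LV.2 (by omega))

theorem on_line {z : ℕ} (hc : c ≤ 255) (hz : z < 4096) (h : ¬ mb (ON <<< j) (4080 - 16 * c + z)) :
    z % 16 ≠ j := fun e => h (mb_shl.2 ⟨by omega, mb_ON.2 (by omega)⟩)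

theorem u2_go {L s x y xI' xO' : ℕ} (hy : Hy E H DT m i C X) (hp : Po E H i X.t cu c j (X.P v) β)
    (hx : x ≤ 262143) (hx' : y ≤ 262143) (hF : F ≤ 8) (a : xL ≤ 1 ∧ xI ≤ 1 ∧ xO ≤ 1 ∧ xI' ≤ 1 ∧ xO' ≤ 1)
    (h0 : e0 = ee 0 j xL xI xO) (h1 : e1 = ee 0 j xL xI' xO') (hs : sh = 4080 - 16 * c)
    (hO : Fg (hh H x) xL xI xO → Fg (hh H y) xL xI' xO' → ∀ z ∈ X.U,
      (¬ mb L (sh + X.κ z) → Ok E X.t (hh H x) x c j (X.κ z) (X.P v) z ∧ Ok E X.t (hh H y) y c j (X.κ z) (X.P v) z) ∧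
      (Ok E X.t (hh H x) x c j (X.κ z) (X.P v) z ∨ Ok E X.t (hh H y) y c j (X.κ z) (X.P v) z))
    (hi : 0 ≤ β → X.Pg E.D v md β Q ih) (hI : X.Inv N V S)
    (h : u2 H cu e0 e1 L sh ih F s N V x y = true) : X.W E.D v md β Q F S := by
  classical
  subst hs
  simp only [u2, fb_eq] at h
  obtain ⟨F1, a1, a2, a3, a4⟩ := us_go hy hp hx hF ⟨a.1, a.1, a.2.1, a.2.2.1⟩ h0 h0 h
  obtain ⟨F2, b1, b2, b3, b4⟩ := us_go hy hp hx' (show F1 ≤ 8 by omega) ⟨a.1, a.1, a.2.2.2⟩ h1 h1 a1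
  rw [ite_self] at a3 b3
  have k := fun r => hI.flt (N' := N) (fun z => ¬ X.Pe V z ∧ mb (bm H r) (4080 - 16 * c + X.κ z) ∧
    Ok E X.t (hh H r) r c j (X.κ z) (X.P v) z) (fun _ => And.left) fun _ _ _ _ u => u
  refine .use _ a2 (fun b _ => a4 _ (fun x => b (Finset.mem_filter.1 x).1) fun z hz => ?_) fun b =>
    .use (fun z => ¬ X.Pe V z ∧ mb (bm H y) (4080 - 16 * c + X.κ z) ∧ Ok E X.t (hh H y) y c j (X.κ z) (X.P v) z)
      b2 (fun b _ => b4 _ (fun x => b (Finset.mem_filter.1 x).1) fun z hz => ?_) fun b =>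
      hi b F2 (by omega) _ _ _ _ b1 ((k x).flt _ (fun _ => And.left) fun z hz u1 u2 u3 => mb_dl.2 ⟨u3, fun e => ?_⟩)
  · exact ⟨hI.sub (Finset.mem_filter.1 hz).1, (Finset.mem_filter.1 hz).2.2⟩
  · exact ⟨(k x).sub (Finset.mem_filter.1 hz).1, (Finset.mem_filter.1 hz).2.2⟩
  · obtain ⟨d1, d2⟩ := Finset.mem_filter.1 hz
    obtain ⟨o1, o2⟩ := hO a3 b3 z (hI.sub d1)
    simp only [Nat.shiftRight_eq', Nat.lor_eq, Nat.land_eq, mb_shr, mb_or, mb_dl, mb_and] at e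
    rcases e with ⟨e | e, g⟩ | e
    exacts [d2 ⟨u1, e, (o1 g).1⟩, u2 ⟨u1, e, (o1 g).2⟩, o2.elim (d2 ⟨u1, e.1, ·⟩) (u2 ⟨u1, e.2, ·⟩)]

theorem stp_go {J O0 O1 : ℕ} {mo sp : OP} (hy : Hy E H DT m i C X) (hp : Po E H i X.t cu (c / 16) (c % 16) (X.P v) β)
    (hJ : J = (c &&& 15) * 1099511627776) (hs : sh = 4080 - 16 * (c / 16)) (h0 : X.Op E.D v md β (u0 H cu O0 O1 sh))
    (h1 : X.Op E.D v md β mo) (h2 : X.Op E.D v md β sp) (hk : X.Kt κ fun S => 0 ≤ β ∧ Q S)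
    (hi : 0 ≤ β → X.Pg E.D v md β Q ih) : X.Pg E.D v md β Q (stp H cu J O0 O1 sh c mo sp κ ih) := by
  intro F hF s N V S h hI
  simp only [stp, st2, nrec, u1, fb_eq, Nat.land_eq, Nat.shiftLeft_eq', Nat.shiftRight_eq', Nat.lor_eq, and15 c] at h hJ
  have lt := fun z hz => (hy.cf.ac z hz).1
  have no : ∀ {x : ℕ} {P : Prop}, x ≤ 0 → x = 1 → P := fun a b => by omega
  have e : ∀ {x a b d : ℕ}, x = ee 0 0 a b d → Nat.add J x = ee 0 (c % 16) a b d := fun e => by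
    simp only [e, hJ, ee, Nat.add_eq]
    ring
  split_ifs at h
  · exact fun _ _ => .nil (hk _ _ _ _ h hI).1 (hk _ _ _ _ h hI).2
  · exact h0 ih Q hi F hF _ _ _ _ h hI
  · exact h1 ih Q hi F hF _ _ _ _ h hI
  · exact u_go (xL := 1) (xR := 1) (xI := 0) (xO := 0) hy hp (bt_le _ _ _) hF (by omega) (e rfl) (e rfl) hs
      (fun ⟨_, a, b⟩ z hz x => ⟨(mb_dl.1 x).1, fun _ => .inr (lv_line hp.c1 (lt z hz) (hs ▸ (mb_dl.1 x).2)),
        no a, no b⟩) hi hI h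
  · refine u_go (xL := 0) (xR := 0) (xI := 1) (xO := 1) hy hp (bt_le _ _ _) hF (by omega) (e rfl) (e rfl) hs
      (fun ⟨a, _⟩ z hz x => ?_) hi hI h
    have := on_line hp.c1 (lt z hz) (hs ▸ (mb_dl.1 x).2)
    exact ⟨(mb_dl.1 x).1, no (ite_self 0 ▸ a), fun _ => .inr this, fun _ => .inr this⟩
  · have o1 : (bt s 3 262143 ||| 1) % 2 = 1 := by simp
    have o2 : bt s 21 262142 % 2 = 0 := by
      have : bt s 21 262142 = _ := fld (s >>> 21) 1 131071
      omega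
    refine u2_go (xL := 1) (xI := 0) (xO := 0) (xI' := 0) (xO' := 0) hy hp (Nat.le_of_lt_succ
      (Nat.or_lt_two_pow (n := 18) (Nat.lt_succ_of_le (bt_le _ _ _)) (by norm_num)))
      ((bt_le _ _ _).trans (by norm_num)) hF (by omega) (e rfl) (e rfl) hs
      (fun ⟨_, a, b⟩ ⟨_, a', b'⟩ z hz => ⟨fun x => ?_, ?_⟩) hi hI h
    · have := lv_line hp.c1 (lt z hz) (hs ▸ x)
      exact ⟨⟨fun _ => .inr this, no a, no b⟩, fun _ => .inr this, no a', no b'⟩
    · exact (le_total _ _).imp (fun x => ⟨fun _ => .inl (by rwa [if_neg (by omega)]), no a, no b⟩)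
        fun x => ⟨fun _ => .inl (by rwa [if_pos o2]), no a', no b'⟩
  · refine u2_go (xL := 0) (xI := 0) (xO := 1) (xI' := 1) (xO' := 0) hy hp (bt_le _ _ _) (bt_le _ _ _) hF
      (by omega) (e rfl) (e rfl) hs (fun ⟨a, b, _⟩ ⟨a', _, b'⟩ z hz => ⟨fun x => ?_, ?_⟩) hi hI h
    · have := on_line hp.c1 (lt z hz) (hs ▸ x)
      exact ⟨⟨no a, no b, fun _ => .inr this⟩, no a', fun _ => .inr this, no b'⟩
    · exact (le_total _ _).imp (fun x => ⟨no a, no b, fun _ => .inl x⟩) fun x => ⟨no a', fun _ => .inl x, no b'⟩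
  · exact h2 ih Q hi F hF _ _ _ _ h hI

end

end Pool.Agent.MP_1037db_co.Q

end
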