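import Pool.Agent.MP_1037db_co.LP.Chk

/-! Transfer of checked nodes into a new table. -/

namespace Pool.Agent.MP_1037db_co.Q

open Nat (add mul land beq)
open Pool.Agent.MP_1037db_co.LP

noncomputable section

def h7 (H : Tr) (k : Nat) : Nat :=
  land (hx H (mul k (nat_lit 8))) (nat_lit 340282366920938463463374607431768211455)

/-- the nodes `32 * c ≤ j < 32 * (c + n)` of `H'` are among the first `i` nodes of `H`;
leaf `y` of `P` lists the numbers (18 bits each) of the nodes `32 * y, …, 32 * y + 31` -/
def cpy (H H' P : Tr) (i c n : Nat) : Bool :=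
  al n fun x => fb (add c x) fun y => fb (P.get y) fun s => al (nat_lit 32) fun z =>
    fb (bt s (mul z (nat_lit 18)) (nat_lit 262143)) fun k =>
      an (lt k i) (beq (h7 H' (add (mul y (nat_lit 32)) z)) (h7 H k))

theorem cpy_app {H H' P : Tr} {i c n : Nat} (k : Nat) (a : cpy H H' P i c n = true)
    (b : cpy H H' P i (c + n) k = true) : cpy H H' P i c (n + k) = true := by
  have e : ∀ x y : Bool, an x y = true ↔ x = true ∧ y = true := by decide
  induction k with
  | zero => exact a
  | succ k ih =>
    have b := (e _ _).mp b
    refine (e _ _).mpr ⟨?_, ih b.right⟩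
    simpa only [Nat.add_eq, Nat.add_assoc] using b.left

end

end Pool.Agent.MP_1037db_co.Q
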