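import Pool.Agent.MP_1037db_co.F.Chk

/-! A checker that treats many test nodes at once: one number holds one record of 576 bits for every step. -/

namespace Pool.Agent.MP_1037db_co.Q

open LP

open Nat (add mul sub div land lor shiftLeft shiftRight ble beq)

noncomputable section

/-- comparison of all marked digits -/
def lev (Gt G A B : Nat) : Bool := beq (land (sub (add B G) A) Gt) Gt

def z5 (O j k tA uj uk uK tY TT VV GG : Nat) : Bool :=
  (an (lev (mul (nat_lit 32768) tY) (mul (nat_lit 32768) O) uK (mul (nat_lit 1) O))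
  (an (beq (land (add k (mul (nat_lit 256) j)) (mul (nat_lit 16383) tY)) (land (add uk (mul (nat_lit 256) uj)) (mul (nat_lit 16383) tY)))
  (an (beq (land (sub (add TT (mul (nat_lit 363419362147803445274661903944002267176820680343659030140745099590319644056698961663095525356881782780381260803133088966767300814307328) O)) VV) (add GG (mul (nat_lit 34084860461056) tA))) GG)
  true)))

def z4 (O x u i hi n0 n2 n1 n3 j k cs sA s1 sB s2 Kc tA tL nr sd rf K jp fL fI fO uj uk uE uK uV ua ub Pa Pb ns tQ ss nQ je al be ga de c1 c2 tP dd GG : Nat) : Bool :=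
  (an (lev (mul (nat_lit 32768) O) (mul (nat_lit 32768) O) (add (land (add ua ub) (mul (nat_lit 1023) uV)) tL) (mul (nat_lit 7) tP))
  (an (beq (land (add (add cs (mul (nat_lit 256) (add sA (mul (nat_lit 2) s1)))) (mul (nat_lit 1024) (add sB (mul (nat_lit 2) s2)))) (mul (nat_lit 16383) tP)) (land (add (add (land (mul (nat_lit 255) O) (shiftRight u (nat_lit 46))) (mul (nat_lit 256) ub)) (mul (nat_lit 1024) ua)) (mul (nat_lit 16383) tP)))
  (an (lev (mul (nat_lit 32768) O) (mul (nat_lit 32768) O) tP ss)
  (an (lev (mul (nat_lit 32768) tP) (mul (nat_lit 32768) O) (add (add Kc (mul (nat_lit 1) O)) (land uK (mul (nat_lit 1023) tL))) K)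
  (an (lev (mul (nat_lit 32768) uE) (mul (nat_lit 32768) O) je (add uj nr))
  (z5 O j k tA uj uk uK (land tP (sub O tL)) (add (add (add (add (add (add (add (add (add (add (add (add (mul (nat_lit 68719476736) Kc) (mul (nat_lit 1099511627776) (add (land j (mul (nat_lit 1023) tQ)) (land jp (mul (nat_lit 1023) nQ))))) (mul (nat_lit 70368744177664) c1)) (mul (nat_lit 4503599627370496) (sub (mul (nat_lit 1023) O) c2))) (mul (nat_lit 4611686018427387904) (add (land tQ n2) (land nQ fI)))) (mul (nat_lit 18446744073709551616) (add (land tQ n3) (land nQ fO)))) (mul (nat_lit 10889035741470030830827987437816582766592) (add i hi))) (mul (nat_lit 864691128455135232) (add (land (add (land tQ n0) (land nQ fL)) (mul (nat_lit 1023) ns)) (land sd (land tQ n1))))) (mul (nat_lit 324518553658426726783156020576256) (add (land (add de (mul (nat_lit 1) O)) (mul (nat_lit 1023) sd)) (land al (mul (nat_lit 1023) ns))))) (mul (nat_lit 664613997892457936451903530140172288) (add (land al (mul (nat_lit 1023) sd)) (land de (mul (nat_lit 1023) ns)))))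 (mul (nat_lit 7067415219060204468974481253372378698352689322148743724669014129235722240) (add (land Pb (mul (nat_lit 4503599627370495) sd)) (land Pa (mul (nat_lit 4503599627370495) ns))))) (mul (nat_lit 157608626012479106950455875032358246031540767862531061979056877007350196635150709975299591994347402807817141055651840) (add (land Pa (mul (nat_lit 4503599627370495) sd)) (land Pb (mul (nat_lit 4503599627370495) ns))))) (mul (nat_lit 1419612298781011615649678952475016771720260989886843619185417813866810540483857042694292118016527582965323796384076857649803550523392) O)) (add (add (add (add (add (add (add (land (mul (nat_lit 169559321693759672634918283878271549440) O) x) (mul (nat_lit 324518553658426726783156020576256) (add (land be (mul (nat_lit 1023) sd)) (land ga (mul (nat_lit 1023) ns))))) (mul (nat_lit 664613997892457936451903530140172288) (add (land (add ga (mul (nat_lit 1) O)) (mul (nat_lit 1023) sd)) (land be (mul (nat_lit 1023) ns))))) (mul (nat_lit 39857368760327970583363107259099906048) (land (mul (nat_lit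 6) O) rf))) (mul (nat_lit 1361129467683753853853498429727072845824) rf)) (mul (nat_lit 8749002899259362446010914288862263316938264250957424987683741951865249249594447408324457076761821184) (land (mul (nat_lit 81128709954854851177730365259775) O) x))) (mul (nat_lit 5708990770823839524233143877797980545530986496) (land (mul (nat_lit 5575122496445468265719638887927621074354175) O) dd))) (mul (nat_lit 127314748520905380391777855525586135065716774604121015664758778084648831235208544136462336) (land (mul (nat_lit 22300745198530623141535718272648361505980415) O) (shiftRight dd (nat_lit 72))))) GG))))))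

def z3 (O x u i o hi n0 n2 n1 n3 j k cs f6 sA s1 sB s2 Kc tA tT tE tL tV nc nr sd rf K jp fL fI fO a uj uk uE uK uV ua ub Pa Pb b j2 ns tQ uX tC cc oe ss en tF ke kc u0 xs nQ chi clo jhi jlo be c1 c2 dd mc me a0 a3 : Nat) : Bool :=
  (an (lev (mul (nat_lit 32768) tA) (mul (nat_lit 32768) O) c2 (mul (nat_lit 31) O))
  (an (lev (mul (nat_lit 32768) tT) (mul (nat_lit 32768) O) (add clo (mul (nat_lit 1) O)) chi)
  (an (lev (mul (nat_lit 32768) tT) (mul (nat_lit 32768) O) (add jlo (mul (nat_lit 1) O)) jhi)
  (an (lev (mul (nat_lit 32768) tT) (mul (nat_lit 32768) O) jhi j2)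
  (an (lev (mul (nat_lit 32768) tF) (mul (nat_lit 32768) O) b chi)
  (an (lev (mul (nat_lit 32768) tF) (mul (nat_lit 32768) O) j2 jhi)
  (an (lev (mul (nat_lit 32768) tV) (mul (nat_lit 32768) O) oe (add (add (mul (nat_lit 58) uX) xs) (mul (nat_lit 61) O)))
  (an (lev (mul (nat_lit 32768) O) (mul (nat_lit 32768) O) (add (mul (nat_lit 61) (land tC f6)) xs) oe)
  (an (lev (mul (nat_lit 32768) u0) (mul (nat_lit 32768) O) (add cc (mul (nat_lit 2) O)) (add k oe))
  (an (lev (mul (nat_lit 32768) u0) (mul (nat_lit 32768) O) (add ke (mul (nat_lit 1) O)) (add cc oe))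
  (an (beq (add (land k (mul (nat_lit 1023) uX)) (mul (nat_lit 2) (land o (mul (nat_lit 1023) xs)))) (add (land (add cc o) (mul (nat_lit 1023) uX)) (mul (nat_lit 120) xs)))
  (an (lev (mul (nat_lit 32768) uE) (mul (nat_lit 32768) O) uk (add (land kc (mul (nat_lit 1023) nc)) (land clo (mul (nat_lit 1023) nr))))
  (an (lev (mul (nat_lit 32768) en) (mul (nat_lit 32768) O) chi kc)
  (z4 O x u i hi n0 n2 n1 n3 j k cs sA s1 sB s2 Kc tA tL nr sd rf K jp fL fI fO uj uk uE uK uV ua ub Pa Pb ns tQ ss nQ (add (land j (mul (nat_lit 1023) tE)) (land jhi (mul (nat_lit 1023) tT))) (add (land (add cs (mul (nat_lit 1) O)) (mul (nat_lit 1023) sA)) (land (add (land ke (mul (nat_lit 1023) n0)) (land (add a (mul (nat_lit 1) O)) (mul (nat_lit 1023) (sub O n0)))) (mul (nat_lit 1023) (sub O sA)))) be (add (land ke (mul (nat_lit 1023) tQ)) (mul (nat_lit 121) nQ)) (add (land k (mul (nat_lit 1023) tQ)) (mul (nat_lit 120) nQ)) c1 c2 (land (land tA nQ) (land (sub O tT) nc)) dd (add (add (add (add (add (add (add (add (mul (nat_lit 363419362147803445274662204557452862227490537659550925546356008514348411267099472524874184471795814509130920981502757775537834823778304)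 tA) (mul (nat_lit 13479973333575320645622345856932109457105206562007192304389267128320) a0)) (mul (nat_lit 196159429230833773869868419475239575503198607639501078528) (land a0 mc))) (mul (nat_lit 51422017416287688817342786954917203280710495801049370729644032) (land a0 me))) (mul (nat_lit 4374501449566023848745930790949141260269727429666494376114367372697231122911067507119089659083227136) mc)) (mul (nat_lit 1146749307995035755805653281262571686532147427322493501732124720548342955484398880586226639590713494339584) me)) (mul (nat_lit 1419606883389857286908160455070217280717535982879645696646764086205579445493067127487910438919740686814396809782069910389690749419520) a3)) (mul (nat_lit 20657999024695268717247353376024094994637646342633788102645274852325180976134729557037162826241102651487225375781979947008) (land a3 mc))) (mul (nat_lit 5415370496329716522614090203404460358274291162843391748379842930887932241807862544999950011922147613471467208908991351228465152) (land a3 me)))))))))))))))))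

def z2 (O w x d u m i o hi sb n0 n2 n1 n3 j tZ k cs f6 sA s1 sB s2 Kc tA tT tE tL tV tW nc nr gI gO gL sd rf K jp j1 fL fI fO a uj uk uE uK uV ua ub Pa Pb b j2 ns tQ uX tC cc wi oe ss en tF tR clo jlo c1 d0 : Nat) : Bool :=
  (an (lev (mul (nat_lit 32768) O) (mul (nat_lit 32768) O) (add tQ tL) tA)
  (an (lev (mul (nat_lit 32768) O) (mul (nat_lit 32768) O) (add tW ss) (mul (nat_lit 1) O))
  (an (lev (mul (nat_lit 32768) tA) (mul (nat_lit 32768) O) c1 (mul (nat_lit 31) O))
  (an (lev (mul (nat_lit 32768) tT) (mul (nat_lit 32768) O) j2 m)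
  (an (lev (mul (nat_lit 32768) tF) (mul (nat_lit 32768) O) clo a)
  (an (lev (mul (nat_lit 32768) tF) (mul (nat_lit 32768) O) jlo j1)
  (an (beq (land (land (mul (nat_lit 4095) O) (shiftRight w (nat_lit 16))) (mul (nat_lit 16383) tR)) (land (land (mul (nat_lit 4095) O) (shiftRight w (nat_lit 46))) (mul (nat_lit 16383) tR)))
  (an (lev (mul (nat_lit 32768) tZ) (mul (nat_lit 32768) O) oe (land (mul (nat_lit 63) O) (shiftRight d (nat_lit 0))))
  (an (lev (mul (nat_lit 32768) tA) (mul (nat_lit 32768) O) Kc (add K tQ))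
  (an (lev (mul (nat_lit 32768) (land en (sub O nr))) (mul (nat_lit 32768) O) j jlo)
  (z3 O x u i o hi n0 n2 n1 n3 j k cs f6 sA s1 sB s2 Kc tA tT tE tL tV nc nr sd rf K jp fL fI fO a uj uk uE uK uV ua ub Pa Pb b j2 ns tQ uX tC cc oe ss en tF (add k wi) (add k (land wi (mul (nat_lit 1023) tV))) (land tC (sub O f6)) (land uX sd) (sub O tQ) (add (land sb (mul (nat_lit 1023) n0)) (land b (mul (nat_lit 1023) (sub O n0)))) clo (add (land sb (mul (nat_lit 1023) n2)) (land j2 (mul (nat_lit 1023) (sub O n2)))) jlo (add (land cs (mul (nat_lit 1023) sB)) (land (add (land (add k (mul (nat_lit 1) O)) (mul (nat_lit 1023) n1)) (land b (mul (nat_lit 1023) (sub O n1)))) (mul (nat_lit 1023) (sub O sB)))) c1 (add (land cs (mul (nat_lit 1023) s2)) (land (add (land (add j (mul (nat_lit 1) O)) (mul (nat_lit 1023) n3)) (land j2 (mul (nat_lit 1023) (sub O n3)))) (mul (nat_lit 1023) (sub O s2)))) (land (mul (nat_lit 26327771615106622073631788543845694075442754821128109490054168575) O) (add (land d (mul (nat_lit 105312291668557186697918027683670432318895095400549111254310977535)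 uX)) (land (mul (nat_lit 22300745198530623141540440639131231151194113) d0) (mul (nat_lit 105312291668557186697918027683670432318895095400549111254310977535) tC)))) (land tQ (sub O gO)) (land tQ (sub O gI)) (land tQ (sub O (land gL ns))) (land tQ (sub O (land gL sd))))))))))))))

def z1 (O w x d u m e i o hi sb n0 n2 n1 n3 j jq tZ k cs wd f6 sA s1 sB s2 c Kc tS tA tT tE tL tV tW nc nr nx gI gO gL sd rf K jp j1 r2 fL fI fO a hb uj uk uE uK uV ua ub Pa Pb d0 : Nat) : Bool :=
  (an (lev (mul (nat_lit 32768) O) (mul (nat_lit 32768) O) (add (add (add tT tE) tS) tL) (mul (nat_lit 1) O))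
  (an (lev (mul (nat_lit 32768) O) (mul (nat_lit 32768) O) tT nr)
  (an (lev (mul (nat_lit 2097152) tA) (mul (nat_lit 2097152) O) (mul (nat_lit 2048) O) rf)
  (an (lev (mul (nat_lit 2097152) O) (mul (nat_lit 2097152) O) rf (mul (nat_lit 1050623) O))
  (an (lev (mul (nat_lit 32768) O) (mul (nat_lit 32768) O) tV tE)
  (an (lev (mul (nat_lit 32768) O) (mul (nat_lit 32768) O) (mul (nat_lit 2) tZ) (add tW tV))
  (an (lev (mul (nat_lit 32768) O) (mul (nat_lit 32768) O) (add (add (add tW gI) gO) gL) (mul (nat_lit 1) O))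
  (an (lev (mul (nat_lit 32768) tT) (mul (nat_lit 32768) O) (add jp (mul (nat_lit 1) O)) m)
  (an (beq (add (land (add (add (add n0 n1) n2) n3) (mul (nat_lit 1023) tT)) (land (add (add (add n0 n1) n2) n3) (mul (nat_lit 1023) tL))) tT)
  (an (beq (land jq (mul (nat_lit 1023) tV)) (land (add jp (mul (nat_lit 1) O)) (mul (nat_lit 1023) tV)))
  (an (beq (land o (mul (nat_lit 1023) tS)) (land hi (mul (nat_lit 1023) tS)))
  (an (lev (mul (nat_lit 32768) tS) (mul (nat_lit 32768) O) (mul (nat_lit 511) O) (land (mul (nat_lit 511) O) (shiftRight w (nat_lit 28))))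
  (an (lev (mul (nat_lit 32768) O) (mul (nat_lit 32768) O) tS (land O (shiftRight d (nat_lit 0))))
  (an (lev (mul (nat_lit 32768) O) (mul (nat_lit 32768) O) (add (add gI gO) gL) (add (add (land gI fI) (land gO fO)) (land gL fL)))
  (an (beq (add (land j (mul (nat_lit 1023) gI)) (land j (mul (nat_lit 1023) gO))) (add (land jp (mul (nat_lit 1023) gI)) (land jp (mul (nat_lit 1023) gO))))
  (an (beq (land k (mul (nat_lit 1023) gL)) (mul (nat_lit 120) gL))
  (an (lev (mul (nat_lit 32768) tL) (mul (nat_lit 32768) O) (add uV (mul (nat_lit 1) O)) (land O (shiftRight u (nat_lit 64))))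
  (an (lev (mul (nat_lit 32768) O) (mul (nat_lit 32768) O) (add nc nr) uE)
  (an (lev (mul (nat_lit 32768) O) (mul (nat_lit 32768) O) nx (add (add (land O (shiftRight u (nat_lit 65))) (land O (shiftRight u (nat_lit 63)))) (land O (shiftRight u (nat_lit 67)))))
  (an (beq (land (land (mul (nat_lit 1048575) O) (shiftRight w (nat_lit 8))) (mul (nat_lit 1048575) uE)) (land (land (mul (nat_lit 1048575) O) (shiftRight u (nat_lit 8))) (mul (nat_lit 1048575) uE)))
  (an (beq (land (land (mul (nat_lit 255) O) (shiftRight u (nat_lit 8))) (mul (nat_lit 1023) nx)) (land (add hi (mul (nat_lit 1) O)) (mul (nat_lit 1023) nx)))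
  (an (lev (mul (nat_lit 32768) O) (mul (nat_lit 32768) O) (add e (mul (nat_lit 256) (add (add (add tT tE) tS) tL))) (add (add hi (mul (nat_lit 257) O)) (mul (nat_lit 256) (add (add nc nr) nx))))
  (z2 O w x d u m i o hi sb n0 n2 n1 n3 j tZ k cs f6 sA s1 sB s2 Kc tA tT tE tL tV tW nc nr gI gO gL sd rf K jp j1 fL fI fO a uj uk uE uK uV ua ub Pa Pb (sub (mul (nat_lit 255) O) hb) (sub (mul (nat_lit 31) O) r2) (sub O sd) (land tV (sub O tZ)) (land tV (sub O tW)) (land tV tW) (mul (nat_lit 120) c) (add (land wd (mul (nat_lit 1023) tW)) (sub O tW)) (add (land (land (mul (nat_lit 127) O) (shiftRight w (nat_lit 76))) (mul (nat_lit 1023) tZ)) (land o (mul (nat_lit 1023) (sub O tZ)))) (add (add (add sA s1) sB) s2) (land tE (sub O nc)) (land tT (sub O tA)) (land tT tA) (add (land sb (mul (nat_lit 1023) n1)) (land a (mul (nat_lit 1023) (sub O n1)))) (add (land sb (mul (nat_lit 1023) n3)) (land j1 (mul (nat_lit 1023) (sub O n3)))) (add (land cs (mul (nat_lit 1023) s1)) (land (add (land j (mul (nat_lit 1023) n2)) (land j1 (mul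 (nat_lit 1023) (sub O n2)))) (mul (nat_lit 1023) (sub O s1)))) d0)))))))))))))))))))))))

def z0 (O w x h d u m e i : Nat) : Bool :=
  (z1 O w x d u m e i (land (mul (nat_lit 255) O) (shiftRight w (nat_lit 0))) (land (mul (nat_lit 255) O) (shiftRight w (nat_lit 8))) (land (mul (nat_lit 255) O) (shiftRight w (nat_lit 16))) (land O (shiftRight w (nat_lit 24))) (land O (shiftRight w (nat_lit 25))) (land O (shiftRight w (nat_lit 26))) (land O (shiftRight w (nat_lit 27))) (land (mul (nat_lit 15) O) (shiftRight w (nat_lit 28))) (land (mul (nat_lit 31) O) (shiftRight w (nat_lit 32))) (land O (shiftRight w (nat_lit 37))) (land (mul (nat_lit 255) O) (shiftRight w (nat_lit 38))) (land (mul (nat_lit 255) O) (shiftRight w (nat_lit 46))) (land (mul (nat_lit 63) O) (shiftRight w (nat_lit 46))) (land O (shiftRight w (nat_lit 52))) (land O (shiftRight w (nat_lit 54))) (land O (shiftRight w (nat_lit 55))) (land O (shiftRight w (nat_lit 56))) (land O (shiftRight w (nat_lit 57))) (land (mul (nat_lit 3) O) (shiftRight w (nat_lit 58)))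 (land (mul (nat_lit 7) O) (shiftRight w (nat_lit 60))) (land O (shiftRight w (nat_lit 63))) (land O (shiftRight w (nat_lit 64))) (land O (shiftRight w (nat_lit 65))) (land O (shiftRight w (nat_lit 66))) (land O (shiftRight w (nat_lit 67))) (land O (shiftRight w (nat_lit 68))) (land O (shiftRight w (nat_lit 69))) (land O (shiftRight w (nat_lit 70))) (land O (shiftRight w (nat_lit 71))) (land O (shiftRight w (nat_lit 72))) (land O (shiftRight w (nat_lit 73))) (land O (shiftRight w (nat_lit 74))) (land O (shiftRight w (nat_lit 75))) (land O (shiftRight w (nat_lit 76))) (land (mul (nat_lit 2097151) O) (shiftRight w (nat_lit 76))) (land (mul (nat_lit 3) O) (shiftRight h (nat_lit 36))) (land (mul (nat_lit 31) O) (shiftRight h (nat_lit 40))) (land (mul (nat_lit 31) O) (shiftRight h (nat_lit 46))) (land (mul (nat_lit 31) O) (shiftRight h (nat_lit 52))) (land O (shiftRight h (nat_lit 60))) (land O (shiftRight h (nat_lit 62))) (land O (shiftRight h (nat_lit 64))) (land (mul (nat_lit 255) O) (shiftRight h (nat_lit 108))) (land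 (mul (nat_lit 255) O) (shiftRight h (nat_lit 119))) (land (mul (nat_lit 15) O) (shiftRight u (nat_lit 28))) (land (mul (nat_lit 255) O) (shiftRight u (nat_lit 38))) (land O (shiftRight u (nat_lit 66))) (land (mul (nat_lit 7) O) (shiftRight u (nat_lit 60))) (land O (shiftRight u (nat_lit 68))) (land (mul (nat_lit 3) O) (shiftRight u (nat_lit 54))) (land (mul (nat_lit 3) O) (shiftRight u (nat_lit 56))) (add (land (mul (nat_lit 65535) O) (shiftRight h (nat_lit 72))) (mul (nat_lit 68719476736) (land (mul (nat_lit 65535) O) (shiftRight h (nat_lit 90))))) (add (land (mul (nat_lit 65535) O) (shiftRight h (nat_lit 0))) (mul (nat_lit 68719476736) (land (mul (nat_lit 65535) O) (shiftRight h (nat_lit 18))))) (land (mul (nat_lit 1180578109866989387775) O) d))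

/-- sums of initial pieces -/
def ps (N X : Nat) : Nat := div (sub (shiftLeft X N) X) (nat_lit 340282366920938463463374607431768211455)

def ex2 (Y m p : Nat) : Nat := add (sub Y (land Y m)) (shiftLeft (land Y m) p)

def ex1 (g : Nat → Nat) (m p S : Nat) : Nat :=
  ex2 (g (add (sub S (land S m)) (shiftRight (land S m) p))) (shiftRight m p) p

/-- `f` acts on the first words of the nodes -/
def ex (O : Nat) (f : Nat → Nat) (n : Nat) : Nat → Nat → Nat :=
  Nat.rec (motive := fun _ => Nat → Nat → Nat) (fun _ S => f S)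
    (fun _ ih b S => ex1 (ih (add b (nat_lit 1))) (mul (nat_lit 340282366920938463463374607431768211455) (land O (shiftRight S b))) (shiftLeft (nat_lit 128) b) S) n

def xa4 (O d : Nat) : Nat :=
  (sub (add d (mul (nat_lit 4503599627370496) O)) (land (shiftLeft d (nat_lit 128)) (mul (nat_lit 340282366920938463463374607431768211455) O)))

def xa3 (O h lo m0 m1 m2 m3 chi clo jhi jlo : Nat) : Nat :=
  xa4 O (add (add (add (add (add (add (add (add (land (sub (add (land (ps (nat_lit 32768) O) (mul (nat_lit 511) O)) (mul lo O)) O) (mul (nat_lit 255) O)) (mul (nat_lit 256) (add (add (add (land chi (mul (nat_lit 1023) m0)) (land clo (mul (nat_lit 1023) m1))) (land jhi (mul (nat_lit 1023) m2))) (land jlo (mul (nat_lit 1023) m3))))) (mul (nat_lit 65536) (add (add (add m0 (mul (nat_lit 2) m2)) (mul (nat_lit 4) m1)) (mul (nat_lit 8) m3)))) (mul (nat_lit 1048576) (land (add (land (mul (nat_lit 31) O) (shiftRight h (nat_lit 40))) O) (mul (nat_lit 31) O)))) (mul (nat_lit 33554432) (land (mul (nat_lit 3) O) (shiftRight h (nat_lit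 36))))) (mul (nat_lit 134217728) (land clo (mul (nat_lit 255) O)))) (mul (nat_lit 34359738368) (land (sub (add clo (mul (nat_lit 512) O)) chi) (mul (nat_lit 255) O)))) (mul (nat_lit 8796093022208) (land (add jhi (mul (nat_lit 15) O)) (mul (nat_lit 15) O)))) (mul (nat_lit 140737488355328) (land (sub (add jhi (mul (nat_lit 255) O)) jlo) (mul (nat_lit 15) O))))

def xa2 (O h lo n a b j1 j2 m0 m1 m2 m3 : Nat) : Nat :=
  xa3 O h lo m0 m1 m2 m3 (add (land (add a n) (mul (nat_lit 1023) m0)) (land b (mul (nat_lit 1023) (sub O m0)))) (add (sub (land b (mul (nat_lit 1023) m1)) (land n (mul (nat_lit 1023) m1))) (land a (mul (nat_lit 1023) (sub O m1)))) (add (land (add j1 n) (mul (nat_lit 1023) m2)) (land j2 (mul (nat_lit 1023) (sub O m2)))) (add (sub (land j2 (mul (nat_lit 1023) m3)) (land n (mul (nat_lit 1023) m3))) (land j1 (mul (nat_lit 1023) (sub O m3))))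

def xa1 (O h lo t0 t1 tT n a b j1 j2 : Nat) : Nat :=
  xa2 O h lo n a b j1 j2 (land (land tT (sub O t1)) (sub O t0)) (land (land tT (sub O t1)) t0) (land (land tT t1) (sub O t0)) (land (land tT t1) t0)

def xa0 (O h lo S : Nat) : Nat :=
  xa1 O h lo (land O (shiftRight S (nat_lit 16))) (land O (shiftRight S (nat_lit 17))) (land O (shiftRight S (nat_lit 18))) (land (mul (nat_lit 127) O) (shiftRight S (nat_lit 20))) (land (mul (nat_lit 255) O) (shiftRight h (nat_lit 108))) (sub (mul (nat_lit 255) O) (land (mul (nat_lit 255) O) (shiftRight h (nat_lit 119)))) (land (mul (nat_lit 31) O) (shiftRight h (nat_lit 46))) (sub (mul (nat_lit 31) O) (land (mul (nat_lit 31) O) (shiftRight h (nat_lit 52))))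

def xb16 (O W pay p7 wd tT tV XP tS tL P2 tW X Tr nV hd tZ tE sp cs B tC nc K k j c f6 oc sd km Xs tA q : Nat) : Nat :=
  (add (add (add (add (add (add (add (add (add (add (land oc (mul (nat_lit 1023) tC)) (sub (add km (mul (nat_lit 120) sd)) (mul (nat_lit 2) (land km (mul (nat_lit 1023) sd))))) (land B (mul (nat_lit 255) tS))) (mul (nat_lit 256) (land B (mul (nat_lit 1048575) O)))) (mul (nat_lit 268435456) (add (add (add j (mul (nat_lit 16) (land (land (mul (nat_lit 31) O) (shiftRight B (nat_lit 20))) (mul (nat_lit 1023) tV)))) (mul (nat_lit 511) tS)) (mul (nat_lit 512) tZ)))) (mul (nat_lit 274877906944) (add k (mul (nat_lit 255) (add tL P2))))) (mul (nat_lit 70368744177664) (add (add (add (add (add (land wd (mul (nat_lit 1023) tW)) (mul (nat_lit 64) f6)) cs) (shiftLeft cs (nat_lit 128))) (land (shiftRight B (nat_lit 8)) (mul (nat_lit 4095) Tr))) (mul (nat_lit 256) (add (add sp (land (mul (nat_lit 3) O) (shiftRight q (nat_lit 2)))) (mul (nat_lit 4) (land q (mul (nat_lit 3) O)))))))) (mul (nat_lit 288230376151711744)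 (land c (mul (nat_lit 1023) tV)))) (mul (nat_lit 1152921504606846976) (add (add (add (add (add (land (add K O) (mul (nat_lit 1023) (sub (add tC X) Xs))) Xs) (sub (land K (mul (nat_lit 1023) XP)) XP)) (land K (mul (nat_lit 1023) Tr))) (land tL (shiftRight p7 (nat_lit 128)))) (land (shiftRight pay (nat_lit 4)) (mul (nat_lit 7) P2))))) (mul (nat_lit 9223372036854775808) (add (add (add (add (add (add (add (add (add (add tS (mul (nat_lit 2) tA)) (mul (nat_lit 4) tT)) (mul (nat_lit 8) tE)) (mul (nat_lit 16) tL)) (mul (nat_lit 32) tV)) (mul (nat_lit 64) tW)) (mul (nat_lit 128) nc)) (mul (nat_lit 256) (add tT nV))) (mul (nat_lit 512) (shiftRight hd (nat_lit 128)))) (mul (nat_lit 1024) (land (shiftRight pay (nat_lit 4)) (mul (nat_lit 7) X)))))) (mul (nat_lit 75557863725914323419136) (add (land (add (land (mul (nat_lit 1048575) O) (shiftRight W (nat_lit 12))) (mul (nat_lit 2048) O)) (mul (nat_lit 2097151) tA)) (land oc (mul (nat_lit 1023) tZ)))))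

def xb15 (O W pay p7 wd tT tV XP tS tL P2 tW X Tr nV hd tZ tE sp cs B tC nc K k j c mx f6 sd km Xs tA q : Nat) : Nat :=
  xb16 O W pay p7 wd tT tV XP tS tL P2 tW X Tr nV hd tZ tE sp cs B tC nc K k j c f6 (add (land mx (mul (nat_lit 255) (sub tW f6))) (mul (nat_lit 61) f6)) sd km Xs tA q

def xb14 (O W pay p7 wd tT tV XP tS tL P2 tW X Tr nV hd tZ tE sp cs B tC nc K k j c mx sd km Xs tA q : Nat) : Nat :=
  xb15 O W pay p7 wd tT tV XP tS tL P2 tW X Tr nV hd tZ tE sp cs B tC nc K k j c mx (land tW (land O (shiftRight (add mx (mul (nat_lit 706) O)) (nat_lit 10)))) sd km Xs tA q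

def xb13 (O W pay p7 wd tT tV XP tS tL P2 tW X Tr nV hd tZ tE sp cs B tC nc K k j c a b ge sd km Xs tA q : Nat) : Nat :=
  xb14 O W pay p7 wd tT tV XP tS tL P2 tW X Tr nV hd tZ tE sp cs B tC nc K k j c (add (land a (mul (nat_lit 1023) ge)) (land b (mul (nat_lit 1023) (sub O ge)))) sd km Xs tA q

def xb12 (O W pay p7 wd tT tV XP tS tL P2 tW X Tr nV hd tZ tE sp cs B tC nc K k j c a b sd km Xs tA q : Nat) : Nat :=
  xb13 O W pay p7 wd tT tV XP tS tL P2 tW X Tr nV hd tZ tE sp cs B tC nc K k j c a b (land O (shiftRight (sub (add a (mul (nat_lit 1024) O)) b) (nat_lit 10))) sd km Xs tA q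

def xb11 (O W pay p7 wd tT tV XP tS tL P2 tW X Tr nV hd tZ tE sp cs B tC nc K k j c cc sd Xs tA q : Nat) : Nat :=
  xb12 O W pay p7 wd tT tV XP tS tL P2 tW X Tr nV hd tZ tE sp cs B tC nc K k j c (sub (add cc (mul (nat_lit 258) O)) k) (sub (add (add k wd) (mul (nat_lit 257) O)) cc) sd (sub (land k (mul (nat_lit 1023) X)) (land cc (mul (nat_lit 1023) X))) Xs tA q

def xb10 (O W pay p7 wd tT tV XP tS tL P2 tW X Tr nV hd tZ tE sp cs B tC nc K k j c sd Xs tA q : Nat) : Nat :=
  xb11 O W pay p7 wd tT tV XP tS tL P2 tW X Tr nV hd tZ tE sp cs B tC nc K k j c (mul (nat_lit 120) c) sd Xs tA q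

def xb9 (O W pay p7 wd tT tV XP tS tL P2 tW X Tr nV hd tZ tE sp cs B tC nc K k j u sd Xs tA q : Nat) : Nat :=
  xb10 O W pay p7 wd tT tV XP tS tL P2 tW X Tr nV hd tZ tE sp cs B tC nc K k j (add (land O (shiftRight (add u (mul (nat_lit 784) O)) (nat_lit 10))) (land O (shiftRight (add u (mul (nat_lit 544) O)) (nat_lit 10)))) sd Xs tA q

def xb8 (O W pay p7 wd tT tV XP tS tL P2 tW X Tr nV hd tZ tE sp cs B tC nc K k j sd Xs tA q : Nat) : Nat :=
  xb9 O W pay p7 wd tT tV XP tS tL P2 tW X Tr nV hd tZ tE sp cs B tC nc K k j (add (mul (nat_lit 2) k) (land (add wd (mul (nat_lit 119) O)) (mul (nat_lit 1023) tW))) sd Xs tA q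

def xb7 (O W pay p7 wd tT tV XP tS tL P2 tW X Tr nV hd tZ tE sp cs B tC nc K A sd Xs tA q : Nat) : Nat :=
  xb8 O W pay p7 wd tT tV XP tS tL P2 tW X Tr nV hd tZ tE sp cs B tC nc K (land (add (land (mul (nat_lit 255) O) (shiftRight B (nat_lit 27))) (land A (mul (nat_lit 65535) O))) (mul (nat_lit 255) (add tV XP))) (land (add (land (mul (nat_lit 15) O) (shiftRight B (nat_lit 43))) (land (mul (nat_lit 65535) O) (shiftRight A (nat_lit 32)))) (mul (nat_lit 15) (add tV XP))) sd Xs tA q

def xb6 (O N W pay p7 wd tT tV XP tS tL P2 tW X Tr nV hd tZ tE sp cs B uE tC nc K sd Xs tA q : Nat) : Nat :=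
  xb7 O W pay p7 wd tT tV XP tS tL P2 tW X Tr nV hd tZ tE sp cs B tC nc K (shiftLeft (ps N (add (add (add (land wd (mul (nat_lit 1023) tW)) X) (land (land (mul (nat_lit 255) O) (shiftRight B (nat_lit 35))) (mul (nat_lit 1023) (land tV (sub O nc))))) (mul (nat_lit 4294967296) (add (mul (nat_lit 15) nV) (land (land (mul (nat_lit 15) O) (shiftRight B (nat_lit 47))) (mul (nat_lit 1023) (land tV (sub O uE)))))))) (nat_lit 128)) sd Xs tA q

def xb5 (O N W pay p7 wd tT tV XP tS tL P2 tW X Tr nV hd tZ tE PL sp cs B uE tC sd Xs q : Nat) : Nat :=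
  xb6 O N W pay p7 wd tT tV XP tS tL P2 tW X Tr nV hd tZ tE sp cs B uE tC (land uE (sub O (add tT nV))) (land (mul (nat_lit 3) O) (shiftRight B (nat_lit 25))) sd Xs (add (add (add (add tC X) PL) P2) Tr) q

def xb4 (f : Nat → Nat) (O N W pay p7 wd tT tV XP tS tL P2 tW X Tr nV hd tZ tE PL sp cs sd Xs : Nat) : Nat :=
  xb5 O N W pay p7 wd tT tV XP tS tL P2 tW X Tr nV hd tZ tE PL sp cs (land (ps N (ex O f (nat_lit 12) (nat_lit 0) (land (add (ps N (sub O hd)) (mul (nat_lit 65536) W)) (mul (nat_lit 268435455) hd)))) (mul (nat_lit 2251799813685247) O)) (shiftRight tE (nat_lit 128)) (sub tW tZ) sd Xs (land (shiftRight sp (nat_lit 128)) (mul (nat_lit 15) PL))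

def xb3 (f : Nat → Nat) (O N W t0 pay p7 wd tT tV XP tS tL P2 tW X Tr nV Xs : Nat) : Nat :=
  xb4 f O N W pay p7 wd tT tV XP tS tL P2 tW X Tr nV (add (add tT tS) tL) (land tW t0) (add (add tV XP) P2) (add XP tL) (land pay (mul (nat_lit 15) (add X P2))) (land pay (mul (nat_lit 255) (add XP tL))) (land X (shiftRight W (nat_lit 12))) Xs

def xb2 (f : Nat → Nat) (O N W t0 t1 pay p7 wd tT lz tV XP : Nat) : Nat :=
  xb3 f O N W t0 pay p7 wd tT tV XP (land (land lz (sub O t1)) t0) (land (land lz t1) (sub O t0)) (land (land lz t1) t0) (land tV (sub O t1)) (land tV t1) (land tT p7) (land tV p7) (shiftLeft XP (nat_lit 128))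

def xb1 (f : Nat → Nat) (O N W t0 t1 t2 t3 pay p7 wd : Nat) : Nat :=
  xb2 f O N W t0 t1 pay p7 wd (land (sub O t3) t2) (land (sub O t3) (sub O t2)) (land t3 (sub O t2)) (land t3 t2)

def xb0 (f : Nat → Nat) (O N W : Nat) : Nat :=
  xb1 f O N W (land O W) (land O (shiftRight W (nat_lit 1))) (land O (shiftRight W (nat_lit 2))) (land O (shiftRight W (nat_lit 3))) (land (mul (nat_lit 255) O) (shiftRight W (nat_lit 4))) (land O (shiftRight W (nat_lit 11))) (land (mul (nat_lit 63) O) (shiftRight W (nat_lit 4)))

def gH (H : Tr) (c : Nat) : Nat := shiftLeft (H.get c) (nat_lit 97)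

def gD (DT : Tr) (XT SM r : Nat) : Nat :=
  shiftLeft (cn (ble (nat_lit 511) r) (xe XT (add (mul (sub (bt (add r (nat_lit 1)) (nat_lit 4) (nat_lit 31)) (nat_lit 1)) (nat_lit 32)) (nat_lit 1)) (land (nat_lit 15) (add r (nat_lit 1))))
    (cn (beq r (nat_lit 510)) SM (DT.get (add (mul (sub (bt (add r (nat_lit 1)) (nat_lit 4) (nat_lit 31)) (nat_lit 1)) (nat_lit 32)) (land (nat_lit 15) (add r (nat_lit 1))))))) (nat_lit 353)

/-- the record of a word: the word, the header it refers to, the header of its node, three blocks of distances -/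
def g1 (GX GD : Nat → Nat) (HC w : Nat) : Nat :=
  add (add w (land (nat_lit 53919893334301279589334030174039261347115832520052616287020132597760) (Nat.rec (nat_lit 0) (fun c _ => shiftRight (GX c) (land (nat_lit 32640) (shiftRight w (nat_lit 72)))) (shiftRight w (nat_lit 87)))))
    (add (land (nat_lit 18347988927920572092886567162416695526318600020011947710311376684921343747360604175715067279918798271938560) (shiftRight HC (land (nat_lit 32640) (shiftRight w (nat_lit 1)))))
      (land (nat_lit 483061662090797819548128094536622741420961464834672712292531008269285153677885339371573561252767267987564815561701442201798892735308401035060577413026032514346565133926400) (Nat.rec (nat_lit 0) (fun r _ => shiftRight (GD r) (mul (nat_lit 72) (land (nat_lit 255) w))) (land (nat_lit 1023) (shiftRight w (nat_lit 28))))))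

def g16 (GX GD : Nat → Nat) (HC s : Nat) : Nat :=
  (add (add (add (add (g1 GX GD HC (land (nat_lit 158456325028528675187087900671) s)) (shiftLeft (g1 GX GD HC (land (nat_lit 158456325028528675187087900671) (shiftRight s (nat_lit 128)))) (nat_lit 576))) (shiftLeft (add (g1 GX GD HC (land (nat_lit 158456325028528675187087900671) (shiftRight s (nat_lit 256)))) (shiftLeft (g1 GX GD HC (land (nat_lit 158456325028528675187087900671) (shiftRight (shiftRight s (nat_lit 256)) (nat_lit 128)))) (nat_lit 576))) (nat_lit 1152))) (shiftLeft (add (add (g1 GX GD HC (land (nat_lit 158456325028528675187087900671) (shiftRight s (nat_lit 512)))) (shiftLeft (g1 GX GD HC (land (nat_lit 158456325028528675187087900671) (shiftRight (shiftRight s (nat_lit 512)) (nat_lit 128)))) (nat_lit 576))) (shiftLeft (add (g1 GX GD HC (land (nat_lit 158456325028528675187087900671) (shiftRight (shiftRight s (nat_lit 512)) (nat_lit 256)))) (shiftLeft (g1 GX GD HC (land (nat_lit 158456325028528675187087900671) (shiftRight (shiftRight (shiftRight s (nat_lit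 512)) (nat_lit 256)) (nat_lit 128)))) (nat_lit 576))) (nat_lit 1152))) (nat_lit 2304))) (shiftLeft (add (add (add (g1 GX GD HC (land (nat_lit 158456325028528675187087900671) (shiftRight s (nat_lit 1024)))) (shiftLeft (g1 GX GD HC (land (nat_lit 158456325028528675187087900671) (shiftRight (shiftRight s (nat_lit 1024)) (nat_lit 128)))) (nat_lit 576))) (shiftLeft (add (g1 GX GD HC (land (nat_lit 158456325028528675187087900671) (shiftRight (shiftRight s (nat_lit 1024)) (nat_lit 256)))) (shiftLeft (g1 GX GD HC (land (nat_lit 158456325028528675187087900671) (shiftRight (shiftRight (shiftRight s (nat_lit 1024)) (nat_lit 256)) (nat_lit 128)))) (nat_lit 576))) (nat_lit 1152))) (shiftLeft (add (add (g1 GX GD HC (land (nat_lit 158456325028528675187087900671) (shiftRight (shiftRight s (nat_lit 1024)) (nat_lit 512)))) (shiftLeft (g1 GX GD HC (land (nat_lit 158456325028528675187087900671) (shiftRight (shiftRight (shiftRight s (nat_lit 1024)) (nat_lit 512)) (nat_lit 128)))) (nat_lit 576))) (shiftLeft (add (g1 GX GD HC (land (nat_lit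 158456325028528675187087900671) (shiftRight (shiftRight (shiftRight s (nat_lit 1024)) (nat_lit 512)) (nat_lit 256)))) (shiftLeft (g1 GX GD HC (land (nat_lit 158456325028528675187087900671) (shiftRight (shiftRight (shiftRight (shiftRight s (nat_lit 1024)) (nat_lit 512)) (nat_lit 256)) (nat_lit 128)))) (nat_lit 576))) (nat_lit 1152))) (nat_lit 2304))) (nat_lit 4608)))

def g64 (GX GD : Nat → Nat) (HC s : Nat) : Nat :=
  add (add (g16 GX GD HC s) (shiftLeft (g16 GX GD HC (shiftRight s (nat_lit 2048))) (nat_lit 9216)))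
    (shiftLeft (add (g16 GX GD HC (shiftRight s (nat_lit 4096))) (shiftLeft (g16 GX GD HC (shiftRight s (nat_lit 6144))) (nat_lit 9216))) (nat_lit 18432))

def gr (F : Nat → Nat) (q p : Nat) (z : Nat → Nat) (n : Nat) : Nat → Nat :=
  Nat.rec (motive := fun _ => Nat → Nat) z
    (fun _ ih s => add (F (land s (sub (shiftLeft (nat_lit 1) q) (nat_lit 1)))) (shiftLeft (ih (shiftRight s q)) p)) n

def ln (p z n : Nat) : Nat := Nat.rec z (fun _ ih => add p ih) n

def gl (l : List Nat) : Nat := List.rec (nat_lit 0) (fun s _ ih => add s (shiftLeft ih (nat_lit 2048))) l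

def o8 (n : Nat) : Nat := div (sub (shiftLeft (nat_lit 1) (mul (nat_lit 128) n)) (nat_lit 1)) (nat_lit 340282366920938463463374607431768211455)

def x4 (M p s : Nat) : Nat :=
  add (add (land M s) (shiftLeft (land M (shiftRight s (nat_lit 32))) p))
    (shiftLeft (add (land M (shiftRight s (nat_lit 64))) (shiftLeft (land M (shiftRight s (nat_lit 96))) p)) (mul (nat_lit 2) p))

/-- the words; nothing has to be known about them -/
def xw (HC lo e n : Nat) (l : List Nat) : Nat :=
  xb0 (xa0 (o8 (sub e lo)) (land (shiftRight HC (mul (nat_lit 128) lo)) (mul (nat_lit 340282366920938463463374607431768211455) (o8 (sub e lo)))) lo) (o8 n) (mul (nat_lit 128) n)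
    (x4 (mul (nat_lit 4294967295) (o8 (shiftRight n (nat_lit 2)))) (mul (nat_lit 32) n) (gl l))

def on (n : Nat) : Nat := div (sub (shiftLeft (nat_lit 1) (mul (nat_lit 576) n)) (nat_lit 1)) (nat_lit 247330401473104534060502521019647190035131349101211839914063056092897225106531867170316401061243044989597671426016139339351365034306751209967546155101893167916606772148699135)

def fs1 (O R m i lo e : Nat) : Bool :=
  an (an (beq (bt R (nat_lit 8) (nat_lit 255)) lo) (ble (nat_lit 1) (add (add (bt R (nat_lit 63) (nat_lit 1)) (bt R (nat_lit 65) (nat_lit 1))) (bt R (nat_lit 67) (nat_lit 1)))))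
    (z0 O (land (mul (nat_lit 158456325028528675187087900671) O) R) (land (mul (nat_lit 340282366920938463463374607431768211455) O) (shiftRight R (nat_lit 97))) (land (mul (nat_lit 340282366920938463463374607431768211455) O) (shiftRight R (nat_lit 225)))
      (land (mul (nat_lit 26327771615106622073631788543845694075442754821128109490054168575) O) (shiftRight R (nat_lit 353))) (land (mul (nat_lit 158456325028528675187087900671) O) (shiftRight R (nat_lit 576))) (mul m O) (mul e O) (mul i O))

def fs0 (GX GD : Nat → Nat) (HC m i lo e a b W : Nat) : Bool :=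
  fb (on (ln (nat_lit 64) (ln (nat_lit 16) (nat_lit 0) b) a)) fun O =>
    fb (gr (g64 GX GD HC) (nat_lit 8192) (nat_lit 36864) (gr (g16 GX GD HC) (nat_lit 2048) (nat_lit 9216) (fun _ => (nat_lit 0)) b) a W) fun R => fs1 O R m i lo e

/-- nodes that are checked one by one -/
def bls (H DT MT : Tr) (XT S s4 s5 R m c n : Nat) (κ : Nat → Bool) : Nat → Nat → Bool :=
  Nat.rec (motive := fun _ => Nat → Nat → Bool) (fun _ M => κ M)
    (fun _ ih s M => fb (add c (land (nat_lit 255) s)) fun i => an (F.nod H DT MT XT S s4 s5 R m i (shiftRight s (nat_lit 8)))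
      (fb (shiftRight s (add (nat_lit 25) (bt s (nat_lit 8) (nat_lit 32767)))) fun s' => ih s' (lor M (shiftLeft (nat_lit 1) (mul (nat_lit 72) (land (nat_lit 255) s)))))) n

def sls (H DT MT : Tr) (XT S s4 s5 R m c : Nat) (κ : Nat → Bool) (l : List Nat) : Nat → Bool :=
  List.rec (motive := fun _ => Nat → Bool) κ
    (fun s _ ih M => bls H DT MT XT S s4 s5 R m c (land (nat_lit 63) s) ih (shiftRight s (nat_lit 6)) M) l

/-- the nodes `256 * c + lo ≤ i < 256 * c + e` -/
def rnf (H DT MT : Tr) (XT S s4 s5 R m c lo e a b : Nat) (ls l : List Nat) : Bool :=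
  an (an (ble e (nat_lit 256)) (ble (add (mul c (nat_lit 256)) e) (nat_lit 262144))) (sls H DT MT XT S s4 s5 R m (mul c (nat_lit 256))
    (fun M => fs0 (gH H) (gD DT XT M) (shiftLeft (H.get c) (nat_lit 225)) m (mul c (nat_lit 256)) lo e a b
      (xw (H.get c) lo e (ln (nat_lit 64) (ln (nat_lit 16) (nat_lit 0) b) a) l)) ls (nat_lit 0))

/-- the nodes `a ≤ i < b` pass the check -/
inductive Ru (H DT MT : Tr) (XT S s4 s5 R m : Nat) : Nat → Nat → Prop
  | q {o c n : Nat} (h : rnq H DT MT XT S s4 s5 R m o c n = true) (a b : Nat)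
    (e : an (an (beq (mul c (nat_lit 32)) a) (beq (mul (add c n) (nat_lit 32)) b)) (ble b (nat_lit 262144)) = true) : Ru H DT MT XT S s4 s5 R m a b
  | f {c lo e u v : Nat} {ls l : List Nat} (h : rnf H DT MT XT S s4 s5 R m c lo e u v ls l = true) (a b : Nat)
    (e : an (beq (add (mul c (nat_lit 256)) lo) a) (beq (add (mul c (nat_lit 256)) e) b) = true) : Ru H DT MT XT S s4 s5 R m a b
  | app {a b c : Nat} : Ru H DT MT XT S s4 s5 R m a b → Ru H DT MT XT S s4 s5 R m b c → Ru H DT MT XT S s4 s5 R m a c

end

end Pool.Agent.MP_1037db_co.Q
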