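import Pool.Agent.MP_1037db_co.LP.SoundB
import Pool.Agent.MP_1037db_co.Q.Fc

section
set_option exponentiation.threshold 600

/-! Numbers with digits in base `2 ^ 576`. -/

namespace Pool.Agent.MP_1037db_co.Q

open LP

def pw : ℕ → (ℕ → ℕ) → ℕ
  | 0, _ => 0
  | n + 1, f => f 0 + 2 ^ 576 * pw n fun y => f (y + 1)

/-- `X` has the `n` digits `f y ≤ b` -/
def PB (n X : ℕ) (f : ℕ → ℕ) (b : ℕ) : Prop := X = pw n f ∧ ∀ y < n, f y ≤ b

variable {n X Y O t a b : ℕ} {f g u : ℕ → ℕ}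

theorem pw_congr : ∀ {n : ℕ} {f g : ℕ → ℕ}, (∀ y < n, f y = g y) → pw n f = pw n g
  | 0, _, _, _ => rfl
  | n + 1, f, g, h => by
    rw [pw, pw, h 0 n.succ_pos, pw_congr fun y hy => h (y + 1) (Nat.succ_lt_succ hy)]

theorem pw_add : ∀ (n : ℕ) (f g : ℕ → ℕ), pw n f + pw n g = pw n fun y => f y + g y
  | 0, _, _ => rfl
  | n + 1, f, g => by
    rw [pw, pw, pw, ← pw_add n]
    generalize 2 ^ 576 = B
    ring

theorem pw_mul (c : ℕ) : ∀ (n : ℕ) (f : ℕ → ℕ), c * pw n f = pw n fun y => c * f y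
  | 0, _ => rfl
  | n + 1, f => by
    rw [pw, pw, ← pw_mul c n]
    generalize 2 ^ 576 = B
    ring

theorem and_dig {W a b A B : ℕ} (ha : a < 2 ^ W) (hb : b < 2 ^ W) :
    (a + 2 ^ W * A) &&& (b + 2 ^ W * B) = (a &&& b) + 2 ^ W * (A &&& B) := by
  have h0 : 0 < 2 ^ W := by positivity
  rw [split _ _ _ _ hb, Nat.add_mul_mod_self_left, Nat.mod_eq_of_lt ha, Nat.add_mul_div_left _ _ h0,
    Nat.div_eq_of_lt ha, Nat.zero_add]

theorem pw_and : ∀ (n : ℕ) (f g : ℕ → ℕ), (∀ y < n, f y < 2 ^ 576) → (∀ y < n, g y < 2 ^ 576) →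
    pw n f &&& pw n g = pw n fun y => f y &&& g y
  | 0, _, _, _, _ => Nat.and_zero _
  | n + 1, f, g, h, k => by
    rw [pw, pw, pw, and_dig (h 0 n.succ_pos) (k 0 n.succ_pos), pw_and n _ _
      (fun y hy => h (y + 1) (Nat.succ_lt_succ hy)) fun y hy => k (y + 1) (Nat.succ_lt_succ hy)]

theorem pw_inj : ∀ (n : ℕ) (f g : ℕ → ℕ), (∀ y < n, f y < 2 ^ 576) → (∀ y < n, g y < 2 ^ 576) →
    pw n f = pw n g → ∀ y < n, f y = g y
  | 0, _, _, _, _, _ => nofun
  | n + 1, f, g, h, k, e => by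
    rw [pw, pw] at e
    have e0 := congrArg (· % 2 ^ 576) e
    simp only [Nat.add_mul_mod_self_left, Nat.mod_eq_of_lt (h 0 n.succ_pos),
      Nat.mod_eq_of_lt (k 0 n.succ_pos)] at e0
    rw [e0] at e
    have := pw_inj n _ _ (fun y hy => h (y + 1) (Nat.succ_lt_succ hy))
      (fun y hy => k (y + 1) (Nat.succ_lt_succ hy))
      (Nat.eq_of_mul_eq_mul_left (by positivity) (Nat.add_left_cancel e))
    intro y hy
    cases y with
    | zero => exact e0
    | succ y => exact this y (Nat.lt_of_succ_lt_succ hy)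

theorem PB.congr (h : PB n X f a) (e : ∀ y < n, f y = g y) (hb : ∀ y < n, g y ≤ b) : PB n X g b :=
  ⟨h.1.trans (pw_congr e), hb⟩

theorem PB.add (h : PB n X f a) (k : PB n Y g b) : PB n (Nat.add X Y) (fun y => f y + g y) (a + b) :=
  ⟨by rw [Nat.add_eq, h.1, k.1, pw_add], fun y hy => Nat.add_le_add (h.2 y hy) (k.2 y hy)⟩

theorem PB.mul (c : ℕ) (h : PB n X f a) : PB n (Nat.mul c X) (fun y => c * f y) (c * a) :=
  ⟨by rw [Nat.mul_eq, h.1, pw_mul], fun y hy => Nat.mul_le_mul_left c (h.2 y hy)⟩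

theorem PB.cst (c : ℕ) (hO : PB n O (fun _ => 1) 1) : PB n (Nat.mul c O) (fun _ => c) c :=
  (hO.mul c).congr (fun _ _ => c.mul_one) fun _ _ => le_rfl

theorem PB.land (h : PB n X f a) (k : PB n Y g b) (ha : a < 2 ^ 576) (hb : b < 2 ^ 576) :
    PB n (Nat.land X Y) (fun y => f y &&& g y) b :=
  ⟨by rw [Nat.land_eq, h.1, k.1, pw_and _ _ _ (fun y hy => (h.2 y hy).trans_lt ha)
    fun y hy => (k.2 y hy).trans_lt hb], fun y hy => Nat.and_le_right.trans (k.2 y hy)⟩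

theorem PB.msk (c : ℕ) (hO : PB n O (fun _ => 1) 1) (h : PB n X f a) (ha : a < 2 ^ 576)
    (hc : c < 2 ^ 576) : PB n (Nat.land (Nat.mul c O) X) (fun y => f y &&& c) c :=
  ((hO.cst c).land h hc ha).congr (fun _ _ => Nat.and_comm _ _) fun _ _ => Nat.and_le_right

theorem PB.fld (p c : ℕ) (hO : PB n O (fun _ => 1) 1) (h : PB n X f a) (ha : a < 2 ^ 576)
    (hc : 2 ^ p * c < 2 ^ 576) :
    PB n (Nat.land (Nat.mul c O) (Nat.shiftRight X p)) (fun y => bt (f y) p c) c := by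
  refine ⟨?_, fun _ _ => bt_le _ _ _⟩
  have e := (hO.msk _ h ha hc).1
  have s : ∀ x, (2 ^ p * x) >>> p = x := fun x => by
    rw [Nat.shiftRight_eq_div_pow, Nat.mul_div_cancel_left _ (by positivity)]
  simp only [LP.fld, ← pw_mul, Nat.land_eq, Nat.mul_eq, Nat.mul_assoc] at e
  have e := congrArg (· >>> p) e
  simp only [Nat.shiftRight_and_distrib, s] at e
  exact e

theorem PB.fld1 (p : ℕ) (hO : PB n O (fun _ => 1) 1) (h : PB n X f a) (ha : a < 2 ^ 576)
    (hc : 2 ^ p * 1 < 2 ^ 576) : PB n (Nat.land O (Nat.shiftRight X p)) (fun y => bt (f y) p 1) 1 := by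
  have := hO.fld p 1 h ha hc
  rwa [Nat.mul_eq, Nat.one_mul] at this

theorem PB.ind (k M : ℕ) (ht : PB n t u 1) (h : PB n X f a) (hM : M + 1 = 2 ^ k) (ha : a ≤ M)
    (hk : M < 2 ^ 576) : PB n (Nat.land X (Nat.mul M t)) (fun y => u y * f y) a := by
  refine (h.land (ht.mul M) (ha.trans_lt hk) (by rwa [Nat.mul_one])).congr (fun y hy => ?_) fun y hy => ?_
  · have := h.2 y hy
    rcases Nat.le_one_iff_eq_zero_or_eq_one.1 (ht.2 y hy) with e | e <;> rw [e]
    · simp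
    · rw [Nat.mul_one, Nat.one_mul, show M = 2 ^ k - 1 by omega, Nat.and_two_pow_sub_one_eq_mod,
        Nat.mod_eq_of_lt (by omega)]
  · exact (Nat.mul_le_mul (ht.2 y hy) (h.2 y hy)).trans_eq a.one_mul

theorem PB.band (ht : PB n t u 1) (h : PB n X f 1) : PB n (Nat.land t X) (fun y => u y * f y) 1 := by
  have := ht.ind 1 1 h rfl le_rfl (by norm_num)
  rwa [Nat.mul_eq, Nat.one_mul, Nat.land_eq, Nat.and_comm] at this

theorem PB.sub (h : PB n X f a) (k : PB n Y g b) (e : ∀ y < n, g y ≤ f y) :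
    PB n (Nat.sub X Y) (fun y => f y - g y) a := by
  refine ⟨?_, fun y hy => (Nat.sub_le _ _).trans (h.2 y hy)⟩
  rw [Nat.sub_eq, h.1, k.1]
  refine Nat.sub_eq_of_eq_add ?_
  rw [pw_add]
  exact pw_congr fun y hy => (Nat.sub_add_cancel (e y hy)).symm

theorem PB.csub (c : ℕ) (hO : PB n O (fun _ => 1) 1) (h : PB n X f a) (ha : a ≤ c) :
    PB n (Nat.sub (Nat.mul c O) X) (fun y => c - f y) c :=
  (hO.cst c).sub h fun y hy => (h.2 y hy).trans ha

theorem PB.not (hO : PB n O (fun _ => 1) 1) (h : PB n X f 1) : PB n (Nat.sub O X) (fun y => 1 - f y) 1 :=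
  hO.sub h h.2

theorem PB.gsub (c : ℕ) (hO : PB n O (fun _ => 1) 1) (h : PB n X f a) (k : PB n Y g b) (hb : b ≤ c) :
    PB n (Nat.sub (Nat.add X (Nat.mul c O)) Y) (fun y => f y + c - g y) (a + c) :=
  (h.add (hO.cst c)).sub k fun y hy => ((k.2 y hy).trans hb).trans (Nat.le_add_left _ _)

theorem PB.eq (h : PB n X f a) (k : PB n Y g b) (ha : a < 2 ^ 576) (hb : b < 2 ^ 576)
    (e : Nat.beq X Y = true) : ∀ y < n, f y = g y :=
  pw_inj n f g (fun y hy => (h.2 y hy).trans_lt ha) (fun y hy => (k.2 y hy).trans_lt hb)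
    (h.1 ▸ k.1 ▸ Nat.eq_of_beq_eq_true e)

theorem PB.cle (k G : ℕ) (hO : PB n O (fun _ => 1) 1) (ht : PB n t u 1) (h : PB n X f a) (h' : PB n Y g b)
    (_ : G = 2 ^ k) (ha : a ≤ G) (hb : b < G) (hk : 2 * G < 2 ^ 576)
    (e : lev (Nat.mul G t) (Nat.mul G O) X Y = true) : ∀ y < n, u y = 1 → f y ≤ g y := fun y hy hu => by
  have e := PB.eq ((hO.gsub G h' h ha).land (ht.mul G) (by omega) (by omega)) (ht.mul G) (by omega)
    (by omega) e y hy
  simp only [hu, Nat.mul_one] at e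
  have : G ≤ g y + G - f y := e.ge.trans Nat.and_le_left
  have := h.2 y hy
  omega

theorem PB.le (k G : ℕ) (hO : PB n O (fun _ => 1) 1) (h : PB n X f a) (h' : PB n Y g b)
    (hG : G = 2 ^ k) (ha : a ≤ G) (hb : b < G) (hk : 2 * G < 2 ^ 576)
    (e : lev (Nat.mul G O) (Nat.mul G O) X Y = true) : ∀ y < n, f y ≤ g y := fun y hy =>
  hO.cle k G hO h h' hG ha hb hk e y hy rfl

/-- the digits from number one on -/
theorem PB.next (h : PB n X f a) (ha : a < 2 ^ 576) :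
    PB n (Nat.shiftRight X 576) (fun y => if y + 1 < n then f (y + 1) else 0) a := by
  refine ⟨?_, fun y _ => by dsimp only; split_ifs with c; exacts [h.2 _ c, a.zero_le]⟩
  have z : ∀ (n : ℕ) (f : ℕ → ℕ), f n = 0 → pw (n + 1) f = pw n f := by
    intro n
    induction n with
    | zero => exact fun f e => by simp [pw, e]
    | succ n ih => exact fun f e => by rw [pw, ih _ e, pw]
  cases n with
  | zero => rw [h.1]; exact Nat.zero_shiftRight _
  | succ n =>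
    rw [z n _ (by simp), h.1, pw, Nat.shiftRight_eq', Nat.shiftRight_eq_div_pow,
      Nat.add_mul_div_left _ _ (by positivity), Nat.div_eq_of_lt ((h.2 0 n.succ_pos).trans_lt ha),
      Nat.zero_add]
    exact pw_congr fun y hy => (if_pos (Nat.succ_lt_succ hy)).symm

theorem PB.head (h : PB n X f a) {p c : ℕ} (ha : a < 2 ^ 576) (hc : 2 ^ p * c < 2 ^ 576) :
    bt X p c = if 0 < n then bt (f 0) p c else 0 := by
  cases n with
  | zero => rw [h.1]; simp [pw, bt]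
  | succ n =>
    have := and_dig (A := pw n fun y => f (y + 1)) (B := 0) ((h.2 0 n.succ_pos).trans_lt ha) hc
    rw [Nat.mul_zero, Nat.add_zero, Nat.and_zero, Nat.mul_zero, Nat.add_zero, LP.fld, LP.fld] at this
    rw [if_pos n.succ_pos, h.1, pw]
    exact Nat.eq_of_mul_eq_mul_left (by positivity) this

theorem on_ok (n : ℕ) : PB n (on n) (fun _ => 1) 1 := by
  refine ⟨?_, fun _ _ => le_rfl⟩
  have : ∀ n, (2 ^ 576 - 1) * pw n (fun _ => 1) + 1 = 2 ^ (576 * n) := by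
    intro n
    induction n with
    | zero => simp [pw]
    | succ n ih =>
      rw [pw, Nat.mul_succ, pow_add, ← ih]
      obtain ⟨B, e⟩ : ∃ B, 2 ^ 576 = B + 1 := ⟨_, (Nat.sub_add_cancel Nat.one_le_two_pow).symm⟩
      rw [e, Nat.add_sub_cancel]
      ring
  change (1 <<< (576 * n) - 1) / (2 ^ 576 - 1) = _
  rw [Nat.one_shiftLeft, ← this, Nat.add_sub_cancel, Nat.mul_div_cancel_left _ (by norm_num)]

theorem pw_app : ∀ (a b : ℕ) (f g : ℕ → ℕ), pw a f + pw b g <<< (576 * a) =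
    pw (a + b) fun y => if y < a then f y else g (y - a)
  | 0, b, f, g => by simp [pw]
  | a + 1, b, f, g => by
    rw [Nat.add_right_comm, pw, pw, if_pos a.succ_pos]
    simp only [Nat.add_lt_add_iff_right, Nat.add_sub_add_right]
    rw [← pw_app a b, Nat.shiftLeft_eq, Nat.shiftLeft_eq, Nat.mul_succ, pow_add]
    generalize 2 ^ 576 = B
    ring

/-- `X` consists of the records of `n` words -/
def Ga (F : ℕ → ℕ) (n X : ℕ) : Prop := ∃ w : ℕ → ℕ, (∀ y, w y < 2 ^ 97) ∧ X = pw n fun y => F (w y)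

variable {F : ℕ → ℕ}

theorem Ga.one (F : ℕ → ℕ) (s : ℕ) : Ga F 1 (F (Nat.land 158456325028528675187087900671 s)) :=
  ⟨fun _ => Nat.land 158456325028528675187087900671 s, fun _ => Nat.lt_succ_of_le Nat.and_le_left, by simp [pw]⟩

theorem Ga.app (h : Ga F a X) (k : Ga F b Y) (p : ℕ) (hp : p = 576 * a) :
    Ga F (a + b) (Nat.add X (Nat.shiftLeft Y p)) := by
  obtain ⟨v, h1, rfl⟩ := h
  obtain ⟨w, h2, rfl⟩ := k
  refine ⟨fun y => if y < a then v y else w (y - a), fun y => by dsimp only; split_ifs; exacts [h1 _, h2 _], ?_⟩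
  rw [hp, Nat.add_eq, Nat.shiftLeft_eq', pw_app]
  exact pw_congr fun y _ => (apply_ite F _ _ _).symm

theorem Ga.gr {C z : ℕ → ℕ} {p q u : ℕ} (hC : ∀ s, Ga F q (C s)) (hp : p = 576 * q) (hz : ∀ s, Ga F a (z s)) (n : ℕ) :
    ∀ s, Ga F (ln q a n) (gr C u p z n s) := by
  induction n with
  | zero => exact hz
  | succ n ih => exact fun s => (hC _).app (ih _) p hp

theorem g16_ok (GX GD : ℕ → ℕ) (HC s : ℕ) : Ga (g1 GX GD HC) 16 (g16 GX GD HC s) := by
  have h1 := Ga.one (g1 GX GD HC)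
  have h2 := fun s => (h1 s).app (h1 (Nat.shiftRight s 128)) 576 rfl
  have h4 := fun s => (h2 s).app (h2 (Nat.shiftRight s 256)) 1152 rfl
  have h8 := fun s => (h4 s).app (h4 (Nat.shiftRight s 512)) 2304 rfl
  exact (h8 s).app (h8 (Nat.shiftRight s 1024)) 4608 rfl

theorem g64_ok (GX GD : ℕ → ℕ) (HC s : ℕ) : Ga (g1 GX GD HC) 64 (g64 GX GD HC s) :=
  ((g16_ok _ _ _ _).app (g16_ok _ _ _ _) 9216 rfl).app ((g16_ok _ _ _ _).app (g16_ok _ _ _ _) 9216 rfl) 18432 rfl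

end Pool.Agent.MP_1037db_co.Q

end

section
set_option exponentiation.threshold 600
set_option maxRecDepth 4000

/-! What the checks on all digits say about one record. -/

namespace Pool.Agent.MP_1037db_co.Q

open LP

/-- word, header of the reference, own header, distances, next word, rows, end, first node of the chunk -/
structure Rc where
  (w x h d u m e i : ℕ)

theorem PB.bd {n X a : ℕ} {f : ℕ → ℕ} (h : PB n X f a) : ∀ y < n, f y ≤ a := h.2

variable {n : ℕ} {ρ : ℕ → Rc}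

def Rc.o (r : Rc) : ℕ := bt r.w 0 255
def Rc.hi (r : Rc) : ℕ := bt r.w 8 255
def Rc.sb (r : Rc) : ℕ := bt r.w 16 255
def Rc.n0 (r : Rc) : ℕ := bt r.w 24 1
def Rc.n2 (r : Rc) : ℕ := bt r.w 25 1
def Rc.n1 (r : Rc) : ℕ := bt r.w 26 1
def Rc.n3 (r : Rc) : ℕ := bt r.w 27 1
def Rc.j (r : Rc) : ℕ := bt r.w 28 15
def Rc.jq (r : Rc) : ℕ := bt r.w 32 31
def Rc.tZ (r : Rc) : ℕ := bt r.w 37 1
def Rc.k (r : Rc) : ℕ := bt r.w 38 255
def Rc.cs (r : Rc) : ℕ := bt r.w 46 255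
def Rc.wd (r : Rc) : ℕ := bt r.w 46 63
def Rc.f6 (r : Rc) : ℕ := bt r.w 52 1
def Rc.sA (r : Rc) : ℕ := bt r.w 54 1
def Rc.s1 (r : Rc) : ℕ := bt r.w 55 1
def Rc.sB (r : Rc) : ℕ := bt r.w 56 1
def Rc.s2 (r : Rc) : ℕ := bt r.w 57 1
def Rc.c (r : Rc) : ℕ := bt r.w 58 3
def Rc.Kc (r : Rc) : ℕ := bt r.w 60 7
def Rc.tS (r : Rc) : ℕ := bt r.w 63 1
def Rc.tA (r : Rc) : ℕ := bt r.w 64 1
def Rc.tT (r : Rc) : ℕ := bt r.w 65 1
def Rc.tE (r : Rc) : ℕ := bt r.w 66 1
def Rc.tL (r : Rc) : ℕ := bt r.w 67 1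
def Rc.tV (r : Rc) : ℕ := bt r.w 68 1
def Rc.tW (r : Rc) : ℕ := bt r.w 69 1
def Rc.nc (r : Rc) : ℕ := bt r.w 70 1
def Rc.nr (r : Rc) : ℕ := bt r.w 71 1
def Rc.nx (r : Rc) : ℕ := bt r.w 72 1
def Rc.gI (r : Rc) : ℕ := bt r.w 73 1
def Rc.gO (r : Rc) : ℕ := bt r.w 74 1
def Rc.gL (r : Rc) : ℕ := bt r.w 75 1
def Rc.sd (r : Rc) : ℕ := bt r.w 76 1
def Rc.rf (r : Rc) : ℕ := bt r.w 76 2097151
def Rc.K (r : Rc) : ℕ := bt r.h 36 3
def Rc.jp (r : Rc) : ℕ := bt r.h 40 31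
def Rc.j1 (r : Rc) : ℕ := bt r.h 46 31
def Rc.r2 (r : Rc) : ℕ := bt r.h 52 31
def Rc.fL (r : Rc) : ℕ := bt r.h 60 1
def Rc.fI (r : Rc) : ℕ := bt r.h 62 1
def Rc.fO (r : Rc) : ℕ := bt r.h 64 1
def Rc.a (r : Rc) : ℕ := bt r.h 108 255
def Rc.hb (r : Rc) : ℕ := bt r.h 119 255
def Rc.uj (r : Rc) : ℕ := bt r.u 28 15
def Rc.uk (r : Rc) : ℕ := bt r.u 38 255
def Rc.uE (r : Rc) : ℕ := bt r.u 66 1
def Rc.uK (r : Rc) : ℕ := bt r.u 60 7
def Rc.uV (r : Rc) : ℕ := bt r.u 68 1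
def Rc.ua (r : Rc) : ℕ := bt r.u 54 3
def Rc.ub (r : Rc) : ℕ := bt r.u 56 3
def Rc.Pa (r : Rc) : ℕ := (bt r.h 72 65535 + (68719476736 * bt r.h 90 65535))
def Rc.Pb (r : Rc) : ℕ := (bt r.h 0 65535 + (68719476736 * bt r.h 18 65535))
def Rc.b (r : Rc) : ℕ := (255 - r.hb)
def Rc.j2 (r : Rc) : ℕ := (31 - r.r2)
def Rc.ns (r : Rc) : ℕ := (1 - r.sd)
def Rc.tQ (r : Rc) : ℕ := (r.tV * (1 - r.tZ))
def Rc.uX (r : Rc) : ℕ := (r.tV * (1 - r.tW))
def Rc.tC (r : Rc) : ℕ := (r.tV * r.tW)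
def Rc.cc (r : Rc) : ℕ := (120 * r.c)
def Rc.wi (r : Rc) : ℕ := ((r.tW * r.wd) + (1 - r.tW))
def Rc.oe (r : Rc) : ℕ := ((r.tZ * bt r.w 76 127) + ((1 - r.tZ) * r.o))
def Rc.ss (r : Rc) : ℕ := (((r.sA + r.s1) + r.sB) + r.s2)
def Rc.en (r : Rc) : ℕ := (r.tE * (1 - r.nc))
def Rc.tF (r : Rc) : ℕ := (r.tT * (1 - r.tA))
def Rc.tR (r : Rc) : ℕ := (r.tT * r.tA)
def Rc.ke (r : Rc) : ℕ := (r.k + r.wi)
def Rc.kc (r : Rc) : ℕ := (r.k + (r.tV * r.wi))
def Rc.u0 (r : Rc) : ℕ := (r.tC * (1 - r.f6))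
def Rc.xs (r : Rc) : ℕ := (r.uX * r.sd)
def Rc.nQ (r : Rc) : ℕ := (1 - r.tQ)
def Rc.chi (r : Rc) : ℕ := ((r.n0 * r.sb) + ((1 - r.n0) * r.b))
def Rc.clo (r : Rc) : ℕ := ((r.n1 * r.sb) + ((1 - r.n1) * r.a))
def Rc.jhi (r : Rc) : ℕ := ((r.n2 * r.sb) + ((1 - r.n2) * r.j2))
def Rc.jlo (r : Rc) : ℕ := ((r.n3 * r.sb) + ((1 - r.n3) * r.j1))
def Rc.je (r : Rc) : ℕ := ((r.tE * r.j) + (r.tT * r.jhi))
def Rc.al (r : Rc) : ℕ := ((r.sA * (r.cs + 1)) + ((1 - r.sA) * ((r.n0 * r.ke) + ((1 - r.n0) * (r.a + 1)))))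
def Rc.be (r : Rc) : ℕ := ((r.sB * r.cs) + ((1 - r.sB) * ((r.n1 * (r.k + 1)) + ((1 - r.n1) * r.b))))
def Rc.ga (r : Rc) : ℕ := ((r.tQ * r.ke) + (121 * r.nQ))
def Rc.de (r : Rc) : ℕ := ((r.tQ * r.k) + (120 * r.nQ))
def Rc.c1 (r : Rc) : ℕ := ((r.s1 * r.cs) + ((1 - r.s1) * ((r.n2 * r.j) + ((1 - r.n2) * r.j1))))
def Rc.c2 (r : Rc) : ℕ := ((r.s2 * r.cs) + ((1 - r.s2) * ((r.n3 * (r.j + 1)) + ((1 - r.n3) * r.j2))))
def Rc.tP (r : Rc) : ℕ := ((r.tA * r.nQ) * ((1 - r.tT) * r.nc))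
def Rc.tY (r : Rc) : ℕ := (r.tP * (1 - r.tL))
def Rc.d0 (r : Rc) : ℕ := (r.d &&& 1180578109866989387775)
def Rc.dd (r : Rc) : ℕ := (((r.uX * r.d) + (r.tC * (22300745198530623141540440639131231151194113 * r.d0))) &&& 26327771615106622073631788543845694075442754821128109490054168575)
def Rc.TT (r : Rc) : ℕ := (((((((((((((68719476736 * r.Kc) + (1099511627776 * ((r.tQ * r.j) + (r.nQ * r.jp)))) + (70368744177664 * r.c1)) + (4503599627370496 * (1023 - r.c2))) + (4611686018427387904 * ((r.tQ * r.n2) + (r.nQ * r.fI)))) + (18446744073709551616 * ((r.tQ * r.n3) + (r.nQ * r.fO)))) + (10889035741470030830827987437816582766592 * (r.i + r.hi))) + (864691128455135232 * ((r.ns * ((r.tQ * r.n0) + (r.nQ * r.fL))) + (r.sd * (r.tQ * r.n1))))) + (324518553658426726783156020576256 * ((r.sd * (r.de + 1)) + (r.ns * r.al)))) + (664613997892457936451903530140172288 * ((r.sd * r.al) + (r.ns * r.de)))) + (7067415219060204468974481253372378698352689322148743724669014129235722240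 * ((r.sd * r.Pb) + (r.ns * r.Pa)))) + (157608626012479106950455875032358246031540767862531061979056877007350196635150709975299591994347402807817141055651840 * ((r.sd * r.Pa) + (r.ns * r.Pb)))) + 1419612298781011615649678952475016771720260989886843619185417813866810540483857042694292118016527582965323796384076857649803550523392)
def Rc.VV (r : Rc) : ℕ := ((((((((r.x &&& 169559321693759672634918283878271549440) + (324518553658426726783156020576256 * ((r.sd * r.be) + (r.ns * r.ga)))) + (664613997892457936451903530140172288 * ((r.sd * (r.ga + 1)) + (r.ns * r.be)))) + (39857368760327970583363107259099906048 * (r.rf &&& 6))) + (1361129467683753853853498429727072845824 * r.rf)) + (8749002899259362446010914288862263316938264250957424987683741951865249249594447408324457076761821184 * (r.x &&& 81128709954854851177730365259775))) + (5708990770823839524233143877797980545530986496 * (r.dd &&& 5575122496445468265719638887927621074354175)))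 + (127314748520905380391777855525586135065716774604121015664758778084648831235208544136462336 * bt r.dd 72 22300745198530623141535718272648361505980415))
def Rc.mc (r : Rc) : ℕ := (r.tQ * (1 - r.gO))
def Rc.me (r : Rc) : ℕ := (r.tQ * (1 - r.gI))
def Rc.a0 (r : Rc) : ℕ := (r.tQ * (1 - (r.gL * r.ns)))
def Rc.a3 (r : Rc) : ℕ := (r.tQ * (1 - (r.gL * r.sd)))
def Rc.GG (r : Rc) : ℕ := (((((((((363419362147803445274662204557452862227490537659550925546356008514348411267099472524874184471795814509130920981502757775537834823778304 * r.tA) + (13479973333575320645622345856932109457105206562007192304389267128320 * r.a0)) + (196159429230833773869868419475239575503198607639501078528 * (r.a0 * r.mc))) + (51422017416287688817342786954917203280710495801049370729644032 * (r.a0 * r.me))) + (4374501449566023848745930790949141260269727429666494376114367372697231122911067507119089659083227136 * r.mc)) + (1146749307995035755805653281262571686532147427322493501732124720548342955484398880586226639590713494339584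 * r.me)) + (1419606883389857286908160455070217280717535982879645696646764086205579445493067127487910438919740686814396809782069910389690749419520 * r.a3)) + (20657999024695268717247353376024094994637646342633788102645274852325180976134729557037162826241102651487225375781979947008 * (r.a3 * r.mc))) + (5415370496329716522614090203404460358274291162843391748379842930887932241807862544999950011922147613471467208908991351228465152 * (r.a3 * r.me)))

structure Fok (r : Rc) : Prop where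
  e1 : (((r.tT + r.tE) + r.tS) + r.tL) ≤ 1
  e2 : (r.tQ + r.tL) ≤ r.tA
  e3 : r.tT ≤ r.nr
  e4 : r.tA = 1 → 2048 ≤ r.rf
  e5 : r.rf ≤ 1050623
  e6 : r.tV ≤ r.tE
  e7 : (2 * r.tZ) ≤ (r.tW + r.tV)
  e8 : (r.tW + r.ss) ≤ 1
  e9 : (((r.tW + r.gI) + r.gO) + r.gL) ≤ 1
  ea : r.tA = 1 → r.c1 ≤ 31
  eb : r.tA = 1 → r.c2 ≤ 31
  t1 : r.tT = 1 → (r.jp + 1) ≤ r.m
  t2 : r.tT = 1 → r.j2 ≤ r.m
  t3 : r.tT = 1 → (r.clo + 1) ≤ r.chi
  t4 : r.tT = 1 → (r.jlo + 1) ≤ r.jhi
  t5 : r.tT = 1 → r.jhi ≤ r.j2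
  t6 : r.tF = 1 → r.clo ≤ r.a
  t7 : r.tF = 1 → r.b ≤ r.chi
  t8 : r.tF = 1 → r.j2 ≤ r.jhi
  t9 : r.tF = 1 → r.jlo ≤ r.j1
  ta : ((r.tT * (((r.n0 + r.n1) + r.n2) + r.n3)) + (r.tL * (((r.n0 + r.n1) + r.n2) + r.n3))) = r.tT
  tb : (r.tR * bt r.w 16 4095) = (r.tR * bt r.w 46 4095)
  n1_ : (r.tV * r.jq) = (r.tV * (r.jp + 1))
  n3_ : (r.tS * r.o) = (r.tS * r.hi)
  n4 : r.tS = 1 → 511 ≤ bt r.w 28 511
  n5 : r.tS ≤ bt r.d 0 1
  n6 : r.tZ = 1 → r.oe ≤ bt r.d 0 63
  o1 : r.tV = 1 → r.oe ≤ (((58 * r.uX) + r.xs) + 61)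
  o2 : ((61 * (r.tC * r.f6)) + r.xs) ≤ r.oe
  o3 : r.u0 = 1 → (r.cc + 2) ≤ (r.k + r.oe)
  o4 : r.u0 = 1 → (r.ke + 1) ≤ (r.cc + r.oe)
  o6 : ((r.uX * r.k) + (2 * (r.xs * r.o))) = ((r.uX * (r.cc + r.o)) + (120 * r.xs))
  g1 : ((r.gI + r.gO) + r.gL) ≤ (((r.gI * r.fI) + (r.gO * r.fO)) + (r.gL * r.fL))
  g2 : ((r.gI * r.j) + (r.gO * r.j)) = ((r.gI * r.jp) + (r.gO * r.jp))
  g3 : (r.gL * r.k) = (120 * r.gL)
  k1 : r.tA = 1 → r.Kc ≤ (r.K + r.tQ)
  p1 : ((r.uV * (r.ua + r.ub)) + r.tL) ≤ (7 * r.tP)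
  p2 : (r.tP * ((r.cs + (256 * (r.sA + (2 * r.s1)))) + (1024 * (r.sB + (2 * r.s2))))) = (r.tP * ((bt r.u 46 255 + (256 * r.ub)) + (1024 * r.ua)))
  p3 : r.tP ≤ r.ss
  p4 : r.tP = 1 → ((r.Kc + 1) + (r.tL * r.uK)) ≤ r.K
  p5 : r.tY = 1 → r.uK ≤ 1
  p6 : (r.tY * (r.k + (256 * r.j))) = (r.tY * (r.uk + (256 * r.uj)))
  p8 : r.tL = 1 → (r.uV + 1) ≤ bt r.u 64 1
  l1 : (r.nc + r.nr) ≤ r.uE
  l2 : r.nx ≤ ((bt r.u 65 1 + bt r.u 63 1) + bt r.u 67 1)
  l3 : (r.uE * bt r.w 8 1048575) = (r.uE * bt r.u 8 1048575)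
  l4 : (r.nx * bt r.u 8 255) = (r.nx * (r.hi + 1))
  l5 : (r.e + (256 * (((r.tT + r.tE) + r.tS) + r.tL))) ≤ ((r.hi + 257) + (256 * ((r.nc + r.nr) + r.nx)))
  c1_ : r.uE = 1 → r.je ≤ (r.uj + r.nr)
  c2_ : r.uE = 1 → r.uk ≤ ((r.nc * r.kc) + (r.nr * r.clo))
  c3 : r.en = 1 → r.chi ≤ r.kc
  c4 : (r.en * (1 - r.nr)) = 1 → r.j ≤ r.jlo
  q : ((r.TT + 363419362147803445274661903944002267176820680343659030140745099590319644056698961663095525356881782780381260803133088966767300814307328 - r.VV) &&& (r.GG + (34084860461056 * r.tA))) = r.GG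
  bT : r.TT ≤ 2839202935997405601117234344175001881197301150595985107578306553365123357418207190597283358806975902139862655437947951983718328958976
  bV : r.VV ≤ 3549009085387911408942073820412510267057431550052981274685177470855130866993481088321278606285627386726282257285086691504652071993344

def P5 (r : Rc) : Prop := (r.tY = 1 → r.uK ≤ 1) ∧ ((r.tY * (r.k + (256 * r.j))) = (r.tY * (r.uk + (256 * r.uj)))) ∧ (((r.TT + 363419362147803445274661903944002267176820680343659030140745099590319644056698961663095525356881782780381260803133088966767300814307328 - r.VV) &&& (r.GG + (34084860461056 * r.tA))) = r.GG) ∧ (r.TT ≤ 2839202935997405601117234344175001881197301150595985107578306553365123357418207190597283358806975902139862655437947951983718328958976) ∧ (r.VV ≤ 3549009085387911408942073820412510267057431550052981274685177470855130866993481088321278606285627386726282257285086691504652071993344) ∧ True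

theorem z5_ok {O j k tA uj uk uK tY TT VV GG : ℕ} (hO : PB n O (fun _ => 1) 1) (Hj : PB n j (fun y => (ρ y).j) 15) (Hk : PB n k (fun y => (ρ y).k) 255) (HtA : PB n tA (fun y => (ρ y).tA) 1) (Huj : PB n uj (fun y => (ρ y).uj) 15) (Huk : PB n uk (fun y => (ρ y).uk) 255) (HuK : PB n uK (fun y => (ρ y).uK) 7) (HtY : PB n tY (fun y => (ρ y).tY) 1) (HTT : PB n TT (fun y => (ρ y).TT) 2839202935997405601117234344175001881197301150595985107578306553365123357418207190597283358806975902139862655437947951983718328958976) (HVV : PB n VV (fun y => (ρ y).VV) 3549009085387911408942073820412510267057431550052981274685177470855130866993481088321278606285627386726282257285086691504652071993344) (HGG : PB n GG (fun y => (ρ y).GG) 364838974446584456890311582896477283948540941333545873759930517404186454597182818705789817472111908866428477883905263770936430857027584)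
    (hh : z5 O j k tA uj uk uK tY TT VV GG = true) (y : ℕ) (hy : y < n) : P5 (ρ y) := by
  obtain ⟨C0, hh⟩ := an_iff.1 hh
  obtain ⟨C1, hh⟩ := an_iff.1 hh
  obtain ⟨C2, hh⟩ := an_iff.1 hh
  exact ⟨PB.cle 15 32768 hO HtY HuK (PB.cst 1 hO) (by decide) (by decide) (by decide) (by decide) C0 y hy,
    PB.eq (PB.ind 14 16383 HtY (PB.add Hk (PB.mul 256 Hj)) (by decide) (by decide) (by decide)) (PB.ind 14 16383 HtY (PB.add Huk (PB.mul 256 Huj)) (by decide) (by decide) (by decide)) (by decide) (by decide) C1 y hy,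
    PB.eq (PB.land (PB.gsub 363419362147803445274661903944002267176820680343659030140745099590319644056698961663095525356881782780381260803133088966767300814307328 hO HTT HVV (by decide)) (PB.add HGG (PB.mul 34084860461056 HtA)) (by decide) (by decide)) HGG (by decide) (by decide) C2 y hy,
    PB.bd HTT y hy,
    PB.bd HVV y hy,
    trivial⟩

def P4 (r : Rc) : Prop := (((r.uV * (r.ua + r.ub)) + r.tL) ≤ (7 * r.tP)) ∧ ((r.tP * ((r.cs + (256 * (r.sA + (2 * r.s1)))) + (1024 * (r.sB + (2 * r.s2))))) = (r.tP * ((bt r.u 46 255 + (256 * r.ub)) + (1024 * r.ua)))) ∧ (r.tP ≤ r.ss) ∧ (r.tP = 1 → ((r.Kc + 1) + (r.tL * r.uK)) ≤ r.K) ∧ (r.uE = 1 → r.je ≤ (r.uj + r.nr)) ∧ P5 r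

theorem z4_ok {O x u i hi n0 n2 n1 n3 j k cs sA s1 sB s2 Kc tA tL nr sd rf K jp fL fI fO uj uk uE uK uV ua ub Pa Pb ns tQ ss nQ je al be ga de c1 c2 tP dd GG : ℕ} (hO : PB n O (fun _ => 1) 1) (Hx : PB n x (fun y => (ρ y).x) 340282366920938463463374607431768211455) (Hu : PB n u (fun y => (ρ y).u) 158456325028528675187087900671) (Hi : PB n i (fun y => (ρ y).i) 262144) (Hhi : PB n hi (fun y => (ρ y).hi) 255) (Hn0 : PB n n0 (fun y => (ρ y).n0) 1) (Hn2 : PB n n2 (fun y => (ρ y).n2) 1) (Hn1 : PB n n1 (fun y => (ρ y).n1) 1) (Hn3 : PB n n3 (fun y => (ρ y).n3) 1) (Hj : PB n j (fun y => (ρ y).j) 15) (Hk : PB n k (fun y => (ρ y).k) 255) (Hcs : PB n cs (fun y => (ρ y).cs) 255) (HsA : PB n sA (fun y => (ρ y).sA) 1) (Hs1 : PB n s1 (fun y => (ρ y).s1) 1) (HsB : PB n sB (fun y => (ρ y).sB) 1) (Hs2 : PB n s2 (fun y => (ρ y).s2) 1) (HKc : PB n Kc (fun y => (ρ y).Kc) 7) (HtA : PB n tA (fun y => (ρ y).tA) 1) (HtL : PB n tL (fun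 y => (ρ y).tL) 1) (Hnr : PB n nr (fun y => (ρ y).nr) 1) (Hsd : PB n sd (fun y => (ρ y).sd) 1) (Hrf : PB n rf (fun y => (ρ y).rf) 2097151) (HK : PB n K (fun y => (ρ y).K) 3) (Hjp : PB n jp (fun y => (ρ y).jp) 31) (HfL : PB n fL (fun y => (ρ y).fL) 1) (HfI : PB n fI (fun y => (ρ y).fI) 1) (HfO : PB n fO (fun y => (ρ y).fO) 1) (Huj : PB n uj (fun y => (ρ y).uj) 15) (Huk : PB n uk (fun y => (ρ y).uk) 255) (HuE : PB n uE (fun y => (ρ y).uE) 1) (HuK : PB n uK (fun y => (ρ y).uK) 7) (HuV : PB n uV (fun y => (ρ y).uV) 1) (Hua : PB n ua (fun y => (ρ y).ua) 3) (Hub : PB n ub (fun y => (ρ y).ub) 3) (HPa : PB n Pa (fun y => (ρ y).Pa) 4503530907959295) (HPb : PB n Pb (fun y => (ρ y).Pb) 4503530907959295) (Hns : PB n ns (fun y => (ρ y).ns) 1) (HtQ : PB n tQ (fun y => (ρ y).tQ) 1) (Hss : PB n ss (fun y => (ρ y).ss) 4) (HnQ : PB n nQ (fun y => (ρ y).nQ) 1) (Hje : PB n je (fun y => (ρ y).je) 301) (Hal : PB n al (fun y => (ρ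 y).al) 831) (Hbe : PB n be (fun y => (ρ y).be) 766) (Hga : PB n ga (fun y => (ρ y).ga) 440) (Hde : PB n de (fun y => (ρ y).de) 375) (Hc1 : PB n c1 (fun y => (ρ y).c1) 301) (Hc2 : PB n c2 (fun y => (ρ y).c2) 302) (HtP : PB n tP (fun y => (ρ y).tP) 1) (Hdd : PB n dd (fun y => (ρ y).dd) 26327771615106622073631788543845694075442754821128109490054168575) (HGG : PB n GG (fun y => (ρ y).GG) 364838974446584456890311582896477283948540941333545873759930517404186454597182818705789817472111908866428477883905263770936430857027584)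
    (hh : z4 O x u i hi n0 n2 n1 n3 j k cs sA s1 sB s2 Kc tA tL nr sd rf K jp fL fI fO uj uk uE uK uV ua ub Pa Pb ns tQ ss nQ je al be ga de c1 c2 tP dd GG = true) (y : ℕ) (hy : y < n) : P4 (ρ y) := by
  obtain ⟨C0, hh⟩ := an_iff.1 hh
  obtain ⟨C1, hh⟩ := an_iff.1 hh
  obtain ⟨C2, hh⟩ := an_iff.1 hh
  obtain ⟨C3, hh⟩ := an_iff.1 hh
  obtain ⟨C4, hh⟩ := an_iff.1 hh
  exact ⟨PB.le 15 32768 hO (PB.add (PB.ind 10 1023 HuV (PB.add Hua Hub) (by decide) (by decide) (by decide)) HtL) (PB.mul 7 HtP) (by decide) (by decide) (by decide) (by decide) C0 y hy,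
    PB.eq (PB.ind 14 16383 HtP (PB.add (PB.add Hcs (PB.mul 256 (PB.add HsA (PB.mul 2 Hs1)))) (PB.mul 1024 (PB.add HsB (PB.mul 2 Hs2)))) (by decide) (by decide) (by decide)) (PB.ind 14 16383 HtP (PB.add (PB.add (PB.fld 46 255 hO Hu (by decide) (by decide)) (PB.mul 256 Hub)) (PB.mul 1024 Hua)) (by decide) (by decide) (by decide)) (by decide) (by decide) C1 y hy,
    PB.le 15 32768 hO HtP Hss (by decide) (by decide) (by decide) (by decide) C2 y hy,
    PB.cle 15 32768 hO HtP (PB.add (PB.add HKc (PB.cst 1 hO)) (PB.ind 10 1023 HtL HuK (by decide) (by decide) (by decide))) HK (by decide) (by decide) (by decide) (by decide) C3 y hy,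
    PB.cle 15 32768 hO HuE Hje (PB.add Huj Hnr) (by decide) (by decide) (by decide) (by decide) C4 y hy,
    z5_ok hO Hj Hk HtA Huj Huk HuK (PB.band HtP (PB.not hO HtL)) (PB.add (PB.add (PB.add (PB.add (PB.add (PB.add (PB.add (PB.add (PB.add (PB.add (PB.add (PB.add (PB.mul 68719476736 HKc) (PB.mul 1099511627776 (PB.add (PB.ind 10 1023 HtQ Hj (by decide) (by decide) (by decide)) (PB.ind 10 1023 HnQ Hjp (by decide) (by decide) (by decide))))) (PB.mul 70368744177664 Hc1)) (PB.mul 4503599627370496 (PB.csub 1023 hO Hc2 (by decide)))) (PB.mul 4611686018427387904 (PB.add (PB.band HtQ Hn2) (PB.band HnQ HfI)))) (PB.mul 18446744073709551616 (PB.add (PB.band HtQ Hn3) (PB.band HnQ HfO)))) (PB.mul 10889035741470030830827987437816582766592 (PB.add Hi Hhi))) (PB.mul 864691128455135232 (PB.add (PB.ind 10 1023 Hns (PB.add (PB.band HtQ Hn0) (PB.band HnQ HfL)) (by decide) (by decide) (by decide)) (PB.band Hsd (PB.band HtQ Hn1)))))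 (PB.mul 324518553658426726783156020576256 (PB.add (PB.ind 10 1023 Hsd (PB.add Hde (PB.cst 1 hO)) (by decide) (by decide) (by decide)) (PB.ind 10 1023 Hns Hal (by decide) (by decide) (by decide))))) (PB.mul 664613997892457936451903530140172288 (PB.add (PB.ind 10 1023 Hsd Hal (by decide) (by decide) (by decide)) (PB.ind 10 1023 Hns Hde (by decide) (by decide) (by decide))))) (PB.mul 7067415219060204468974481253372378698352689322148743724669014129235722240 (PB.add (PB.ind 52 4503599627370495 Hsd HPb (by decide) (by decide) (by decide)) (PB.ind 52 4503599627370495 Hns HPa (by decide) (by decide) (by decide))))) (PB.mul 157608626012479106950455875032358246031540767862531061979056877007350196635150709975299591994347402807817141055651840 (PB.add (PB.ind 52 4503599627370495 Hsd HPa (by decide) (by decide) (by decide)) (PB.ind 52 4503599627370495 Hns HPb (by decide) (by decide) (by decide))))) (PB.cst 1419612298781011615649678952475016771720260989886843619185417813866810540483857042694292118016527582965323796384076857649803550523392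 hO)) (PB.add (PB.add (PB.add (PB.add (PB.add (PB.add (PB.add (PB.msk 169559321693759672634918283878271549440 hO Hx (by decide) (by decide)) (PB.mul 324518553658426726783156020576256 (PB.add (PB.ind 10 1023 Hsd Hbe (by decide) (by decide) (by decide)) (PB.ind 10 1023 Hns Hga (by decide) (by decide) (by decide))))) (PB.mul 664613997892457936451903530140172288 (PB.add (PB.ind 10 1023 Hsd (PB.add Hga (PB.cst 1 hO)) (by decide) (by decide) (by decide)) (PB.ind 10 1023 Hns Hbe (by decide) (by decide) (by decide))))) (PB.mul 39857368760327970583363107259099906048 (PB.msk 6 hO Hrf (by decide) (by decide)))) (PB.mul 1361129467683753853853498429727072845824 Hrf)) (PB.mul 8749002899259362446010914288862263316938264250957424987683741951865249249594447408324457076761821184 (PB.msk 81128709954854851177730365259775 hO Hx (by decide) (by decide)))) (PB.mul 5708990770823839524233143877797980545530986496 (PB.msk 5575122496445468265719638887927621074354175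 hO Hdd (by decide) (by decide)))) (PB.mul 127314748520905380391777855525586135065716774604121015664758778084648831235208544136462336 (PB.fld 72 22300745198530623141535718272648361505980415 hO Hdd (by decide) (by decide)))) HGG hh y hy⟩

def P3 (r : Rc) : Prop := (r.tA = 1 → r.c2 ≤ 31) ∧ (r.tT = 1 → (r.clo + 1) ≤ r.chi) ∧ (r.tT = 1 → (r.jlo + 1) ≤ r.jhi) ∧ (r.tT = 1 → r.jhi ≤ r.j2) ∧ (r.tF = 1 → r.b ≤ r.chi) ∧ (r.tF = 1 → r.j2 ≤ r.jhi) ∧ (r.tV = 1 → r.oe ≤ (((58 * r.uX) + r.xs) + 61)) ∧ (((61 * (r.tC * r.f6)) + r.xs) ≤ r.oe) ∧ (r.u0 = 1 → (r.cc + 2) ≤ (r.k + r.oe)) ∧ (r.u0 = 1 → (r.ke + 1) ≤ (r.cc + r.oe)) ∧ (((r.uX * r.k) + (2 * (r.xs * r.o))) = ((r.uX * (r.cc + r.o)) + (120 * r.xs))) ∧ (r.uE = 1 → r.uk ≤ ((r.nc * r.kc) + (r.nr * r.clo))) ∧ (r.en = 1 → r.chi ≤ r.kc) ∧ P4 r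

theorem z3_ok {O x u i o hi n0 n2 n1 n3 j k cs f6 sA s1 sB s2 Kc tA tT tE tL tV nc nr sd rf K jp fL fI fO a uj uk uE uK uV ua ub Pa Pb b j2 ns tQ uX tC cc oe ss en tF ke kc u0 xs nQ chi clo jhi jlo be c1 c2 dd mc me a0 a3 : ℕ} (hO : PB n O (fun _ => 1) 1) (Hx : PB n x (fun y => (ρ y).x) 340282366920938463463374607431768211455) (Hu : PB n u (fun y => (ρ y).u) 158456325028528675187087900671) (Hi : PB n i (fun y => (ρ y).i) 262144) (Ho : PB n o (fun y => (ρ y).o) 255) (Hhi : PB n hi (fun y => (ρ y).hi) 255) (Hn0 : PB n n0 (fun y => (ρ y).n0) 1) (Hn2 : PB n n2 (fun y => (ρ y).n2) 1) (Hn1 : PB n n1 (fun y => (ρ y).n1) 1) (Hn3 : PB n n3 (fun y => (ρ y).n3) 1) (Hj : PB n j (fun y => (ρ y).j) 15) (Hk : PB n k (fun y => (ρ y).k) 255) (Hcs : PB n cs (fun y => (ρ y).cs) 255) (Hf6 : PB n f6 (fun y => (ρ y).f6) 1) (HsA : PB n sA (fun y => (ρ y).sA) 1) (Hs1 : PB n s1 (fun y => (ρ y).s1) 1) (HsB : PB n sB (fun y => (ρ y).sB)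 1) (Hs2 : PB n s2 (fun y => (ρ y).s2) 1) (HKc : PB n Kc (fun y => (ρ y).Kc) 7) (HtA : PB n tA (fun y => (ρ y).tA) 1) (HtT : PB n tT (fun y => (ρ y).tT) 1) (HtE : PB n tE (fun y => (ρ y).tE) 1) (HtL : PB n tL (fun y => (ρ y).tL) 1) (HtV : PB n tV (fun y => (ρ y).tV) 1) (Hnc : PB n nc (fun y => (ρ y).nc) 1) (Hnr : PB n nr (fun y => (ρ y).nr) 1) (Hsd : PB n sd (fun y => (ρ y).sd) 1) (Hrf : PB n rf (fun y => (ρ y).rf) 2097151) (HK : PB n K (fun y => (ρ y).K) 3) (Hjp : PB n jp (fun y => (ρ y).jp) 31) (HfL : PB n fL (fun y => (ρ y).fL) 1) (HfI : PB n fI (fun y => (ρ y).fI) 1) (HfO : PB n fO (fun y => (ρ y).fO) 1) (Ha : PB n a (fun y => (ρ y).a) 255) (Huj : PB n uj (fun y => (ρ y).uj) 15) (Huk : PB n uk (fun y => (ρ y).uk) 255) (HuE : PB n uE (fun y => (ρ y).uE) 1) (HuK : PB n uK (fun y => (ρ y).uK) 7) (HuV : PB n uV (fun y => (ρ y).uV) 1) (Hua : PB n ua (fun y => (ρ y).ua) 3) (Hub : PB n ub (fun y => (ρ y).ub) 3)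 (HPa : PB n Pa (fun y => (ρ y).Pa) 4503530907959295) (HPb : PB n Pb (fun y => (ρ y).Pb) 4503530907959295) (Hb : PB n b (fun y => (ρ y).b) 255) (Hj2 : PB n j2 (fun y => (ρ y).j2) 31) (Hns : PB n ns (fun y => (ρ y).ns) 1) (HtQ : PB n tQ (fun y => (ρ y).tQ) 1) (HuX : PB n uX (fun y => (ρ y).uX) 1) (HtC : PB n tC (fun y => (ρ y).tC) 1) (Hcc : PB n cc (fun y => (ρ y).cc) 360) (Hoe : PB n oe (fun y => (ρ y).oe) 382) (Hss : PB n ss (fun y => (ρ y).ss) 4) (Hen : PB n en (fun y => (ρ y).en) 1) (HtF : PB n tF (fun y => (ρ y).tF) 1) (Hke : PB n ke (fun y => (ρ y).ke) 319) (Hkc : PB n kc (fun y => (ρ y).kc) 319) (Hu0 : PB n u0 (fun y => (ρ y).u0) 1) (Hxs : PB n xs (fun y => (ρ y).xs) 1) (HnQ : PB n nQ (fun y => (ρ y).nQ) 1) (Hchi : PB n chi (fun y => (ρ y).chi) 510) (Hclo : PB n clo (fun y => (ρ y).clo) 510) (Hjhi : PB n jhi (fun y => (ρ y).jhi) 286) (Hjlo : PB n jlo (fun y => (ρ y).jlo) 286) (Hbe : PB n be (fun y => (ρ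 y).be) 766) (Hc1 : PB n c1 (fun y => (ρ y).c1) 301) (Hc2 : PB n c2 (fun y => (ρ y).c2) 302) (Hdd : PB n dd (fun y => (ρ y).dd) 26327771615106622073631788543845694075442754821128109490054168575) (Hmc : PB n mc (fun y => (ρ y).mc) 1) (Hme : PB n me (fun y => (ρ y).me) 1) (Ha0 : PB n a0 (fun y => (ρ y).a0) 1) (Ha3 : PB n a3 (fun y => (ρ y).a3) 1)
    (hh : z3 O x u i o hi n0 n2 n1 n3 j k cs f6 sA s1 sB s2 Kc tA tT tE tL tV nc nr sd rf K jp fL fI fO a uj uk uE uK uV ua ub Pa Pb b j2 ns tQ uX tC cc oe ss en tF ke kc u0 xs nQ chi clo jhi jlo be c1 c2 dd mc me a0 a3 = true) (y : ℕ) (hy : y < n) : P3 (ρ y) := by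
  obtain ⟨C0, hh⟩ := an_iff.1 hh
  obtain ⟨C1, hh⟩ := an_iff.1 hh
  obtain ⟨C2, hh⟩ := an_iff.1 hh
  obtain ⟨C3, hh⟩ := an_iff.1 hh
  obtain ⟨C4, hh⟩ := an_iff.1 hh
  obtain ⟨C5, hh⟩ := an_iff.1 hh
  obtain ⟨C6, hh⟩ := an_iff.1 hh
  obtain ⟨C7, hh⟩ := an_iff.1 hh
  obtain ⟨C8, hh⟩ := an_iff.1 hh
  obtain ⟨C9, hh⟩ := an_iff.1 hh
  obtain ⟨C10, hh⟩ := an_iff.1 hh
  obtain ⟨C11, hh⟩ := an_iff.1 hh
  obtain ⟨C12, hh⟩ := an_iff.1 hh
  exact ⟨PB.cle 15 32768 hO HtA Hc2 (PB.cst 31 hO) (by decide) (by decide) (by decide) (by decide) C0 y hy,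
    PB.cle 15 32768 hO HtT (PB.add Hclo (PB.cst 1 hO)) Hchi (by decide) (by decide) (by decide) (by decide) C1 y hy,
    PB.cle 15 32768 hO HtT (PB.add Hjlo (PB.cst 1 hO)) Hjhi (by decide) (by decide) (by decide) (by decide) C2 y hy,
    PB.cle 15 32768 hO HtT Hjhi Hj2 (by decide) (by decide) (by decide) (by decide) C3 y hy,
    PB.cle 15 32768 hO HtF Hb Hchi (by decide) (by decide) (by decide) (by decide) C4 y hy,
    PB.cle 15 32768 hO HtF Hj2 Hjhi (by decide) (by decide) (by decide) (by decide) C5 y hy,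
    PB.cle 15 32768 hO HtV Hoe (PB.add (PB.add (PB.mul 58 HuX) Hxs) (PB.cst 61 hO)) (by decide) (by decide) (by decide) (by decide) C6 y hy,
    PB.le 15 32768 hO (PB.add (PB.mul 61 (PB.band HtC Hf6)) Hxs) Hoe (by decide) (by decide) (by decide) (by decide) C7 y hy,
    PB.cle 15 32768 hO Hu0 (PB.add Hcc (PB.cst 2 hO)) (PB.add Hk Hoe) (by decide) (by decide) (by decide) (by decide) C8 y hy,
    PB.cle 15 32768 hO Hu0 (PB.add Hke (PB.cst 1 hO)) (PB.add Hcc Hoe) (by decide) (by decide) (by decide) (by decide) C9 y hy,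
    PB.eq (PB.add (PB.ind 10 1023 HuX Hk (by decide) (by decide) (by decide)) (PB.mul 2 (PB.ind 10 1023 Hxs Ho (by decide) (by decide) (by decide)))) (PB.add (PB.ind 10 1023 HuX (PB.add Hcc Ho) (by decide) (by decide) (by decide)) (PB.mul 120 Hxs)) (by decide) (by decide) C10 y hy,
    PB.cle 15 32768 hO HuE Huk (PB.add (PB.ind 10 1023 Hnc Hkc (by decide) (by decide) (by decide)) (PB.ind 10 1023 Hnr Hclo (by decide) (by decide) (by decide))) (by decide) (by decide) (by decide) (by decide) C11 y hy,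
    PB.cle 15 32768 hO Hen Hchi Hkc (by decide) (by decide) (by decide) (by decide) C12 y hy,
    z4_ok hO Hx Hu Hi Hhi Hn0 Hn2 Hn1 Hn3 Hj Hk Hcs HsA Hs1 HsB Hs2 HKc HtA HtL Hnr Hsd Hrf HK Hjp HfL HfI HfO Huj Huk HuE HuK HuV Hua Hub HPa HPb Hns HtQ Hss HnQ (PB.add (PB.ind 10 1023 HtE Hj (by decide) (by decide) (by decide)) (PB.ind 10 1023 HtT Hjhi (by decide) (by decide) (by decide))) (PB.add (PB.ind 10 1023 HsA (PB.add Hcs (PB.cst 1 hO)) (by decide) (by decide) (by decide)) (PB.ind 10 1023 (PB.not hO HsA) (PB.add (PB.ind 10 1023 Hn0 Hke (by decide) (by decide) (by decide)) (PB.ind 10 1023 (PB.not hO Hn0) (PB.add Ha (PB.cst 1 hO)) (by decide) (by decide) (by decide))) (by decide) (by decide) (by decide))) Hbe (PB.add (PB.ind 10 1023 HtQ Hke (by decide) (by decide) (by decide)) (PB.mul 121 HnQ)) (PB.add (PB.ind 10 1023 HtQ Hk (by decide) (by decide) (by decide)) (PB.mul 120 HnQ)) Hc1 Hc2 (PB.band (PB.band HtA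 HnQ) (PB.band (PB.not hO HtT) Hnc)) Hdd (PB.add (PB.add (PB.add (PB.add (PB.add (PB.add (PB.add (PB.add (PB.mul 363419362147803445274662204557452862227490537659550925546356008514348411267099472524874184471795814509130920981502757775537834823778304 HtA) (PB.mul 13479973333575320645622345856932109457105206562007192304389267128320 Ha0)) (PB.mul 196159429230833773869868419475239575503198607639501078528 (PB.band Ha0 Hmc))) (PB.mul 51422017416287688817342786954917203280710495801049370729644032 (PB.band Ha0 Hme))) (PB.mul 4374501449566023848745930790949141260269727429666494376114367372697231122911067507119089659083227136 Hmc)) (PB.mul 1146749307995035755805653281262571686532147427322493501732124720548342955484398880586226639590713494339584 Hme)) (PB.mul 1419606883389857286908160455070217280717535982879645696646764086205579445493067127487910438919740686814396809782069910389690749419520 Ha3)) (PB.mul 20657999024695268717247353376024094994637646342633788102645274852325180976134729557037162826241102651487225375781979947008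 (PB.band Ha3 Hmc))) (PB.mul 5415370496329716522614090203404460358274291162843391748379842930887932241807862544999950011922147613471467208908991351228465152 (PB.band Ha3 Hme))) hh y hy⟩

def P2 (r : Rc) : Prop := ((r.tQ + r.tL) ≤ r.tA) ∧ ((r.tW + r.ss) ≤ 1) ∧ (r.tA = 1 → r.c1 ≤ 31) ∧ (r.tT = 1 → r.j2 ≤ r.m) ∧ (r.tF = 1 → r.clo ≤ r.a) ∧ (r.tF = 1 → r.jlo ≤ r.j1) ∧ ((r.tR * bt r.w 16 4095) = (r.tR * bt r.w 46 4095)) ∧ (r.tZ = 1 → r.oe ≤ bt r.d 0 63) ∧ (r.tA = 1 → r.Kc ≤ (r.K + r.tQ)) ∧ ((r.en * (1 - r.nr)) = 1 → r.j ≤ r.jlo) ∧ P3 r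

theorem z2_ok {O w x d u m i o hi sb n0 n2 n1 n3 j tZ k cs f6 sA s1 sB s2 Kc tA tT tE tL tV tW nc nr gI gO gL sd rf K jp j1 fL fI fO a uj uk uE uK uV ua ub Pa Pb b j2 ns tQ uX tC cc wi oe ss en tF tR clo jlo c1 d0 : ℕ} (hO : PB n O (fun _ => 1) 1) (Hw : PB n w (fun y => (ρ y).w) 158456325028528675187087900671) (Hx : PB n x (fun y => (ρ y).x) 340282366920938463463374607431768211455) (Hd : PB n d (fun y => (ρ y).d) 26327771615106622073631788543845694075442754821128109490054168575) (Hu : PB n u (fun y => (ρ y).u) 158456325028528675187087900671) (Hm : PB n m (fun y => (ρ y).m) 16) (Hi : PB n i (fun y => (ρ y).i) 262144) (Ho : PB n o (fun y => (ρ y).o) 255) (Hhi : PB n hi (fun y => (ρ y).hi) 255) (Hsb : PB n sb (fun y => (ρ y).sb) 255) (Hn0 : PB n n0 (fun y => (ρ y).n0) 1) (Hn2 : PB n n2 (fun y => (ρ y).n2) 1) (Hn1 : PB n n1 (fun y => (ρ y).n1) 1) (Hn3 : PB n n3 (fun y => (ρ y).n3) 1) (Hj : PB n j (fun y => (ρ y).j)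 15) (HtZ : PB n tZ (fun y => (ρ y).tZ) 1) (Hk : PB n k (fun y => (ρ y).k) 255) (Hcs : PB n cs (fun y => (ρ y).cs) 255) (Hf6 : PB n f6 (fun y => (ρ y).f6) 1) (HsA : PB n sA (fun y => (ρ y).sA) 1) (Hs1 : PB n s1 (fun y => (ρ y).s1) 1) (HsB : PB n sB (fun y => (ρ y).sB) 1) (Hs2 : PB n s2 (fun y => (ρ y).s2) 1) (HKc : PB n Kc (fun y => (ρ y).Kc) 7) (HtA : PB n tA (fun y => (ρ y).tA) 1) (HtT : PB n tT (fun y => (ρ y).tT) 1) (HtE : PB n tE (fun y => (ρ y).tE) 1) (HtL : PB n tL (fun y => (ρ y).tL) 1) (HtV : PB n tV (fun y => (ρ y).tV) 1) (HtW : PB n tW (fun y => (ρ y).tW) 1) (Hnc : PB n nc (fun y => (ρ y).nc) 1) (Hnr : PB n nr (fun y => (ρ y).nr) 1) (HgI : PB n gI (fun y => (ρ y).gI) 1) (HgO : PB n gO (fun y => (ρ y).gO) 1) (HgL : PB n gL (fun y => (ρ y).gL) 1) (Hsd : PB n sd (fun y => (ρ y).sd) 1) (Hrf : PB n rf (fun y => (ρ y).rf) 2097151) (HK : PB n K (fun y => (ρ y).K) 3) (Hjp : PB n jp (fun y => (ρ y).jp) 31)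 (Hj1 : PB n j1 (fun y => (ρ y).j1) 31) (HfL : PB n fL (fun y => (ρ y).fL) 1) (HfI : PB n fI (fun y => (ρ y).fI) 1) (HfO : PB n fO (fun y => (ρ y).fO) 1) (Ha : PB n a (fun y => (ρ y).a) 255) (Huj : PB n uj (fun y => (ρ y).uj) 15) (Huk : PB n uk (fun y => (ρ y).uk) 255) (HuE : PB n uE (fun y => (ρ y).uE) 1) (HuK : PB n uK (fun y => (ρ y).uK) 7) (HuV : PB n uV (fun y => (ρ y).uV) 1) (Hua : PB n ua (fun y => (ρ y).ua) 3) (Hub : PB n ub (fun y => (ρ y).ub) 3) (HPa : PB n Pa (fun y => (ρ y).Pa) 4503530907959295) (HPb : PB n Pb (fun y => (ρ y).Pb) 4503530907959295) (Hb : PB n b (fun y => (ρ y).b) 255) (Hj2 : PB n j2 (fun y => (ρ y).j2) 31) (Hns : PB n ns (fun y => (ρ y).ns) 1) (HtQ : PB n tQ (fun y => (ρ y).tQ) 1) (HuX : PB n uX (fun y => (ρ y).uX) 1) (HtC : PB n tC (fun y => (ρ y).tC) 1) (Hcc : PB n cc (fun y => (ρ y).cc) 360) (Hwi : PB n wi (fun y => (ρ y).wi) 64) (Hoe : PB n oe (fun y => (ρ y).oe) 382) (Hss : PB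 n ss (fun y => (ρ y).ss) 4) (Hen : PB n en (fun y => (ρ y).en) 1) (HtF : PB n tF (fun y => (ρ y).tF) 1) (HtR : PB n tR (fun y => (ρ y).tR) 1) (Hclo : PB n clo (fun y => (ρ y).clo) 510) (Hjlo : PB n jlo (fun y => (ρ y).jlo) 286) (Hc1 : PB n c1 (fun y => (ρ y).c1) 301) (Hd0 : PB n d0 (fun y => (ρ y).d0) 1180578109866989387775)
    (hh : z2 O w x d u m i o hi sb n0 n2 n1 n3 j tZ k cs f6 sA s1 sB s2 Kc tA tT tE tL tV tW nc nr gI gO gL sd rf K jp j1 fL fI fO a uj uk uE uK uV ua ub Pa Pb b j2 ns tQ uX tC cc wi oe ss en tF tR clo jlo c1 d0 = true) (y : ℕ) (hy : y < n) : P2 (ρ y) := by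
  obtain ⟨C0, hh⟩ := an_iff.1 hh
  obtain ⟨C1, hh⟩ := an_iff.1 hh
  obtain ⟨C2, hh⟩ := an_iff.1 hh
  obtain ⟨C3, hh⟩ := an_iff.1 hh
  obtain ⟨C4, hh⟩ := an_iff.1 hh
  obtain ⟨C5, hh⟩ := an_iff.1 hh
  obtain ⟨C6, hh⟩ := an_iff.1 hh
  obtain ⟨C7, hh⟩ := an_iff.1 hh
  obtain ⟨C8, hh⟩ := an_iff.1 hh
  obtain ⟨C9, hh⟩ := an_iff.1 hh
  exact ⟨PB.le 15 32768 hO (PB.add HtQ HtL) HtA (by decide) (by decide) (by decide) (by decide) C0 y hy,
    PB.le 15 32768 hO (PB.add HtW Hss) (PB.cst 1 hO) (by decide) (by decide) (by decide) (by decide) C1 y hy,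
    PB.cle 15 32768 hO HtA Hc1 (PB.cst 31 hO) (by decide) (by decide) (by decide) (by decide) C2 y hy,
    PB.cle 15 32768 hO HtT Hj2 Hm (by decide) (by decide) (by decide) (by decide) C3 y hy,
    PB.cle 15 32768 hO HtF Hclo Ha (by decide) (by decide) (by decide) (by decide) C4 y hy,
    PB.cle 15 32768 hO HtF Hjlo Hj1 (by decide) (by decide) (by decide) (by decide) C5 y hy,
    PB.eq (PB.ind 14 16383 HtR (PB.fld 16 4095 hO Hw (by decide) (by decide)) (by decide) (by decide) (by decide)) (PB.ind 14 16383 HtR (PB.fld 46 4095 hO Hw (by decide) (by decide)) (by decide) (by decide) (by decide)) (by decide) (by decide) C6 y hy,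
    PB.cle 15 32768 hO HtZ Hoe (PB.fld 0 63 hO Hd (by decide) (by decide)) (by decide) (by decide) (by decide) (by decide) C7 y hy,
    PB.cle 15 32768 hO HtA HKc (PB.add HK HtQ) (by decide) (by decide) (by decide) (by decide) C8 y hy,
    PB.cle 15 32768 hO (PB.band Hen (PB.not hO Hnr)) Hj Hjlo (by decide) (by decide) (by decide) (by decide) C9 y hy,
    z3_ok hO Hx Hu Hi Ho Hhi Hn0 Hn2 Hn1 Hn3 Hj Hk Hcs Hf6 HsA Hs1 HsB Hs2 HKc HtA HtT HtE HtL HtV Hnc Hnr Hsd Hrf HK Hjp HfL HfI HfO Ha Huj Huk HuE HuK HuV Hua Hub HPa HPb Hb Hj2 Hns HtQ HuX HtC Hcc Hoe Hss Hen HtF (PB.add Hk Hwi) (PB.add Hk (PB.ind 10 1023 HtV Hwi (by decide) (by decide) (by decide))) (PB.band HtC (PB.not hO Hf6)) (PB.band HuX Hsd) (PB.not hO HtQ) (PB.add (PB.ind 10 1023 Hn0 Hsb (by decide) (by decide) (by decide)) (PB.ind 10 1023 (PB.not hO Hn0) Hb (by decide) (by decide) (by decide))) Hclo (PB.add (PB.ind 10 1023 Hn2 Hsb (by decide) (by decide)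 (by decide)) (PB.ind 10 1023 (PB.not hO Hn2) Hj2 (by decide) (by decide) (by decide))) Hjlo (PB.add (PB.ind 10 1023 HsB Hcs (by decide) (by decide) (by decide)) (PB.ind 10 1023 (PB.not hO HsB) (PB.add (PB.ind 10 1023 Hn1 (PB.add Hk (PB.cst 1 hO)) (by decide) (by decide) (by decide)) (PB.ind 10 1023 (PB.not hO Hn1) Hb (by decide) (by decide) (by decide))) (by decide) (by decide) (by decide))) Hc1 (PB.add (PB.ind 10 1023 Hs2 Hcs (by decide) (by decide) (by decide)) (PB.ind 10 1023 (PB.not hO Hs2) (PB.add (PB.ind 10 1023 Hn3 (PB.add Hj (PB.cst 1 hO)) (by decide) (by decide) (by decide)) (PB.ind 10 1023 (PB.not hO Hn3) Hj2 (by decide) (by decide) (by decide))) (by decide) (by decide) (by decide))) (PB.msk 26327771615106622073631788543845694075442754821128109490054168575 hO (PB.add (PB.ind 216 105312291668557186697918027683670432318895095400549111254310977535 HuX Hd (by decide) (by decide) (by decide)) (PB.ind 216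 105312291668557186697918027683670432318895095400549111254310977535 HtC (PB.mul 22300745198530623141540440639131231151194113 Hd0) (by decide) (by decide) (by decide))) (by decide) (by decide)) (PB.band HtQ (PB.not hO HgO)) (PB.band HtQ (PB.not hO HgI)) (PB.band HtQ (PB.not hO (PB.band HgL Hns))) (PB.band HtQ (PB.not hO (PB.band HgL Hsd))) hh y hy⟩

def P1 (r : Rc) : Prop := ((((r.tT + r.tE) + r.tS) + r.tL) ≤ 1) ∧ (r.tT ≤ r.nr) ∧ (r.tA = 1 → 2048 ≤ r.rf) ∧ (r.rf ≤ 1050623) ∧ (r.tV ≤ r.tE) ∧ ((2 * r.tZ) ≤ (r.tW + r.tV)) ∧ ((((r.tW + r.gI) + r.gO) + r.gL) ≤ 1) ∧ (r.tT = 1 → (r.jp + 1) ≤ r.m) ∧ (((r.tT * (((r.n0 + r.n1) + r.n2) + r.n3)) + (r.tL * (((r.n0 + r.n1) + r.n2) + r.n3))) = r.tT) ∧ ((r.tV * r.jq) = (r.tV * (r.jp + 1))) ∧ ((r.tS * r.o) = (r.tS * r.hi)) ∧ (r.tS = 1 → 511 ≤ bt r.w 28 511) ∧ (r.tS ≤ bt r.d 0 1) ∧ (((r.gI + r.gO) + r.gL) ≤ (((r.gI * r.fI) + (r.gO * r.fO)) + (r.gL * r.fL))) ∧ (((r.gI * r.j) + (r.gO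 * r.j)) = ((r.gI * r.jp) + (r.gO * r.jp))) ∧ ((r.gL * r.k) = (120 * r.gL)) ∧ (r.tL = 1 → (r.uV + 1) ≤ bt r.u 64 1) ∧ ((r.nc + r.nr) ≤ r.uE) ∧ (r.nx ≤ ((bt r.u 65 1 + bt r.u 63 1) + bt r.u 67 1)) ∧ ((r.uE * bt r.w 8 1048575) = (r.uE * bt r.u 8 1048575)) ∧ ((r.nx * bt r.u 8 255) = (r.nx * (r.hi + 1))) ∧ ((r.e + (256 * (((r.tT + r.tE) + r.tS) + r.tL))) ≤ ((r.hi + 257) + (256 * ((r.nc + r.nr) + r.nx)))) ∧ P2 r

theorem z1_ok {O w x d u m e i o hi sb n0 n2 n1 n3 j jq tZ k cs wd f6 sA s1 sB s2 c Kc tS tA tT tE tL tV tW nc nr nx gI gO gL sd rf K jp j1 r2 fL fI fO a hb uj uk uE uK uV ua ub Pa Pb d0 : ℕ} (hO : PB n O (fun _ => 1) 1) (Hw : PB n w (fun y => (ρ y).w) 158456325028528675187087900671) (Hx : PB n x (fun y => (ρ y).x) 340282366920938463463374607431768211455) (Hd : PB n d (fun y => (ρ y).d) 26327771615106622073631788543845694075442754821128109490054168575) (Hu : PB n u (fun y => (ρ y).u) 158456325028528675187087900671)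 (Hm : PB n m (fun y => (ρ y).m) 16) (He : PB n e (fun y => (ρ y).e) 256) (Hi : PB n i (fun y => (ρ y).i) 262144) (Ho : PB n o (fun y => (ρ y).o) 255) (Hhi : PB n hi (fun y => (ρ y).hi) 255) (Hsb : PB n sb (fun y => (ρ y).sb) 255) (Hn0 : PB n n0 (fun y => (ρ y).n0) 1) (Hn2 : PB n n2 (fun y => (ρ y).n2) 1) (Hn1 : PB n n1 (fun y => (ρ y).n1) 1) (Hn3 : PB n n3 (fun y => (ρ y).n3) 1) (Hj : PB n j (fun y => (ρ y).j) 15) (Hjq : PB n jq (fun y => (ρ y).jq) 31) (HtZ : PB n tZ (fun y => (ρ y).tZ) 1) (Hk : PB n k (fun y => (ρ y).k) 255) (Hcs : PB n cs (fun y => (ρ y).cs) 255) (Hwd : PB n wd (fun y => (ρ y).wd) 63) (Hf6 : PB n f6 (fun y => (ρ y).f6) 1) (HsA : PB n sA (fun y => (ρ y).sA) 1) (Hs1 : PB n s1 (fun y => (ρ y).s1) 1) (HsB : PB n sB (fun y => (ρ y).sB) 1) (Hs2 : PB n s2 (fun y => (ρ y).s2) 1) (Hc : PB n c (fun y => (ρ y).c) 3) (HKc : PB n Kc (fun y => (ρ y).Kc) 7) (HtS : PB n tS (fun y => (ρ y).tS) 1) (HtA : PB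 n tA (fun y => (ρ y).tA) 1) (HtT : PB n tT (fun y => (ρ y).tT) 1) (HtE : PB n tE (fun y => (ρ y).tE) 1) (HtL : PB n tL (fun y => (ρ y).tL) 1) (HtV : PB n tV (fun y => (ρ y).tV) 1) (HtW : PB n tW (fun y => (ρ y).tW) 1) (Hnc : PB n nc (fun y => (ρ y).nc) 1) (Hnr : PB n nr (fun y => (ρ y).nr) 1) (Hnx : PB n nx (fun y => (ρ y).nx) 1) (HgI : PB n gI (fun y => (ρ y).gI) 1) (HgO : PB n gO (fun y => (ρ y).gO) 1) (HgL : PB n gL (fun y => (ρ y).gL) 1) (Hsd : PB n sd (fun y => (ρ y).sd) 1) (Hrf : PB n rf (fun y => (ρ y).rf) 2097151) (HK : PB n K (fun y => (ρ y).K) 3) (Hjp : PB n jp (fun y => (ρ y).jp) 31) (Hj1 : PB n j1 (fun y => (ρ y).j1) 31) (Hr2 : PB n r2 (fun y => (ρ y).r2) 31) (HfL : PB n fL (fun y => (ρ y).fL) 1) (HfI : PB n fI (fun y => (ρ y).fI) 1) (HfO : PB n fO (fun y => (ρ y).fO) 1) (Ha : PB n a (fun y => (ρ y).a) 255) (Hhb : PB n hb (fun y => (ρ y).hb) 255) (Huj : PB n uj (fun y => (ρ y).uj) 15) (Huk : PB n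 uk (fun y => (ρ y).uk) 255) (HuE : PB n uE (fun y => (ρ y).uE) 1) (HuK : PB n uK (fun y => (ρ y).uK) 7) (HuV : PB n uV (fun y => (ρ y).uV) 1) (Hua : PB n ua (fun y => (ρ y).ua) 3) (Hub : PB n ub (fun y => (ρ y).ub) 3) (HPa : PB n Pa (fun y => (ρ y).Pa) 4503530907959295) (HPb : PB n Pb (fun y => (ρ y).Pb) 4503530907959295) (Hd0 : PB n d0 (fun y => (ρ y).d0) 1180578109866989387775)
    (hh : z1 O w x d u m e i o hi sb n0 n2 n1 n3 j jq tZ k cs wd f6 sA s1 sB s2 c Kc tS tA tT tE tL tV tW nc nr nx gI gO gL sd rf K jp j1 r2 fL fI fO a hb uj uk uE uK uV ua ub Pa Pb d0 = true) (y : ℕ) (hy : y < n) : P1 (ρ y) := by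
  obtain ⟨C0, hh⟩ := an_iff.1 hh
  obtain ⟨C1, hh⟩ := an_iff.1 hh
  obtain ⟨C2, hh⟩ := an_iff.1 hh
  obtain ⟨C3, hh⟩ := an_iff.1 hh
  obtain ⟨C4, hh⟩ := an_iff.1 hh
  obtain ⟨C5, hh⟩ := an_iff.1 hh
  obtain ⟨C6, hh⟩ := an_iff.1 hh
  obtain ⟨C7, hh⟩ := an_iff.1 hh
  obtain ⟨C8, hh⟩ := an_iff.1 hh
  obtain ⟨C9, hh⟩ := an_iff.1 hh
  obtain ⟨C10, hh⟩ := an_iff.1 hh
  obtain ⟨C11, hh⟩ := an_iff.1 hh
  obtain ⟨C12, hh⟩ := an_iff.1 hh
  obtain ⟨C13, hh⟩ := an_iff.1 hh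
  obtain ⟨C14, hh⟩ := an_iff.1 hh
  obtain ⟨C15, hh⟩ := an_iff.1 hh
  obtain ⟨C16, hh⟩ := an_iff.1 hh
  obtain ⟨C17, hh⟩ := an_iff.1 hh
  obtain ⟨C18, hh⟩ := an_iff.1 hh
  obtain ⟨C19, hh⟩ := an_iff.1 hh
  obtain ⟨C20, hh⟩ := an_iff.1 hh
  obtain ⟨C21, hh⟩ := an_iff.1 hh
  exact ⟨PB.le 15 32768 hO (PB.add (PB.add (PB.add HtT HtE) HtS) HtL) (PB.cst 1 hO) (by decide) (by decide) (by decide) (by decide) C0 y hy,
    PB.le 15 32768 hO HtT Hnr (by decide) (by decide) (by decide) (by decide) C1 y hy,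
    PB.cle 21 2097152 hO HtA (PB.cst 2048 hO) Hrf (by decide) (by decide) (by decide) (by decide) C2 y hy,
    PB.le 21 2097152 hO Hrf (PB.cst 1050623 hO) (by decide) (by decide) (by decide) (by decide) C3 y hy,
    PB.le 15 32768 hO HtV HtE (by decide) (by decide) (by decide) (by decide) C4 y hy,
    PB.le 15 32768 hO (PB.mul 2 HtZ) (PB.add HtW HtV) (by decide) (by decide) (by decide) (by decide) C5 y hy,
    PB.le 15 32768 hO (PB.add (PB.add (PB.add HtW HgI) HgO) HgL) (PB.cst 1 hO) (by decide) (by decide) (by decide) (by decide) C6 y hy,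
    PB.cle 15 32768 hO HtT (PB.add Hjp (PB.cst 1 hO)) Hm (by decide) (by decide) (by decide) (by decide) C7 y hy,
    PB.eq (PB.add (PB.ind 10 1023 HtT (PB.add (PB.add (PB.add Hn0 Hn1) Hn2) Hn3) (by decide) (by decide) (by decide)) (PB.ind 10 1023 HtL (PB.add (PB.add (PB.add Hn0 Hn1) Hn2) Hn3) (by decide) (by decide) (by decide))) HtT (by decide) (by decide) C8 y hy,
    PB.eq (PB.ind 10 1023 HtV Hjq (by decide) (by decide) (by decide)) (PB.ind 10 1023 HtV (PB.add Hjp (PB.cst 1 hO)) (by decide) (by decide) (by decide)) (by decide) (by decide) C9 y hy,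
    PB.eq (PB.ind 10 1023 HtS Ho (by decide) (by decide) (by decide)) (PB.ind 10 1023 HtS Hhi (by decide) (by decide) (by decide)) (by decide) (by decide) C10 y hy,
    PB.cle 15 32768 hO HtS (PB.cst 511 hO) (PB.fld 28 511 hO Hw (by decide) (by decide)) (by decide) (by decide) (by decide) (by decide) C11 y hy,
    PB.le 15 32768 hO HtS (PB.fld1 0 hO Hd (by decide) (by decide)) (by decide) (by decide) (by decide) (by decide) C12 y hy,
    PB.le 15 32768 hO (PB.add (PB.add HgI HgO) HgL) (PB.add (PB.add (PB.band HgI HfI) (PB.band HgO HfO)) (PB.band HgL HfL)) (by decide) (by decide) (by decide) (by decide) C13 y hy,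
    PB.eq (PB.add (PB.ind 10 1023 HgI Hj (by decide) (by decide) (by decide)) (PB.ind 10 1023 HgO Hj (by decide) (by decide) (by decide))) (PB.add (PB.ind 10 1023 HgI Hjp (by decide) (by decide) (by decide)) (PB.ind 10 1023 HgO Hjp (by decide) (by decide) (by decide))) (by decide) (by decide) C14 y hy,
    PB.eq (PB.ind 10 1023 HgL Hk (by decide) (by decide) (by decide)) (PB.mul 120 HgL) (by decide) (by decide) C15 y hy,
    PB.cle 15 32768 hO HtL (PB.add HuV (PB.cst 1 hO)) (PB.fld1 64 hO Hu (by decide) (by decide)) (by decide) (by decide) (by decide) (by decide) C16 y hy,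
    PB.le 15 32768 hO (PB.add Hnc Hnr) HuE (by decide) (by decide) (by decide) (by decide) C17 y hy,
    PB.le 15 32768 hO Hnx (PB.add (PB.add (PB.fld1 65 hO Hu (by decide) (by decide)) (PB.fld1 63 hO Hu (by decide) (by decide))) (PB.fld1 67 hO Hu (by decide) (by decide))) (by decide) (by decide) (by decide) (by decide) C18 y hy,
    PB.eq (PB.ind 20 1048575 HuE (PB.fld 8 1048575 hO Hw (by decide) (by decide)) (by decide) (by decide) (by decide)) (PB.ind 20 1048575 HuE (PB.fld 8 1048575 hO Hu (by decide) (by decide)) (by decide) (by decide) (by decide)) (by decide) (by decide) C19 y hy,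
    PB.eq (PB.ind 10 1023 Hnx (PB.fld 8 255 hO Hu (by decide) (by decide)) (by decide) (by decide) (by decide)) (PB.ind 10 1023 Hnx (PB.add Hhi (PB.cst 1 hO)) (by decide) (by decide) (by decide)) (by decide) (by decide) C20 y hy,
    PB.le 15 32768 hO (PB.add He (PB.mul 256 (PB.add (PB.add (PB.add HtT HtE) HtS) HtL))) (PB.add (PB.add Hhi (PB.cst 257 hO)) (PB.mul 256 (PB.add (PB.add Hnc Hnr) Hnx))) (by decide) (by decide) (by decide) (by decide) C21 y hy,
    z2_ok hO Hw Hx Hd Hu Hm Hi Ho Hhi Hsb Hn0 Hn2 Hn1 Hn3 Hj HtZ Hk Hcs Hf6 HsA Hs1 HsB Hs2 HKc HtA HtT HtE HtL HtV HtW Hnc Hnr HgI HgO HgL Hsd Hrf HK Hjp Hj1 HfL HfI HfO Ha Huj Huk HuE HuK HuV Hua Hub HPa HPb (PB.csub 255 hO Hhb (by decide)) (PB.csub 31 hO Hr2 (by decide)) (PB.not hO Hsd) (PB.band HtV (PB.not hO HtZ)) (PB.band HtV (PB.not hO HtW)) (PB.band HtV HtW) (PB.mul 120 Hc) (PB.add (PB.ind 10 1023 HtW Hwd (by decide) (by decide) (by decide)) (PB.not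 hO HtW)) (PB.add (PB.ind 10 1023 HtZ (PB.fld 76 127 hO Hw (by decide) (by decide)) (by decide) (by decide) (by decide)) (PB.ind 10 1023 (PB.not hO HtZ) Ho (by decide) (by decide) (by decide))) (PB.add (PB.add (PB.add HsA Hs1) HsB) Hs2) (PB.band HtE (PB.not hO Hnc)) (PB.band HtT (PB.not hO HtA)) (PB.band HtT HtA) (PB.add (PB.ind 10 1023 Hn1 Hsb (by decide) (by decide) (by decide)) (PB.ind 10 1023 (PB.not hO Hn1) Ha (by decide) (by decide) (by decide))) (PB.add (PB.ind 10 1023 Hn3 Hsb (by decide) (by decide) (by decide)) (PB.ind 10 1023 (PB.not hO Hn3) Hj1 (by decide) (by decide) (by decide))) (PB.add (PB.ind 10 1023 Hs1 Hcs (by decide) (by decide) (by decide)) (PB.ind 10 1023 (PB.not hO Hs1) (PB.add (PB.ind 10 1023 Hn2 Hj (by decide) (by decide) (by decide)) (PB.ind 10 1023 (PB.not hO Hn2) Hj1 (by decide) (by decide) (by decide))) (by decide) (by decide) (by decide))) Hd0 hh y hy⟩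

def P0 (r : Rc) : Prop := P1 r

theorem z0_ok {O w x h d u m e i : ℕ} (hO : PB n O (fun _ => 1) 1) (Hw : PB n w (fun y => (ρ y).w) 158456325028528675187087900671) (Hx : PB n x (fun y => (ρ y).x) 340282366920938463463374607431768211455) (Hh : PB n h (fun y => (ρ y).h) 340282366920938463463374607431768211455) (Hd : PB n d (fun y => (ρ y).d) 26327771615106622073631788543845694075442754821128109490054168575) (Hu : PB n u (fun y => (ρ y).u) 158456325028528675187087900671) (Hm : PB n m (fun y => (ρ y).m) 16) (He : PB n e (fun y => (ρ y).e) 256) (Hi : PB n i (fun y => (ρ y).i) 262144)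
    (hh : z0 O w x h d u m e i = true) (y : ℕ) (hy : y < n) : P0 (ρ y) := by
  exact z1_ok hO Hw Hx Hd Hu Hm He Hi (PB.fld 0 255 hO Hw (by decide) (by decide)) (PB.fld 8 255 hO Hw (by decide) (by decide)) (PB.fld 16 255 hO Hw (by decide) (by decide)) (PB.fld1 24 hO Hw (by decide) (by decide)) (PB.fld1 25 hO Hw (by decide) (by decide)) (PB.fld1 26 hO Hw (by decide) (by decide)) (PB.fld1 27 hO Hw (by decide) (by decide)) (PB.fld 28 15 hO Hw (by decide) (by decide)) (PB.fld 32 31 hO Hw (by decide) (by decide)) (PB.fld1 37 hO Hw (by decide) (by decide)) (PB.fld 38 255 hO Hw (by decide) (by decide)) (PB.fld 46 255 hO Hw (by decide) (by decide)) (PB.fld 46 63 hO Hw (by decide) (by decide)) (PB.fld1 52 hO Hw (by decide) (by decide)) (PB.fld1 54 hO Hw (by decide) (by decide)) (PB.fld1 55 hO Hw (by decide) (by decide)) (PB.fld1 56 hO Hw (by decide) (by decide)) (PB.fld1 57 hO Hw (by decide) (by decide)) (PB.fld 58 3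 hO Hw (by decide) (by decide)) (PB.fld 60 7 hO Hw (by decide) (by decide)) (PB.fld1 63 hO Hw (by decide) (by decide)) (PB.fld1 64 hO Hw (by decide) (by decide)) (PB.fld1 65 hO Hw (by decide) (by decide)) (PB.fld1 66 hO Hw (by decide) (by decide)) (PB.fld1 67 hO Hw (by decide) (by decide)) (PB.fld1 68 hO Hw (by decide) (by decide)) (PB.fld1 69 hO Hw (by decide) (by decide)) (PB.fld1 70 hO Hw (by decide) (by decide)) (PB.fld1 71 hO Hw (by decide) (by decide)) (PB.fld1 72 hO Hw (by decide) (by decide)) (PB.fld1 73 hO Hw (by decide) (by decide)) (PB.fld1 74 hO Hw (by decide) (by decide)) (PB.fld1 75 hO Hw (by decide) (by decide)) (PB.fld1 76 hO Hw (by decide) (by decide)) (PB.fld 76 2097151 hO Hw (by decide) (by decide)) (PB.fld 36 3 hO Hh (by decide) (by decide)) (PB.fld 40 31 hO Hh (by decide) (by decide)) (PB.fld 46 31 hO Hh (by decide) (by decide)) (PB.fld 52 31 hO Hh (by decide) (by decide)) (PB.fld1 60 hO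 Hh (by decide) (by decide)) (PB.fld1 62 hO Hh (by decide) (by decide)) (PB.fld1 64 hO Hh (by decide) (by decide)) (PB.fld 108 255 hO Hh (by decide) (by decide)) (PB.fld 119 255 hO Hh (by decide) (by decide)) (PB.fld 28 15 hO Hu (by decide) (by decide)) (PB.fld 38 255 hO Hu (by decide) (by decide)) (PB.fld1 66 hO Hu (by decide) (by decide)) (PB.fld 60 7 hO Hu (by decide) (by decide)) (PB.fld1 68 hO Hu (by decide) (by decide)) (PB.fld 54 3 hO Hu (by decide) (by decide)) (PB.fld 56 3 hO Hu (by decide) (by decide)) (PB.add (PB.fld 72 65535 hO Hh (by decide) (by decide)) (PB.mul 68719476736 (PB.fld 90 65535 hO Hh (by decide) (by decide)))) (PB.add (PB.fld 0 65535 hO Hh (by decide) (by decide)) (PB.mul 68719476736 (PB.fld 18 65535 hO Hh (by decide) (by decide)))) (PB.msk 1180578109866989387775 hO Hd (by decide) (by decide)) hh y hy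

theorem ok_of {r : Rc} (h : P0 r) : Fok r := by
  simp only [P0, P1, P2, P3, P4, P5] at h
  obtain ⟨e1, e3, e4, e5, e6, e7, e9, t1, ta, n1_, n3_, n4, n5, g1, g2, g3, p8, l1, l2, l3, l4, l5, e2, e8, ea, t2, t6, t9, tb, n6, k1, c4, eb, t3, t4, t5, t7, t8, o1, o2, o3, o4, o6, c2_, c3, p1, p2, p3, p4, c1_, p5, p6, q, bT, bV, -⟩ := h
  exact ⟨e1, e2, e3, e4, e5, e6, e7, e8, e9, ea, eb, t1, t2, t3, t4, t5, t6, t7, t8, t9, ta, tb, n1_, n3_, n4, n5, n6, o1, o2, o3, o4, o6, g1, g2, g3, k1, p1, p2, p3, p4, p5, p6, p8, l1, l2, l3, l4, l5, c1_, c2_, c3, c4, q, bT, bV⟩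

end Pool.Agent.MP_1037db_co.Q

end
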