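import Pool.Agent.MP_1037db_co.Q.S1
import Pool.Agent.MP_1037db_co.Q.Cp

section
set_option linter.unusedSectionVars false

/-! Moves of the robots. -/

namespace Pool.Agent.MP_1037db_co.Q

open LP

noncomputable section

variable [G : Geo] {α : Type} [DecidableEq α] {E : Env α} {X : Cx α} {H DT : Tr} {t : α → ℝ}
  {m i C N V F v w md j c l R x y X0 X1 : ℕ} {S : Finset α} {β γ : ℝ} {Q : Finset α → Prop}
  {p q : α} {cu κ κ' : ℕ → ℕ → ℕ → Bool} {ih : ℕ → ℕ → ℕ → ℕ → Bool} {O O' : OP} {b : BK}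

theorem gs_spec {g : ℕ} {f : ℕ → ℕ → Bool} (h1 : v = 0 → E.Fl t p (C &&& 1) 0 (bt C 1 1) (bt C 2 1) q)
    (h2 : od C v w = true → t p ≤ t q) (h3 : od C w v = true → t q ≤ t p) (h : gs C v w x c g f = true) :
    ∃ G0 G1, GG E t G0 G1 x c p q ∧ f G0 G1 = true := by
  simp only [gs, nrec, Nat.land_eq, Nat.shiftRight_eq', and15, shr] at h
  split_ifs at h <;> try simp only [an_iff, orr_iff, Nat.beq_eq, Nat.reducePow] at h
  · exact ⟨_, _, gk2 gE, h⟩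
  · exact ⟨_, _, gk2 (gI (by unfold zy; rw [h.1.2.2]; exact E.fr_le ((h1 h.1.1).i h.1.2.1))), h.2⟩
  · exact ⟨_, _, gk2 (gO (by unfold zy; rw [h.1.2.2]; exact E.fr_le ((h1 h.1.1).o h.1.2.1))), h.2⟩
  · exact ⟨_, _, gk2 (gL (by
      unfold zx; rw [h.1]; exact sub_le_sub_right (h.2.1.elim (fun e => (h1 e.1).l e.2) h2) _)), h.2.2⟩
  · exact ⟨_, _, (gk2 (gL (by unfold zx; rw [h.1]; exact sub_le_sub_right (h3 h.2.1) _))).symm, h.2.2⟩

theorem Ac.bd (h : Ac E t m c p) : 0 ≤ zx t c p ∧ zx t c p ≤ 1 ∧ 0 ≤ zy E c p ∧ zy E c p ≤ 1 :=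
  ⟨h.2.2.x0, h.2.2.x1, h.2.2.f0, h.2.2.f1⟩

theorem XS.nn (h : XS i X0 X1 (zx t c p) (zy E c p) β) (a : Ac E t m c p) : 0 ≤ β :=
  let ⟨_, _, _, _, _, _, _, _, _, _, e⟩ := h
  (bil_nn a.2.2 _ _ _ _).trans e

/-- what is known in the special modes -/
def Md (D : α → α → ℝ) (X : Cx α) (R : ℕ) (O' : OP) (v md : ℕ) (β : ℝ) : Prop :=
  (md = 2 → v = 1 ∧ ∀ a b, D a b ≤ β) ∧ (md ≠ 0 → md ≠ 2 → 0 ≤ β ∧ X.Op D v md β O') ∧
    (3 ≤ md → v = 0 ∧ ∃ γ : ℝ, tw2 R ≤ γ ∧ D (X.P 0) (X.P 1) + γ ≤ β ∧ ∀ a b, D a b ≤ γ)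

theorem Md.zero {D : α → α → ℝ} : Md D X R O' v 0 β := ⟨nofun, fun h => absurd rfl h, nofun⟩

def Bo (E : Env α) (H : Tr) (i R : ℕ) (X : Cx α) (O' : OP) (b : BK) : Prop :=
  ∀ v cu X0 X1 md κ' κ β Q, v < X.n →
    CU H i cu (ce X.A v % 16) (zx X.t (ce X.A v) (X.P v)) (zy E (ce X.A v) (X.P v)) β →
    (X0 ≠ 0 → XS i X0 X1 (zx X.t (ce X.A v) (X.P v)) (zy E (ce X.A v) (X.P v)) β) → Md E.D X R O' v md β →
    X.Kt κ' (fun S => 0 ≤ β ∧ Q S) → X.Kt κ Q → X.Pg E.D v md β Q (b v (ce X.A v) cu X0 X1 md κ' κ)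

theorem Cx.arr {F' : ℕ} (hI : X.Inv N V S) (hw : w < X.n) (h1 : ¬ mb V w)
    (h : X.P w ∉ S.erase (X.P w) → X.P v ∉ S →
      Rs E.D (X.P w) γ (X.W E.D v md β Q F') (l + 2) (S.erase (X.P w)))
    (hd : E.D (X.P v) (X.P w) + γ ≤ β) (hF : l + 1 + F' ≤ F) : X.W E.D v md β Q F S := fun a b =>
  .move E.met (hI.pen _ ⟨w, hw, h1, rfl⟩) (h (Finset.notMem_erase _ _) a)
    (fun _ e g => g (fun x => a (e x)) fun y x => b y (e x)) hd hF

theorem bt_or {M p n : ℕ} (h : bt M p n = 0) (x : ℕ) : bt (x ||| M) p n = bt x p n := by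
  simp only [bt, Nat.land_eq, Nat.shiftRight_eq'] at h ⊢
  rw [Nat.shiftRight_or_distrib, Nat.and_or_distrib_right, h, Nat.or_zero]

theorem hv_or (x : ℕ) (z : ℝ) : hv (x ||| 81128709954854851177713185587200) 0 z = hv x 0 z := by
  simp only [hv, bil]
  rw [bt_or (p := 0) (by decide), bt_or (p := 18) (by decide)]
  ring

theorem mo_go (hy : Hy E H DT m i C X) (hb : Bo E H i R X O' b) (hv : v < X.n)
    (hX : X0 ≠ 0 → XS i X0 X1 (zx X.t (ce X.A v) (X.P v)) (zy E (ce X.A v) (X.P v)) β) :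
    X.Op E.D v md β (mo H DT i C X.A b v (ce X.A v) X0 X1) := by
  intro ih Q hi F hF s N V S h hI
  rw [mo, nrec] at h
  split_ifs at h with c0
  have hX := hX c0
  have a := hy.cf.at hv
  obtain ⟨h1, h⟩ := an_iff.1 h
  obtain ⟨h2, V', h, hV⟩ := vis_spec h
  have hw := hI.lt h2 (bt_le _ _ _)
  have hl := bt_le s 6 3
  rw [lt_iff] at h1
  generalize bt s 3 7 = w, bt s 6 3 = l at *
  have a' := hy.cf.at hw
  simp only [fb_eq] at h
  obtain ⟨G0, G1, hG, h⟩ := gs_spec (E := E) (t := X.t) (p := X.P v) (q := X.P w)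
    (fun e => e ▸ hy.fl _ (hy.cf.mem w hw)) (fun e => (hy.od _ _ e).2.2) (fun e => (hy.od _ _ e).2.2) h
  have ex : w = 0 → zx X.t (ce X.A w) (X.P w) = 0 := fun e => by
    subst e
    obtain ⟨e1, e2⟩ := hI.ex.resolve_left h2
    simp [zx, e1, e2]
  have hc := cq_spec (H := H) hy.hi hy.cf.ch hy.tb a a' hX hG ex
  have hk := hi (hX.nn a) (F - (l + 1)) (by omega)
  have hI' := hI.vis hy.cf hw hV
  simp only [mo1, mo2, nrec, fb_eq, Nat.add_eq, Nat.sub_eq] at h hc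
  refine Cx.arr (F' := F - (l + 1)) (l := l) (γ := β - E.D (X.P v) (X.P w)) hI hw h2 (fun e _ => ?_)
    (by linarith) (by omega)
  by_cases m0 : bt s 11 3 = 0
  · rw [if_pos m0] at h
    exact hb w _ 0 0 0 kf _ _ _ hw hc (fun e => absurd rfl e) .zero nofun hk _ (by omega) _ _ _ _ h hI' e nofun
  rw [if_neg m0] at h
  by_cases m1 : bt s 11 3 - 1 = 0
  · rw [if_pos m1, an_iff] at h
    exact .nil (sub_nonneg.2 (cc_z hy.hi hy.cf.ch hy.tb a a' hX hG h.1)) (hk _ _ _ _ h.2 hI')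
  rw [if_neg m1, an_iff] at h
  have d := le_sub_iff_add_le'.2 (cc_x hy.hi hy.cf.ch hy.tb a a' hX hG h.1)
  refine hb w _ _ _ 0 _ _ _ _ hw hc (fun _ => xs_of ?_) .zero (fun s N V S u z =>
    ⟨(bil_nn a'.2.2 _ _ _ _).trans d, hk s N V S u z⟩) hk _ (by omega) _ _ _ _ h.2 hI' e nofun
  split_ifs with e
  · rw [ex e] at d ⊢
    exact (hv_or _ _).trans_le d
  · exact d

theorem rp_cu {z w : ℝ} (hi : i ≤ 262144) (hj : j ≤ 31) (hx : x ≤ 65535) (hy : y ≤ 65535) (z0 : 0 ≤ z)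
    (z1 : z ≤ 1) (w0 : 0 ≤ w) (w1 : w ≤ 1) (h : bil x x y y z w ≤ β) :
    CU H i (cp H (rp i x y) (rp i x y)) j z w β ∧ XS i (rx i x y) (rx i x y) z w β := by
  have : rp i x y = pi i (wv x y x y) := by
    simp only [rp, pi, w2, wv, Nat.add_eq, Nat.mul_eq]
    ring
  exact ⟨this ▸ cp_spec hi hj hx hx hy hy z0 z1 w0 w1 h, x, hx, x, hx, y, hy, y, hy, rfl, rfl, h⟩

theorem sp_go (hy : Hy E H DT m i C X) (hb : Bo E H i R X O' b) (hv : v < X.n) (hm : Md E.D X R O' v md β)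
    (hO : ∀ β, 1 < X.n → (∀ a b, E.D a b ≤ β) → X.Op E.D 1 2 β O) :
    X.Op E.D v md β (sp H R i X.A O O' b md) := by
  intro ih Q hi F hF s N V S h hI
  simp only [sp, nrec] at h
  split_ifs at h with c0 c1 c2 c3 c4 c5
  · exact (hm.2.1 c0 (by omega)).2 ih Q hi F hF _ _ _ _ h hI
  · obtain ⟨h2, V', h, hV⟩ := vis_spec h
    have hw := hI.lt h2 (bt_le _ _ _)
    have d := (hm.1 (by omega)).2
    exact Cx.arr (l := 0) hI hw h2 (fun _ _ => .nil (sub_nonneg.2 (d _ _)) (hi ((E.met.nn _ _).trans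
      (d (X.P 0) (X.P 0))) (F - 1) (by omega) _ _ _ _ h (hI.vis hy.cf hw hV))) (add_sub_cancel _ _).le (by omega)
  · obtain rfl : md = 2 := by omega
    obtain ⟨rfl, d⟩ := hm.1 rfl
    exact hO β hv d ih Q hi F hF _ _ _ _ h hI
  · obtain ⟨rfl, γ, d1, d2, d3⟩ := hm.2.2 (by omega)
    simp only [sp1, an_iff, lt_iff, fb_eq, Nat.add_eq, Nat.sub_eq] at h
    obtain ⟨h1, h⟩ := h
    obtain ⟨h2, V', h, hV⟩ := vis_spec h
    have hw := hI.lt h2 (by norm_num)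
    have hl := bt_le s 4 3
    have hk := hi (hm.2.1 c0 (by omega)).1 (F - (bt s 4 3 + 1)) (by omega)
    obtain ⟨a1, a2, a3, a4⟩ := (hy.cf.at hw).bd
    have t2 : tw2 R ≤ 65535 := Nat.and_le_right
    obtain ⟨u1, u2⟩ := rp_cu (H := H) (j := ce X.A 1 % 16) (β := γ) hy.hi (by omega) t2 t2 a1 a2 a3 a4
      (by unfold bil; linarith)
    exact Cx.arr hI hw h2 (fun e a => hb 1 _ _ _ 2 _ _ _ _ hw u1 (fun _ => u2)
      ⟨fun _ => ⟨rfl, d3⟩, fun _ e => absurd rfl e, fun e => absurd e (by norm_num)⟩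
      (fun s N V S u z => ⟨(Nat.cast_nonneg _).trans d1, hk s N V S u z⟩) hk _ (by omega) _ _ _ _ h
      (hI.vis hy.cf hw hV) e fun _ x => a (Finset.mem_of_mem_erase x)) d2 (by omega)
  · exact (hm.2.1 c0 (by omega)).2 ih Q hi F hF _ _ _ _ h hI

theorem bk_go (hy : Hy E H DT m i C X) (hO : ∀ β, 1 < X.n → (∀ a b, E.D a b ≤ β) → X.Op E.D 1 2 β O) :
    Bo E H i R X O' (bk H DT R i C X.A O O') := by
  delta bk
  generalize nat_lit 9 = n
  refine rec_ind (Bo E H i R X O') ?_ ?_ _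
  · exact fun _ _ _ _ _ _ _ _ _ _ _ _ _ _ _ _ _ _ _ _ _ h => Bool.noConfusion h
  intro _ b hb v cu X0 X1 md κ' κ β Q hv hc hX hm k1 k2
  have a := hy.cf.at hv
  have hp : Po E H i X.t cu (ce X.A v / 16) (ce X.A v % 16) (X.P v) β :=
    ⟨a.2.2, by have := a.1; omega, by omega, hc⟩
  have f := fun κ ih => stp_go (md := md) (Q := Q) (κ := κ) (ih := ih) hy hp rfl (sf_eq a.1)
    (O0 := Nat.rec (Nat.add (Nat.mul (Nat.land (ce X.A v) 15) 1099511627776) (f0 C))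
      (fun _ _ => Nat.mul (Nat.land (ce X.A v) 15) 1099511627776) v)
    (O1 := Nat.rec (Nat.add (Nat.mul (Nat.land (ce X.A v) 15) 1099511627776) (f1 C))
      (fun _ _ => Nat.mul (Nat.land (ce X.A v) 15) 1099511627776) v) (by
      cases v with
      | zero =>
        refine u0_go hy hp ⟨Nat.and_le_right, bt_le _ _ _, bt_le _ _ _⟩ ?_ ?_ (sf_eq a.1) hy.fl <;>
          simp only [ee, f0, f1, Nat.rec_zero, Nat.add_eq, Nat.mul_eq, Nat.land_eq, and15] <;> ring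
      | succ v =>
        refine u0_go (xL := 0) (xI := 0) (xO := 0) hy hp (by omega) ?_ ?_ (sf_eq a.1)
          fun _ _ => ⟨nofun, nofun, nofun, nofun⟩ <;>
          simp only [ee, Nat.mul_eq, Nat.land_eq, and15] <;> ring)
    (mo_go hy hb hv hX) (sp_go hy hb hv hm hO)
  exact f _ _ k1 fun b0 => rec_ind (z := fun _ _ _ _ => false) (X.Pg E.D v md β Q)
    (fun _ _ _ _ _ _ h => Bool.noConfusion h)
    (fun _ g hg => f _ _ (fun s N V S u z => ⟨b0, k2 s N V S u z⟩) fun _ => hg) (nat_lit 30)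

end

end Pool.Agent.MP_1037db_co.Q

end

section
set_option linter.unusedSectionVars false

/-! Cells that cannot hold a point; case distinctions. -/

namespace Pool.Agent.MP_1037db_co.Q

open LP

noncomputable section

variable [G : Geo] {α : Type} [DecidableEq α] {E : Env α} {X : Cx α} {MT : Tr} {t : α → ℝ}
  {m jn XT S s4 s5 N V K a b f j c w x z k r1 r2 lo hi : ℕ} {T : Finset α} {p q s : α} {d : ℤ} {β : ℝ}

abbrev IQ (E : Env α) (m jn XT S s4 s5 : ℕ) : Prop := E.IV m jn (XX XT) (s3 S) s4 s5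

theorem zp_no (hI : IQ E m jn XT S s4 s5) (ht : E.Ch t) (n : p ≠ q) (hc : c ≤ 255) (hj : j < m)
    (hp : E.At t c j p) (hq : Ac E t m z q) : ¬ mb (zp XT j) (4080 - 16 * c + z) := fun h => by
  have g := hI.pair t ht p q n _ _ _ hj _ hq.2.1 hp hq.2.2
  have := mb_zp h
  rw [show (4080 - 16 * c + z) % 16 = z % 16 by omega] at this
  unfold fz at g this
  omega

theorem w3_no (hI : IQ E m jn XT S s4 s5) (ht : E.Ch t) (n1 : p ≠ q) (n2 : p ≠ s) (n3 : q ≠ s)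
    (hp : Ac E t m x p) (hq : Ac E t m c q) (hs : Ac E t m z s) :
    ¬ mb (w3 S (k3 x c)) (4080 - 16 * (c / 16) + z) := fun h => by
  have := hq.1
  obtain ⟨d, e, h1, h2, h3⟩ := mb_w3 hq.1 h
  have g := hI.tri' ht n1 n2 n3 hp.2.1 hq.2.1 hs.2.1 hp.2.2 hq.2.2 hs.2.2
    ((d - (255 + (x / 16 : ℕ) - (c / 16 : ℕ))) / 120) 0 ((e - (255 + (z / 16 : ℕ) - (c / 16 : ℕ))) / 120)
  rw [show (4080 - 16 * (c / 16) + z) % 16 = z % 16 by omega] at h3
  unfold sp3 at g h3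
  omega

/-- the point lies in a window of columns -/
def Lw (E : Env α) (t : α → ℝ) (m : ℕ) (d : ℤ) (w j : ℕ) (s : α) : Prop :=
  j < m ∧ ∃ k : ℤ, E.At t k j s ∧ Iw d w k

theorem Ac.lw (h : Ac E t m c p) (g : Iw d w (c / 16 : ℕ)) : Lw E t m d w (c % 16) p := ⟨h.2.1, _, h.2.2, g⟩

theorem win_cnt {w' : ℕ} (h : E.Win k w') (ht : E.Ch t) (hw : w ≤ w') (H : ∀ s ∈ T, ∃ j, Lw E t m d w j s) :
    T.card < k := h.card ht (c := d) fun s hs => by
  obtain ⟨j, -, k, a, e, b1, b2, b3⟩ := H s hs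
  have := a.of_eq (t' := fun s => t s + 120 * ((e - k) / 120 : ℤ)) rfl
  rw [show k + 120 * ((e - k) / 120) = e by omega] at this
  exact ⟨e, _, b1, by omega, this.a, this.b⟩

theorem tri_w (hI : IQ E m jn XT S s4 s5) (ht : E.Ch t) (n1 : p ≠ q) (n2 : p ≠ s) (n3 : q ≠ s)
    (hp : Lw E t m d w a p) (hq : Lw E t m d w b q) (hs : Lw E t m d w f s) : s3 S a b f < w := by
  obtain ⟨a1, x, a2, x', a3⟩ := hp
  obtain ⟨b1, y, b2, y', b3⟩ := hq
  obtain ⟨c1, z, c2, z', c3⟩ := hs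
  have g := hI.tri' ht n1 n2 n3 a1 b1 c1 a2 b2 c2 ((x' - x) / 120) ((y' - y) / 120) ((z' - z) / 120)
  unfold sp3 at g
  omega

theorem Lw.pos (h : Lw E t m d w j s) : 0 < w := by
  obtain ⟨-, _, -, _, h⟩ := h
  omega

theorem cnt0 (hI : IQ E m jn XT S s4 s5) (ht : E.Ch t)
    (H : ∀ s ∈ T, ∃ j, r1 ≤ j ∧ j < r2 ∧ Lw E t m d w j s) (h : w ≤ sl K 0 (s3a S r1 r2) s4 s5) :
    T.card ≤ K + 1 := by
  have g := fun s hs => (H s hs).imp fun _ h => h.2.2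
  simp only [sl, nrec] at h
  split_ifs at h
  · rw [Finset.eq_empty_of_forall_notMem fun s hs => (g s hs).elim fun _ e => e.pos.not_ge h]
    simp
  · refine not_lt.1 fun e => ?_
    obtain ⟨p, q, s, a1, a2, a3, n1, n2, n3⟩ := Finset.two_lt_card_iff.1 (show 2 < T.card by omega)
    obtain ⟨_, b1, b2, b3⟩ := H p a1
    obtain ⟨_, c1, c2, c3⟩ := H q a2
    obtain ⟨_, d1, d2, d3⟩ := H s a3
    exact (tri_w hI ht n1 n2 n3 b3 c3 d3).not_ge (h.trans (s3a_le b1 b2 c1 c2 d1 d2))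
  · have := win_cnt hI.w4 ht h g
    omega
  · have := win_cnt hI.w5 ht h g
    omega

theorem cnt1 (hI : IQ E m jn XT S s4 s5) (ht : E.Ch t) (hp : p ∉ T) (hw : Lw E t m d w a p)
    (H : ∀ s ∈ T, ∃ j, r1 ≤ j ∧ j < r2 ∧ Lw E t m d w j s) (h : w ≤ sl K (s3b S a r1 r2) s4 s5 0) :
    T.card ≤ K + 1 := by
  have g : ∀ s ∈ insert p T, ∃ j, Lw E t m d w j s :=
    Finset.forall_mem_insert _ _ _ |>.2 ⟨⟨_, hw⟩, fun s hs => (H s hs).imp fun _ h => h.2.2⟩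
  have e := Finset.card_insert_of_notMem hp
  simp only [sl, nrec] at h
  split_ifs at h
  · refine not_lt.1 fun e => ?_
    obtain ⟨q, a2, s, a3, n3⟩ := Finset.one_lt_card.1 (show 1 < T.card by omega)
    obtain ⟨_, c1, c2, c3⟩ := H q a2
    obtain ⟨_, d1, d2, d3⟩ := H s a3
    exact (tri_w hI ht (ne_of_mem_of_not_mem a2 hp).symm (ne_of_mem_of_not_mem a3 hp).symm n3 hw c3 d3).not_ge
      (h.trans (s3b_le c1 c2 d1 d2))
  · have := win_cnt hI.w4 ht h g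
    omega
  · have := win_cnt hI.w5 ht h g
    omega
  · exact absurd h hw.pos.not_ge

theorem cnt2 (hI : IQ E m jn XT S s4 s5) (ht : E.Ch t) (hp : p ∉ T) (hq : q ∉ T) (n : p ≠ q)
    (hw : Lw E t m d w a p) (hw' : Lw E t m d w b q) (H : ∀ s ∈ T, ∃ j, Lw E t m d w j s)
    (h : w ≤ sl K s4 s5 0 0) : T.card ≤ K + 1 := by
  have g : ∀ s ∈ insert p (insert q T), ∃ j, Lw E t m d w j s :=
    Finset.forall_mem_insert _ _ _ |>.2 ⟨⟨_, hw⟩, Finset.forall_mem_insert _ _ _ |>.2 ⟨⟨_, hw'⟩, H⟩⟩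
  have e := Finset.card_insert_of_notMem hq
  have e' := Finset.card_insert_of_notMem (s := insert q T) (a := p) (by simp [hp, n])
  simp only [sl, nrec, ite_self] at h
  split_ifs at h
  · have := win_cnt hI.w4 ht h g
    omega
  · have := win_cnt hI.w5 ht h g
    omega
  · exact absurd h hw.pos.not_ge

theorem one_spec {Q : ℕ} : ∀ P, one XT Q P = true → mb P c → ∀ z, mb Q z → mb (zp XT (c % 16)) (sf c + z) := by
  delta one
  generalize nat_lit 999 = n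
  refine rec_ind (fun g : ℕ → Bool => ∀ P, g P = true → mb P c → ∀ z, mb Q z →
    mb (zp XT (c % 16)) (sf c + z)) ?_ (fun _ g ih P h hc z hz => ?_) _
  · exact fun _ h => Bool.noConfusion h
  simp only [nrec, fb_eq, Nat.land_eq, Nat.shiftRight_eq', Nat.shiftLeft_eq', and15] at h
  split_ifs at h with e
  · exact absurd (e ▸ hc) mb_zero
  rw [an_iff, Nat.beq_eq] at h
  by_cases g : c = lg P
  · exact g ▸ mb_shr.1 (mb_and.1 (h.1.symm ▸ hz)).2
  · exact ih _ h.2 (mb_dl.2 ⟨hc, mt mb_one.1 g⟩) z hz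

theorem iw_yy (hc : c < 4096) (h1 : lo ≤ yy x c) (h2 : yy x c < lo + w) :
    Iw ((c / 16 : ℕ) - 60 + lo) w (x / 16 : ℕ) :=
  ⟨(c / 16 : ℕ) - 60 + yy x c, by omega, by omega, by rw [yy_eq]; omega⟩

theorem Iw.mono {c c' k : ℤ} {w' : ℕ} (h : Iw c w k) (h1 : 0 < w → c' ≤ c ∧ c + w ≤ c' + w') : Iw c' w' k :=
  let ⟨d, a, b, e⟩ := h
  ⟨d, by omega, by omega, e⟩

theorem fe_go (hf : Cf E m X) (hI : IQ E m jn XT S s4 s5) (hn : 1 < X.n) (hD : ∀ a b, E.D a b ≤ β) :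
    X.Op E.D 1 2 β (fe XT S s4 s5 X.A) := by
  classical
  intro ih Q hi F hF s N V U h hU
  simp only [fe, fe1, fb_eq, nrec, an_iff, lt_iff, mx_eq, mn_eq, Nat.add_eq, Nat.sub_eq, Nat.mul_eq, Nat.land_eq,
    Nat.shiftRight_eq', and15] at h
  obtain ⟨⟨h1, h2⟩, h⟩ := h
  have hc : bt s 4 4080 < 4096 := (bt_le _ _ _).trans_lt (by norm_num)
  have hy := bt_le s 30 7
  have hz := bt_le s 33 7
  generalize bt s 4 4080 = c, bt s 4 3 = K, bt s 16 63 = l, bt s 22 15 = r1, bt s 26 15 + 1 = r2,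
    bt s 30 7 = y, bt s 33 7 = z at *
  generalize hM : per (bo 4080 ((l + 255) * 16) (ro r1 r2)) >>> sf c = M at *
  refine .use (fun s => ¬ X.Pe V s ∧ mb N (X.κ s) ∧ mb M (X.κ s)) (K := K + 1) (F' := F - (K + 1)) (by omega)
    (fun a b => .card ?_ ((E.met.nn _ _).trans (hD (X.P 0) (X.P 0))) fun _ _ => hD _ _) fun b =>
    hi b _ (by omega) _ _ _ _ h (hU.flt _ (fun _ => And.left) fun _ _ x y u => mb_dl.2 ⟨u, fun e => y ⟨x, u, e⟩⟩)
  generalize hT : U.filter (fun s => ¬ X.Pe V s ∧ mb N (X.κ s) ∧ mb M (X.κ s)) = T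
  have mT : ∀ s ∈ T, s ∈ U ∧ ¬ X.Pe V s ∧ mb N (X.κ s) ∧ mb M (X.κ s) := fun s hs =>
    Finset.mem_filter.1 (hT ▸ hs)
  have A := fun s hs => hf.ac s (hU.sub (mT s hs).1)
  have H : ∀ (d : ℤ) (w : ℕ), (0 < l → d ≤ (c / 16 : ℕ) ∧ (c / 16 : ℕ) + (l : ℤ) ≤ d + w) →
      ∀ s ∈ T, ∃ j, r1 ≤ j ∧ j < r2 ∧ Lw E X.t m d w j s := fun d w e s hs => by
    obtain ⟨u, a1, a2⟩ := mb_per (mb_shr.1 (hM ▸ (mT s hs).2.2.2))
    rw [mb_box] at a1
    rw [sf_eq hc] at a2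
    exact ⟨_, by omega, by omega, (A s hs).lw (Iw.mono (c := (c / 16 : ℕ)) (w := l)
      ⟨(u / 16 : ℕ) - 255 + (c / 16 : ℕ), by omega, by omega, by omega⟩ e)⟩
  have ok : ∀ y ≤ 7, oka V y = true → y < X.n ∧ X.P y ∉ T := fun y hy e => by
    simp only [oka, orr_iff, lt_iff, Nat.beq_eq, mb_bt0] at e
    rcases e with e | e
    · exact ⟨by omega, fun u => by interval_cases y; exacts [b rfl (mT _ u).1, a (mT _ u).1]⟩
    · exact ⟨hU.lt e hy, fun u => (mT _ u).2.1 ⟨y, hU.lt e hy, e, rfl⟩⟩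
  split_ifs at h2 <;> try simp only [an_iff, lt_iff, Nat.ble_eq] at h2
  · exact cnt0 hI hf.ch (H _ l fun _ => ⟨le_rfl, le_rfl⟩) h2
  · obtain ⟨y1, y2⟩ := ok y hy h2.1
    exact cnt1 hI hf.ch y2 ((hf.at y1).lw (iw_yy hc (min_le_right 60 _) (by omega))) (H _ _ (by omega)) h2.2
  · obtain ⟨y1, y2⟩ := ok y hy h2.1.2.1
    obtain ⟨z1, z2⟩ := ok z hz h2.1.2.2
    exact cnt2 hI hf.ch y2 z2 (fun e => h2.1.1.ne (hf.inj _ y1 _ z1 e))
      ((hf.at y1).lw (iw_yy hc (lo := min 60 (min (yy (ce X.A y) c) (yy (ce X.A z) c))) (by omega) (by omega)))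
      ((hf.at z1).lw (iw_yy hc (by omega) (by omega)))
      (fun s hs => (H _ _ (by omega) s hs).imp fun _ h => h.2.2) h2.2
  · refine (Finset.card_le_one.2 fun p hp q hq => by_contra fun n => ?_).trans (by omega)
    have := one_spec _ h2 (mb_and.2 (mT p hp).2.2) _ (mb_and.2 (mT q hq).2.2)
    have a := A p hp
    rw [sf_eq a.1] at this
    exact zp_no hI hf.ch n (by have := a.1; omega) a.2.1 a.2.2 (A q hq) this

theorem wk_go (hc : c < 4096) (hh : hi < 128) (hl : lo ≤ hi)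
    (h : mb (wk w (lo * 128 + hi)) (4080 - 16 * (c / 16) + z)) : ∃ d : ℤ, Iw d w (z / 16 : ℕ) ∧
      ∀ x, lo ≤ yy x c → yy x c ≤ hi → Iw d w (x / 16 : ℕ) := by
  obtain ⟨d, ⟨e, a1, a2, a3⟩, b⟩ := mb_wk hh hl h
  refine ⟨d - 255 + (c / 16 : ℕ), ⟨e - 255 + (c / 16 : ℕ), by omega, by omega, by omega⟩, fun x u v => ?_⟩
  obtain ⟨e, a1, a2, a3⟩ := b _ u v ((x / 16 : ℕ) + 255 - (c / 16 : ℕ)) (by rw [yy_eq]; omega)
  exact ⟨e - 255 + (c / 16 : ℕ), by omega, by omega, by omega⟩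

/-- not an anchor -/
def Cx.Fr (X : Cx α) (s : α) : Prop := s ∈ X.U ∧ ∀ u < X.n, s ≠ X.P u

def Cx.Mk (X : Cx α) (N : ℕ) : Prop := ∀ s, X.Fr s → mb N (X.κ s)

def Cx.ext (X : Cx α) (q : α) : Cx α :=
  { X with A := X.A + X.κ q <<< (X.n * 12), n := X.n + 1, P := Function.update X.P X.n q }

theorem Cx.ext_lt {u : ℕ} (h : u < X.n) : (X.ext q).P u = X.P u := Function.update_of_ne h.ne _ _

theorem Cx.ext_eq : (X.ext q).P X.n = q := Function.update_self _ _ _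

theorem Cx.Fr.ext (h : (X.ext q).Fr s) : X.Fr s ∧ s ≠ q :=
  ⟨⟨h.1, fun u a => Cx.ext_lt a ▸ h.2 u (a.trans X.n.lt_succ_self)⟩, Cx.ext_eq (X := X) (q := q) ▸ h.2 X.n X.n.lt_succ_self⟩

theorem Cf.ce_ext (h : Cf E m X) (hn : X.n < 7) (hq : X.Fr q) (u : ℕ) :
    ce (X.ext q).A u = if u = X.n then X.κ q else ce X.A u := by
  have z : bt X.A (X.n * 12) (2 ^ 12 - 1) = 0 := h.z _ le_rfl hn
  have e : bt X.A (X.n * 12) (2 ^ 12 - 1) + X.κ q < 2 ^ 12 := by have := (h.ac q hq.1).1; omega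
  split_ifs with c
  · exact c ▸ (bt_add' e).trans (by rw [z, Nat.zero_add])
  · exact bt_add (q := u * 12) (k := 12) e (by omega)

theorem Cf.ext (h : Cf E m X) (hn : X.n < 7) (hq : X.Fr q) : Cf E m (X.ext q) := by
  have c : ∀ {P : ℕ → α → Prop}, (∀ u < X.n, P u (X.P u)) → P X.n q → ∀ u < X.n + 1, P u ((X.ext q).P u) :=
    fun a b u hu => (Nat.lt_succ_iff_lt_or_eq.1 hu).elim (fun e => (Cx.ext_lt e).symm ▸ a u e)
      fun e => e ▸ (Cx.ext_eq (X := X) (q := q)).symm ▸ b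
  refine ⟨h.ch, h.ac, c (P := fun _ s => s ∈ X.U) h.mem hq.1,
    c (P := fun u s => ce (X.ext q).A u = X.κ s) (fun u a => ?_) ?_,
    c (P := fun u s => ∀ v < X.n + 1, s = (X.ext q).P v → u = v) (fun u a => c (P := fun v s => X.P u = s → u = v)
      (h.inj u a) fun e => absurd e.symm (hq.2 u a)) (c (P := fun v s => q = s → X.n = v)
      (fun v a e => absurd e (hq.2 v a)) fun _ => rfl), X.n.succ_pos, fun u a b => ?_, ?_⟩
  · rw [h.ce_ext hn hq, if_neg a.ne, h.cl u a]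
  · rw [h.ce_ext hn hq, if_pos rfl]
  · rw [h.ce_ext hn hq, if_neg (Nat.ne_of_gt a), h.z u (Nat.le_of_succ_le a) b]
  · rw [h.ce_ext hn hq, if_neg hn.ne', Cx.ext_lt h.n1]
    exact h.a7

theorem ent_spec {f : ℕ → ℕ → ℕ → Bool} {s : ℕ} (hf : Cf E m X) (hI : IQ E m jn XT S s4 s5) (hq : X.Fr q)
    (hN : X.Mk N) (h : ent XT S s4 s5 X.A X.n (X.κ q) s N f = true) :
    ∃ s' N', f (X.ext q).A s' N' = true ∧ (X.ext q).Mk N' := by
  have aq := hf.ac q hq.1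
  have a1 := aq.1
  have key : ∀ (f : ℕ → ℕ → Bool) (s Z : ℕ), xl S s4 s5 X.A X.n (X.κ q) f s Z = true →
      (∀ r, X.Fr r → r ≠ q → ¬ mb Z (4080 - 16 * (X.κ q / 16) + X.κ r)) → ∃ s' Z', f s' Z' = true ∧
      ∀ r, X.Fr r → r ≠ q → ¬ mb Z' (4080 - 16 * (X.κ q / 16) + X.κ r) := by
    intro f
    delta xl
    generalize nat_lit 40 = n
    refine rec_ind (fun g : ℕ → ℕ → Bool => ∀ s Z, g s Z = true →
      (∀ r, X.Fr r → r ≠ q → ¬ mb Z (4080 - 16 * (X.κ q / 16) + X.κ r)) → ∃ s' Z', f s' Z' = true ∧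
      ∀ r, X.Fr r → r ≠ q → ¬ mb Z' (4080 - 16 * (X.κ q / 16) + X.κ r)) ?_ (fun _ g ih s Z h hZ => ?_) _
    · exact fun _ _ h => Bool.noConfusion h
    simp only [nrec, fb_eq, l7, k4, k5, mx_eq, mn_eq, Nat.add_eq, Nat.mul_eq, Nat.land_eq, Nat.lor_eq] at h
    have hu := bt_le s 2 7
    generalize bt s 2 7 = u, bt s 5 7 = v, bt s 8 7 = w at h hu
    rw [show (u + 1) &&& 7 = (u + 1) % 8 from Nat.and_two_pow_sub_one_eq_mod _ 3] at h
    have n1 := hf.n1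
    have an : (u + 1) % 8 ≤ X.n → u % 7 < X.n ∧ Ac E X.t m (ce X.A u) (X.P (u % 7)) := fun e => by
      rcases hu.eq_or_lt with rfl | c
      · exact ⟨n1, hf.a7⟩
      · rw [Nat.mod_eq_of_lt c]
        exact ⟨by omega, hf.at (by omega)⟩
    have y0 : yy (X.κ q) (X.κ q) = 60 := by rw [yy_eq]; omega
    have yl : ∀ x, yy x (X.κ q) < 120 := fun x => by rw [yy_eq]; omega
    have ne := fun {a b} ha hb (e : a ≠ b) => mt (hf.inj a ha b hb) e
    split_ifs at h <;> try simp only [an_iff, lt_iff, Nat.ble_eq] at h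
    · exact ⟨_, _, h, hZ⟩
    all_goals refine ih _ _ h.2 fun r a b e => (mb_or.1 e).elim (fun e => ?_) (hZ r a b)
    · obtain ⟨c1, c2⟩ := an h.1
      exact w3_no hI hf.ch (hq.2 _ c1).symm (a.2 _ c1).symm b.symm c2 aq (hf.ac r a.1) e
    · obtain ⟨c1, c2⟩ := an (by omega)
      have c3 := h.1.2
      have := yl (ce X.A u)
      have := yl (ce X.A v)
      obtain ⟨d, e1, e2⟩ := wk_go a1 (by omega) (by omega) e
      refine (win_cnt (m := m) (d := d) (T := {X.P (u % 7), X.P v, q, r}) hI.w4 hf.ch le_rfl ?_).ne ?_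
      · simp only [Finset.mem_insert, Finset.mem_singleton, forall_eq_or_imp, forall_eq]
        exact ⟨⟨_, c2.lw (e2 _ (by omega) (by omega))⟩, ⟨_, (hf.at c3).lw (e2 _ (by omega) (by omega))⟩,
          ⟨_, aq.lw (e2 _ (by omega) (by omega))⟩, _, (hf.ac r a.1).lw e1⟩
      · rw [Finset.card_insert_of_notMem (by
          simp [ne c1 c3 (by omega), (hq.2 _ c1).symm, (a.2 _ c1).symm]), Finset.card_insert_of_notMem (by
          simp [(hq.2 _ c3).symm, (a.2 _ c3).symm]), Finset.card_pair b.symm]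
    · obtain ⟨c1, c2⟩ := an (by omega)
      have c4 := h.1.2.2
      have c3 := h.1.2.1.trans c4
      have := yl (ce X.A u)
      have := yl (ce X.A v)
      have := yl (ce X.A w)
      obtain ⟨d, e1, e2⟩ := wk_go a1 (by omega) (by omega) e
      refine (win_cnt (m := m) (d := d) (T := {X.P (u % 7), X.P v, X.P w, q, r}) hI.w5 hf.ch le_rfl ?_).ne ?_
      · simp only [Finset.mem_insert, Finset.mem_singleton, forall_eq_or_imp, forall_eq]
        exact ⟨⟨_, c2.lw (e2 _ (by omega) (by omega))⟩, ⟨_, (hf.at c3).lw (e2 _ (by omega) (by omega))⟩,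
          ⟨_, (hf.at c4).lw (e2 _ (by omega) (by omega))⟩, ⟨_, aq.lw (e2 _ (by omega) (by omega))⟩, _,
          (hf.ac r a.1).lw e1⟩
      · rw [Finset.card_insert_of_notMem (by
          simp [ne c1 c3 (by omega), ne c1 c4 (by omega), (hq.2 _ c1).symm, (a.2 _ c1).symm]),
          Finset.card_insert_of_notMem (by simp [ne c3 c4 (by omega), (hq.2 _ c3).symm, (a.2 _ c3).symm]),
          Finset.card_insert_of_notMem (by simp [(hq.2 _ c4).symm, (a.2 _ c4).symm]), Finset.card_pair b.symm]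
  simp only [ent, fb_eq, Nat.land_eq, and15, sf_eq a1] at h
  obtain ⟨s', Z, h, hZ⟩ := key _ _ _ h fun r a b =>
    zp_no hI hf.ch b.symm (by omega) aq.2.1 aq.2.2 (hf.ac r a.1)
  exact ⟨_, _, h, fun r a => mb_dl.2 ⟨hN r a.ext.1, fun e => hZ r a.ext.1 a.ext.2 (mb_shr.1 e)⟩⟩

theorem lst_spec {f : ℕ → ℕ → ℕ → Bool} {g : ℕ → ℕ → Bool} (I : ℕ → Prop) {Z : Prop}
    (hf : ∀ c s M, f c s M = true → I M → Z ∨ I (dl M (1 <<< c))) (hg : ∀ s M, g s M = true → I M → Z) :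
    ∀ s M, lst MT f g s M = true → I M → Z := by
  delta lst
  generalize nat_lit 9999 = n
  refine rec_ind (fun l : ℕ → ℕ → Bool => ∀ s M, l s M = true → I M → Z) ?_ (fun _ l ih s M h hM => ?_) _
  · exact fun _ _ h => Bool.noConfusion h
  simp only [nrec, fb_eq] at h
  split_ifs at h
  · exact hg _ _ h hM
  · exact (hf _ _ _ (an_iff.1 h).1 hM).elim id (ih _ _ (an_iff.1 h).2)
  · exact ih _ _ h hM

theorem ca2_spec {A n s P : ℕ} {f : ℕ → ℕ → ℕ → ℕ → Bool} {g : ℕ → Bool}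
    (h : ca2 MT XT S s4 s5 A n f g s N P = true) : ∃ Q, g Q = true ∧ ∀ c, mb N c → mb P c →
      (∃ s', ent XT S s4 s5 A n c s' N (f c) = true) ∨ mb Q c :=
  lst_spec (fun M => ∀ c, mb N c → mb P c → (∃ s', ent XT S s4 s5 A n c s' N (f c) = true) ∨ mb M c)
    (fun c s _ a b => .inr fun z u v => (eq_or_ne z c).elim (fun e => .inl ⟨s, e ▸ a⟩) fun e =>
      (b z u v).imp_right fun x => mb_dl.2 ⟨x, mt mb_one.1 e⟩) (fun _ M a b => ⟨M, a, b⟩) _ _ h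
    fun _ u v => .inr (mb_and.2 ⟨u, v⟩)

theorem cas_spec {s P : ℕ} {f : ℕ → ℕ → ℕ → ℕ → Bool} (hf : Cf E m X) (hI : IQ E m jn XT S s4 s5)
    (hq : X.Fr q) (hN : X.Mk N) (hP : mb P (X.κ q)) (h : cas MT XT S s4 s5 X.A X.n f s N P = true) :
    ∃ s' N', f (X.κ q) (X.ext q).A s' N' = true ∧ (X.ext q).Mk N' := by
  obtain ⟨Q, a, b⟩ := ca2_spec h
  obtain ⟨s', e⟩ := (b _ (hN q hq) hP).resolve_right (Nat.eq_of_beq_eq_true a ▸ mb_zero)
  exact ent_spec hf hI hq hN e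

theorem tp_spec {lf : ℕ → ℕ → ℕ → ℕ → Bool} (hI : IQ E m jn XT S s4 s5) (Γ : Cx α → Prop) {Z : Prop}
    (h1 : ∀ X, Γ X → Cf E m X) (h2 : ∀ X q, Γ X → X.n < 7 → X.Fr q → Γ (X.ext q))
    (h3 : ∀ n A s N, lf n A s N = true → n ≤ 7)
    (h4 : ∀ X s N, lf X.n X.A s N = true → Γ X → X.Mk N → Z) {s : ℕ}
    (h : tp MT XT S s4 s5 lf X.n X.A s N = true) (hX : Γ X) (hN : X.Mk N) : Z := by
  suffices ∀ n A s N, tp MT XT S s4 s5 lf n A s N = true → n ≤ 7 ∧ ∀ X, X.n = n → X.A = A → Γ X → X.Mk N → Z from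
    (this _ _ _ _ h).2 X rfl rfl hX hN
  delta tp
  generalize nat_lit 9 = k
  refine rec_ind (fun g : ℕ → ℕ → ℕ → ℕ → Bool => ∀ n A s N, g n A s N = true →
    n ≤ 7 ∧ ∀ X, X.n = n → X.A = A → Γ X → X.Mk N → Z) ?_ (fun _ g ih n A s N h => ⟨?_, ?_⟩) _
  · exact fun _ _ _ _ h => Bool.noConfusion h
  · exact lst_spec (fun _ => True) (fun _ _ _ _ => .inr) (fun _ _ a _ => h3 _ _ _ _ a) _ _ h trivial
  rintro X rfl rfl hX
  refine lst_spec X.Mk (fun c s M a b => or_iff_not_imp_left.2 fun z q hq => mb_dl.2 ⟨b q hq, fun e => z ?_⟩)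
    (fun _ _ a => h4 X _ _ a hX) _ _ h
  obtain ⟨s', N', u, v⟩ := ent_spec (h1 X hX) hI hq b (mb_one.1 e ▸ a)
  exact (ih _ _ _ _ u).2 (X.ext q) rfl rfl (h2 X q hX (ih _ _ _ _ u).1 hq) v

end

end Pool.Agent.MP_1037db_co.Q

end

section
set_option linter.unusedSectionVars false

/-! Every node that passes the check is valid. -/

namespace Pool.Agent.MP_1037db_co.Q

open LP

noncomputable section

variable [G : Geo] {α : Type} [DecidableEq α] {E : Env α} {X : Cx α} {H DT MT : Tr} {t : α → ℝ}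
  {m jn XT S s4 s5 N V V' F R C i r c h s w x y md X0 X1 : ℕ} {T : Finset α} {p q : α} {β : ℝ}
  {cu : ℕ → ℕ → ℕ → Bool} {O' : OP} {b : BK}

theorem Hy.ext (h : Hy E H DT m i C X) (hn : X.n < 7) (hq : X.Fr q) : Hy E H DT m i C (X.ext q) :=
  ⟨h.ns, h.tb, h.hi, h.cf.ext hn hq, (Cx.ext_lt h.cf.n1).symm ▸ h.fl, fun v w e =>
    let ⟨a, b, c⟩ := h.od v w e
    ⟨a.trans X.n.lt_succ_self, b.trans X.n.lt_succ_self, (Cx.ext_lt a).symm ▸ (Cx.ext_lt b).symm ▸ c⟩⟩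

theorem inv0 (hf : Cf E m X) (hN : X.Mk N) (hn : X.n ≤ 7) (hr : r < X.n)
    (hV : ∀ u < 8, mb V u ↔ X.n ≤ u ∨ u = r) (hx : r = 0 ∨ X.Ex) : X.Inv N V (X.U.erase (X.P r)) :=
  ⟨Finset.erase_subset _ _, fun s hs => or_iff_not_imp_left.2 fun a => have := Finset.mem_erase.1 hs
    hN s ⟨this.2, fun u b e => a ⟨u, b, fun g => ((hV u (by omega)).1 g).elim b.not_ge fun g =>
      this.1 (g ▸ e), e⟩⟩,
    fun _ ⟨u, a, b, e⟩ => e ▸ Finset.mem_erase.2 ⟨fun g => b ((hV u (by omega)).2 (.inr (hf.inj u a r hr g))),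
      hf.mem u a⟩, fun u a b => (hV u b).2 (.inl a), hx.imp_left fun e => (hV 0 (by norm_num)).2 (.inr e.symm)⟩

theorem tu_spec {f : ℕ → ℕ → Bool} (hf : Cf E m X) (hI : X.Inv N V T) (hw : w ≤ 7)
    (h : tu X.A w V N f = true) : ∃ N' V', f N' V' = true ∧ X.Inv N' V' T := by
  rw [tu, nrec] at h
  split_ifs at h
  · exact ⟨_, _, h, hI⟩
  obtain ⟨a, V', h, e⟩ := vis_spec h
  have hu := hI.lt a (by omega)
  refine ⟨_, _, h, hI.sub, fun s hs => (hI.cov s hs).elim (fun ⟨u, b, c, d⟩ => ?_) fun g => .inr (mb_or.2 (.inl g)),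
    fun s ⟨u, b, c, d⟩ => hI.pen s ⟨u, b, fun g => c ((e u).2 (.inl g)), d⟩,
    fun u b c => (e u).2 (.inl (hI.top u b c)), hI.ex.imp_left fun g => (e 0).2 (.inl g)⟩
  by_cases g : u = w - 1
  · exact .inr (mb_or.2 (.inr (mb_one.2 (by rw [d, ← hf.cl u b, g]))))
  · exact .inl ⟨u, b, fun z => ((e u).1 z).elim c g, d⟩

theorem run (hf : Cf E m X) (hb : Bo E H i R X O' b) (hr : r < X.n) (hn : X.n ≤ 7) (hF : F ≤ 8)
    (hc : CU H i cu (ce X.A r % 16) (zx X.t (ce X.A r) (X.P r)) (zy E (ce X.A r) (X.P r)) β)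
    (hX : XS i X0 X1 (zx X.t (ce X.A r) (X.P r)) (zy E (ce X.A r) (X.P r)) β) (hm : Md E.D X R O' r md β)
    (h2 : md ≠ 2) (hI : X.Inv N V (X.U.erase (X.P r))) (h : b r (ce X.A r) cu X0 X1 md k0 k0 F s N V = true) :
    WK E.D F (X.P r) (X.U.erase (X.P r)) β := by
  have k : X.Kt k0 (· = ∅) := fun s N V S a b => Finset.eq_empty_of_forall_notMem fun z hz => by
    simp only [k0, an_iff, Nat.beq_eq] at a
    exact (b.cov z hz).elim (fun ⟨u, c, d, _⟩ => d (a.2 ▸ (mb_pow (n := 8)).2 (by omega))) (a.1 ▸ mb_zero)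
  obtain ⟨_, -, g, rfl⟩ := hb r cu X0 X1 md k0 k0 β (· = ∅) hr hc (fun _ => hX) hm
    (fun s N V S a b => ⟨hX.nn (hf.at hr), k s N V S a b⟩) k F hF _ _ _ _ h hI (Finset.notMem_erase _ _)
    fun e => absurd e h2
  rwa [Finset.sdiff_empty] at g

theorem ko0_go {D : α → α → ℝ} {v : ℕ} : X.Op D v md β ko0 := fun _ _ _ _ _ _ _ _ _ h => Bool.noConfusion h

theorem ce_two (hx : x < 4096) (hy : y < 4096) : ce (x + y * 19342813113834066795298816) 0 = x ∧ ce (x + y * 19342813113834066795298816) 7 = y ∧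
    ∀ u, 1 ≤ u → u < 7 → ce (x + y * 19342813113834066795298816) u = 0 := by
  have e : ∀ u, ce (x + y * 19342813113834066795298816) u = (x + y * 19342813113834066795298816) / 2 ^ (u * 12) % 2 ^ 12 := fun u => bt_eq _ _ 12
  refine ⟨by rw [e]; omega, by rw [e]; omega, fun u a b => ?_⟩
  rw [e]
  interval_cases u <;> omega

theorem od_small {v : ℕ} (h : C < 16) : od C v w = false := by
  have : rk C v = 0 := (bt_eq _ _ 3).trans (by
    rw [Nat.div_eq_of_lt (h.trans_le (Nat.pow_le_pow_right two_pos (Nat.le_add_left 4 _))), Nat.zero_mod])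
  rw [od, this]
  rfl

theorem nf_spec (h : ℕ) : nf h < 16 ∧ nf h &&& 1 = bt h 60 1 ∧ bt (nf h) 1 1 = bt h 62 1 ∧
    bt (nf h) 2 1 = bt h 64 1 := by
  have a := bt_le h 60 1
  have b := bt_le h 62 1
  have c := bt_le h 64 1
  simp only [nf, Nat.add_eq, Nat.mul_eq]
  generalize bt h 60 1 = x, bt h 62 1 = y, bt h 64 1 = z at *
  interval_cases x <;> interval_cases y <;> interval_cases z <;> decide

/-- the points of a node -/
theorem node_cx (hI : IQ E m jn XT S s4 s5) (hm : m ≤ 16) (hn : nc m h = true) (ht : E.Ch t)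
    (hp : E.At t 120 (bt h 40 31) p) (hT : p ∉ T) (hin : ∀ s ∈ T, E.Bx t (bt h 108 255)
      (255 - bt h 119 255 : ℕ) (bt h 46 31) (31 - bt h 52 31) s) : bt h 40 31 < m ∧
    Ac E t m (bt h 40 31 + 1920) p ∧ ∃ κ : α → ℕ, κ p = bt h 40 31 + 1920 ∧ ∀ s ∈ T, Ac E t m (κ s) s ∧
      mb (nm XT h (bt h 40 31)) (κ s) ∧ bt h 108 255 ≤ κ s / 16 ∧ κ s / 16 < 255 - bt h 119 255 ∧
      bt h 46 31 ≤ κ s % 16 ∧ κ s % 16 < 31 - bt h 52 31 := by
  simp only [nc, an_iff, lt_iff, Nat.ble_eq, Nat.sub_eq] at hn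
  obtain ⟨⟨a1, a2⟩, a3, a4⟩ := hn
  choose! k j b1 b2 b3 b4 b5 using fun s hs => (hin s hs).cell a4 a3
  refine ⟨a1, ⟨by omega, by omega, by
    rwa [show (bt h 40 31 + 1920) / 16 = 120 by omega, show (bt h 40 31 + 1920) % 16 = bt h 40 31 by omega]⟩,
    fun s => if s = p then bt h 40 31 + 1920 else 16 * k s + j s, if_pos rfl, fun s hs => ?_⟩
  have n := ne_of_mem_of_not_mem hs hT
  have c2 := b2 s hs
  have c4 := b4 s hs
  have e1 : (16 * k s + j s) / 16 = k s := by omega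
  have e2 : (16 * k s + j s) % 16 = j s := by omega
  have a : Ac E t m (16 * k s + j s) s := ⟨by omega, by omega, by rw [e1, e2]; exact b5 s hs⟩
  simp only [if_neg n, e1, e2]
  refine ⟨a, mb_dl.2 ⟨mb_box.2 ?_, fun e => zp_no (c := 120) hI ht n.symm (by norm_num) a1 hp a (mb_shr.1 e)⟩,
    b1 s hs, c2, b3 s hs, c4⟩
  have := b1 s hs
  have := b3 s hs
  simp only [bt16, e1, e2, Nat.sub_eq, Nat.reduceAdd]
  omega

theorem zz {j : ℕ} (hj : j < 16) : (j + 1920) % 16 = j ∧ zx t (j + 1920) p = t p - (120 : ℤ) ∧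
    zy E (j + 1920) p = E.fr j p := by
  unfold zx zy
  rw [show (j + 1920) / 16 = 120 by omega, show (j + 1920) % 16 = j by omega]
  exact ⟨rfl, rfl, rfl⟩

theorem gn_go (hS : E.NS H i) (hT : E.TB DT m) (hi : i ≤ 262144) (hI : IQ E m jn XT S s4 s5) (hm : m ≤ 16)
    (hn : nc m h = true) (hg : gn H DT MT XT S s4 s5 i s h = true) : E.Sem h := by
  refine Env.Go.of fun t ht p T hp hT' hin => ?_
  obtain ⟨a1, a2, κ, k1, k2⟩ := node_cx hI hm hn ht hp hT' fun s hs => (hin s hs).1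
  obtain ⟨n1, n2, n3, n4⟩ := nf_spec h
  obtain ⟨z0, z1, z2⟩ := zz (E := E) (t := t) (p := p) (show bt h 40 31 < 16 by omega)
  obtain ⟨c1, c2, c3⟩ := ce_two a2.1 a2.1
  have a3 : Ac E t m (κ p) p := by rwa [k1]
  simp only [gn, fb_eq, Nat.add_eq, Nat.mul_eq, Nat.land_eq, mw, sw_eq] at hg
  rw [show ∀ x, x * 19342813113834066795298817 = x + x * 19342813113834066795298816 from fun x => by ring] at hg
  refine tp_spec (X := ⟨t, insert p T, κ, _, 1, fun _ => p⟩) hI (fun X => Hy E H DT m i (nf h) X ∧ X.t = t ∧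
    X.U = insert p T ∧ X.P 0 = p ∧ ce X.A 0 = bt h 40 31 + 1920) (fun _ a => a.1.cf)
    (fun X q a b c => ⟨a.1.ext b c, a.2.1, a.2.2.1, (Cx.ext_lt a.1.cf.n1).trans a.2.2.2.1, by
      rw [a.1.cf.ce_ext b c, if_neg a.1.cf.n1.ne, a.2.2.2.2]⟩)
    (fun _ _ _ _ a => Nat.le_of_ble_eq_true (an_iff.1 a).1) (fun X s N a ⟨b, e1, e2, e3, e4⟩ c => ?_) hg
    ⟨⟨hS, hT, hi, ⟨ht, Finset.forall_mem_insert _ _ _ |>.2 ⟨a3, fun s hs => (k2 s hs).1⟩,
      fun _ _ => Finset.mem_insert_self _ _, fun u hu => ?_, fun u hu v hv _ => (Nat.lt_one_iff.1 hu).trans (Nat.lt_one_iff.1 hv).symm,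
      Nat.one_pos, c3, c2.symm ▸ a2⟩, ?_, fun v w e => by rw [od_small n1] at e; exact Bool.noConfusion e⟩,
      rfl, rfl, rfl, c1⟩ fun s hs => (k2 s ((Finset.mem_insert.1 hs.1).resolve_left (hs.2 0 Nat.one_pos))).2.1
  · obtain ⟨a, g⟩ := an_iff.1 a
    have a := Nat.le_of_ble_eq_true a
    have n1 := b.cf.n1
    obtain ⟨N', V', g, hI'⟩ := tu_spec b.cf (inv0 (r := 0) b.cf c a n1 (fun u hu => by
      generalize X.n = n at a n1
      unfold mb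
      interval_cases n <;> interval_cases u <;> decide) (.inl rfl)) Nat.and_le_right g
    have := bt_le h 36 3
    have := run (β := hv h (t p - (120 : ℤ)) (E.fr (bt h 40 31) p)) b.cf (bk_go b fun _ _ _ => ko0_go) n1 a
      (by omega) (by
        rw [e1, e3, e4, z0, z1, z2]
        exact cp_spec hi (bt_le _ _ _) (bt_le _ _ _) (bt_le _ _ _) (bt_le _ _ _) (bt_le _ _ _) hp.x0 hp.x1
          hp.f0 hp.f1 le_rfl) (by rw [e1, e3, e4, z1, z2]; exact xs_of le_rfl) .zero (by norm_num) hI' (e4 ▸ g)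
    rwa [e2, e3, Finset.erase_insert hT'] at this
  · obtain rfl : u = 0 := Nat.lt_one_iff.1 hu
    exact c1.trans k1.symm
  · rw [n2, n3, n4]
    exact Finset.forall_mem_insert _ _ _ |>.2 ⟨⟨fun _ => le_rfl, fun _ => le_rfl, fun _ => le_rfl,
      fun _ => le_rfl⟩, fun s hs => (hin s hs).2⟩

theorem far_go (hT : E.TB DT m) (hi : i ≤ 262144) (hI : IQ E m jn XT S s4 s5) (hm : m ≤ 16)
    (hn : nc m h = true) (hg : far DT XT S s4 s5 i s h = true) : E.Sem h := by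
  refine Env.Go.of fun t ht p T hp hT' hin => ?_
  obtain ⟨a1, a2, κ, k1, k2⟩ := node_cx hI hm hn ht hp hT' fun s hs => (hin s hs).1
  obtain ⟨n1, n2, n3, n4⟩ := nf_spec h
  obtain ⟨z0, z1, z2⟩ := zz (E := E) (t := t) (p := p) (show bt h 40 31 < 16 by omega)
  simp only [far, few, nrec, fb_eq, an_iff, mn_eq, mx_eq, Nat.add_eq, Nat.mul_eq, Nat.sub_eq, Nat.land_eq] at hg
  obtain ⟨g1, g2⟩ := hg
  refine .card ?_ (bil_nn hp _ _ _ _) fun q hq => ?_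
  · have H : ∀ (d : ℤ) (w : ℕ), d ≤ bt h 108 255 → (255 - bt h 119 255 : ℕ) ≤ d + w → ∀ s ∈ T, ∃ j,
        bt h 46 31 ≤ j ∧ j < 31 - bt h 52 31 ∧ Lw E t m d w j s := fun d w a b s hs =>
      let ⟨c1, _, c2, c3, c4, c5⟩ := k2 s hs
      ⟨_, c4, c5, c1.lw ⟨(κ s / 16 : ℕ), by omega, by omega, by simp⟩⟩
    split_ifs at g1 <;> rw [Nat.ble_eq] at g1
    · exact cnt0 hI ht (H _ _ le_rfl (by omega)) g1
    · exact cnt1 hI ht hT' ⟨a1, 120, hp, 120, by omega, by omega, rfl⟩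
        (H (min (bt h 108 255) 120 : ℕ) _ (by omega) (by omega)) g1
  obtain ⟨aq, g3, -⟩ := k2 q hq
  revert g2 g3
  generalize Nat.shiftRight s 1 = s, nm XT h (bt h 40 31) = M
  revert s M
  delta fr
  generalize nat_lit 999 = n
  refine rec_ind (fun g : ℕ → ℕ → Bool => ∀ s M, g s M = true → mb M (κ q) →
    E.D p q ≤ hv h (t p - (120 : ℤ)) (E.fr (bt h 40 31) p)) ?_ (fun _ g ih s M u v => ?_) _
  · exact fun _ _ h => Bool.noConfusion h
  simp only [nrec, fb_eq, fn_eq, Nat.add_eq, Nat.mul_eq, Nat.land_eq, Nat.shiftLeft_eq', Nat.shiftRight_eq',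
    and15 (_ + _), z0] at u
  split_ifs at u <;> simp only [an_iff, Nat.beq_eq] at u
  · exact absurd (u ▸ v) mb_zero
  · by_cases e : κ q = bt s 2 4095
    · obtain ⟨G0, G1, a, b⟩ := gs_spec (E := E) (t := t) (p := p) (q := q) (fun _ => by
        rw [n2, n3, n4]; exact (hin q hq).2) (fun e => by rw [od_small n1] at e; exact Bool.noConfusion e)
        (fun e => by rw [od_small n1] at e; exact Bool.noConfusion e) u.1
      exact cc_z hi ht hT a2 (e ▸ aq) (by rw [z1, z2]; exact xs_of le_rfl) a b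
    · exact ih _ _ u.2 (mb_dl.2 ⟨v, mt mb_one.1 e⟩)
  · refine by_contra fun e => e (ih _ _ u.2 (mb_dl.2 ⟨v, fun g => e ?_⟩))
    rw [mb_shl, mb_and, mb_iv, mb_ON] at g
    have e1 : bt s 8 4095 = _ := bt_eq s 8 12
    have e2 : bt s 8 15 = _ := bt_eq s 8 4
    have e3 : bt s 12 255 = _ := bt_eq s 12 8
    exact qc_go (s := s) (k := bt s 12 255) hi ht hT a1 hp aq (by omega) (by omega) (by omega) (bt_le _ _ _) (bt_le _ _ _)
      (by rw [show κ q % 16 = bt s 8 15 by omega]; exact u.1)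

theorem rnq_go {o n : ℕ} (hT : E.TB DT m) (hI : IQ E m jn XT S s4 s5) (ho : xok XT = true) (hR : E.RR R m)
    (hP : PR R m) (hm : m ≤ 16) (hn : (c + n) * 32 ≤ 262144) (h : rnq H DT MT XT S s4 s5 R m o c n = true)
    (hS : E.NS H (c * 32)) : E.NS H ((c + n) * 32) := by
  have hX : E.XB XT m := hI.xb fun a ha b hb => by
    have := al_iff.1 (al_iff.1 ho a (ha.trans_le hm)) b (hb.trans_le hm)
    simp only [Bool.not_eq_true', Nat.add_eq, Nat.mul_eq] at this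
    have := Nat.ne_of_beq_eq_false this
    unfold XX
    omega
  have key : ∀ n i s, blq H DT MT XT S s4 s5 R m n i s = true → ∀ x < n, ∃ s,
      nod H DT MT XT S s4 s5 R m (i + x) s = true := by
    intro n
    induction n with
    | zero => exact fun _ _ _ _ h => nomatch h
    | succ n ih =>
      intro i s h x hx
      obtain ⟨a, b⟩ := an_iff.1 h
      cases x with
      | zero => exact ⟨_, a⟩
      | succ x => exact Nat.add_right_comm i 1 x ▸ ih _ _ b x (by omega)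
  intro i
  induction i using Nat.strong_induction_on with
  | _ i ih =>
  intro hi
  rcases lt_or_ge i (c * 32) with u | u
  · exact hS i u
  obtain ⟨s, e⟩ := key 32 ((c + (i / 32 - c)) * 32) _ (al_iff.1 h (i / 32 - c) (by omega)) (i % 32) (by omega)
  rw [show (c + (i / 32 - c)) * 32 + i % 32 = i by omega, nod, nrec] at e
  have ns : E.NS H i := fun k hk => ih k hk (hk.trans hi)
  split_ifs at e
  · exact node_go ns hT hX hR hP (by omega) (by omega) e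
  simp only [fb_eq, an_iff, nrec, Nat.land_eq, Nat.mul_eq] at e
  have : E.Sem (hx H (i * 8) &&& 340282366920938463463374607431768211455) := by
    obtain ⟨a, e⟩ := e
    split_ifs at e
    exacts [gn_go ns hT (by omega) hI hm a e, far_go hT (by omega) hI hm a e]
  simp only [Env.Sem] at this
  iterate 13 rw [bt_and (by decide)] at this
  exact this

end

end Pool.Agent.MP_1037db_co.Q

end

section
set_option linter.unusedSectionVars false

/-! Configurations that are excluded because they lead to a wake-up tree. -/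

namespace Pool.Agent.MP_1037db_co.Q

open LP

noncomputable section

variable [G : Geo] {α : Type} [DecidableEq α] [Fintype α] {E : Env α} {X : Cx α} {H DT MT : Tr} {t : α → ℝ}
  {m jn XT S s4 s5 N N' R C i a b c s w x y : ℕ} {p q r : α} {β : α → ℝ} {κ : α → ℕ}
  {T : ℕ → ℕ → ℕ → ℕ → ℕ → Bool} {Z : α → α → Prop}

/-- a short edge -/
def Sh (E : Env α) (C0 : ℕ) (β : α → ℝ) (p q : α) : Prop :=
  ∃ γ : ℝ, 2 * C0 ≤ γ ∧ E.D p q + γ ≤ β p ∧ ∀ a b, E.D a b ≤ γ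

structure Tc (E : Env α) (DT : Tr) (R m ro : ℕ) (β : α → ℝ) : Prop where
  gr : E.Gr DT R m ro
  hm : m ≤ 16
  c0 : rd R 35 * G.c0 ≤ G.lim * 10000
  bu : E.Bud (rd R 35) β

theorem wv_bt {a b c d : ℕ} (ha : a ≤ 65535) (hb : b ≤ 65535) (hc : c ≤ 65535) (hd : d ≤ 65535) :
    bt (wv a b c d) 0 65535 = a ∧ bt (wv a b c d) 18 65535 = b ∧ bt (wv a b c d) 72 65535 = c ∧
      bt (wv a b c d) 90 65535 = d := by
  have e : ∀ p, bt (wv a b c d) p 65535 = _ := fun p => bt_eq _ p 16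
  simp only [e]
  unfold wv
  omega

theorem lfT_go {ro : ℕ} (g : Tc E DT R m ro β) (hI : IQ E m jn XT S s4 s5) (hy : Hy E H DT m i C X) (hx : X.Ex)
    (hU : X.U = Finset.univ) (hs : bt C 3 1 = 1 → Sh E (rd R 35) β (X.P 0) (X.P 1)) (hN : X.Mk N)
    (h : lfT H DT R i XT S s4 s5 C X.n X.A s N = true) : E.Goal β := by
  simp only [lfT, an_iff, Nat.ble_eq, fb_eq, Nat.land_eq, and15] at h
  obtain ⟨hn, h⟩ := h
  obtain ⟨a, V, h, hV⟩ := vis_spec h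
  have e : ∀ u, mb (Nat.sub 256 (Nat.shiftLeft 1 X.n)) u ↔ X.n ≤ u ∧ u < 8 := fun u => mb_iv (hi := 8)
  have r7 : s &&& 7 ≤ 7 := Nat.and_le_right
  generalize s &&& 7 = r at *
  have hr : r < X.n := not_le.1 fun c => a ((e r).2 ⟨c, by omega⟩)
  obtain ⟨N', V', h, hI'⟩ := tu_spec hy.cf (inv0 hy.cf hN hn hr (fun u hu => by rw [hV, e, and_iff_left hu])
    (.inr hx)) (bt_le _ _ _) h
  refine ⟨X.P r, hU ▸ ?_⟩
  have ac := hy.cf.at hr
  obtain ⟨a1, a2, a3, a4⟩ := ac.bd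
  have t1 : ∀ j, tq R j ≤ 65535 := fun j => (Nat.sub_le _ _).trans (bt_le _ _ _)
  have t2 : ∀ j, tq R j * 10000 + rd R 35 * rq R j ≤ G.lim * 10000 := fun j => by
    have := (Nat.mul_le_mul_left (rd R 35) (show rq R j ≤ G.c0 by
      rw [rq, mn_eq, g.gr.pr.c0]; exact min_le_right _ _)).trans g.c0
    have e : ∀ a b, Nat.div a b = a / b := fun _ _ => rfl
    simp only [tq, g.gr.pr.lim, Nat.sub_eq, Nat.add_eq, Nat.mul_eq, e]
    omega
  have hb := fun z => (bil_root (z := z) g.gr.rr g.gr.pr ac.2.1 ac.2.2 (t2 _) (t2 _)).trans (g.bu.root _)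
  have hj : ce X.A r % 16 ≤ 31 := by omega
  cases r with
  | succ r =>
    obtain ⟨u1, u2⟩ := rp_cu (H := H) hy.hi hj (t1 _) (t1 _) a1 a2 a3 a4 (hb _)
    exact run hy.cf (bk_go hy fun _ _ _ => ko0_go) hr hn (by norm_num) u1 u2 .zero (by norm_num) hI' h
  | zero =>
  have z0 : zx X.t (ce X.A 0) (X.P 0) = 0 := by simp [zx, hx.1, hx.2]
  have e1 : rc R (ce X.A 0 % 16) = wv (tq R (ce X.A 0 % 16)) (tq R (ce X.A 0 % 16 + 1)) 65535 65535 := by
    simp only [rc, wv, Nat.add_eq, Nat.mul_eq]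
    ring
  obtain ⟨w0, w1, w2, w3⟩ := wv_bt (t1 (ce X.A 0 % 16)) (t1 (ce X.A 0 % 16 + 1)) (le_refl 65535) (le_refl 65535)
  have e2 : sw (rc R (ce X.A 0 % 16)) = wv 65535 65535 (tq R (ce X.A 0 % 16)) (tq R (ce X.A 0 % 16 + 1)) := by
    rw [sw_eq, e1, w0, w1, w2, w3]
  have c2 : bt C 2 2 = 2 * bt C 3 1 := (fld (C >>> 2) 1 1).trans (by rw [bt_sh, pow_one])
  have c3 := bt_le C 3 1
  have b0 := (bil_nn ac.2.2 _ _ _ _).trans (hb _)
  refine run hy.cf (bk_go hy fun _ => fe_go hy.cf hI) hr hn (by norm_num) ?_ (xs_of ?_)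
    ⟨fun e => by simp only [Nat.add_eq] at e; omega, fun _ _ => ⟨b0, fun ih Q hi F hF s => u0_go (c := 119)
      (xL := 0) hy ⟨⟨by simp [hx.1]; norm_num, by simp [hx.1]; norm_num, ac.2.2.lo, ac.2.2.hi⟩, by norm_num,
        by omega, ?_⟩ ⟨zero_le_one, bt_le C 1 1, bt_le C 2 1⟩ ?_ ?_ rfl (fun s hs =>
        ⟨nofun, nofun, (hy.fl s hs).i, (hy.fl s hs).o⟩) ih Q hi F hF _⟩, fun e => ⟨rfl, ?_⟩⟩
    (by simp only [Nat.add_eq]; omega) hI' h
  · rw [r0, r1, e2, e1]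
    refine cp_spec hy.hi hj (t1 _) le_rfl (t1 _) le_rfl a1 a2 a3 a4 (le_of_eq_of_le ?_ (hb 0))
    simp [z0, bil, zy]
  · refine le_of_eq_of_le ?_ (hb 0)
    simp [hv, e1, w0, w1, z0, bil, zy]
  · rw [r0, r1, e2, e1]
    refine cp_spec hy.hi hj le_rfl (t1 _) le_rfl (t1 _) (by simp [hx.1]; norm_num) (by simp [hx.1]; norm_num) a3 a4
      (le_of_eq_of_le ?_ (hb 0))
    simp only [hx.1, bil]
    push_cast
    ring
  · simp only [ee, f1, Nat.add_eq, Nat.mul_eq]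
    ring
  · simp only [ee, f1, Nat.add_eq, Nat.mul_eq]
    ring
  · obtain ⟨γ, d1, d2⟩ := hs (by simp only [Nat.add_eq] at e; omega)
    have : tw2 R ≤ rd R 35 * 2 := Nat.and_le_left
    have := (Nat.cast_le (α := ℝ)).2 this
    push_cast at this
    exact ⟨γ, by linarith, d2⟩

structure Bq (E : Env α) (m : ℕ) (X : Cx α) (N : ℕ) : Prop where
  cf : Cf E m X
  ex : X.Ex
  un : X.U = Finset.univ
  ma : X.Mk N

theorem ex_ext (h : Cf E m X) (hx : X.Ex) (hn : X.n < 7) (hq : X.Fr q) : (X.ext q).Ex :=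
  ⟨(Cx.ext_lt h.n1).symm ▸ hx.1, by rw [h.ce_ext hn hq, if_neg h.n1.ne, hx.2]⟩

theorem Cx.Fr.ex (h : X.Fr r) (n : r ≠ q) : (X.ext q).Fr r :=
  ⟨h.1, fun u a => (Nat.lt_succ_iff_lt_or_eq.1 a).elim (fun e => (Cx.ext_lt e).symm ▸ h.2 u e)
    fun e => e ▸ (Cx.ext_eq (X := X) (q := q)).symm ▸ n⟩

/-- the trees of `T` lead to a contradiction -/
def TT (E : Env α) (m : ℕ) (Z : α → α → Prop) (T : ℕ → ℕ → ℕ → ℕ → ℕ → Bool) : Prop :=
  ∀ C X s N, T C X.n X.A s N = true → Bq E m X N →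
    (∀ s, E.Fl X.t (X.P 0) (C &&& 1) 0 (bt C 1 1) (bt C 2 1) s) → C < 2 ^ (X.n * 3 + 4) →
    (∀ v < X.n, ∀ w < X.n, rk C v < rk C w → X.t (X.P v) ≤ X.t (X.P w)) →
    (bt C 3 1 = 1 → Z (X.P 0) (X.P 1) ∧ 1 < X.n) → False

theorem tt_go {ro : ℕ} (g : Tc E DT R m ro β) (hS : E.NS H i) (hi : i ≤ 262144) (ng : ¬ E.Goal β)
    (hI : IQ E m jn XT S s4 s5) : TT E m (Sh E (rd R 35) β) (tt H DT MT R i XT S s4 s5) := by
  intro C X s N h b h1 h2 h3 h4
  have k : ∀ v, 0 < rk C v → v < X.n := fun v e => not_le.1 fun c => e.ne' ((bt_eq _ (v * 3 + 4) 3).trans (by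
    rw [Nat.div_eq_of_lt (h2.trans_le (Nat.pow_le_pow_right two_pos
      (Nat.add_le_add_right (Nat.mul_le_mul_right 3 c) 4))), Nat.zero_mod]))
  refine tp_spec (lf := lfT H DT R i XT S s4 s5 C) hI (fun X => Hy E H DT m i C X ∧ X.Ex ∧ X.U = Finset.univ ∧
    (bt C 3 1 = 1 → Sh E (rd R 35) β (X.P 0) (X.P 1) ∧ 1 < X.n)) (fun _ a => a.1.cf)
    (fun X q ⟨a1, a2, a3, a4⟩ b c => ⟨a1.ext b c, ex_ext a1.cf a2 b c, a3, fun e => ⟨by
      rw [Cx.ext_lt a1.cf.n1, Cx.ext_lt (a4 e).2]; exact (a4 e).1, (a4 e).2.trans X.n.lt_succ_self⟩⟩)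
    (fun _ _ _ _ a => Nat.le_of_ble_eq_true (an_iff.1 a).1)
    (fun X s N a ⟨a1, a2, a3, a4⟩ c => ng (lfT_go g hI a1 a2 a3 (fun e => (a4 e).1) c a)) h
    ⟨⟨hS, g.gr.tb, hi, b.cf, fun s _ => h1 s, fun v w e => ?_⟩, b.ex, b.un, h4⟩ b.ma
  simp only [od, an_iff, lt_iff] at e
  exact ⟨k v e.1, k w (e.1.trans e.2), h3 v (k v e.1) w (k w (e.1.trans e.2)) e.2⟩

theorem TT.no (h : TT E m Z T) (a : T C X.n X.A s N = true) (b : Bq E m X N) (n : ℕ) (hn : X.n = n)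
    (h1 : C &&& 1 = 0 ∧ bt C 1 1 = 0 ∧ bt C 2 1 = 0 ∧ C < 2 ^ (n * 3 + 4)) (f : ℕ → ℝ) (h2 : Monotone f)
    (h3 : ∀ v < n, X.t (X.P v) = f (rk C v)) (h4 : bt C 3 1 = 1 → Z (X.P 0) (X.P 1) ∧ 1 < n) : False := by
  subst hn
  exact h C X s N a b (fun _ => ⟨by omega, nofun, by omega, by omega⟩) h1.2.2.2
    (fun v a w b e => h3 v a ▸ h3 w b ▸ h2 e.le) h4

theorem Bq.cas {P : ℕ} {f : ℕ → ℕ → ℕ → ℕ → Bool} (g : Bq E m X N) (hI : IQ E m jn XT S s4 s5) (hn : X.n < 7)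
    (hq : X.Fr q) (hP : mb P (X.κ q)) (h : cas MT XT S s4 s5 X.A X.n f s N P = true) :
    ∃ s' N', f (X.κ q) (X.ext q).A s' N' = true ∧ Bq E m (X.ext q) N' :=
  let ⟨s', N', a, b⟩ := cas_spec g.cf hI hq g.ma hP h
  ⟨s', N', a, g.cf.ext hn hq, ex_ext g.cf g.ex hn hq, g.un, b⟩

def bx (t : α → ℝ) (κ : α → ℕ) (a : ℕ) (p : α) : Cx α := ⟨t, Finset.univ, κ, a0 a, 1, fun _ => p⟩

theorem bx_fr (h : q ≠ p) : (bx t κ a p).Fr q := ⟨Finset.mem_univ _, fun _ _ => h⟩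

theorem mb_fm : mb (fm jn m) c ↔ 61 ≤ c / 16 ∧ c / 16 < 181 ∧ jn ≤ c % 16 ∧ c % 16 < m := by
  simp only [fm, mb_box]
  omega

theorem a0_ce (ha : a < 16) : ce (a0 a) 0 = a + 1920 ∧ ce (a0 a) 7 = a + 1904 ∧
    ∀ u, 1 ≤ u → u < 7 → ce (a0 a) u = 0 := by
  simpa only [a0, Nat.add_eq, Nat.mul_eq] using ce_two (x := a + 1920) (y := a + 1904) (by omega) (by omega)

def cz (x j : ℕ) : ℕ := x * 16 + 1920 + j

theorem cz_ac (hm : m ≤ 16) (hx : x ≤ 60) (h1 : jn ≤ b) (h2 : b < m) (h : E.At t (120 + x) b q) :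
    Ac E t m (cz x b) q ∧ mb (fm jn m) (cz x b) := by
  have e1 : cz x b / 16 = 120 + x := by unfold cz; omega
  have e2 : cz x b % 16 = b := by unfold cz; omega
  exact ⟨⟨by unfold cz; omega, by omega, by rw [e1, e2]; exact h⟩, mb_fm.2 (by omega)⟩

theorem base (hI : IQ E m jn XT S s4 s5) (hj : jn < m) (hm : m ≤ 16) (ht : E.Ch t) (hp : t p = 120)
    (hr : E.Rw a p) (ha : a < m) (Sp : α → Prop) (z : α → ℕ)
    (hz : ∀ s, Sp s → s ≠ p ∧ Ac E t m (z s) s ∧ mb (fm jn m) (z s)) : ∃ t' κ, Bq E m (bx t' κ a p) (a1 XT jn m a) ∧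
      t' p = 120 ∧ ∀ s, Sp s → t' s = t s ∧ κ s = z s := by
  obtain ⟨u, hu, u1, u2⟩ := ht.fit (fun s => s = p ∨ Sp s) 61
  have e := (u1 p (.inl rfl)).trans hp
  have k : ∀ c : ℕ, c = 119 ∨ c = 120 → Ac E u m (a + 16 * c) p := fun c hc => ⟨by omega, by omega, by
    rw [show (a + 16 * c) / 16 = c by omega, show (a + 16 * c) % 16 = a by omega]
    rcases hc with rfl | rfl <;> exact ⟨by simp [e]; try norm_num, by simp [e]; try norm_num, hr.1, hr.2⟩⟩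
  have : ∀ s, ∃ c, Ac E u m c s ∧ (s = p → c = a + 1920) ∧ (s ≠ p → mb (fm jn m) c) ∧ (Sp s → c = z s) := by
    intro s
    by_cases c1 : s = p
    · exact ⟨_, c1 ▸ k 120 (.inr rfl), fun _ => rfl, fun n => absurd c1 n, fun n => absurd c1 (hz s n).1⟩
    by_cases c2 : Sp s
    · obtain ⟨-, ⟨a1, a2, a3⟩, a4⟩ := hz s c2
      have := u1 s (.inr c2)
      exact ⟨z s, ⟨a1, a2, this ▸ a3.a, this ▸ a3.b, a3.lo, a3.hi⟩, fun n => absurd n c1, fun _ => a4, fun _ => rfl⟩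
    obtain ⟨b1, b2⟩ := u2 s (not_or.2 ⟨c1, c2⟩)
    obtain ⟨k, j, d1, d2, d3, d4, d5⟩ := Env.Bx.cell (E := E) (t := u) (q := s) (clo := 61) (chi := 181)
      ⟨b1, b2.trans (by norm_num), (hI.rows s).1, (hI.rows s).2⟩ (by norm_num) hj
    have e1 : (16 * k + j) / 16 = k := by omega
    have e2 : (16 * k + j) % 16 = j := by omega
    exact ⟨16 * k + j, ⟨by omega, by omega, by rw [e1, e2]; exact d5⟩, fun n => absurd n c1,
      fun _ => mb_fm.2 (by omega), fun n => absurd n c2⟩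
  choose κ k1 k2 k3 k4 using this
  obtain ⟨c1, c2, c3⟩ := a0_ce (ha.trans_le hm)
  have z := fun (c : ℕ) hc h1 h2 (s : α) (n : s ≠ p) =>
    zp_no (c := c) hI hu n.symm hc ha ⟨h1, h2, hr.1, hr.2⟩ (k1 s)
  refine ⟨u, κ, ⟨⟨hu, fun s _ => k1 s, fun _ _ => Finset.mem_univ _, fun v hv => ?_,
    fun u hu v hv _ => (Nat.lt_one_iff.1 hu).trans (Nat.lt_one_iff.1 hv).symm, Nat.one_pos, c3,
    (congrArg (Ac E u m · p) c2).mpr (k 119 (.inl rfl))⟩, ⟨e, (congrArg (· / 16) c1).trans (by omega)⟩, rfl,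
    fun s hs => ?_⟩, e, fun s hs => ⟨u1 s (.inr hs), k4 s hs⟩⟩
  · obtain rfl : v = 0 := Nat.lt_one_iff.1 hv
    exact c1.trans (k2 p rfl).symm
  · have n := hs.2 0 Nat.one_pos
    exact mb_dl.2 ⟨k3 s n, fun g => (mb_or.1 g).elim (fun g => z 120 (by norm_num) (by simp [e]) (by simp [e]) s n
      (mb_shr.1 g)) fun g => z 119 (by norm_num) (by simp [e]; norm_num) (by simp [e]; norm_num) s n (mb_shr.1 g)⟩

def n2 (XT S jn m a b x : ℕ) : ℕ := dl (a1 XT jn m a) ((zp XT b ||| (w3 S (k3 (a + 1920) (cz x b)) |||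
  w3 S (k3 (a + 1904) (cz x b)))) >>> sf (cz x b))

theorem a2_eq {f : ℕ → ℕ → Bool} (h : a2 XT S jn m a b x f = true) (g : mb (a1 XT jn m a) (cz x b)) :
    f (a0 a + cz x b * 4096) (n2 XT S jn m a b x) = true := by
  simp only [a2, fb_eq, nrec] at h
  split_ifs at h with e
  exacts [absurd g (mb_bt0.1 e), h]

theorem Bq.two (g : Bq E m (bx t κ a p) (a1 XT jn m a)) (hI : IQ E m jn XT S s4 s5) (n : q ≠ p) (hb : b < 16)
    (ha : a < 16) (e : κ q = cz x b) : Bq E m ((bx t κ a p).ext q) (n2 XT S jn m a b x) ∧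
      ((bx t κ a p).ext q).A = a0 a + cz x b * 4096 ∧ mb (a1 XT jn m a) (cz x b) := by
  have hq := bx_fr (t := t) (κ := κ) (a := a) n
  have aq : Ac E t m (cz x b) q := e ▸ g.cf.ac q hq.1
  obtain ⟨c1, c2, -⟩ := a0_ce ha
  refine ⟨⟨g.cf.ext (by decide : 1 < 7) hq, ex_ext g.cf g.ex (by decide : 1 < 7) hq, rfl, fun s hs =>
    mb_dl.2 ⟨g.ma s hs.ext.1, fun u => ?_⟩⟩, by
      change a0 a + κ q <<< 12 = _
      rw [e, Nat.shiftLeft_eq],
    e ▸ g.ma q hq⟩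
  have as := g.cf.ac s hs.1
  have n' := hs.ext.1.2 0 Nat.one_pos
  rw [mb_shr, sf_eq aq.1, mb_or, mb_or] at u
  rcases u with u | u | u
  · exact zp_no hI g.cf.ch hs.ext.2.symm (by have := aq.1; omega) aq.2.1 aq.2.2 as
      (by rwa [show cz x b % 16 = b by unfold cz; omega])
  · exact w3_no hI g.cf.ch n.symm n'.symm hs.ext.2.symm ((congrArg (Ac E t m · p) c1).mp (g.cf.at Nat.one_pos)) aq as u
  · exact w3_no hI g.cf.ch n.symm n'.symm hs.ext.2.symm ((congrArg (Ac E t m · p) c2).mp g.cf.a7) aq as u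

theorem rg_iff : rg jn m a = true ↔ jn ≤ a ∧ a < m := by simp only [rg, an_iff, lt_iff, Nat.ble_eq]

theorem mono2 {u v : ℝ} (h : u ≤ v) : Monotone fun n : ℕ => if n ≤ 1 then u else v := fun _ _ _ => by
  dsimp only
  split_ifs <;> first | omega | linarith

theorem xup_go {XA e : ℕ} (hT : TT E m Z T) (hI : IQ E m jn XT S s4 s5) (hj : jn < m) (hm : m ≤ 16)
    (h : xup MT T XT S jn m XA a b s e = true) : a < m ∧ b < m ∧ 1 ≤ e ∧ e ≤ 61 ∧ xe XA (b * 32 + 1) a = e ∧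
      E.NP (fun _ _ => True) a b (e - 1) := by
  simp only [xup, an_iff, rg_iff, Nat.ble_eq, Nat.beq_eq, Nat.add_eq, Nat.mul_eq, Nat.sub_eq] at h
  obtain ⟨⟨⟨a1, a2⟩, a3, a4⟩, h⟩ := h
  refine ⟨a1.2, a2.2, a3.1, a3.2, a4, fun t ht p q n _ h1 h2 h3 => ?_⟩
  obtain ⟨u, κ, g, e1, e2⟩ := base hI hj hm ht h1 h2 a1.2 (· = q) (fun _ => cz (e - 1) b)
    fun s hs => hs ▸ ⟨hs ▸ n.symm, cz_ac hm (by omega) a2.1 a2.2 (hs ▸ h3)⟩
  obtain ⟨g, e3, e4⟩ := g.two hI n.symm (by omega) (by omega) (e2 q rfl).2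
  have := h3.a
  refine hT.no (X := (bx u κ a p).ext q) (e3 ▸ a2_eq h e4) g 2 rfl (by decide) _ (mono2 (u := u p) (v := u q) (by
    rw [e1, (e2 q rfl).1]; push_cast at this; linarith [(e - 1).cast_nonneg (α := ℝ)])) (fun v hv => ?_)
    fun e => absurd e (by decide)
  interval_cases v <;> rfl

/-- a sorted triple -/
def Tr3 (E : Env α) (a b c x y : ℕ) (t : α → ℝ) (p q s : α) : Prop := E.Ch t ∧ p ≠ q ∧ p ≠ s ∧ q ≠ s ∧
  t p = 120 ∧ E.Rw a p ∧ E.At t (120 + x) b q ∧ E.At t (120 + y) c s ∧ t s ≤ t q ∧ y ≤ x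

theorem Tr3.mir (h : Tr3 E a b c x y t p q r) :
    ∃ y' t', (y' + y = x ∨ y' + y + 1 = x) ∧ Tr3 E b a c x y' t' q p r := by
  obtain ⟨ht, n1, n2, n3, h1, h2, h3, h4, h5, h6⟩ := h
  obtain ⟨d, rfl⟩ := Nat.exists_eq_add_of_le h6
  have a1 := h3.a
  have a2 := h3.b
  have a3 := h4.a
  have a4 := h4.b
  push_cast at a1 a2 a3 a4
  have k : ∀ y' : ℕ, y' ≤ d → (y' : ℝ) ≤ t q - t r → t q - t r ≤ y' + 1 →
      Tr3 E b a c (y + d) y' (fun s => -t s + (120 + t q)) q p r := fun y' b1 b2 b3 =>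
    ⟨ht.neg.addr _, n1.symm, n3, n2, by ring, h3.rw, ⟨by push_cast; linarith, by push_cast; linarith, h2.1, h2.2⟩,
      ⟨by push_cast; linarith, by push_cast; linarith, h4.lo, h4.hi⟩,
      by linarith [y.cast_nonneg (α := ℝ)], by omega⟩
  rcases le_or_gt (d : ℝ) (t q - t r) with e | e
  · exact ⟨d, _, by omega, k d le_rfl e (by linarith)⟩
  · cases d with
    | zero => exact absurd e (by push_cast; linarith)
    | succ d => exact ⟨d, _, by omega, k d d.le_succ (by push_cast at *; linarith) (by push_cast at *; linarith)⟩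

theorem su_a {P : ℕ} {f : ℕ → Bool} (hT : TT E m Z T) (hI : IQ E m jn XT S s4 s5) (hj : jn < m) (hm : m ≤ 16)
    (ha : a < m) (hb : jn ≤ b ∧ b < m) (hc : jn ≤ c ∧ c < m) (hx : x ≤ 60)
    (h : a2 XT S jn m a b x (fun A N => ca2 MT XT S s4 s5 A 2 (fun _ => T 2448 3) f s N P) = true) :
    ∃ Q, ∀ y t p q r, Tr3 E a b c x y t p q r → f Q = true ∧ (mb P (cz y c) → mb Q (cz y c)) := by
  have k : ∀ y t p q r, Tr3 E a b c x y t p q r → ∃ u κ, κ r = cz y c ∧ u p ≤ u r ∧ u r ≤ u q ∧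
      Bq E m ((bx u κ a p).ext q) (n2 XT S jn m a b x) ∧ ((bx u κ a p).ext q).A = a0 a + cz x b * 4096 ∧
      mb (a1 XT jn m a) (cz x b) := fun y t p q r ⟨ht, n1, n2, n3, h1, h2, h3, h4, h5, h6⟩ => by
    obtain ⟨u, κ, g, e1, e2⟩ := base hI hj hm ht h1 h2 ha (fun s => s = q ∨ s = r)
      (fun s => if s = q then cz x b else cz y c) (by
        rintro s (rfl | rfl)
        · exact ⟨n1.symm, (if_pos rfl).symm ▸ cz_ac hm hx hb.1 hb.2 h3⟩
        · exact ⟨n2.symm, (if_neg n3.symm).symm ▸ cz_ac hm (h6.trans hx) hc.1 hc.2 h4⟩)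
    have := h4.a
    exact ⟨u, κ, (e2 r (.inr rfl)).2.trans (if_neg n3.symm), by
      rw [e1, (e2 r (.inr rfl)).1]; push_cast at this; linarith [y.cast_nonneg (α := ℝ)], by
      rwa [(e2 r (.inr rfl)).1, (e2 q (.inl rfl)).1],
      g.two hI n1.symm (by omega) (by omega) ((e2 q (.inl rfl)).2.trans (if_pos rfl))⟩
  by_cases e : mb (a1 XT jn m a) (cz x b)
  swap
  · exact ⟨0, fun y t p q r g => let ⟨_, _, g⟩ := k y t p q r g; absurd g.2.2.2.2.2 e⟩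
  have h := a2_eq h e
  obtain ⟨Q, h1, h2⟩ := ca2_spec h
  refine ⟨Q, fun y t p q r g => ⟨h1, fun hP => ?_⟩⟩
  obtain ⟨u, κ, e1, o1, o2, b1, e2, -⟩ := k y t p q r g
  have fr := (bx_fr (t := u) (κ := κ) (a := a) g.2.2.1.symm).ex g.2.2.2.1.symm
  refine (h2 _ (e1 ▸ b1.ma r fr) hP).resolve_left fun ⟨s', d⟩ => ?_
  rw [← e1, ← e2] at d
  obtain ⟨s', N', d, d'⟩ := ent_spec b1.cf hI fr b1.ma d
  refine hT.no (X := ((bx u κ a p).ext q).ext r) d ⟨b1.cf.ext (by decide : 2 < 7) fr,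
    ex_ext b1.cf b1.ex (by decide : 2 < 7) fr, rfl, d'⟩ 3 rfl (by decide)
    (fun n => if n ≤ 1 then u p else if n ≤ 2 then u r else u q) (fun _ _ _ => ?_) (fun v hv => ?_)
    fun e => absurd e (by decide)
  · dsimp only
    split_ifs <;> first | omega | linarith
  · interval_cases v <;> rfl

theorem su1_go (hT : TT E m Z T) (hI : IQ E m jn XT S s4 s5) (hj : jn < m) (hm : m ≤ 16)
    (ha : jn ≤ a ∧ a < m) (hb : jn ≤ b ∧ b < m) (hc : jn ≤ c ∧ c < m) (hx : x ≤ 60)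
    (h : su1 MT T XT S s4 s5 jn m a b c x s = true) : E.NE a b c x := by
  intro t ht p q r n1 n2 n3 h1 h2 h3 h4 h5 h6
  obtain ⟨y, -, y1, y2, y3⟩ := exists_cell (fun n => 120 + n) (x := t r) x.succ_pos (by simpa using h5)
    (by have := h3.b; push_cast at *; linarith)
  have g : Tr3 E a b c x y t p q r := ⟨ht, n1, n2, n3, h1, h2, h3,
    ⟨by push_cast; linarith, by push_cast at *; linarith, h4.1, h4.2⟩, h6, by omega⟩
  obtain ⟨y', t', e, g'⟩ := g.mir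
  obtain ⟨Q, hQ⟩ := su_a hT hI hj hm ha.2 hb hc hx h
  have P : ∀ y ≤ x, mb (bo 1920 ((x + 121) * 16) (1 <<< c)) (cz y c) := fun y hy =>
    (mb_bo (by rw [Nat.one_shiftLeft]; exact Nat.pow_lt_pow_right one_lt_two (by omega))).2
      ⟨by unfold cz; omega, by unfold cz; omega, by unfold cz; omega, mb_one.2 (by unfold cz; omega)⟩
  obtain ⟨f, d⟩ := hQ _ _ _ _ _ g
  have d := d (P y (by omega))
  have hr : mb (mr Q c x) (cz y' c) := mb_un.2 ⟨y, y1, by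
    simp only [Nat.add_eq, Nat.mul_eq, Nat.sub_eq, Nat.shiftLeft_eq']
    rw [show (y + 120) * 16 + c = cz y c by unfold cz; omega, mb_bt.2 d, mb_shl]
    refine ⟨by unfold cz; omega, ?_⟩
    rcases e with e | e
    · rw [show cz y' c - _ = 16 by unfold cz; omega]
      rfl
    · rw [show cz y' c - _ = 0 by unfold cz; omega]
      rfl⟩
  rw [nrec, if_neg (fun e => mb_zero (e ▸ d)), cbb] at f
  split_ifs at f with e'
  · subst e'
    exact mb_zero ((show mr Q c x &&& Q = 0 from Nat.eq_of_beq_eq_true f) ▸ mb_and.2 ⟨hr, (hQ _ _ _ _ _ g').2 (P y' (by omega))⟩)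
  · obtain ⟨Q', hQ'⟩ := su_a hT hI hj hm hb.2 ha hc hx f
    obtain ⟨f, d⟩ := hQ' _ _ _ _ _ g'
    exact mb_zero (Nat.eq_of_beq_eq_true f ▸ d (mb_and.2 ⟨hr, mb_iv.2 (by unfold cz; omega)⟩))

theorem tup {k : ℕ} {p : Fin (k + 3) → α} (hI : IQ E m jn XT S s4 s5) (hj : jn < m) (hm : m ≤ 16) (ha : a < m)
    (hb : jn ≤ b ∧ b < m) (hx : x ≤ w) (hw : w ≤ 60) (ht : E.Ch t) (hp : Function.Injective p)
    (o : Monotone fun i => t (p i)) (h1 : t (p 0) = 120) (h2 : E.Rw a (p 0)) (h3 : E.At t (120 + w) b (p (Fin.last _)))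
    (h4 : 120 + x ≤ t (p 1)) (h5 : t (p 1) ≤ 120 + (x + 1 : ℕ)) {f : ℕ → ℕ → Bool}
    (h : a2 XT S jn m a b w f = true) : ∃ u κ N, f ((bx u κ a (p 0)).ext (p (Fin.last _))).A N = true ∧
      Bq E m ((bx u κ a (p 0)).ext (p (Fin.last _))) N ∧ Monotone (fun i => u (p i)) ∧ κ (p 1) / 16 = 120 + x ∧
      ∀ i j, i ≠ 0 → i ≤ j → j ≠ Fin.last _ →
        mb (iv (κ (p i) &&& 4080) ((w + 121) * 16)) (κ (p j)) := by
  choose j j1 j2 j3 using fun i => hI.row hj (p i)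
  have l : ∀ i, i ≠ 0 → (x : ℝ) ≤ t (p i) - 120 ∧ t (p i) - 120 ≤ (w + 1 : ℕ) := fun i hi =>
    ⟨by linarith [o (Fin.one_le_of_ne_zero hi)], by
      have := h3.b; push_cast at *; linarith [o (Fin.le_last i)]⟩
  have cw : ∀ i, i ≠ 0 → max x (⌈t (p i) - 120⌉₊ - 1) ≤ w := fun i hi => by
    have := Nat.ceil_le.2 (l i hi).2
    omega
  obtain ⟨u, κ, g, e1, e2⟩ := base hI hj hm ht h1 h2 ha (fun s => ∃ i, i ≠ 0 ∧ s = p i)
    (Function.extend p (fun i => if i = Fin.last _ then cz w b else cz (max x (⌈t (p i) - 120⌉₊ - 1)) (j i)) 0) (by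
      rintro _ ⟨i, hi, rfl⟩
      rw [hp.extend_apply]
      refine ⟨hp.ne hi, ?_⟩
      split_ifs with c
      · exact c ▸ cz_ac hm hw hb.1 hb.2 h3
      refine cz_ac hm ((cw i hi).trans hw) (j1 i) (j2 i) ⟨?_, ?_, (j3 i).1, (j3 i).2⟩
      · have a := (l i hi).1
        have b := Nat.ceil_lt_add_one (x.cast_nonneg.trans a)
        rcases max_cases x (⌈t (p i) - 120⌉₊ - 1) with ⟨e, -⟩ | ⟨e, d⟩ <;> rw [e]
        · push_cast
          linarith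
        · push_cast [Nat.cast_sub (show 1 ≤ ⌈t (p i) - 120⌉₊ by omega)]
          linarith
      · have a := Nat.le_ceil (t (p i) - 120)
        have : (⌈t (p i) - 120⌉₊ : ℝ) ≤ (max x (⌈t (p i) - 120⌉₊ - 1) + 1 : ℕ) := Nat.cast_le.2 (by omega)
        push_cast at *
        linarith)
  have e3 := fun i hi => ((e2 _ ⟨i, hi, rfl⟩).2.trans (hp.extend_apply _ _ i))
  obtain ⟨g, e4, e5⟩ := g.two hI (hp.ne (Fin.last_pos (n := k + 1)).ne') (by omega) (by omega)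
    ((e3 _ (Fin.last_pos (n := k + 1)).ne').trans (if_pos rfl))
  have e6 : ∀ i, i ≠ 0 → i ≠ Fin.last _ → κ (p i) / 16 = 120 + max x (⌈t (p i) - 120⌉₊ - 1) := fun i a b => by
    have := j2 i
    rw [e3 i a, if_neg b, cz]
    omega
  have e7 : ∀ i, u (p i) = t (p i) := fun i => (eq_or_ne i 0).elim (fun e => e ▸ e1.trans h1.symm)
    fun e => (e2 _ ⟨i, e, rfl⟩).1
  refine ⟨u, κ, _, e4 ▸ a2_eq h e5, g, by simpa only [e7] using o, ?_, fun i i' b1 b2 b3 => ?_⟩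
  · have := Nat.ceil_le.2 (show t (p 1) - 120 ≤ (x + 1 : ℕ) by linarith)
    rw [e6 1 one_ne_zero (Fin.ne_of_val_ne (by simp))]
    omega
  · have c1 : i' ≠ 0 := fun e => b1 (le_antisymm (e ▸ b2) (Fin.zero_le _))
    have c2 := e6 i b1 fun e => b3 (le_antisymm (Fin.le_last _) (e ▸ b2))
    have c3 := e6 i' c1 b3
    have c4 : ⌈t (p i) - 120⌉₊ ≤ ⌈t (p i') - 120⌉₊ := Nat.ceil_mono (sub_le_sub_right (o b2) 120)
    have c5 := cw i' c1
    have c6 : κ (p i) &&& 4080 = 16 * (κ (p i) / 2 ^ 4 % 2 ^ 8) := (bt16 _ 0).trans (congrArg _ (bt_eq _ 4 8))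
    rw [mb_iv]
    omega

def DM (E : Env α) (Z : α → α → Prop) (tg s4 s5 a b x : ℕ) : Prop :=
  (tg = 0 → E.NP Z a b x) ∧ (tg = 1 → s4 ≤ 60 ∧ (x ≤ s4 → E.NY 2 a b s4 x)) ∧
    (2 ≤ tg → s5 ≤ 60 ∧ (x ≤ s5 → E.NY 3 a b s5 x))

theorem prt_go {tg x1 x2 : ℕ} (hT : TT E m Z T) (hI : IQ E m jn XT S s4 s5) (hj : jn < m) (hm : m ≤ 16)
    (h : prt MT T XT S s4 s5 jn m tg a b x1 x2 s = true) (h1 : x1 ≤ x) (h2 : x < x2) (hx : x ≤ 60) :
    DM E Z tg s4 s5 a b x := by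
  simp only [prt, an_iff, rg_iff, nrec, Nat.add_eq, Nat.mul_eq, Nat.land_eq] at h
  obtain ⟨⟨a1, a2⟩, h⟩ := h
  have P : ∀ c, c / 16 = 120 + x → mb (iv ((x1 + 120) * 16) ((x2 + 120) * 16)) c := fun c e => mb_iv.2 (by omega)
  refine ⟨fun e t ht p q n z b1 b2 b3 => ?_, fun e => ?_, fun e => ?_⟩
  · rw [if_pos e] at h
    obtain ⟨u, κ, g, e1, e2⟩ := base hI hj hm ht b1 b2 a1.2 (· = q) (fun _ => cz x b)
      fun s hs => hs ▸ ⟨hs ▸ n.symm, cz_ac hm hx a2.1 a2.2 (hs ▸ b3)⟩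
    obtain ⟨s', N', d, g⟩ := g.cas hI (by decide : 1 < 7) (bx_fr n.symm) (show mb _ (κ q) from (e2 q rfl).2 ▸
      (mb_bo (by rw [Nat.shiftLeft_eq', Nat.one_shiftLeft]; exact Nat.pow_lt_pow_right one_lt_two (by omega))).2
      ⟨by unfold cz; omega, by unfold cz; omega, by unfold cz; omega, mb_one.2 (by unfold cz; omega)⟩) h
    have := b3.a
    refine hT.no (X := (bx u κ a p).ext q) d g 2 rfl (by decide) _ (mono2 (u := u p) (v := u q) (by
      rw [e1, (e2 q rfl).1]; push_cast at this; linarith [x.cast_nonneg (α := ℝ)])) (fun v hv => ?_)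
      fun _ => ⟨z, Nat.lt_succ_self _⟩
    interval_cases v <;> rfl
  · rw [if_neg (by omega), if_pos (by omega), an_iff, Nat.ble_eq] at h
    refine ⟨h.1, fun c t ht p hp o b1 b2 b3 b4 b5 => ?_⟩
    obtain ⟨u, κ, N, d, g, o, c1, c2⟩ := tup hI hj hm a1.2 a2 c h.1 ht hp o b1 b2 b3 b4 b5 h.2
    obtain ⟨_, _, d, g⟩ := g.cas hI (by decide : 2 < 7) ((bx_fr (hp.ne (by decide))).ex (hp.ne (by decide)))
      (P (κ (p 1)) c1) d
    obtain ⟨_, _, d, g⟩ := g.cas hI (by decide : 3 < 7) (((bx_fr (hp.ne (by decide))).ex (hp.ne (by decide))).ex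
      (hp.ne (by decide))) (c2 1 2 (by decide) (by decide) (by decide)) d
    refine hT.no d g 4 rfl (by decide) (fun n => u (p ⟨min (n - 1) 3, by omega⟩))
      (fun _ _ e => o (Fin.mk_le_mk.2 (by omega))) (fun v hv => ?_) fun e => absurd e (by decide)
    interval_cases v <;> rfl
  · rw [if_neg (by omega), if_neg (by omega), an_iff, Nat.ble_eq] at h
    refine ⟨h.1, fun c t ht p hp o b1 b2 b3 b4 b5 => ?_⟩
    obtain ⟨u, κ, N, d, g, o, c1, c2⟩ := tup hI hj hm a1.2 a2 c h.1 ht hp o b1 b2 b3 b4 b5 h.2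
    obtain ⟨_, _, d, g⟩ := g.cas hI (by decide : 2 < 7) ((bx_fr (hp.ne (by decide))).ex (hp.ne (by decide)))
      (P (κ (p 1)) c1) d
    obtain ⟨_, _, d, g⟩ := g.cas hI (by decide : 3 < 7) (((bx_fr (hp.ne (by decide))).ex (hp.ne (by decide))).ex
      (hp.ne (by decide))) (c2 1 2 (by decide) (by decide) (by decide)) d
    obtain ⟨_, _, d, g⟩ := g.cas hI (by decide : 4 < 7) ((((bx_fr (hp.ne (by decide))).ex (hp.ne (by decide))).ex
      (hp.ne (by decide))).ex (hp.ne (by decide))) (c2 2 3 (by decide) (by decide) (by decide)) d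
    refine hT.no d g 5 rfl (by decide) (fun n => u (p ⟨min (n - 1) 4, by omega⟩))
      (fun _ _ e => o (Fin.mk_le_mk.2 (by omega))) (fun v hv => ?_) fun e => absurd e (by decide)
    interval_cases v <;> rfl

end

end Pool.Agent.MP_1037db_co.Q

end

section
set_option linter.unusedSectionVars false

/-! Composition of the certificates. -/

namespace Pool.Agent.MP_1037db_co.Q

open LP

noncomputable section

variable [G : Geo] {α : Type} [DecidableEq α] [Fintype α] {E : Env α} {H DT MT : Tr}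
  {m jn XT S XA SA s4 s5 tg D R i a b c s x ro : ℕ} {β : α → ℝ} {Z : α → α → Prop}

theorem xi_spec {e : ℕ} (ha : a < 16) (hb : b < 16) (h1 : xe XA (a * 32 + 1) b = e)
    (h2 : xe XA (b * 32 + 1) a = e) (he : e ≤ 61) {u v : ℕ} (hu : u < 16) (hv : v < 16) :
    XX (xi XA a b) u v ≤ XX XA u v ∨ (u = a ∧ v = b ∨ u = b ∧ v = a) ∧ e - 1 ≤ XX XA u v ∧
      XX (xi XA a b) u v ≤ e := by
  have k : ∀ X u v, xe X (u * 32 + 1) v = bt X ((u * 32 + 1 + v) * 8) (2 ^ 6 - 1) := fun _ _ _ => rfl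
  simp only [XX, xi, cnb, k, Nat.add_eq, Nat.mul_eq, Nat.shiftLeft_eq'] at *
  have a1 := fun q hq => bt_inc (X := XA) (p := (a * 32 + 1 + b) * 8) (q := q) (n := 6) (by omega) hq
  have a2 := bt_inc' (X := XA) (p := (a * 32 + 1 + b) * 8) (n := 6)
  split_ifs with c
  · subst c
    rw [Nat.add_zero]
    by_cases d : u = a ∧ v = a
    · obtain ⟨rfl, rfl⟩ := d
      omega
    · rw [a1 _ (by omega)]
      exact .inl le_rfl
  have b0 := a1 ((b * 32 + 1 + a) * 8) (by omega)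
  have b1 := fun q hq => bt_inc (X := XA + 1 <<< ((a * 32 + 1 + b) * 8)) (p := (b * 32 + 1 + a) * 8) (q := q)
    (n := 6) (by omega) hq
  have b2 := bt_inc' (X := XA + 1 <<< ((a * 32 + 1 + b) * 8)) (p := (b * 32 + 1 + a) * 8) (n := 6)
  by_cases d : u = b ∧ v = a
  · obtain ⟨rfl, rfl⟩ := d
    omega
  rw [b1 _ (by omega)]
  by_cases d : u = a ∧ v = b
  · obtain ⟨rfl, rfl⟩ := d
    omega
  · rw [a1 _ (by omega)]
    exact .inl le_rfl

theorem sup_go {T : ℕ → ℕ → ℕ → ℕ → ℕ → Bool} (hT : TT E m Z T) (hI : IQ E m jn XT S s4 s5)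
    (hA : IQ E m jn XA SA s4 s5) (hj : jn < m) (hm : m ≤ 16)
    (h : sup MT T XT S s4 s5 jn m a b c s (sd SA a b c) = true) :
    IQ E m jn XA (SA + 1 <<< ((a * 256 + b * 16 + c) * 8)) s4 s5 := by
  simp only [sup, an_iff, orr_iff, lt_iff, Nat.ble_eq, Nat.beq_eq] at h
  obtain ⟨⟨⟨a1, a2⟩, a3, a4, a5⟩, h1, h2, h3⟩ := h
  have e : s3 SA a b c = sd SA a b c := by
    rw [s3_eq]
    congr 1 <;> omega
  have ha : jn ≤ a ∧ a < m := by omega
  have hb : jn ≤ b ∧ b < m := by omega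
  have hc : jn ≤ c ∧ c < m := by omega
  have g1 := (su1_go hT hI hj hm ha hb hc a5 h1).na hA ha.2 hb.2 hc.2 e.ge
  have g2 : E.NA 120 a c b (sd SA a b c) := h2.elim (fun z => by subst z; exact g1) fun z =>
    (su1_go hT hI hj hm ha hc hb a5 z).na hA ha.2 hc.2 hb.2 (e.symm.trans (s3_23 _ _ _ _)).le
  refine hA.sup 120 g1 g2 (h3.elim (fun z => by subst z; exact g2) fun z => (su1_go hT hI hj hm hb hc ha a5 z).na
    hA hb.2 hc.2 ha.2 (e.symm.trans ((s3_12 _ _ _ _).trans (s3_23 _ _ _ _))).le) fun u hu v hv x hx => ?_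
  have k : ∀ X a b c, sd X a b c = bt X ((a * 256 + b * 16 + c) * 8) (2 ^ 8 - 1) := fun _ _ _ _ => rfl
  rw [s3_eq, s3_eq]
  by_cases d : min u (min v x) = a ∧ u + v + x - (min u (min v x) + max u (max v x)) = b ∧ max u (max v x) = c
  · refine .inr ⟨?_, ?_⟩
    · clear * - d
      rcases le_total u v with h | h <;> rcases le_total v x with g | g <;> rcases le_total u x with e | e <;>
        simp only [min_eq_left, min_eq_right, max_eq_left, max_eq_right, h, g, e] at d <;>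
        repeat first | exact .inl (by omega) | right | omega
    rw [d.2.1, d.1, d.2.2]
    exact ⟨le_rfl, bt_inc' (n := 8)⟩
  · rw [k] at a5
    rw [k, k]
    refine .inl (bt_inc (by omega) ?_).le
    clear * - d hu hv hx hm hb hc
    omega

def DD (E : Env α) (Z : α → α → Prop) (tg s4 s5 D : ℕ) : Prop :=
  ∀ a < 16, ∀ b < 16, ∀ x ≤ 60, mb D ((a * 16 + b) * 64 + x) → DM E Z tg s4 s5 a b x

theorem DD.zero : DD E Z tg s4 s5 0 := fun _ _ _ _ _ _ h => absurd h mb_zero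

theorem don_spec {e : Bool} (h : don D jn m x e = true) (h1 : jn ≤ a) (h2 : a < m) (h3 : jn ≤ b) (h4 : b < m) :
    (∀ y < x, mb D ((a * 16 + b) * 64 + y)) ∨ e = true ∧ ∀ y < x, mb D ((b * 16 + a) * 64 + y) := by
  have := al_iff.1 (al_iff.1 h a h2) b h4
  simp only [orr_iff, an_iff, lt_iff, Nat.beq_eq, Nat.add_eq, Nat.mul_eq] at this
  have k : ∀ p, bt D p (iv 0 x) = iv 0 x → ∀ y < x, mb D (p + y) := fun p e y hy =>
    mb_shr.1 (mb_and.1 (show mb (bt D p (iv 0 x)) y from e.symm ▸ mb_iv.2 ⟨y.zero_le, hy⟩)).1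
  exact (this.resolve_left (by omega)).imp (k _) (.imp_right (k _))

theorem don_win {k w : ℕ} (hI : IQ E m jn XT S s4 s5) (hj : jn < m) (hm : m ≤ 16) (hw : E.Win (k + 2) w)
    (hD : ∀ a < 16, ∀ b < 16, ∀ x ≤ 60, mb D ((a * 16 + b) * 64 + x) → w ≤ 60 ∧ (x ≤ w → E.NY k a b w x))
    (h : don D jn m (w + 1) true = true) : E.Win (k + 2) (w + 1) := by
  have g : ∀ a < m, ∀ b < m, (∀ y < w + 1, mb D ((a * 16 + b) * 64 + y)) → ∀ x ≤ w, E.NY k a b w x :=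
    fun a ha b hb e x hx => (hD a (by omega) b (by omega) x (hx.trans (hD a (by omega) b (by omega) 0
      (by norm_num) (e 0 w.succ_pos)).1) (e x (by omega))).2 hx
  exact hw.upx hI hj fun a b a1 a2 b1 b2 => (don_spec h a1 a2 b1 b2).imp (g a a2 b b2) fun e => g b b2 a a2 e.2

def Sq (E : Env α) (Z : α → α → Prop) (m XT S jn s4 s5 tg D : ℕ) : Prop :=
  jn < m ∧ IQ E m jn XT S s4 s5 ∧ DD E Z tg s4 s5 D

theorem rnd_go {X' S' jn' s4' s5' tg' D' : ℕ} (g : Tc E DT R m ro β) (hS : E.NS H i) (hi : i ≤ 262144)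
    (ng : ¬ E.Goal β) : ∀ XT S XA SA jn s4 s5 tg D s,
    rnd H DT MT R m i X' S' jn' s4' s5' tg' D' XT S XA SA jn s4 s5 tg D s = true → IQ E m jn XT S s4 s5 →
    Sq E (Sh E (rd R 35) β) m XA SA jn s4 s5 tg D → Sq E (Sh E (rd R 35) β) m X' S' jn' s4' s5' tg' D' := by
  delta rnd
  generalize nat_lit 9999 = n
  refine rec_ind (fun f : ST => ∀ XT S XA SA jn s4 s5 tg D s, f XT S XA SA jn s4 s5 tg D s = true →
    IQ E m jn XT S s4 s5 → Sq E (Sh E (rd R 35) β) m XA SA jn s4 s5 tg D →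
    Sq E (Sh E (rd R 35) β) m X' S' jn' s4' s5' tg' D') ?_
    (fun _ f ih XT S XA SA jn s4 s5 tg D s h hI ⟨hj, hA, hD⟩ => ?_) _
  · exact fun _ _ _ _ _ _ _ _ _ _ h => Bool.noConfusion h
  have hT := tt_go (MT := MT) g hS hi ng hI
  have hm := g.hm
  obtain ⟨t, ht⟩ := g.gr.ch
  obtain ⟨p, q, n, z⟩ := g.bu.pair
  have ha := bt_le s 4 15
  have hb := bt_le s 8 15
  have w : ∀ {x y tg}, E.Win 4 x → E.Win 5 y → IQ E m jn XT S x y ∧ Sq E (Sh E (rd R 35) β) m XA SA jn x y tg 0 :=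
    fun a b => ⟨⟨hI.rows, hI.pair, hI.tri, a, b⟩, hj, ⟨hI.rows, hA.pair, hA.tri, a, b⟩, .zero⟩
  simp only [rn1, rn2, nrec, fb_eq, cnb, Nat.add_eq, Nat.mul_eq, Nat.shiftLeft_eq', Nat.lor_eq] at h
  by_cases c0 : s.land 15 = 0
  · simp only [if_pos c0, an_iff, Nat.beq_eq] at h
    obtain ⟨⟨rfl, rfl⟩, ⟨rfl, rfl⟩, rfl, rfl, rfl⟩ := h
    exact ⟨hj, hA, hD⟩
  rw [if_neg c0] at h
  generalize s.land 15 - 1 = o at h
  by_cases c1 : o = 0
  · rw [if_pos c1, an_iff] at h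
    obtain ⟨a1, a2, a3, a4, a5, a6⟩ := xup_go hT hI hj hm h.1
    exact ih _ _ _ _ _ _ _ _ _ _ h.2 hI ⟨hj, hA.xupx a6 a1 a2 le_rfl fun u hu v hv => by
      rw [Nat.sub_add_cancel a3]
      exact xi_spec (by omega) (by omega) rfl a5 a4 (by omega) (by omega), hD⟩
  rw [if_neg c1] at h
  generalize o - 1 = o at h
  by_cases c2 : o = 0
  · rw [if_pos c2, an_iff] at h
    exact ih _ _ _ _ _ _ _ _ _ _ h.2 hI ⟨hj, sup_go hT hI hA hj hm h.1, hD⟩
  rw [if_neg c2] at h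
  generalize o - 1 = o at h
  by_cases c3 : o = 0
  · rw [if_pos c3, an_iff] at h
    refine ih _ _ _ _ _ _ _ _ _ _ h.2 hI ⟨hj, hA, fun a a1 b b1 x hx e => (mb_or.1 e).elim (hD a a1 b b1 x hx)
      fun e => ?_⟩
    rw [mb_shl, mb_iv] at e
    have := bt_le s 18 63
    obtain ⟨rfl, rfl⟩ : a = bt s 4 15 ∧ b = bt s 8 15 := by omega
    exact prt_go hT hI hj hm h.1 (by omega) (by omega) hx
  rw [if_neg c3] at h
  generalize o - 1 = o at h
  by_cases c4 : o = 0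
  · rw [if_pos c4, an_iff, an_iff] at h
    obtain ⟨a, b⟩ := hI.nearx ht fun t ht p a b c => by
      obtain ⟨u, κ, d, -⟩ := base hI hj hm ht b c hj (fun _ => False) (fun _ => 0) nofun
      exact hT 2 (bx u κ jn p) _ _ h.1.2 d (fun s => ⟨nofun, nofun, fun _ => a s, nofun⟩)
        (by decide : 2 < 2 ^ (1 * 3 + 4)) (fun v hv w hw e => absurd e (by
          rw [Nat.lt_one_iff.1 hv, Nat.lt_one_iff.1 hw]; exact lt_irrefl _)) nofun
    have e : jn + 1 ≠ m := fun e => (b e).false p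
    rw [if_neg e] at h
    exact ih _ _ _ _ _ _ _ _ _ _ h.2 a ⟨by omega, ⟨a.rows, hA.pair, hA.tri, hA.w4, hA.w5⟩, hD⟩
  rw [if_neg c4] at h
  generalize o - 1 = o at h
  split_ifs at h with c5 c6 c7 c8 c9 <;> try simp only [an_iff, lt_iff] at h
  · exact ih _ _ _ _ _ _ _ _ _ _ h hA ⟨hj, hA, hD⟩
  · exact ih _ _ _ _ _ _ _ _ _ _ h hI ⟨hj, hA, .zero⟩
  · exact (hI.finx hj ht n z fun a b a1 a2 b1 b2 x hx => (hD a (by omega) b (by omega) x hx.le
      ((don_spec h.1 a1 a2 b1 b2).resolve_right (fun e => Bool.noConfusion e.1) x hx)).1 c8).elim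
  · have := w (don_win hI hj hm hI.w4 (fun a a1 b b1 x hx e => (hD a a1 b b1 x hx e).2.1 (by omega)) h.1) hI.w5
      (tg := 1)
    exact ih _ _ _ _ _ _ _ _ _ _ h.2 this.1 this.2
  · have := w hI.w4 (don_win hI hj hm hI.w5 (fun a a1 b b1 x hx e => (hD a a1 b b1 x hx e).2.2 (by omega)) h.1)
      (tg := 2)
    exact ih _ _ _ _ _ _ _ _ _ _ h.2 this.1 this.2
  · have := w ((hA.win3 hj fun _ _ _ => s3a_le).succ h.1) hI.w5 (tg := 0)
    exact ih _ _ _ _ _ _ _ _ _ _ h.2 this.1 this.2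
  · have := w hI.w4 (hI.w4.succ h.1) (tg := 0)
    exact ih _ _ _ _ _ _ _ _ _ _ h.2 this.1 this.2
  · exact ih _ _ _ _ _ _ _ _ _ _ h hI ⟨hj, hA, hD⟩

theorem sort3 {P : ℕ → ℕ → ℕ → Prop} (h1 : ∀ a b c, P a b c → P b a c) (h2 : ∀ a b c, P a b c → P a c b)
    (h : ∀ a b c, a ≤ b → b ≤ c → P a b c) (a b c : ℕ) : P a b c := by
  rcases le_total a b with x | x <;> rcases le_total b c with y | y <;> rcases le_total a c with z | z
  exacts [h _ _ _ x y, h _ _ _ x y, h2 _ _ _ (h _ _ _ z y), h2 _ _ _ (h1 _ _ _ (h _ _ _ z x)),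
    h1 _ _ _ (h _ _ _ x z), h1 _ _ _ (h2 _ _ _ (h _ _ _ y z)), h1 _ _ _ (h _ _ _ x z),
    h1 _ _ _ (h2 _ _ _ (h1 _ _ _ (h _ _ _ y x)))]

theorem glq_go {E' : Env α} {DT' : Tr} {R' m' jn' X' S' OV : ℕ} (g : E.Gr DT R m ro) (g' : E'.Gr DT' R' m' ro)
    (hρ : E'.ρ = E.ρ) (hM : E'.M = E.M) (hm : m' ≤ 16) (hI : IQ E m jn XT S s4 s5)
    (h : glq R m jn XT S R' m' jn' X' S' OV = true) : IQ E' m' jn' X' S' s4 s5 := by
  simp only [glq, ok1, ov, an_iff, orr_iff, al_iff, lt_iff, fb_eq, Nat.ble_eq, Nat.beq_eq, Nat.add_eq, Nat.mul_eq,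
    Nat.sub_eq] at h
  obtain ⟨⟨a1, a2, a3⟩, h1, h2, h3⟩ := h
  refine hI.re hρ hM (fun a => bt OV (a * 16) 255) (fun a => bt OV (a * 16 + 8) 255) (· < m')
    (by rw [g.rr _ a2, g'.rr _ a3]; exact_mod_cast a1) (by rw [g.rr _ le_rfl, g'.rr _ le_rfl, g.hM, g'.hM])
    (fun u hu => ?_) (fun u hu v hv => ?_) fun u hu v hv x hx => ?_
  · obtain ⟨⟨b1, b2⟩, b3, b4⟩ := h1 u hu
    exact ⟨b1, b2, b3.symm.imp_left fun e => by rw [g.rr _ (b1.le.trans b2), g'.rr _ hu.le]; exact_mod_cast e,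
      b4.symm.imp_left fun e => by rw [g.rr _ b2, g'.rr _ hu]; exact_mod_cast e⟩
  · exact (h2 u (by omega) v (by omega)).imp Nat.sub_eq_zero_of_le fun e => ⟨hu, hv, fun a b c1 c2 c3 c4 => by
      have := e.2 (a - bt OV (u * 16) 255) (by omega) (b - bt OV (v * 16) 255) (by omega)
      rw [Nat.add_sub_cancel' c1, Nat.add_sub_cancel' c3] at this
      exact Nat.sub_le_sub_right this 1⟩
  refine or_iff_not_imp_left.2 fun e => ⟨hu, hv, hx, ?_⟩
  revert hu hv hx e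
  refine sort3 (P := fun u v x => u < m' → v < m' → x < m' → ¬ s3 S' u v x = 0 → ∀ a b f,
    bt OV (u * 16) 255 ≤ a → a < bt OV (u * 16 + 8) 255 → bt OV (v * 16) 255 ≤ b → b < bt OV (v * 16 + 8) 255 →
    bt OV (x * 16) 255 ≤ f → f < bt OV (x * 16 + 8) 255 → s3 S' u v x ≤ s3 S a b f)
    (fun u v x e hu hv hx n a b f c1 c2 c3 c4 c5 c6 => ?_) (fun u v x e hu hv hx n a b f c1 c2 c3 c4 c5 c6 => ?_)
    (fun u v x e e' hu hv hx n a b f c1 c2 c3 c4 c5 c6 => ?_) u v x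
  · rw [s3_12 S'] at n ⊢
    exact (e hv hu hx n b a f c3 c4 c1 c2 c5 c6).trans_eq (s3_12 _ _ _ _)
  · rw [s3_23 S'] at n ⊢
    exact (e hu hx hv n a f b c1 c2 c5 c6 c3 c4).trans_eq (s3_23 _ _ _ _)
  · have z : s3 S' u v x = sd S' u v x := by
      rw [s3_eq]
      congr 1 <;> omega
    rw [z] at n ⊢
    have := ((h3 x (by omega) v (by omega) u (by omega)).resolve_left n).2 (a - bt OV (u * 16) 255) (by omega)
      (b - bt OV (v * 16) 255) (by omega) (f - bt OV (x * 16) 255) (by omega)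
    rwa [Nat.add_sub_cancel' c1, Nat.add_sub_cancel' c3, Nat.add_sub_cancel' c5] at this

/-- the state of the chain -/
def St (E : Env α) (β : α → ℝ) (C0 : ℕ) (H : Tr) (i m XT S jn s4 s5 tg D : ℕ) : Prop :=
  E.Goal β ∨ E.NS H i ∧ Sq E (Sh E C0 β) m XT S jn s4 s5 tg D

theorem tc_re {C0 : ℕ} (h : tab G.A G.B DT R m = true) (hm : m ≤ 16 ∧ rd R 35 = C0 ∧
    C0 * G.c0 ≤ G.lim * 10000 ∧ rd R m = ro ∧ hcv R = G.hc ∧ rd R 33 = G.c0 ∧ rd R 34 = G.lim ∧ G.c0 ≤ G.lim)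
    (ht : ∃ t, E.Ch t) (hb : E.Bud C0 β) : Tc (E.re h) DT R m ro β :=
  ⟨E.gr h (by omega) hm.2.2.2 ht, hm.1, hm.2.1.symm ▸ hm.2.2.1, hm.2.1.symm ▸ ⟨hb.root, hb.pair⟩⟩

theorem Tc.init (g : Tc E DT R m ro β) (H : Tr) (C0 : ℕ) (h0 : 0 < m ∧ rd R 0 = 0 ∧ ini XT = true)
    (h : ∀ p, E.ρ p ≤ ro) : St E β C0 H 0 m XT 0 0 0 0 0 0 :=
  .inr ⟨nofun, h0.1, (Env.IV.init (by rw [g.gr.rr 0 m.zero_le, h0.2.1, Nat.cast_zero])
    (by rwa [g.gr.rr m le_rfl, g.gr.hM])).mono le_rfl (fun a ha b hb => Nat.sub_le_of_le_add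
      (Nat.le_of_ble_eq_true (al_iff.1 (al_iff.1 h0.2.2 a (ha.trans_le g.hm)) b (hb.trans_le g.hm))))
    (fun a _ b _ c _ => by simp [s3_eq, sd, bt]) le_rfl le_rfl, .zero⟩

variable {C0 o n : ℕ}

theorem St.rnq (s : St E β C0 H (c * 32) m XT S jn s4 s5 tg D) (g : Tc E DT R m ro β) (x : xok XT = true)
    (h : rnq H DT MT XT S s4 s5 R m o c n = true) (hn : (c + n) * 32 ≤ 262144) :
    St E β C0 H ((c + n) * 32) m XT S jn s4 s5 tg D :=
  s.imp_right fun s => ⟨rnq_go g.gr.tb s.2.2.1 x g.gr.rr g.gr.pr g.hm hn h s.1, s.2⟩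

theorem St.rnd {X' S' jn' s4' s5' tg' D' z : ℕ} (s : St E β C0 H i m XT S jn s4 s5 tg D) (g : Tc E DT R m ro β)
    (h : rnd H DT MT R m i X' S' jn' s4' s5' tg' D' XT S XT S jn s4 s5 tg D z = true)
    (hi : i ≤ 262144 ∧ rd R 35 = C0) : St E β C0 H i m X' S' jn' s4' s5' tg' D' := by
  obtain ⟨hi, rfl⟩ := hi
  exact or_iff_not_imp_left.2 fun ng => have s := s.resolve_left ng
    ⟨s.1, rnd_go g s.1 hi ng _ _ _ _ _ _ _ _ _ _ h s.2.2.1 s.2⟩

theorem St.glq {DT' : Tr} {R' m' jn' X' S' OV : ℕ} (s : St E β C0 H i m XT S jn s4 s5 tg D) (g : Tc E DT R m ro β)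
    (h' : tab G.A G.B DT' R' m' = true) (g' : Tc (E.re h') DT' R' m' ro β) (H' : Tr) (hj : jn' < m')
    (h : glq R m jn XT S R' m' jn' X' S' OV = true) : St (E.re h') β C0 H' 0 m' X' S' jn' s4 s5 0 0 :=
  s.imp_right fun s => ⟨nofun, hj, glq_go g.gr g'.gr rfl rfl g'.hm s.2.2.1 h, .zero⟩

theorem St.low {s4' s5' : ℕ} (s : St E β C0 H i m XT S jn s4 s5 tg D) (h4 : s4' ≤ s4) (h5 : s5' ≤ s5) :
    St E β C0 H i m XT S jn s4' s5' 0 0 :=
  s.imp_right fun s => ⟨s.1, s.2.1, s.2.2.1.mono le_rfl (fun _ _ _ _ => le_rfl) (fun _ _ _ _ _ _ => le_rfl) h4 h5,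
    .zero⟩

theorem St.fin (s : St E β C0 H i m XT S jn s4 s5 tg D) (h : m ≤ jn) : E.Goal β :=
  s.resolve_right fun s => s.2.1.not_ge h

end

end Pool.Agent.MP_1037db_co.Q

end

section
/-! Independent segments of the chain of certificates. -/

namespace Pool.Agent.MP_1037db_co.Q

open LP

/-- if all radii are at least `a`, then the goal holds or all radii are at least `b` -/
def Seg (G : Geo) (ro C0 a b : ℕ) : Prop := ∀ (n : ℕ) (E : Env (Fin n)) (β : Fin n → ℝ),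
  (∃ t, E.Ch t) → (∀ p, E.ρ p ≤ ro) → E.Bud C0 β → (∀ p, a ≤ E.ρ p) → E.Goal β ∨ ∀ p, b ≤ E.ρ p

theorem Seg.app {G : Geo} {ro C0 a b c d : ℕ} (h : Seg G ro C0 a b) (g : Seg G ro C0 c d)
    (e : c ≤ b) : Seg G ro C0 a d := fun n E β ht h1 hb h2 =>
  (h n E β ht h1 hb h2).elim .inl fun u =>
    g n E β ht h1 hb fun p => (Nat.cast_le.2 e).trans (u p)

theorem Seg.many {G : Geo} {ro C0 b : ℕ} (h : Seg G ro C0 0 b) (e : ro < b) : Many2 G ro C0 :=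
  fun n E β ht h1 hb => (h n E β ht h1 hb fun p => by simpa using E.nn p).elim id fun u =>
    have ⟨p, _⟩ := hb.pair
    absurd ((u p).trans (h1 p)) (not_le.2 (Nat.cast_lt.2 e))

variable [G : Geo] {α : Type} [DecidableEq α] [Fintype α] {E : Env α} {H DT : Tr}
  {m jn XT S s4 s5 tg D R i a ro C0 : ℕ} {β : α → ℝ}

theorem Tc.start (g : Tc E DT R m ro β) (H : Tr) (C0 jn : ℕ)
    (h0 : jn < m ∧ rd R jn ≤ a ∧ ini XT = true) (h : ∀ p, E.ρ p ≤ ro) (h' : ∀ p, a ≤ E.ρ p) :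
    St E β C0 H 0 m XT 0 jn 0 0 0 0 := by
  have u : E.IV m jn (fun _ _ => 0) (fun _ _ _ => 0) 0 0 :=
    ⟨fun p => ⟨by
        rw [g.gr.rr _ h0.1.le]
        exact (Nat.cast_le.2 h0.2.1).trans (h' p), by
        rw [g.gr.rr m le_rfl, g.gr.hM]
        exact h p⟩, fun _ _ _ _ _ _ _ _ _ _ _ _ _ => Nat.zero_le _,
      fun _ _ _ _ _ _ _ _ c d e _ _ _ _ _ _ _ _ _ => by unfold sp3; omega, .zero E 3, .zero E 4⟩
  exact .inr ⟨nofun, h0.1, u.mono le_rfl (fun a ha b hb => Nat.sub_le_of_le_add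
      (Nat.le_of_ble_eq_true (al_iff.1 (al_iff.1 h0.2.2 a (ha.trans_le g.hm)) b (hb.trans_le g.hm))))
    (fun a _ b _ c _ => by simp [s3_eq, sd, bt]) le_rfl le_rfl, .zero⟩

theorem St.out (s : St E β C0 H i m XT S jn s4 s5 tg D) (g : Tc E DT R m ro β)
    (h : m ≤ jn ∨ a ≤ rd R jn) : E.Goal β ∨ ∀ p, a ≤ E.ρ p :=
  s.imp_right fun s p => by
    have := (s.2.2.1.rows p).1
    rw [g.gr.rr _ s.2.1.le] at this
    exact (Nat.cast_le.2 (h.resolve_left s.2.1.not_ge)).trans this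

theorem St.cpy {H' P : Tr} {n : ℕ} (s : St E β C0 H i m XT S jn s4 s5 tg D)
    (h : cpy H H' P i 0 n = true) : St E β C0 H' (n * 32) m XT S jn s4 s5 tg D :=
  s.imp_right fun s => ⟨fun j hj => by
    simp only [Q.cpy, al_iff, fb_eq, an_iff, lt_iff, Nat.beq_eq, h7, Nat.add_eq, Nat.mul_eq,
      Nat.land_eq] at h
    have := h (j / 32) (by omega) (j % 32) (by omega)
    rw [show (0 + j / 32) * 32 + j % 32 = j by omega] at this
    have u := s.1 _ this.1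
    have k : ∀ x, E.Sem (x &&& 340282366920938463463374607431768211455) ↔ E.Sem x := fun x => by
      simp only [Env.Sem]
      iterate 13 rw [bt_and (by decide)]
    exact (k _).1 (this.2 ▸ (k _).2 u), s.2⟩

end Pool.Agent.MP_1037db_co.Q

end
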