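import Pool.Agent.MP_1037db_co.Q.S2
import Pool.Agent.MP_1037db_co.F.Chk

section
set_option linter.unusedSectionVars false
set_option linter.unusedVariables false

/-! Soundness of the faster checker: uses and moves. -/

namespace Pool.Agent.MP_1037db_co.F

open LP Q

noncomputable section

theorem ran (a b : Bool) : (Bool.rec false b a : Bool) = an a b := by cases a <;> rfl

theorem ri {a b : Bool} (h : (Bool.rec false b a : Bool) = true) : a = true ∧ b = true := by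
  cases a
  exacts [Bool.noConfusion h, ⟨rfl, h⟩]

theorem bre {α : Type} (x y : α) (a b : ℕ) : (Bool.rec y x (Nat.beq a b) : α) = if a = b then x else y := by
  by_cases h : a = b
  · rw [if_pos h, Nat.beq_eq.mpr h]
  · rw [if_neg h, Bool.eq_false_iff.2 (mt Nat.eq_of_beq_eq_true h)]

theorem brl {α : Type} (x y : α) (a b : ℕ) : (Bool.rec y x (Nat.ble a b) : α) = if a ≤ b then x else y := by
  by_cases h : a ≤ b
  · rw [if_pos h, Nat.ble_eq.mpr h]
  · rw [if_neg h, Bool.eq_false_iff.2 (mt Nat.le_of_ble_eq_true h)]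

theorem bsel {α : Type} {P : α → Prop} {x y : α} (hx : P x) (hy : P y) (c : Bool) : P (Bool.rec y x c) := by
  cases c
  exacts [hy, hx]

theorem frc {f : ℕ → Bool → Bool} {t : ℕ} (h : Nat.rec (motive := fun _ => Bool) false f t = true) :
    ∃ r b, t = r + 1 ∧ f r b = true := by
  cases t with
  | zero => exact Bool.noConfusion h
  | succ r => exact ⟨r, _, rfl, h⟩

theorem frk {f : ℕ → Bool → Bool} {s : ℕ} (h : Nat.rec (motive := fun _ => Bool) false f (Nat.land s (nat_lit 131071)) = true) :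
    ∃ r ≤ 131071, ∃ b, f r b = true :=
  let ⟨r, c, a, b⟩ := frc h
  ⟨r, by have : Nat.land s (nat_lit 131071) ≤ 131071 := Nat.and_le_right; omega, c, b⟩

variable {H DT : Tr} {k p x c : ℕ}

theorem h2_eq (hp : p ≤ 1) : h2 H k = hh H (2 * k + p) := by
  have e : rf (2 * k + p) = k * 8 + 2 + p := by rw [rf_eq]; omega
  have e1 : (k * 8 + 2 + p) >>> 11 = k >>> 8 := by simp only [shr]; omega
  have e2 : ((k * 8 + 2 + p) &&& 2040) * 16 = (k &&& 255) * 128 := by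
    have a : (k * 8 + 2 + p) &&& 2040 = _ := fld _ 3 255
    have b : bt (k * 8 + 2 + p) 3 255 = _ := bt_eq _ 3 8
    have c : k &&& 255 = _ := Nat.and_two_pow_sub_one_eq_mod k 8
    omega
  change (H.get (k >>> 8) >>> ((k &&& 255) * 128)) &&& _ =
    (H.get (rf (2 * k + p) >>> 11) >>> ((rf (2 * k + p) &&& 2040) * 16)) &&& _
  rw [e, e1, e2]

theorem rz_eq (hp : p ≤ 1) : rz (rf (2 * k + p)) = k * 10889035741470030830827987437816582766592 + (2801973672888163648873723073972345503744 + p * 1361129467683753853853498429727072845824) := by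
  have e : rf (2 * k + p) = k * 8 + 2 + p := by rw [rf_eq]; omega
  have a : (k * 8 + 2 + p) &&& 6 = _ := fld _ 1 3
  have b : bt (k * 8 + 2 + p) 1 3 = _ := bt_eq _ 1 2
  have c : (k * 8 + 2 + p) &&& 6 = 2 := by omega
  simp only [rz, e, Nat.add_eq, Nat.mul_eq, Nat.land_eq, c]
  ring

theorem zf_eq {M a : ℕ} (hp : p ≤ 1) (hM : M &&& 169559321693759672634918283878271549440 = 169559321693759672634918283878271549440) (ha : a = 2801973672888163648873723073972345503744 + p * 1361129467683753853853498429727072845824) :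
    zf H (M &&& 81128709954854851177730365259775) a k = hzx (hh H (2 * k + p) &&& M) (rf (2 * k + p)) := by
  simp only [zf, hzx, rz_eq hp, h2_eq hp, ha, Nat.add_eq, Nat.mul_eq, Nat.land_eq, Nat.and_assoc, hM]

theorem yf_eq {a : ℕ} (hp : p ≤ 1) (ha : a = 2801973672888163648873723073972345503744 + p * 1361129467683753853853498429727072845824) : yf H a k = hy H (2 * k + p) := by
  simp only [yf, hy, rz_eq hp, h2_eq hp, ha, Nat.add_eq, Nat.mul_eq, Nat.land_eq]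

/-- the function `z` of a move, by parity -/
def Zk (H : Tr) (M0 M1 : ℕ) (z : ℕ → ℕ) : Prop :=
  ∀ k, zf H M0 2801973672888163648873723073972345503744 k = z (2 * k) ∧ zf H M1 4163103140571917502727221503699418349568 k = z (2 * k + 1)

theorem zk_hz : Zk H 81128709954854851177730365259775 81128709954854851177730365259775 (hz H) := fun k => by
  have e : ∀ r, hh H r &&& 340282366920938463463374607431768211455 = hh H r := fun r => by
    simp only [hh, Nat.land_eq, Nat.and_assoc, Nat.and_self]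
  exact ⟨(zf_eq (M := 340282366920938463463374607431768211455) (p := 0) zero_le_one (by decide) rfl).trans (by rw [e]; rfl),
    (zf_eq (M := 340282366920938463463374607431768211455) (p := 1) le_rfl (by decide) rfl).trans (by rw [e]; rfl)⟩

theorem zk_he : Zk H 17179672575 81128709954854851177713185587200 (he H) := fun k => by
  simp only [he, nrec, Nat.land_eq, and1]
  rw [if_pos (by omega), if_neg (by omega)]
  exact ⟨zf_eq (M := 340282285792228508608523429718582624255) (p := 0) zero_le_one (by decide) rfl, zf_eq (M := 340282366920938463463374607414588538880) (p := 1) le_rfl (by decide) rfl⟩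

theorem d0_eq [Geo] : d0 DT x c = dz0 DT (ky x c) := by
  obtain ⟨a, b⟩ := ky_eq x c
  simp only [dz0, dz, fn_eq, Nat.land_eq, Nat.shiftRight_eq', a, b]
  simp only [← and15, show ∀ y, y / 16 = y >>> 4 from fun y => (shr y 4).symm]
  rfl

theorem e1_eq [Geo] : e1 DT x c = dz1 DT (ky x c) + (31 - c % 16) * 1099511627776 := by
  obtain ⟨a, b⟩ := ky_eq x c
  simp only [dz1, dz, fn_eq, Nat.land_eq, Nat.shiftRight_eq', a, b]
  simp only [← and15, show ∀ y, y / 16 = y >>> 4 from fun y => (shr y 4).symm]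
  rfl

theorem shr_pow {n b : ℕ} (h : b ≤ n) : (1 <<< n) >>> b = 1 <<< (n - b) := by
  obtain ⟨d, rfl⟩ := Nat.exists_eq_add_of_le h
  simp [Nat.shiftLeft_eq, Nat.shiftRight_eq_div_pow, pow_add]

theorem shl_pow (n b : ℕ) : (1 <<< n) <<< b = 1 <<< (b + n) := by
  rw [Nat.add_comm, Nat.shiftLeft_add]

theorem n_eq (h : Fg (hh H (2 * k + p)) 0 0 0) (hp : p ≤ 1) :
    (if p = 0 then n0 H k else n1 H k) = bm H (2 * k + p) := by
  obtain ⟨a, b, c⟩ := h
  have e : Nat.land (2 * k + p) 1 = p := (and1 _).trans (by omega)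
  simp only [bm, b0, b1, b2, nrec, e, if_pos (Nat.le_zero.1 a), if_pos (Nat.le_zero.1 b), if_pos (Nat.le_zero.1 c),
    fn_eq, n0, n1, b3, h2_eq hp]
  generalize hh H (2 * k + p) = y
  have := bt_le y 52 31
  have := bt_le y 104 4080
  have := bt_le y 115 4080
  simp only [bo, ro, iv, bt, Nat.shiftLeft_eq', Nat.shiftRight_eq', Nat.land_eq, Nat.sub_eq, Nat.add_eq] at *
  split_ifs <;> rw [shr_pow (by omega), shr_pow (by omega), shl_pow]

variable [G : Geo] {α : Type} [DecidableEq α] {E : Env α} {X : Cx α}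
  {m i C N N' V F K v w md j r I M0 M1 o G0 G1 X0 X1 B B' sh : ℕ} {S : Finset α} {β γ : ℝ} {Q : Finset α → Prop}
  {D : α → α → ℝ} {cu κ : ℕ → ℕ → ℕ → Bool} {nx : MV} {z : ℕ → ℕ}

/-- `K + 1` robots wake the points of the region `B` -/
def Us (X : Cx α) (D : α → α → ℝ) (v K : ℕ) (β : ℝ) (B sh : ℕ) : Prop :=
  ∀ S : Finset α, X.P v ∉ S → (∀ s ∈ S, s ∈ X.U ∧ mb B (sh + X.κ s)) → WK D (K + 1) (X.P v) S β

theorem us_of (hy : Hy E H DT m i C X) (hp : Po E H i X.t cu c j (X.P v) β) (hk : k ≤ 131071) (h1 : p ≤ 1)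
    (hK : K ≤ 7) (h : cu (2 * k + p) (ee K j 0 0 0) (ee K j 0 0 0) = true) :
    Us X E.D v K β (if p = 0 then n0 H k else n1 H k) (4080 - 16 * c) := fun S a b => by
  obtain ⟨u, w⟩ := hp.cu _ K 0 0 0 0 (by omega) hK zero_le_one zero_le_one zero_le_one zero_le_one h
  rw [ite_self] at u
  have no : ∀ {x : ℕ} {P : Prop}, x ≤ 0 → x = 1 → P := fun a b => by omega
  exact (use_go hy.ns u.n u.p hy.cf.ch hp.c1 hp.a a fun s hs => ⟨hy.cf.ac s (b s hs).1,
    n_eq ⟨u.l, u.fi, u.fo⟩ h1 ▸ (b s hs).2, no u.l, no u.fi, no u.fo⟩).mono (Nat.succ_le_succ u.k) w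

theorem Us.go (h : Us X D v K β B sh) (hI : X.Inv N V S)
    (hk : 0 ≤ β → ∀ S, X.Inv (dl N (B >>> sh)) V S → X.W D v md β Q F S) : X.W D v md β Q (K + 1 + F) S := by
  classical
  exact .use (fun z => ¬ X.Pe V z ∧ mb B (sh + X.κ z)) le_rfl (fun b _ => h _ (fun x => b
    (Finset.mem_filter.1 x).1) fun z hz => ⟨hI.sub (Finset.mem_filter.1 hz).1, (Finset.mem_filter.1 hz).2.2⟩)
    fun b => hk b _ (hI.flt _ (fun _ => And.left) fun z _ x y u => mb_dl.2 ⟨u, fun e => y ⟨x, mb_shr.1 e⟩⟩)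

theorem inv_or (h : X.Inv (dl (dl N (B >>> sh)) (B' >>> sh)) V S) : X.Inv (dl N ((B ||| B') >>> sh)) V S :=
  ⟨h.sub, fun s hs => (h.cov s hs).imp_right fun e => by
    simp only [mb_dl, mb_shr, mb_or] at e ⊢
    tauto, h.pen, h.top, h.ex⟩

theorem isr {sr : ℕ → ℕ → ℕ} (e : sr B sh = B >>> sh) (h : X.Inv (dl N (B >>> sh)) V S) :
    X.Inv (Nat.xor N (Nat.land N (sr B sh))) V S := e.symm ▸ h

theorem w_nil (h0 : 0 ≤ β) (h : Q S) : X.W D v md β Q F S := fun _ _ => .nil h0 h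

theorem w_mono {F' : ℕ} (h : X.W D v md β Q F S) (hF : F ≤ F') : X.W D v md β Q F' S := fun a b =>
  let ⟨T, c, d, e⟩ := h a b
  ⟨T, c, d.mono hF le_rfl, e⟩

/-- one robot moves -/
def Mv (E : Env α) (i : ℕ) (X : Cx α) (nx : MV) : Prop :=
  ∀ v X0 X1 κ β Q F md, v < X.n → XS i X0 X1 (zx X.t (ce X.A v) (X.P v)) (zy E (ce X.A v) (X.P v)) β →
    X.Kt κ (X.W E.D v md β Q F) → X.Kt (nx v (ce X.A v) (X0 + 34084860461056) (X1 + 34084860461056) κ) (X.W E.D v md β Q (F + 1))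

def ck (X z d G : ℕ) : Prop := Nat.land (Nat.sub (Nat.sub X z) d) (Nat.add G 34084860461056) = G

def ya (I o s : ℕ) : ℕ := Nat.add (Nat.add I (Nat.mul (Nat.land s 576451956218789760) 1231317390722493023050436523690298797121412248926023921711381851619923411212114921682028062455839084436071414497280)) (Nat.mul (Nat.land (Nat.lor s o) 2722217397032252905880190976965696552960) 11692057700137620406878237622690113180259560980480)

def yb (I o s : ℕ) : ℕ := Nat.add (Nat.add I (Nat.mul (Nat.land s 576451956218789760) 55214181398907847413863134791971708580880385329287060348976672884654080)) (Nat.mul (Nat.land (Nat.lor s o) 2722217397032252905880190976965696552960) 260741599617287038615700573062295606103682006744275706347821331954882146582240646160638279680)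

def yc (s : ℕ) : ℕ := Nat.add (Nat.add (Nat.mul (Nat.land s 39613476794222361482193010560) 68351585150463769109460267881736432163580189460604882716279233998947259762456620377534820912201728)
  (Nat.mul (Nat.land s 2722217396992639429086545067439722332160) 260740604974608494222489425208039978651352651445788889756314216609753645944429856786860736512)) 2801973672888163648873723108057205964800

/-- what the tests after a move to anchor `w` mean -/
structure Ed (E : Env α) (H DT : Tr) (i I : ℕ) (X : Cx α) (M0 M1 o G0 G1 X0 X1 x w : ℕ) (γ : ℝ) : Prop where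
  hw : w < X.n
  u0 : ∀ k ≤ 131071, ∀ K ≤ 1, ∀ T, T = X0 + K * 68719476736 → ck T (zf H M0 2801973672888163648873723073972345503744 k) (e0 DT x (ce X.A w)) G0 →
    Us X E.D w K γ (n0 H k) (sf (ce X.A w))
  u1 : ∀ k ≤ 131071, ∀ K ≤ 1, ∀ T, T = X1 + K * 68719476736 → ck T (zf H M1 4163103140571917502727221503699418349568 k) (e1 DT x (ce X.A w)) G1 →
    Us X E.D w K γ (n1 H k) (sf (ce X.A w))
  cz : ck X0 (d0 DT x (ce X.A w)) 2801973672888163648873723108057205964800 G0 → 0 ≤ γ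
  cx : ∀ s, ck X0 (d0 DT x (ce X.A w)) (yc s) G0 → 0 ≤ γ ∧ ∀ nx, Mv E i X nx → ∀ κ Q F,
    X.Kt κ (X.W E.D w 0 γ Q F) → X.Kt (nx w (ce X.A w) (ya I o s) (yb I o s) κ) (X.W E.D w 0 γ Q (F + 1))

def Br (E : Env α) (H DT : Tr) (i I : ℕ) (X : Cx α) (b : BR) : Prop :=
  ∀ ⦃M0 M1 o G0 G1 X0 X1 x w : ℕ⦄ ⦃γ : ℝ⦄ ⦃nx : MV⦄ ⦃κ : KT3⦄ ⦃Q : Finset α → Prop⦄,
  Ed E H DT i I X M0 M1 o G0 G1 X0 X1 x w γ → Mv E i X nx → X.Kt κ Q →
    X.Kt (b M0 M1 o G0 G1 H DT I nx X0 X1 x (ce X.A w) w κ) (X.W E.D w 0 γ Q 2)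

theorem k0' {a b : ℕ} : a = a + 0 * b := by rw [Nat.zero_mul, Nat.add_zero]

theorem k1 {a b : ℕ} : Nat.add a b = a + 1 * b := by rw [Nat.one_mul, Nat.add_eq]

theorem a0_go : Br E H DT i I X a0 := by
  delta a0
  have hb := And.intro @Nat.eq_of_beq_eq_true @Nat.shiftRight_eq'
  generalize Nat.beq = bq, Nat.shiftRight = sr at hb ⊢
  as_aux_lemma =>
    intro _ _ _ _ _ _ _ _ _ _ _ _ _ e _ hk _ _ _ _ h hI
    obtain ⟨r, a, _, h⟩ := frk h
    exact (e.u0 r a 1 le_rfl _ k1 (hb.1 (ri h).1)).go (F := 0) hI fun b _ c => w_nil b (hk _ _ _ _ (ri h).2 (isr hb.2 c))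

theorem a1_go : Br E H DT i I X a1 := by
  delta a1
  have hb := And.intro @Nat.eq_of_beq_eq_true @Nat.shiftRight_eq'
  generalize Nat.beq = bq, Nat.shiftRight = sr at hb ⊢
  as_aux_lemma =>
    intro _ _ _ _ _ _ _ _ _ _ _ _ _ e _ hk _ _ _ _ h hI
    obtain ⟨r, a, _, h⟩ := frk h
    exact (e.u1 r a 1 le_rfl _ k1 (hb.1 (ri h).1)).go (F := 0) hI fun b _ c => w_nil b (hk _ _ _ _ (ri h).2 (isr hb.2 c))

theorem a2_go : Br E H DT i I X a2 := by
  delta a2
  have hb := And.intro @Nat.eq_of_beq_eq_true @Nat.shiftRight_eq'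
  generalize Nat.beq = bq, Nat.shiftRight = sr at hb ⊢
  as_aux_lemma =>
    intro _ _ _ _ _ _ _ _ _ _ _ _ _ e _ hk _ _ _ _ h hI
    obtain ⟨r, a, _, h⟩ := frk h
    obtain ⟨q, a', _, g⟩ := frk (ri h).2
    exact (e.u0 r a 0 zero_le_one _ k0' (hb.1 (ri h).1)).go (F := 1) hI fun _ _ c => (e.u0 q a' 0 zero_le_one _ k0' (hb.1 (ri g).1)).go
      (F := 0) c fun b _ c => w_nil b (hk _ _ _ _ (ri g).2 (isr hb.2 (inv_or c)))

theorem a3_go : Br E H DT i I X a3 := by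
  delta a3
  have hb := And.intro @Nat.eq_of_beq_eq_true @Nat.shiftRight_eq'
  generalize Nat.beq = bq, Nat.shiftRight = sr at hb ⊢
  as_aux_lemma =>
    intro _ _ _ _ _ _ _ _ _ _ _ _ _ e _ hk _ _ _ _ h hI
    obtain ⟨r, a, _, h⟩ := frk h
    obtain ⟨q, a', _, g⟩ := frk (ri h).2
    exact (e.u0 r a 0 zero_le_one _ k0' (hb.1 (ri h).1)).go (F := 1) hI fun _ _ c => (e.u1 q a' 0 zero_le_one _ k0' (hb.1 (ri g).1)).go
      (F := 0) c fun b _ c => w_nil b (hk _ _ _ _ (ri g).2 (isr hb.2 (inv_or c)))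

theorem a4_go : Br E H DT i I X a4 := by
  delta a4
  have hb := And.intro @Nat.eq_of_beq_eq_true @Nat.shiftRight_eq'
  generalize Nat.beq = bq, Nat.shiftRight = sr at hb ⊢
  as_aux_lemma =>
    intro _ _ _ _ _ _ _ _ _ _ _ _ _ e _ hk _ _ _ _ h hI
    obtain ⟨r, a, _, h⟩ := frk h
    obtain ⟨q, a', _, g⟩ := frk (ri h).2
    exact (e.u1 r a 0 zero_le_one _ k0' (hb.1 (ri h).1)).go (F := 1) hI fun _ _ c => (e.u1 q a' 0 zero_le_one _ k0' (hb.1 (ri g).1)).go
      (F := 0) c fun b _ c => w_nil b (hk _ _ _ _ (ri g).2 (isr hb.2 (inv_or c)))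

theorem kt_nil (h0 : 0 ≤ β) (hk : X.Kt κ Q) : X.Kt κ (X.W D v md β Q F) :=
  fun _ _ _ _ a b => w_nil h0 (hk _ _ _ _ a b)

theorem a5_go : Br E H DT i I X a5 := by
  delta a5
  have hb := And.intro @Nat.eq_of_beq_eq_true @Nat.shiftRight_eq'
  generalize Nat.beq = bq, Nat.shiftRight = sr, ux = uf at hb ⊢
  as_aux_lemma =>
    intro _ _ _ _ _ _ _ _ _ _ _ _ _ e hm hk _ _ _ _ h hI
    obtain ⟨s, _, -, h⟩ := frc h
    obtain ⟨b, u⟩ := e.cx s (hb.1 (ri h).1)
    obtain ⟨r, a, _, h⟩ := frk (ri h).2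
    exact (e.u0 r a 0 zero_le_one _ k0' (hb.1 (ri h).1)).go (F := 1) hI fun _ _ c =>
      u _ hm _ _ 0 (kt_nil b hk) _ _ _ _ (ri h).2 (isr hb.2 c)

theorem a6_go : Br E H DT i I X a6 := by
  delta a6
  have hb := And.intro @Nat.eq_of_beq_eq_true @Nat.shiftRight_eq'
  generalize Nat.beq = bq, Nat.shiftRight = sr, ux = uf at hb ⊢
  as_aux_lemma =>
    intro _ _ _ _ _ _ _ _ _ _ _ _ _ e hm hk _ _ _ _ h hI
    obtain ⟨s, _, -, h⟩ := frc h
    obtain ⟨b, u⟩ := e.cx s (hb.1 (ri h).1)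
    obtain ⟨r, a, _, h⟩ := frk (ri h).2
    exact (e.u1 r a 0 zero_le_one _ k0' (hb.1 (ri h).1)).go (F := 1) hI fun _ _ c =>
      u _ hm _ _ 0 (kt_nil b hk) _ _ _ _ (ri h).2 (isr hb.2 c)

theorem a7_go : Br E H DT i I X a7 := by
  delta a7
  have hb := And.intro @Nat.eq_of_beq_eq_true @Nat.shiftRight_eq'
  generalize Nat.beq = bq, Nat.shiftRight = sr at hb ⊢
  as_aux_lemma =>
    exact fun _ _ _ _ _ _ _ _ _ _ _ _ _ e _ hk _ _ _ _ h hI => w_nil (e.cz (hb.1 (ri h).1)) (hk _ _ _ _ (ri h).2 hI)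

theorem a8_go : Br E H DT i I X a8 := by
  delta a8
  have hb := And.intro @Nat.eq_of_beq_eq_true @Nat.shiftRight_eq'
  generalize Nat.beq = bq, Nat.shiftRight = sr, ux = uf at hb ⊢
  as_aux_lemma =>
    intro _ _ _ _ _ _ _ _ _ _ _ _ _ e hm hk _ _ _ _ h hI
    obtain ⟨s, _, -, h⟩ := frc h
    obtain ⟨b, u⟩ := e.cx s (hb.1 (ri h).1)
    exact u _ hm _ _ 1 (u _ hm _ _ 0 (kt_nil b hk)) _ _ _ _ (ri h).2 hI

theorem a9_go : Br E H DT i I X a9 := by
  delta a9
  have hb := And.intro @Nat.eq_of_beq_eq_true @Nat.shiftRight_eq'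
  generalize Nat.beq = bq, Nat.shiftRight = sr, ux = uf at hb ⊢
  as_aux_lemma =>
    intro _ _ _ _ _ _ _ _ _ _ _ _ _ e hm hk _ _ _ _ h hI
    obtain ⟨s, _, -, h⟩ := frc h
    obtain ⟨b, u⟩ := e.cx s (hb.1 (ri h).1)
    exact u _ hm _ _ 1 (kt_nil b hk) _ _ _ _ (ri h).2 hI

theorem m2f (s a b : ℕ) (h : a + 16 ≤ b) : s &&& (2 ^ a * 65535 + 2 ^ b * 65535) =
    2 ^ a * bt s a 65535 + 2 ^ b * bt s b 65535 := by
  rw [fld_add _ _ _ _ (by
    obtain ⟨d, rfl⟩ := Nat.exists_eq_add_of_le h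
    calc 2 ^ a * 65535 < 2 ^ a * 2 ^ 16 := by gcongr; norm_num
      _ ≤ 2 ^ (a + 16 + d) := by rw [← pow_add]; exact Nat.pow_le_pow_right two_pos (by omega)), fld]

theorem ck_cc {a z d a' z' d' g : ℕ} (h : ck a z d g) (e : a - z - d = a' - z' - d') :
    cc a' z' d' g = true := by
  simp only [ck, cc, Nat.sub_eq, Nat.beq_eq] at h ⊢
  rwa [← e]

theorem wv_mc {a b c d : ℕ} (ha : a ≤ 65535) (hb : b ≤ 65535) (hc : c ≤ 65535) (hd : d ≤ 65535) :
    wv a b c d &&& 169559321693759672634918283878271549440 = 0 := by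
  have : wv a b c d &&& 81128709954854851177730365259775 = wv a b c d := by
    obtain ⟨w0, w1, w2, w3⟩ := wv_bt ha hb hc hd
    rw [mw, w0, w1, w2, w3]
  rw [← this, Nat.and_assoc]
  exact Nat.and_zero _

theorem ed_of (hy : Hy E H DT m i C X) (h1 : v < X.n) (hw : w < X.n) (hI : I = i * 10889035741470030830827987437816582766592 + 1419612298781011615649678952475016771720260989886843619185417813866810540483857042694292115229014230638747742532099027116372690731008)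
    (hX : XS i X0 X1 (zx X.t (ce X.A v) (X.P v)) (zy E (ce X.A v) (X.P v)) β)
    (hG : GG E X.t G0 G1 (ce X.A v) (ce X.A w) (X.P v) (X.P w)) {u : ℕ}
    (hu : u = 0 → zx X.t (ce X.A w) (X.P w) = 0) (hz : Zk H M0 M1 (Nat.rec (he H) (fun _ _ => hz H) u))
    (ho : o = if u = 0 then 2722217397032252905880190976965696552960 else 0) :
    Ed E H DT i I X M0 M1 o G0 G1 (X0 + 34084860461056) (X1 + 34084860461056) (ce X.A v) w (β - E.D (X.P v) (X.P w)) := by
  have a := hy.cf.at h1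
  have a' := hy.cf.at hw
  have hp : Po E H i X.t _ (ce X.A w / 16) (ce X.A w % 16) (X.P w) _ :=
    ⟨a'.2.2, by have := a'.1; omega, by omega, cq_spec (H := H) hy.hi hy.cf.ch hy.tb a a' hX hG hu⟩
  generalize (Nat.rec (he H) (fun _ _ => Q.hz H) u : ℕ → ℕ) = z at hz hp
  have j : ce X.A w % 16 < 16 := by omega
  refine ⟨hw, fun k b K c T e h => ?_, fun k b K c T e h => ?_,
    fun h => sub_nonneg.2 (cc_z hy.hi hy.cf.ch hy.tb a a' hX hG (ck_cc h (by rw [d0_eq]; omega))), fun s h => ?_⟩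
  · refine sf_eq a'.1 ▸ us_of (p := 0) hy hp b zero_le_one (by omega) ?_
    simp only [cq, nrec, Nat.land_eq, and1]
    rw [if_pos (by omega)]
    refine ck_cc h ?_
    simp only [(hz k).1, e, e0, ee, d0_eq, Nat.add_eq, Nat.sub_eq, Nat.mul_eq, Nat.land_eq, and15, Nat.add_zero]
    omega
  · refine sf_eq a'.1 ▸ us_of (p := 1) hy hp b le_rfl (by omega) ?_
    simp only [cq, nrec, Nat.land_eq, and1]
    rw [if_neg (by omega)]
    refine ck_cc h ?_
    simp only [(hz k).2, e, e1_eq, ee, Nat.add_eq]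
    omega
  have b0 := bt_le s 7 65535
  have b1 := bt_le s 79 65535
  have b2 := bt_le s 43 65535
  have b3 := bt_le s 115 65535
  obtain ⟨w0, w1, w2, w3⟩ := wv_bt b0 b2 b1 b3
  have d := le_sub_iff_add_le'.2 (cc_x (x := wv (bt s 7 65535) (bt s 43 65535) (bt s 79 65535) (bt s 115 65535))
    hy.hi hy.cf.ch hy.tb a a' hX hG (ck_cc h (by
      have e1 : s &&& 39613476794222361482193010560 = _ := m2f s 7 79 (by norm_num)
      have e2 : s &&& 2722217396992639429086545067439722332160 = _ := m2f s 43 115 (by norm_num)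
      have e3 : rz 2 = 2801973672888163648873723073972345503744 := by decide
      simp only [yc, hzx, d0_eq, Nat.add_eq, Nat.land_eq, Nat.mul_eq, e1, e2, e3, mw, wv_mc b0 b2 b1 b3, w0, w1,
        w2, w3]
      unfold wv
      omega)))
  have e1 : s &&& 576451956218789760 = _ := m2f s 7 43 (by norm_num)
  have e2 : (s ||| o) &&& 2722217397032252905880190976965696552960 = _ := m2f (s ||| o) 79 115 (by norm_num)
  have y0 : ya I o s = xx i (vb (bt (s ||| o) 79 65535) (bt (s ||| o) 115 65535)) (vb (bt s 7 65535) (bt s 43 65535)) +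
      34084860461056 := by
    simp only [ya, xx, vb, hI, Nat.add_eq, Nat.land_eq, Nat.mul_eq, Nat.lor_eq, e1, e2]
    ring
  have y1 : yb I o s = xx i (vb (bt s 7 65535) (bt s 43 65535)) (vb (bt (s ||| o) 79 65535) (bt (s ||| o) 115 65535)) +
      34084860461056 := by
    simp only [yb, xx, vb, hI, Nat.add_eq, Nat.land_eq, Nat.mul_eq, Nat.lor_eq, e1, e2]
    ring
  refine ⟨(bil_nn a'.2.2 _ _ _ _).trans d, fun nx hm κ Q F => ?_⟩
  rw [y0, y1]
  refine hm _ _ _ _ _ _ _ _ hw ⟨_, b0, _, bt_le _ _ _, _, b2, _, bt_le _ _ _, rfl, rfl, le_of_eq_of_le ?_ d⟩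
  simp only [hv, w0, w1, w2, w3, ho]
  split_ifs with e
  · simp [bil, hu e]
  · rw [Nat.or_zero]

theorem ds_go {s x : ℕ} (e : Ed E H DT i I X M0 M1 o G0 G1 X0 X1 x w γ) (hm : Mv E i X nx) (hk : X.Kt κ Q)
    (h : ds M0 M1 o H DT I nx X0 X1 x (ce X.A w) w κ s N V G0 G1 = true) (hI : X.Inv N V S) :
    X.W E.D w 0 γ Q 2 S := by
  refine (?_ : Br E H DT i I X _) e hm hk _ _ _ _ h hI
  repeat' apply bsel (P := Br E H DT i I X)
  exacts [a0_go, a1_go, a2_go, a3_go, a4_go, a5_go, a6_go, a7_go, a8_go, a9_go]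

end

end Pool.Agent.MP_1037db_co.F

end

section
set_option linter.unusedSectionVars false
set_option linter.unusedVariables false

/-! Soundness of the faster checker: programs. -/

namespace Pool.Agent.MP_1037db_co.F

open LP Q

noncomputable section

variable [G : Geo] {α : Type} [DecidableEq α] {E : Env α} {X : Cx α} {H DT MT : Tr}
  {m jn i C N N' V F K v w md j r I X0 X1 T T0 T1 XT S s4 s5 R a c d k s x y : ℕ} {U : Finset α} {β γ : ℝ}
  {Q : Finset α → Prop} {D : α → α → ℝ} {κ : KT3} {nx : MV} {P : MV → MV} {Z : KT3 → KT3} {p q : α}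

theorem frp {f : ℕ → Bool → Bool} (h : Nat.rec (motive := fun _ => Bool) false f (Nat.add x (nat_lit 1)) = true) :
    ∃ b, f x b = true := ⟨_, h⟩

theorem bor {a b c : Bool} (h : (Bool.rec a b c : Bool) = true) : c = false ∧ a = true ∨ c = true ∧ b = true := by
  cases c
  exacts [.inl ⟨rfl, h⟩, .inr ⟨rfl, h⟩]

theorem vis2 {b : Bool} (h : Nat.rec (motive := fun _ => Bool) b (fun _ _ => false) (bt V w (nat_lit 1)) = true) :
    ¬ mb V w ∧ b = true ∧ ∀ u, mb (Nat.add V (Nat.shiftLeft (nat_lit 1) w)) u ↔ mb V u ∨ u = w := by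
  have c : bt V w (nat_lit 1) = 0 := by
    cases e : bt V w (nat_lit 1)
    exacts [rfl, Bool.noConfusion (e ▸ h :)]
  obtain ⟨a, V', e, g⟩ := vis_spec (V := V) (w := w) (f := fun V' => Nat.beq V' (Nat.add V (Nat.shiftLeft 1 w)))
    (by rw [vis, c]; exact Nat.beq_refl _)
  exact ⟨a, by rwa [c] at h, Nat.eq_of_beq_eq_true e ▸ g⟩

def Bm (X : Cx α) (H DT : Tr) (I : ℕ) (nx : MV) (X0 X1 x c w : ℕ) (κ : KT3) (Q : Finset α → Prop)
    (b : Tr → Tr → ℕ → MV → ℕ → ℕ → ℕ → ℕ → ℕ → KT3 → KT3) : Prop := X.Kt (b H DT I nx X0 X1 x c w κ) Q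

theorem mq_go (hy : Hy E H DT m i C X) (h1 : v < X.n) (hw : w < X.n)
    (hX : XS i X0 X1 (zx X.t (ce X.A v) (X.P v)) (zy E (ce X.A v) (X.P v)) β) (hk : X.Kt κ Q) :
    Bm X H DT I nx (X0 + 34084860461056) (X1 + 34084860461056) (ce X.A v) (ce X.A w) w κ
      (X.W E.D w 0 (β - E.D (X.P v) (X.P w)) Q 2) mq := by
  intro s N V S h hI
  have a' := hy.cf.at hw
  have hp : Po E H i X.t _ (ce X.A w / 16) (ce X.A w % 16) (X.P w) _ := ⟨a'.2.2, by have := a'.1; omega, by omega,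
    cq_spec (H := H) hy.hi hy.cf.ch hy.tb (hy.cf.at h1) a' hX (gk2 gE) (u := 1) nofun⟩
  have f := fun κ ih => stp_go (md := 0) (Q := Q) (κ := κ) (ih := ih) hy hp rfl (sf_eq a'.1)
    (O0 := Nat.mul (Nat.land (ce X.A w) 15) 1099511627776) (O1 := Nat.mul (Nat.land (ce X.A w) 15) 1099511627776) (by
      refine u0_go (xL := 0) (xI := 0) (xO := 0) hy hp (by omega) ?_ ?_ (sf_eq a'.1)
        fun _ _ => ⟨nofun, nofun, nofun, nofun⟩ <;>
        simp only [ee, Nat.mul_eq, Nat.land_eq, and15] <;> ring) ko0_go ko0_go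
  simp only [mq, fb_eq, Nat.sub_eq, Nat.add_sub_cancel] at h
  exact f kf _ nofun (fun b0 => rec_ind (z := fun _ _ _ _ => false) (X.Pg E.D w 0 _ Q)
    (fun _ _ _ _ _ _ h => Bool.noConfusion h)
    (fun _ g hg => f _ _ (fun s N V S u z => ⟨b0, hk s N V S u z⟩) fun _ => hg) (nat_lit 30)) 2 (by norm_num)
    _ _ _ _ h hI

theorem mg_go (hy : Hy E H DT m i C X) (hi : I = i * 10889035741470030830827987437816582766592 + 1419612298781011615649678952475016771720260989886843619185417813866810540483857042694292115229014230638747742532099027116372690731008) (hm : Mv E i X nx) (h1 : v < X.n)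
    (hw : w < X.n) (hX : XS i X0 X1 (zx X.t (ce X.A v) (X.P v)) (zy E (ce X.A v) (X.P v)) β) (hk : X.Kt κ Q)
    (ex : w = 0 → zx X.t (ce X.A w) (X.P w) = 0) :
    Bm X H DT I nx (X0 + 34084860461056) (X1 + 34084860461056) (ce X.A v) (ce X.A w) w κ
      (X.W E.D w 0 (β - E.D (X.P v) (X.P w)) Q 2) (mg C v) := by
  intro s N V S h hI
  obtain ⟨G0, G1, hG, h⟩ := gs_spec (E := E) (t := X.t) (p := X.P v) (q := X.P w)
    (fun e => e ▸ hy.fl _ (hy.cf.mem w hw)) (fun e => (hy.od _ _ e).2.2) (fun e => (hy.od _ _ e).2.2) h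
  cases w with
  | zero => exact ds_go (ed_of hy h1 hw hi hX hG (u := 0) (fun _ => ex rfl) zk_he (if_pos rfl).symm) hm hk h hI
  | succ w => exact ds_go (ed_of hy h1 hw hi hX hG (u := 1) nofun zk_hz (if_neg one_ne_zero).symm) hm hk h hI

theorem mv_go (hy : Hy E H DT m i C X) (hi : I = i * 10889035741470030830827987437816582766592 + 1419612298781011615649678952475016771720260989886843619185417813866810540483857042694292115229014230638747742532099027116372690731008) (hm : Mv E i X nx) :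
    Mv E i X (mv H DT I C X.A nx) := by
  intro v X0 X1 κ β Q F md h1 hX hk s N V S h hI
  obtain ⟨h2, h, hV⟩ := vis2 (V := V) (w := Nat.land s (nat_lit 7)) h
  have hw := hI.lt h2 Nat.and_le_right
  generalize Nat.land s (nat_lit 7) = w at *
  have ex : w = 0 → zx X.t (ce X.A w) (X.P w) = 0 := fun e => by
    subst e
    obtain ⟨e1, e2⟩ := hI.ex.resolve_left h2
    simp [zx, e1, e2]
  refine Cx.arr (F' := F) (l := 0) (γ := β - E.D (X.P v) (X.P w)) hI hw h2 (fun e _ => ?_)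
    (by linarith) (by omega)
  refine (?_ : Bm X H DT I nx (X0 + 34084860461056) (X1 + 34084860461056) (ce X.A v) (ce X.A w) w κ
    (X.W E.D w 0 (β - E.D (X.P v) (X.P w)) (X.W E.D v md β Q F) 2) _) _ _ _ _ h (hI.vis hy.cf hw hV) e nofun
  have e := ed_of hy h1 hw hi hX (gk2 gE) (u := 1) nofun zk_hz (if_neg one_ne_zero).symm
  repeat' refine bsel (P := Bm X H DT I nx _ _ _ _ _ κ _) ?_ ?_ _
  exacts [a0_go e hm hk, a1_go e hm hk, a2_go e hm hk, a3_go e hm hk, a4_go e hm hk, a5_go e hm hk, a6_go e hm hk,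
    a7_go e hm hk, a8_go e hm hk, a9_go e hm hk, fun s N V S h hI => by
      obtain ⟨a, h⟩ := ri h
      obtain rfl : w = 0 := Nat.eq_of_beq_eq_true a
      exact ds_go (ed_of hy h1 hw hi hX (gk2 gE) (u := 0) (fun _ => ex rfl) zk_he (if_pos rfl).symm) hm hk h hI,
    mg_go hy hi hm h1 hw hX hk ex, mq_go hy h1 hw hX hk]

theorem mz_go : Mv E i X mz := fun _ _ _ _ _ _ _ _ _ _ _ _ _ _ _ h => Bool.noConfusion h

theorem m3_go (h : ∀ nx, Mv E i X nx → Mv E i X (P nx)) : Mv E i X (P (m3 P)) := h _ (h _ (h _ (h _ mz_go)))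

theorem kz_go (hn : X.n ≤ 8) : X.Kt kz (· = ∅) := fun s N V S a b => Finset.eq_empty_of_forall_notMem fun z hz =>
  (b.cov z hz).elim (fun ⟨u, c, d, _⟩ => d (Nat.eq_of_beq_eq_true (ri a).2 ▸ (mb_pow (n := 8)).2 (by omega)))
    (Nat.eq_of_beq_eq_true (ri a).1 ▸ mb_zero)

def pk (T y : ℕ) : Prop := Nat.land (Nat.sub T y) (nat_lit 2854496066309122862835527115449378651557199872) = nat_lit 2854496066309122862835527115449344566696738816

theorem up {n : ℕ} (hy : Hy E H DT m i C X) (hp : Po E H i X.t (cp H T0 T1) c j (X.P v) β) (hk : k ≤ 131071)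
    (hn : n ≤ 1) (hK : K ≤ 7) (hT : T = (if n = 0 then T0 else T1) + j * 1099511627776 + K * 68719476736)
    (ha : a = 2801973672888163648873723073972345503744 + n * 1361129467683753853853498429727072845824) (h : pk T (yf H a k)) :
    Us X E.D v K β (if n = 0 then n0 H k else n1 H k) (4080 - 16 * c) := by
  refine us_of hy hp hk hn hK ?_
  have e : (2 * k + n) % 2 = n := by omega
  simp only [cp, nrec, Nat.land_eq, and1, e, Nat.beq_eq, ← yf_eq hn ha]
  refine Eq.trans (congrArg (fun t => Nat.land (Nat.sub t _) _) ?_) h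
  rw [hT, ee]
  split_ifs <;> simp only [Nat.add_eq] <;> ring

/-- the uses at a root -/
structure Ro (E : Env α) (H : Tr) (X : Cx α) (v c T0 T1 : ℕ) (β : ℝ) : Prop where
  z : X.Kt kz (X.W E.D v 0 β (· = ∅) 0)
  u0 : ∀ k ≤ 131071, pk T0 (yf H 2801973672888163648873723073972345503744 k) → Us X E.D v 0 β (n0 H k) (sf c)
  u1 : ∀ k ≤ 131071, pk T1 (yf H 4163103140571917502727221503699418349568 k) → Us X E.D v 0 β (n1 H k) (sf c)

def R2 (E : Env α) (H : Tr) (X : Cx α) (T0 T1 : ℕ) (β : ℝ) : Prop :=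
  ∀ k ≤ 131071, (pk T1 (yf H 2801973672888163648873723073972345503744 k) → Us X E.D 0 0 β (n0 H k) 2176) ∧
    (pk T0 (yf H 4163103140571917502727221503699418349568 k) → Us X E.D 0 0 β (n1 H k) 2176)

def Rr (E : Env α) (H : Tr) (X : Cx α) (v c T0 T1 : ℕ) (β : ℝ) (d : ℕ) (t : RT) : Prop :=
  ∀ Z : KT3 → KT3, (∀ κ F, X.Kt κ (X.W E.D v 0 β (· = ∅) F) → X.Kt (Z κ) (X.W E.D v 0 β (· = ∅) (F + d))) →
    X.Kt (t H Z c T0 T1) (X.W E.D v 0 β (· = ∅) (1 + d))

theorem t0_go (e : Ro E H X v c T0 T1 β) (hd : d ≤ 1) : Rr E H X v c T0 T1 β d t0 :=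
  fun Z g _ _ _ _ h hI => w_mono (g _ _ (g _ _ e.z) _ _ _ _ h hI) (by omega)

theorem t1_go (e : Ro E H X v c T0 T1 β) : Rr E H X v c T0 T1 β d t1 := by
  delta t1
  have hb := And.intro @Nat.eq_of_beq_eq_true @Nat.shiftRight_eq'
  generalize Nat.beq = bq, Nat.shiftRight = sr at hb ⊢
  as_aux_lemma =>
    intro Z g _ _ _ _ h hI
    obtain ⟨r, a, _, h⟩ := frk h
    exact w_mono ((e.u0 r a (hb.1 (ri h).1)).go hI fun _ _ c => g _ _ e.z _ _ _ _ (ri h).2 (isr hb.2 c)) (by omega)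

theorem t2_go (e : Ro E H X v c T0 T1 β) : Rr E H X v c T0 T1 β d t2 := by
  delta t2
  have hb := And.intro @Nat.eq_of_beq_eq_true @Nat.shiftRight_eq'
  generalize Nat.beq = bq, Nat.shiftRight = sr at hb ⊢
  as_aux_lemma =>
    intro Z g _ _ _ _ h hI
    obtain ⟨r, a, _, h⟩ := frk h
    exact w_mono ((e.u1 r a (hb.1 (ri h).1)).go hI fun _ _ c => g _ _ e.z _ _ _ _ (ri h).2 (isr hb.2 c)) (by omega)

theorem t3_go (e : Ro E H X 0 c T0 T1 β) (u : R2 E H X T0 T1 β) : Rr E H X 0 c T0 T1 β d t3 := by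
  delta t3
  have hb := And.intro @Nat.eq_of_beq_eq_true @Nat.shiftRight_eq'
  generalize Nat.beq = bq, Nat.shiftRight = sr at hb ⊢
  as_aux_lemma =>
    intro Z g _ _ _ _ h hI
    obtain ⟨r, a, _, h⟩ := frk h
    exact w_mono (((u r a).1 (hb.1 (ri h).1)).go hI fun _ _ c => g _ _ e.z _ _ _ _ (ri h).2 (isr hb.2 c)) (by omega)

theorem t4_go (e : Ro E H X 0 c T0 T1 β) (u : R2 E H X T0 T1 β) : Rr E H X 0 c T0 T1 β d t4 := by
  delta t4
  have hb := And.intro @Nat.eq_of_beq_eq_true @Nat.shiftRight_eq'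
  generalize Nat.beq = bq, Nat.shiftRight = sr at hb ⊢
  as_aux_lemma =>
    intro Z g _ _ _ _ h hI
    obtain ⟨r, a, _, h⟩ := frk h
    exact w_mono (((u r a).2 (hb.1 (ri h).1)).go hI fun _ _ c => g _ _ e.z _ _ _ _ (ri h).2 (isr hb.2 c)) (by omega)

theorem t6_go (e : Ro E H X 0 c T0 T1 β) (u : R2 E H X T0 T1 β)
    (g : ∀ κ F, X.Kt κ (X.W E.D 0 0 β (· = ∅) F) → X.Kt (Z κ) (X.W E.D 0 0 β (· = ∅) (F + 1))) :
    X.Kt (t6 Z H c T0 T1) (X.W E.D 0 0 β (· = ∅) 1) := by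
  intro s N V S h hI
  rcases bor h with ⟨-, h⟩ | ⟨-, h⟩
  · exact g _ _ e.z _ _ _ _ h hI
  refine (?_ : Rr E H X 0 c T0 T1 β 0 _) (fun k => k) (fun _ _ => id) _ _ _ _ h hI
  repeat' apply bsel (P := Rr E H X 0 c T0 T1 β 0)
  exacts [t0_go e zero_le_one, t1_go e, t2_go e, t3_go e u, t4_go e u]

theorem mb_bx (h : mb (bx y) c) : c % 16 = y % 16 ∧ bt y 4 255 ≤ c / 16 ∧ c / 16 < bt y 4 255 + bt y 12 63 := by
  have a : y &&& 4095 = _ := Nat.and_two_pow_sub_one_eq_mod y 12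
  have b : bt y 4 255 = _ := bt_eq y 4 8
  have e : ∀ n, 1 <<< n - 1 = 2 ^ n - 1 := fun n => by rw [Nat.one_shiftLeft]
  change mb (((1 <<< (bt y 12 63 * 16) - 1) &&& ON) <<< (y &&& 4095)) c at h
  rw [mb_shl, mb_and, e, mb_pow, mb_ON] at h
  omega

theorem ob_no {t : α → ℝ} (hI : IQ E m jn XT S s4 s5) (ht : E.Ch t) (h : ob XT y = true) (n : p ≠ q)
    (hp : Ac E t m c p) (hq : Ac E t m d q) (ha : mb (om y ||| om y >>> 1920) c) (hb : mb (om y ||| om y >>> 1920) d) :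
    False := by
  have k : ∀ c, mb (om y ||| om y >>> 1920) c → ∃ a < 4, ∃ e, (e = c ∨ e = 1920 + c) ∧ mb (bx (y >>> (a * 18))) e :=
    fun c h => by
      obtain ⟨e, e1, h⟩ : ∃ e, (e = c ∨ e = 1920 + c) ∧ mb (om y) e :=
        (mb_or.1 h).elim (fun h => ⟨_, .inl rfl, h⟩) fun h => ⟨_, .inr rfl, mb_shr.1 h⟩
      rcases mb_or.1 h with h | h <;> rcases mb_or.1 h with h | h
      exacts [⟨0, by norm_num, e, e1, h⟩, ⟨1, by norm_num, e, e1, h⟩, ⟨2, by norm_num, e, e1, h⟩,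
        ⟨3, by norm_num, e, e1, h⟩]
  obtain ⟨a, a1, e, a2, a3⟩ := k _ ha
  obtain ⟨b, b1, f, b2, b3⟩ := k _ hb
  clear ha hb
  wlog o : b ≤ a generalizing p q c d a b e f
  · exact this n.symm hq hp b b1 f b2 b3 a a1 e a2 a3 (by omega)
  have g := ri (al_iff.1 (al_iff.1 h a a1) b (Nat.lt_succ_of_le o))
  have u := hI.pair t ht p q n _ _ _ hp.2.1 _ hq.2.1 hp.2.2 hq.2.2
  have a4 := mb_bx a3
  have b4 := mb_bx b3
  simp only [Nat.ble_eq, Nat.add_eq, Nat.mul_eq, Nat.land_eq, Nat.shiftRight_eq', bt, and15] at g a4 b4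
  rw [XX, show c % 16 = y >>> (a * 18) % 16 by omega, show d % 16 = y >>> (b * 18) % 16 by omega, fz] at u
  omega

theorem su_go {n : ℕ → ℕ} {ih : ℕ → KT3}
    (u : ∀ k ≤ 131071, ∀ K ≤ 1, ∀ T', T' = T + K * 68719476736 → pk T' (yf H a k) → Us X D v K β (n k) (sf c))
    (hi : X.Pg D v md β Q ih) : X.Pg D v md β Q (su n H a c T ih) := by
  delta su
  have hb := And.intro @Nat.eq_of_beq_eq_true @Nat.shiftRight_eq'
  generalize Nat.beq = bq, Nat.shiftRight = sr at hb ⊢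
  as_aux_lemma =>
    intro F hF s N V S h hI
    obtain ⟨r, a, _, h⟩ := frk h
    obtain ⟨b, h⟩ := ri h
    have e : Nat.land (sr s (nat_lit 3)) (nat_lit 1) = bt s 3 1 := by rw [hb.2]; rfl
    have e' : s &&& 8 = _ := fld s 3 1
    have := bt_le s 3 1
    rw [e] at h b
    exact w_mono ((u r a (bt s 3 1) this _ (by simp only [Nat.add_eq, Nat.mul_eq, Nat.land_eq]; omega)
      (hb.1 (ri h).1)).go hI fun _ _ c => hi _ ((Nat.sub_le _ _).trans hF) _ _ _ _ (ri h).2 (isr hb.2 c))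
      (by simp only [Nat.ble_eq, Nat.add_eq, Nat.sub_eq] at b ⊢; omega)

theorem s2_go {Fe : OP} (hf : Cf E m X) (hI : IQ E m jn XT S s4 s5) (hD : ∀ a b, E.D a b ≤ γ)
    (g : ∀ κ F, X.Kt κ (X.W E.D 1 2 γ Q F) → X.Kt (Z κ) (X.W E.D 1 2 γ Q (F + 1))) (hO : X.Op E.D 1 2 γ Fe)
    {ih : ℕ → KT3} (hi : X.Pg E.D 1 2 γ Q ih) : X.Pg E.D 1 2 γ Q (s2 XT Z Fe ih) := by
  classical
  intro F hF s N V U h hU
  obtain ⟨K, _, rfl, h⟩ := frc h
  have hk := hi K (by omega)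
  rcases bor h with ⟨-, h⟩ | ⟨-, h⟩ <;> rcases bor h with ⟨-, h⟩ | ⟨-, h⟩
  · exact hO ih Q (fun _ => hi) _ hF _ _ _ _ h hU
  · rw [fb_eq] at h
    generalize Nat.land _ _ = y at h
    obtain ⟨a, h⟩ := ri h
    refine .use (fun s => ¬ X.Pe V s ∧ mb (om y ||| om y >>> 1920) (X.κ s)) (K := 1) (F' := K) (by omega)
      (fun _ _ => .card (Finset.card_le_one.2 fun p hp q hq => by_contra fun n => ?_)
        ((E.met.nn _ _).trans (hD (X.P 0) (X.P 0))) fun _ _ => hD _ _) fun _ =>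
      hk _ _ _ _ h (hU.flt _ (fun _ => And.left) fun _ _ x y u => mb_dl.2 ⟨u, fun e => y ⟨x, e⟩⟩)
    obtain ⟨p1, -, p2⟩ := Finset.mem_filter.1 hp
    obtain ⟨q1, -, q2⟩ := Finset.mem_filter.1 hq
    exact ob_no hI hf.ch a n (hf.ac p (hU.sub p1)) (hf.ac q (hU.sub q1)) p2 q2
  · obtain ⟨h2, V', h, hV⟩ := vis_spec h
    have hw := hU.lt h2 Nat.and_le_right
    exact Cx.arr (l := 0) hU hw h2 (fun _ _ => .nil (sub_nonneg.2 (hD _ _)) (hk _ _ _ _ h (hU.vis hf hw hV)))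
      (add_sub_cancel _ _).le (by omega)
  · exact g _ _ hk _ _ _ _ h hU

theorem sb_go {Fe : OP} (hf : Cf E m X) (hI : IQ E m jn XT S s4 s5) (hD : ∀ a b, E.D a b ≤ γ)
    (g : ∀ κ F, X.Kt κ (X.W E.D 1 2 γ Q F) → X.Kt (Z κ) (X.W E.D 1 2 γ Q (F + 1))) (hO : X.Op E.D 1 2 γ Fe)
    (u0 : ∀ k ≤ 131071, ∀ K ≤ 1, ∀ T', T' = T + K * 68719476736 → pk T' (yf H 2801973672888163648873723073972345503744 k) → Us X E.D 1 K γ (n0 H k) (sf c))
    (u1 : ∀ k ≤ 131071, ∀ K ≤ 1, ∀ T', T' = T + K * 68719476736 → pk T' (yf H 4163103140571917502727221503699418349568 k) → Us X E.D 1 K γ (n1 H k) (sf c))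
    (hk : X.Kt κ Q) : X.Pg E.D 1 2 γ Q (sb H XT c T Z Fe κ) := by
  delta sb
  generalize nat_lit 3 = n
  refine rec_ind (X.Pg E.D 1 2 γ Q) (fun _ _ _ _ _ _ h => Bool.noConfusion h) (fun _ ih hi F hF s N V U h hU => ?_) _
  generalize Nat.land s _ = t at h
  cases t with
  | zero => exact w_nil ((E.met.nn _ _).trans (hD (X.P 0) (X.P 0))) (hk _ _ _ _ h hU)
  | succ t =>
    rcases bor h with ⟨-, h⟩ | ⟨-, h⟩
    · exact s2_go hf hI hD g hO hi F hF _ _ _ _ h hU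
    rcases bor h with ⟨-, h⟩ | ⟨-, h⟩
    exacts [su_go u1 hi F hF _ _ _ _ h hU, su_go u0 hi F hF _ _ _ _ h hU]

theorem tj_eq {f : ℕ → ℕ} : tj f x = f (x % 16) + x % 16 * 1099511627776 := by rw [← and15]; rfl

theorem xj_eq {f : ℕ → ℕ} : xj f x = f (x % 16) + 34084860461056 := by rw [← and15]; rfl

theorem ro_of (hy : Hy E H DT m i C X) (hv : v < X.n) (hn : X.n ≤ 8) (h0 : 0 ≤ β) {f g : ℕ → ℕ}
    (hc : CU H i (cp H (f (ce X.A v % 16)) (g (ce X.A v % 16))) (ce X.A v % 16) (zx X.t (ce X.A v) (X.P v))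
      (zy E (ce X.A v) (X.P v)) β) : Ro E H X v (ce X.A v) (tj f (ce X.A v)) (tj g (ce X.A v)) β := by
  have a := hy.cf.at hv
  have hp : Po E H i X.t _ (ce X.A v / 16) (ce X.A v % 16) (X.P v) β := ⟨a.2.2, by have := a.1; omega, by omega, hc⟩
  exact ⟨kt_nil h0 (kz_go hn), fun k hk h => sf_eq a.1 ▸ up (n := 0) hy hp hk zero_le_one (Nat.zero_le _)
    (by simp [tj_eq]) rfl h, fun k hk h => sf_eq a.1 ▸ up (n := 1) hy hp hk le_rfl (Nat.zero_le _)
    (by simp [tj_eq]) rfl h⟩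

variable [Fintype α] {b : α → ℝ} {ro : ℕ}

theorem t5_go (hI : IQ E m jn XT S s4 s5) (hy : Hy E H DT m i C X) (hP : ∀ nx, Mv E i X nx → Mv E i X (P nx))
    (hs : bt C 3 1 = 1 → Sh E (rd R 35) b (X.P 0) (X.P 1)) (e : Ro E H X 0 c T0 T1 (b (X.P 0)))
    (u : R2 E H X T0 T1 (b (X.P 0))) : Rr E H X 0 c T0 T1 (b (X.P 0)) 1 (t5 R i XT S s4 s5 C X.A P) := by
  intro Z g s N V U h hU
  obtain ⟨a, h⟩ := ri h
  obtain ⟨γ, d1, d2, d3⟩ := hs (Nat.eq_of_beq_eq_true a)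
  obtain ⟨h2, V', h, hV⟩ := vis_spec h
  have hw : 1 < X.n := hU.lt h2 (by norm_num)
  have ac := hy.cf.at hw
  obtain ⟨a1, a2, a3, a4⟩ := ac.bd
  have t2 : tw2 R ≤ 65535 := Nat.and_le_right
  have t3 : tw2 R ≤ rd R 35 * 2 := Nat.and_le_left
  have := (Nat.cast_le (α := ℝ)).2 t3
  push_cast at this
  obtain ⟨u1, u2⟩ := rp_cu (H := H) (j := ce X.A 1 % 16) (β := γ) hy.hi (by omega) t2 t2 a1 a2 a3 a4
    (by unfold bil; linarith)
  have hp : Po E H i X.t _ (ce X.A 1 / 16) (ce X.A 1 % 16) (X.P 1) γ := ⟨ac.2.2, by have := ac.1; omega, by omega, u1⟩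
  rw [fb_eq] at h
  exact Cx.arr (l := 0) (F' := 1) hU hw h2 (fun e' a => sb_go (c := ce X.A 1) hy.cf hI d3
    (fun κ F => m3_go hP 1 _ _ κ γ _ F 2 hw u2) (fe_go hy.cf hI hw d3)
    (fun k hk K hK T' eT h => sf_eq ac.1 ▸ up (n := 0) hy hp hk zero_le_one (by omega)
      (by rw [eT, ← and15]; rfl) rfl h)
    (fun k hk K hK T' eT h => sf_eq ac.1 ▸ up (n := 1) hy hp hk le_rfl (by omega) (by rw [eT, ← and15]; rfl) rfl h)
    (t6_go e u g) 2 (by norm_num) _ _ _ _ h (hU.vis hy.cf hw hV) e' fun _ x => a (Finset.mem_of_mem_erase x))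
    d2 (by norm_num)

theorem rt_go (g : Tc E DT R m ro b) (hI : IQ E m jn XT S s4 s5) (hy : Hy E H DT m i C X) (hx : X.Ex)
    (hU : X.U = Finset.univ) (hs : bt C 3 1 = 1 → Sh E (rd R 35) b (X.P 0) (X.P 1))
    (hP : ∀ nx, Mv E i X nx → Mv E i X (P nx)) (hn : X.n ≤ 7) (hr : r < X.n)
    (hI' : X.Inv N V (X.U.erase (X.P r))) (h : (Nat.rec (motive := fun _ => ℕ → ℕ → Bool)
      (ru H R i (ce X.A 0) P (t5 R i XT S s4 s5 C X.A P) s) (fun _ _ => rv H R i X.A P r s) r) N V = true) :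
    E.Goal b := by
  refine ⟨X.P r, hU ▸ ?_⟩
  have ac := hy.cf.at hr
  obtain ⟨a1, a2, a3, a4⟩ := ac.bd
  have t1 : ∀ j, tq R j ≤ 65535 := fun j => (Nat.sub_le _ _).trans (bt_le _ _ _)
  have t2 : ∀ j, tq R j * 10000 + rd R 35 * rq R j ≤ G.lim * 10000 := fun j => by
    have := (Nat.mul_le_mul_left (rd R 35) (show rq R j ≤ G.c0 by
      rw [rq, mn_eq, g.gr.pr.c0]; exact min_le_right _ _)).trans g.c0
    have e : ∀ a b, Nat.div a b = a / b := fun _ _ => rfl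
    simp only [tq, g.gr.pr.lim, Nat.sub_eq, Nat.add_eq, Nat.mul_eq, e]
    omega
  have hb := fun z => (bil_root (z := z) g.gr.rr g.gr.pr ac.2.1 ac.2.2 (t2 _) (t2 _)).trans (g.bu.root _)
  have hj : ce X.A r % 16 ≤ 31 := by omega
  have b0 := (bil_nn ac.2.2 _ _ _ _).trans (hb _)
  suffices X.W E.D r 0 (b (X.P r)) (· = ∅) 2 (X.U.erase (X.P r)) by
    obtain ⟨_, -, g, rfl⟩ := this (Finset.notMem_erase _ _) nofun
    rwa [Finset.sdiff_empty] at g
  cases r with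
  | succ r =>
    obtain ⟨u1, u2⟩ := rp_cu (H := H) hy.hi hj (t1 _) (t1 _) a1 a2 a3 a4 (hb _)
    have e := ro_of (f := ra R i) (g := ra R i) hy hr (by omega) b0 u1
    refine (?_ : Rr E H X (r + 1) (ce X.A (r + 1)) (tj (ra R i) (ce X.A (r + 1))) (tj (ra R i) (ce X.A (r + 1))) _ 1 _)
      (P (m3 P) (r + 1) (ce X.A (r + 1)) (xj (rb R i) (ce X.A (r + 1))) (xj (rb R i) (ce X.A (r + 1))))
      (fun κ F => xj_eq (f := rb R i) ▸ m3_go hP _ _ _ κ _ _ F 0 hr u2) _ _ _ _ h hI'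
    repeat' refine bsel (P := Rr E H X _ _ _ _ _ 1) ?_ ?_ _
    exacts [t0_go e le_rfl, t1_go e, t2_go e]
  | zero =>
  have z0 : zx X.t (ce X.A 0) (X.P 0) = 0 := by simp [zx, hx.1, hx.2]
  have e1 : rc R (ce X.A 0 % 16) = wv (tq R (ce X.A 0 % 16)) (tq R (ce X.A 0 % 16 + 1)) 65535 65535 := by
    simp only [rc, wv, Nat.add_eq, Nat.mul_eq]
    ring
  obtain ⟨w0, w1, w2, w3⟩ := wv_bt (t1 (ce X.A 0 % 16)) (t1 (ce X.A 0 % 16 + 1)) (le_refl 65535) (le_refl 65535)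
  have e2 : sw (rc R (ce X.A 0 % 16)) = wv 65535 65535 (tq R (ce X.A 0 % 16)) (tq R (ce X.A 0 % 16 + 1)) := by
    rw [sw_eq, e1, w0, w1, w2, w3]
  have e := ro_of (f := r0 R i) (g := r1 R i) (β := b (X.P 0)) hy hr (by omega) b0 (by
    rw [r0, r1, e2, e1]
    refine cp_spec hy.hi hj (t1 _) le_rfl (t1 _) le_rfl a1 a2 a3 a4 (le_of_eq_of_le ?_ (hb 0))
    simp [z0, bil, zy])
  have hp : Po E H i X.t (cp H (r1 R i (ce X.A 0 % 16)) (r0 R i (ce X.A 0 % 16))) 119 (ce X.A 0 % 16) (X.P 0)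
      (b (X.P 0)) := ⟨⟨by simp [hx.1]; norm_num, by simp [hx.1]; norm_num, ac.2.2.lo, ac.2.2.hi⟩, by norm_num,
    by omega, by
      rw [r0, r1, e2, e1]
      refine cp_spec hy.hi hj le_rfl (t1 _) le_rfl (t1 _) (by simp [hx.1]; norm_num) (by simp [hx.1]; norm_num) a3 a4
        (le_of_eq_of_le ?_ (hb 0))
      simp only [hx.1, bil]
      push_cast
      ring⟩
  have u : R2 E H X (tj (r0 R i) (ce X.A 0)) (tj (r1 R i) (ce X.A 0)) (b (X.P 0)) := fun k hk =>
    ⟨up (n := 0) hy hp hk zero_le_one (Nat.zero_le _) (by simp [tj_eq]) rfl,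
      up (n := 1) hy hp hk le_rfl (Nat.zero_le _) (by simp [tj_eq]) rfl⟩
  have u2 : XS i (r2 R i (ce X.A 0 % 16)) (r3 R i (ce X.A 0 % 16)) (zx X.t (ce X.A 0) (X.P 0))
      (zy E (ce X.A 0) (X.P 0)) (b (X.P 0)) := xs_of (le_of_eq_of_le (by simp [hv, e1, w0, w1, z0, bil, zy]) (hb 0))
  refine (?_ : Rr E H X 0 (ce X.A 0) (tj (r0 R i) (ce X.A 0)) (tj (r1 R i) (ce X.A 0)) _ 1 _)
    (P (m3 P) 0 (ce X.A 0) (xj (r2 R i) (ce X.A 0)) (xj (r3 R i) (ce X.A 0)))
    (fun κ F => by rw [xj_eq, xj_eq]; exact m3_go hP _ _ _ κ _ _ F 0 hr u2) _ _ _ _ h hI'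
  repeat' refine bsel (P := Rr E H X _ _ _ _ _ 1) ?_ ?_ _
  exacts [t0_go e le_rfl, t1_go e, t2_go e, t3_go e u, t4_go e u, t5_go hI hy hP hs e u]

theorem lf_go (g : Tc E DT R m ro b) (hI : IQ E m jn XT S s4 s5) (hy : Hy E H DT m i C X) (hx : X.Ex)
    (hU : X.U = Finset.univ) (hs : bt C 3 1 = 1 → Sh E (rd R 35) b (X.P 0) (X.P 1))
    (hi : I = i * 10889035741470030830827987437816582766592 + 1419612298781011615649678952475016771720260989886843619185417813866810540483857042694292115229014230638747742532099027116372690731008) (hN : X.Mk N) (hn : X.n ≤ 7)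
    (h : lf H R i (mv H DT I C) (t5 R i XT S s4 s5 C) (lfT H DT R i XT S s4 s5 C) (ce X.A 0) X.n X.A s N = true) :
    E.Goal b := by
  have k := fun {s N V r} => rt_go (s := s) (N := N) (V := V) (r := r) g hI hy hx hU hs (fun _ => mv_go hy hi) hn
  have e : ∀ u, mb (Nat.sub 256 (Nat.shiftLeft 1 X.n)) u ↔ X.n ≤ u ∧ u < 8 := fun u => mb_iv (hi := 8)
  have v : ∀ r < X.n, X.Inv N (Nat.add (Nat.sub 256 (Nat.shiftLeft 1 X.n)) (Nat.shiftLeft 1 r)) (X.U.erase (X.P r)) :=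
    fun r hr => inv0 hy.cf hN hn hr (fun u hu => by
      rw [(vis2 (b := true) (by rw [show bt _ r (nat_lit 1) = 0 from mb_bt0.2 (mt (e r).1 (by omega))]; rfl)).2.2, e,
        and_iff_left hu]) (.inr hx)
  delta lf at h
  generalize Nat.land s (nat_lit 63) = t at h
  cases t with
  | zero =>
    refine k hy.cf.n1 (cast (congrArg (X.Inv N · _) ?_) (v 0 hy.cf.n1)) h
    have : 1 <<< X.n ≤ 1 <<< 7 := by simpa only [Nat.one_shiftLeft] using Nat.pow_le_pow_right two_pos hn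
    simp only [Nat.add_eq, Nat.sub_eq, Nat.shiftLeft_eq'] at this ⊢
    omega
  | succ t =>
    rcases bor h with ⟨-, h⟩ | ⟨a, h⟩
    swap
    · have a : t + 1 < X.n := Nat.le_of_ble_eq_true a
      refine k a (cast (congrArg (X.Inv N · _) ?_) (v _ a)) h
      simp only [Nat.shiftLeft_eq', Nat.shiftLeft_eq, pow_succ, Nat.add_eq]
      omega
    rcases bor h with ⟨-, h⟩ | ⟨-, h⟩
    swap
    · exact lfT_go g hI hy hx hU hs hN h
    obtain ⟨a, V, h, hV⟩ := vis_spec h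
    have r7 : Nat.land s (nat_lit 7) ≤ 7 := Nat.and_le_right
    have hr := not_le.1 fun c => a ((e _).2 ⟨c, by omega⟩)
    obtain ⟨N', V', h, hI'⟩ := tu_spec hy.cf (inv0 hy.cf hN hn hr (fun u hu => by rw [hV, e, and_iff_left hu])
      (.inr hx)) Nat.and_le_right h
    exact k hr hI' h

end

end Pool.Agent.MP_1037db_co.F

end

section
set_option linter.unusedSectionVars false
set_option linter.unusedVariables false

/-! Soundness of the faster checker: case distinctions and rounds. -/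

namespace Pool.Agent.MP_1037db_co.F

open LP Q

noncomputable section

variable [G : Geo] {α : Type} [DecidableEq α] {E : Env α} {X : Cx α} {H DT MT : Tr}
  {m jn i C N M I XT S XA SA s4 s5 tg D R a c k n s x ro C0 : ℕ} {β : α → ℝ} {q : α}

theorem mb_xor {z : ℕ} (h : mb M z) (n : z ≠ c) : mb (Nat.xor M (Nat.shiftLeft (nat_lit 1) c)) z := by
  have : ¬ mb (1 <<< c) z := mt mb_one.1 n
  simp only [mb, Nat.xor_eq, Nat.shiftLeft_eq', Nat.testBit_xor, Bool.not_eq_true] at *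
  rw [h, this]
  rfl

theorem zs_eq : zs XT c = zp XT (c % 16) >>> sf c := by rw [← and15]; rfl

theorem zs_mk (hI : IQ E m jn XT S s4 s5) (hf : Cf E m X) (hq : X.Fr q) (hM : X.Mk M) (b : Bool) :
    (X.ext q).Mk (Bool.rec (Nat.xor M (Nat.land M (zs XT (X.κ q)))) M b) := by
  refine bsel (P := (X.ext q).Mk) (fun r a => hM r a.ext.1) (fun r a => ?_) _
  have aq := hf.ac q hq.1
  refine mb_dl.2 ⟨hM r a.ext.1, fun e => ?_⟩
  rw [zs_eq, mb_shr, sf_eq aq.1] at e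
  exact zp_no hI hf.ch a.ext.2.symm (by have := aq.1; omega) aq.2.1 aq.2.2 (hf.ac r a.ext.1.1) e

theorem l2_go {g t : ℕ → ℕ → ℕ → ℕ → Bool} {l : ℕ → ℕ → Bool} {Z : Prop} (hI : IQ E m jn XT S s4 s5) (hf : Cf E m X)
    (h1 : ∀ s M, g X.n X.A s M = true → X.Mk M → Z)
    (h3 : ∀ q s M, X.Fr q → t (X.n + 1) (X.ext q).A s M = true → (X.ext q).Mk M → Z)
    (ih : ∀ s M, l s M = true → X.Mk M → Z) (hM : X.Mk M)
    (h : l2 MT XT S s4 s5 g t X.n (X.n + 1) X.A l s M = true) : Z := by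
  rw [l2] at h
  generalize Nat.land s (nat_lit 3) = o at h
  cases o with
  | zero => exact h1 _ _ h hM
  | succ o =>
    rcases bor h with ⟨-, h⟩ | ⟨-, h⟩
    · obtain ⟨c, _, -, h⟩ := frc h
      refine by_contra fun z => z (ih _ _ (ri h).2 fun q hq => mb_xor (hM q hq) fun e => z ?_)
      obtain ⟨s', N', u, v⟩ := ent_spec hf hI hq hM (e ▸ (ri h).1)
      exact h3 q _ _ hq u v
    · exact ih _ _ h hM

theorem ls_go {g t : ℕ → ℕ → ℕ → ℕ → Bool} {Z : Prop} (hI : IQ E m jn XT S s4 s5) (hf : Cf E m X)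
    (h1 : ∀ s M, g X.n X.A s M = true → X.Mk M → Z)
    (h2 : ∀ q s M, X.Fr q → g (X.n + 1) (X.ext q).A s M = true → (X.ext q).Mk M → Z)
    (h3 : ∀ q s M, X.Fr q → t (X.n + 1) (X.ext q).A s M = true → (X.ext q).Mk M → Z) :
    ∀ s M, ls MT XT S s4 s5 g t X.n (X.n + 1) (X.n * 12) X.A s M = true → X.Mk M → Z := by
  delta ls
  generalize nat_lit 9999 = n
  refine rec_ind (fun l : ℕ → ℕ → Bool => ∀ s M, l s M = true → X.Mk M → Z) (fun _ _ h => Bool.noConfusion h)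
    (fun _ l ih s M h hM => ?_) _
  rcases bor h with ⟨-, h⟩ | ⟨-, h⟩
  · exact l2_go hI hf h1 h3 ih hM h
  obtain ⟨c, _, -, h⟩ := frc h
  refine by_contra fun z => z (ih _ _ (ri h).2 fun q hq => mb_xor (hM q hq) fun e => z ?_)
  subst e
  exact h2 q _ _ hq (ri h).1 (zs_mk hI hf hq hM _)

theorem tf_spec {g : ℕ → ℕ → ℕ → ℕ → Bool} (hI : IQ E m jn XT S s4 s5) (Γ : Cx α → Prop) {Z : Prop}
    (h1 : ∀ X, Γ X → Cf E m X) (h2 : ∀ X q, Γ X → X.n < 7 → X.Fr q → Γ (X.ext q))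
    (h4 : ∀ X s N, g X.n X.A s N = true → X.n ≤ 7 → Γ X → X.Mk N → Z) :
    ∀ X s N, tf MT XT S s4 s5 g X.n X.A s N = true → Γ X → X.Mk N → Z := by
  delta tf
  generalize nat_lit 9 = k
  refine rec_ind (fun t : ℕ → ℕ → ℕ → ℕ → Bool => ∀ (X : Cx α) s N, t X.n X.A s N = true → Γ X → X.Mk N → Z)
    (fun _ _ _ h => Bool.noConfusion h) (fun _ t ih X s N h hX hN => ?_) _
  generalize Nat.land s (nat_lit 3) = o at h
  cases o with
  | zero => exact h4 X _ _ (ri h).2 (Nat.le_of_ble_eq_true (ri h).1) hX hN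
  | succ o =>
    obtain ⟨a, h⟩ := ri h
    have a : X.n ≤ 6 := Nat.le_of_ble_eq_true a
    simp only [fb_eq] at h
    exact ls_go hI (h1 X hX) (fun _ _ b => h4 X _ _ b (by omega) hX)
      (fun q _ _ c b => h4 (X.ext q) _ _ b (Nat.succ_le_succ a) (h2 X q hX (by omega) c))
      (fun q _ _ c b => ih (X.ext q) _ _ b (h2 X q hX (by omega) c)) _ _ h hN

variable [Fintype α]

theorem tt_go (g : Tc E DT R m ro β) (hS : E.NS H i) (hi : i ≤ 262144) (ng : ¬ E.Goal β)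
    (hI : IQ E m jn XT S s4 s5) (eI : I = i * 10889035741470030830827987437816582766592 + 1419612298781011615649678952475016771720260989886843619185417813866810540483857042694292115229014230638747742532099027116372690731008) :
    TT E m (Sh E (rd R 35) β) (tt H DT MT R i I XT S s4 s5) := by
  intro C X s N h b h1 h2 h3 h4
  have k : ∀ v, 0 < rk C v → v < X.n := fun v e => not_le.1 fun c => e.ne' ((bt_eq _ (v * 3 + 4) 3).trans (by
    rw [Nat.div_eq_of_lt (h2.trans_le (Nat.pow_le_pow_right two_pos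
      (Nat.add_le_add_right (Nat.mul_le_mul_right 3 c) 4))), Nat.zero_mod]))
  refine tf_spec (MT := MT) (g := lf H R i (mv H DT I C) (t5 R i XT S s4 s5 C) (lfT H DT R i XT S s4 s5 C) (ce X.A 0)) hI
    (fun Y => Hy E H DT m i C Y ∧ Y.Ex ∧ Y.U = Finset.univ ∧
      (bt C 3 1 = 1 → Sh E (rd R 35) β (Y.P 0) (Y.P 1) ∧ 1 < Y.n) ∧ ce X.A 0 = ce Y.A 0) (fun _ a => a.1.cf)
    (fun X q ⟨a1, a2, a3, a4, a5⟩ b c => ⟨a1.ext b c, ex_ext a1.cf a2 b c, a3, fun e => ⟨by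
      rw [Cx.ext_lt a1.cf.n1, Cx.ext_lt (a4 e).2]; exact (a4 e).1, (a4 e).2.trans X.n.lt_succ_self⟩, by
        rw [a1.cf.ce_ext b c, if_neg a1.cf.n1.ne, a5]⟩)
    (fun X s N a b ⟨a1, a2, a3, a4, a5⟩ c => ng (lf_go g hI a1 a2 a3 (fun e => (a4 e).1) eI c b (a5 ▸ a))) X s N h
    ⟨⟨hS, g.gr.tb, hi, b.cf, fun s _ => h1 s, fun v w e => ?_⟩, b.ex, b.un, h4, rfl⟩ b.ma
  simp only [od, an_iff, lt_iff] at e
  exact ⟨k v e.1, k w (e.1.trans e.2), h3 v (k v e.1) w (k w (e.1.trans e.2)) e.2⟩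

theorem rn0_go {X' S' jn' s4' s5' tg' D' : ℕ} (g : Tc E DT R m ro β) (hS : E.NS H i) (hi : i ≤ 262144)
    (ng : ¬ E.Goal β) (eI : I = i * 10889035741470030830827987437816582766592 + 1419612298781011615649678952475016771720260989886843619185417813866810540483857042694292115229014230638747742532099027116372690731008) : ∀ XT S XA SA jn s4 s5 tg D s,
    rn0 H DT MT R m i I X' S' jn' s4' s5' tg' D' XT S XA SA jn s4 s5 tg D s = true → IQ E m jn XT S s4 s5 →
    Sq E (Sh E (rd R 35) β) m XA SA jn s4 s5 tg D → Sq E (Sh E (rd R 35) β) m X' S' jn' s4' s5' tg' D' := by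
  delta rn0
  generalize nat_lit 9999 = n
  refine rec_ind (fun f : ST => ∀ XT S XA SA jn s4 s5 tg D s, f XT S XA SA jn s4 s5 tg D s = true →
    IQ E m jn XT S s4 s5 → Sq E (Sh E (rd R 35) β) m XA SA jn s4 s5 tg D →
    Sq E (Sh E (rd R 35) β) m X' S' jn' s4' s5' tg' D') ?_
    (fun _ f ih XT S XA SA jn s4 s5 tg D s h hI ⟨hj, hA, hD⟩ => ?_) _
  · exact fun _ _ _ _ _ _ _ _ _ _ h => Bool.noConfusion h
  have hT := tt_go (MT := MT) g hS hi ng hI eI
  have hm := g.hm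
  obtain ⟨t, ht⟩ := g.gr.ch
  obtain ⟨p, q, n, z⟩ := g.bu.pair
  have ha := bt_le s 4 15
  have hb := bt_le s 8 15
  have w : ∀ {x y tg}, E.Win 4 x → E.Win 5 y → IQ E m jn XT S x y ∧ Sq E (Sh E (rd R 35) β) m XA SA jn x y tg 0 :=
    fun a b => ⟨⟨hI.rows, hI.pair, hI.tri, a, b⟩, hj, ⟨hI.rows, hA.pair, hA.tri, a, b⟩, .zero⟩
  simp only [rn1, rn2, nrec, fb_eq, cnb, Nat.add_eq, Nat.mul_eq, Nat.shiftLeft_eq', Nat.lor_eq] at h
  by_cases c0 : s.land 15 = 0
  · simp only [if_pos c0, an_iff, Nat.beq_eq] at h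
    obtain ⟨⟨rfl, rfl⟩, ⟨rfl, rfl⟩, rfl, rfl, rfl⟩ := h
    exact ⟨hj, hA, hD⟩
  rw [if_neg c0] at h
  generalize s.land 15 - 1 = o at h
  by_cases c1 : o = 0
  · rw [if_pos c1, an_iff] at h
    obtain ⟨a1, a2, a3, a4, a5, a6⟩ := xup_go hT hI hj hm h.1
    exact ih _ _ _ _ _ _ _ _ _ _ h.2 hI ⟨hj, hA.xupx a6 a1 a2 le_rfl fun u hu v hv => by
      rw [Nat.sub_add_cancel a3]
      exact xi_spec (by omega) (by omega) rfl a5 a4 (by omega) (by omega), hD⟩
  rw [if_neg c1] at h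
  generalize o - 1 = o at h
  by_cases c2 : o = 0
  · rw [if_pos c2, an_iff] at h
    exact ih _ _ _ _ _ _ _ _ _ _ h.2 hI ⟨hj, sup_go hT hI hA hj hm h.1, hD⟩
  rw [if_neg c2] at h
  generalize o - 1 = o at h
  by_cases c3 : o = 0
  · rw [if_pos c3, an_iff] at h
    refine ih _ _ _ _ _ _ _ _ _ _ h.2 hI ⟨hj, hA, fun a a1 b b1 x hx e => (mb_or.1 e).elim (hD a a1 b b1 x hx)
      fun e => ?_⟩
    rw [mb_shl, mb_iv] at e
    have := bt_le s 18 63
    obtain ⟨rfl, rfl⟩ : a = bt s 4 15 ∧ b = bt s 8 15 := by omega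
    exact prt_go hT hI hj hm h.1 (by omega) (by omega) hx
  rw [if_neg c3] at h
  generalize o - 1 = o at h
  by_cases c4 : o = 0
  · rw [if_pos c4, an_iff, an_iff] at h
    obtain ⟨a, b⟩ := hI.nearx ht fun t ht p a b c => by
      obtain ⟨u, κ, d, -⟩ := base hI hj hm ht b c hj (fun _ => False) (fun _ => 0) nofun
      exact hT 2 (Q.bx u κ jn p) _ _ h.1.2 d (fun s => ⟨nofun, nofun, fun _ => a s, nofun⟩)
        (by decide : 2 < 2 ^ (1 * 3 + 4)) (fun v hv w hw e => absurd e (by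
          rw [Nat.lt_one_iff.1 hv, Nat.lt_one_iff.1 hw]; exact lt_irrefl _)) nofun
    have e : jn + 1 ≠ m := fun e => (b e).false p
    rw [if_neg e] at h
    exact ih _ _ _ _ _ _ _ _ _ _ h.2 a ⟨by omega, ⟨a.rows, hA.pair, hA.tri, hA.w4, hA.w5⟩, hD⟩
  rw [if_neg c4] at h
  generalize o - 1 = o at h
  split_ifs at h with c5 c6 c7 c8 c9 <;> try simp only [an_iff, lt_iff] at h
  · exact ih _ _ _ _ _ _ _ _ _ _ h hA ⟨hj, hA, hD⟩
  · exact ih _ _ _ _ _ _ _ _ _ _ h hI ⟨hj, hA, .zero⟩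
  · exact (hI.finx hj ht n z fun a b a1 a2 b1 b2 x hx => (hD a (by omega) b (by omega) x hx.le
      ((don_spec h.1 a1 a2 b1 b2).resolve_right (fun e => Bool.noConfusion e.1) x hx)).1 c8).elim
  · have := w (don_win hI hj hm hI.w4 (fun a a1 b b1 x hx e => (hD a a1 b b1 x hx e).2.1 (by omega)) h.1) hI.w5
      (tg := 1)
    exact ih _ _ _ _ _ _ _ _ _ _ h.2 this.1 this.2
  · have := w hI.w4 (don_win hI hj hm hI.w5 (fun a a1 b b1 x hx e => (hD a a1 b b1 x hx e).2.2 (by omega)) h.1)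
      (tg := 2)
    exact ih _ _ _ _ _ _ _ _ _ _ h.2 this.1 this.2
  · have := w ((hA.win3 hj fun _ _ _ => s3a_le).succ h.1) hI.w5 (tg := 0)
    exact ih _ _ _ _ _ _ _ _ _ _ h.2 this.1 this.2
  · have := w hI.w4 (hI.w4.succ h.1) (tg := 0)
    exact ih _ _ _ _ _ _ _ _ _ _ h.2 this.1 this.2
  · exact ih _ _ _ _ _ _ _ _ _ _ h hI ⟨hj, hA, hD⟩

theorem _root_.Pool.Agent.MP_1037db_co.Q.St.rnz {X' S' jn' s4' s5' tg' D' z : ℕ}
    (s : St E β C0 H i m XT S jn s4 s5 tg D) (g : Tc E DT R m ro β)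
    (h : rnd H DT MT R m i X' S' jn' s4' s5' tg' D' XT S XT S jn s4 s5 tg D z = true)
    (hi : i ≤ 262144 ∧ rd R 35 = C0) : St E β C0 H i m X' S' jn' s4' s5' tg' D' := by
  obtain ⟨hi, rfl⟩ := hi
  rw [rnd, fb_eq] at h
  exact or_iff_not_imp_left.2 fun ng => have s := s.resolve_left ng
    ⟨s.1, rn0_go g s.1 hi ng (by rw [Nat.add_eq, Nat.mul_eq]) _ _ _ _ _ _ _ _ _ _ h s.2.2.1 s.2⟩

end

end Pool.Agent.MP_1037db_co.F

end

section
set_option linter.unusedSectionVars false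
set_option linter.unusedVariables false

/-! Soundness of the faster checker: nodes that are proved by a case distinction. -/

namespace Pool.Agent.MP_1037db_co.F

open LP Q

noncomputable section

variable [G : Geo] {α : Type} [DecidableEq α] {E : Env α} {X : Cx α} {H DT MT : Tr}
  {m jn i C N M I XT S s4 s5 R K X0 X1 h s x : ℕ} {β : ℝ} {q : α}

theorem v257 {n : ℕ} (h1 : 0 < n) (h2 : n ≤ 7) : ∀ u < 8, mb (Nat.sub 257 (Nat.shiftLeft 1 n)) u ↔ n ≤ u ∨ u = 0 := by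
  intro u hu
  unfold mb
  interval_cases n <;> interval_cases u <;> decide

theorem fin_w {F : ℕ} (h : X.W E.D 0 0 β (· = ∅) F (X.U.erase (X.P 0))) : WK E.D F (X.P 0) (X.U.erase (X.P 0)) β := by
  obtain ⟨_, -, g, rfl⟩ := h (Finset.notMem_erase _ _) nofun
  rwa [Finset.sdiff_empty] at g

theorem lw_go {f g : ℕ → ℕ} {o : ℕ → ℕ → ℕ → ℕ → Bool} (hy : Hy E H DT m i C X)
    (hi : I = i * 10889035741470030830827987437816582766592 + 1419612298781011615649678952475016771720260989886843619185417813866810540483857042694292115229014230638747742532099027116372690731008) (hn : X.n ≤ 7) (hN : X.Mk N)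
    (hc : CU H i (cp H (f (ce X.A 0 % 16)) (g (ce X.A 0 % 16))) (ce X.A 0 % 16) (zx X.t (ce X.A 0) (X.P 0))
      (zy E (ce X.A 0) (X.P 0)) β) (hX : XS i X0 X1 (zx X.t (ce X.A 0) (X.P 0)) (zy E (ce X.A 0) (X.P 0)) β)
    (ho : ∀ s, o X.n X.A s N = true → WK E.D (K + 1) (X.P 0) (X.U.erase (X.P 0)) β)
    (h : lw H (ce X.A 0) (tj f (ce X.A 0)) (tj g (ce X.A 0)) (X0 + 34084860461056) (X1 + 34084860461056) K (mv H DT I C) o
      X.n X.A s N = true) : WK E.D (K + 1) (X.P 0) (X.U.erase (X.P 0)) β := by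
  rcases bor h with ⟨-, h⟩ | ⟨-, h⟩
  swap
  · exact ho _ h
  have n1 := hy.cf.n1
  have hI := inv0 (r := 0) hy.cf hN hn n1 (v257 n1 hn) (.inl rfl)
  have e := ro_of hy n1 (by omega) (hX.nn (hy.cf.at n1)) hc
  have k := fun κ F => m3_go (fun _ => mv_go hy hi) 0 _ _ κ β (· = ∅) F 0 n1 hX
  have t := fun d => bsel (P := Rr E H X 0 _ _ _ β d) (t1_go e) (t2_go e) (Nat.ble (Nat.land s (nat_lit 448)) (nat_lit 64))
  cases K with
  | zero =>
    refine fin_w (bsel (P := fun b : ℕ → ℕ → Bool => b N _ = true → X.W E.D 0 0 β (· = ∅) 1 _) (fun h => ?_)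
      (fun h => ?_) _ h)
    exacts [k _ _ e.z _ _ _ _ h hI, t 0 (fun k => k) (fun _ _ => id) _ _ _ _ h hI]
  | succ K => exact (fin_w (t 1 _ k _ _ _ _ h hI)).mono (by omega) le_rfl

theorem zq_eq : zq XT x = zp XT (x % 16) := by rw [← and15]; rfl

theorem rec1 (f : ℕ → ℕ) (t : ℕ) : (Nat.rec (nat_lit 0) (fun k _ => f k) (Nat.add t (nat_lit 1)) : ℕ) = f t := rfl

theorem zw_eq : zw XT S x K = zq XT K ||| w3 S (k3 x K) := congrArg (Nat.lor (zq XT K)) (rec1 (w3 S) _)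

theorem zw_mk (hI : IQ E m jn XT S s4 s5) (hf : Cf E m X) (hq : X.Fr q) (hM : X.Mk M) :
    (X.ext q).Mk (dl M (zw XT S (ce X.A 0) (X.κ q) >>> sf (X.κ q))) := fun r a => by
  have aq := hf.ac q hq.1
  have ar := hf.ac r a.ext.1.1
  refine mb_dl.2 ⟨hM r a.ext.1, fun e => ?_⟩
  rw [zw_eq, zq_eq, mb_shr, sf_eq aq.1] at e
  exact (mb_or.1 e).elim (zp_no hI hf.ch a.ext.2.symm (by have := aq.1; omega) aq.2.1 aq.2.2 ar)
    (w3_no hI hf.ch (hq.2 _ hf.n1).symm (a.ext.1.2 _ hf.n1).symm a.ext.2.symm (hf.at hf.n1) aq ar)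

/-- what the tests of a single robot mean -/
structure Gd (H DT : Tr) (XT S X0 X1 x M c : ℕ) (Z : Prop) (U : ℕ → ℕ → Prop) : Prop where
  u0 : ∀ k ≤ 131071, ∀ K ≤ 1, ∀ T, T = X0 + K * 68719476736 → ck T (zf H 81128709954854851177730365259775 2801973672888163648873723073972345503744 k) (e0 DT x c) 1419612298781011615649678952475016771720260989886843619185417813866810540483857042694292115230126086047217080772174804169130042720256 → U K (n0 H k)
  u1 : ∀ k ≤ 131071, ∀ K ≤ 1, ∀ T, T = X1 + K * 68719476736 → ck T (zf H 81128709954854851177730365259775 4163103140571917502727221503699418349568 k) (e1 DT x c) 1419612298781011615649678952475016771720260989886843619185417813866810540483857042694292115230126086047217080772174804169130042720256 → U K (n1 H k)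
  d : ∀ B B' Y, U 0 B → U 0 B' → Y = B ||| B' ∨ Y = (B ||| B') ||| zq XT c ∨ Y = (B ||| B') ||| zw XT S x c →
    M &&& (Y >>> sf c) = M → Z
  s : ∀ B Y, U 1 B → Y = B ∨ Y = B ||| zq XT c ∨ Y = B ||| zw XT S x c → M &&& (Y >>> sf c) = M → Z

def Cd (b : GD) : Prop := ∀ ⦃H DT XT S X0 X1 x M c Z U r q⦄, Gd H DT XT S X0 X1 x M c Z U → r ≤ 131071 → q ≤ 131071 →
  b H DT XT S X0 X1 x M c r q = true → Z

def Cs (b : GS) : Prop := ∀ ⦃H DT XT S X0 X1 x M c Z U r⦄, Gd H DT XT S X0 X1 x M c Z U → r ≤ 131071 →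
  b H DT XT S X0 X1 x M c r = true → Z

theorem c0_go : Cd c0 := by
  delta c0
  have hb := @Nat.eq_of_beq_eq_true
  generalize Nat.beq = bq at hb ⊢
  as_aux_lemma =>
    exact fun _ _ _ _ _ _ _ _ _ _ _ r q e a b h => e.d _ _ _ (e.u0 r a 0 zero_le_one _ k0' (hb (ri h).1))
      (e.u1 q b 0 zero_le_one _ k0' (hb (ri (ri h).2).1)) (.inl rfl) (hb (ri (ri h).2).2)

theorem c1_go : Cd c1 := by
  delta c1
  have hb := @Nat.eq_of_beq_eq_true
  generalize Nat.beq = bq at hb ⊢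
  as_aux_lemma =>
    exact fun _ _ _ _ _ _ _ _ _ _ _ r q e a b h => e.d _ _ _ (e.u0 r a 0 zero_le_one _ k0' (hb (ri h).1))
      (e.u0 q b 0 zero_le_one _ k0' (hb (ri (ri h).2).1)) (.inl rfl) (hb (ri (ri h).2).2)

theorem c2_go : Cd c2 := by
  delta c2
  have hb := @Nat.eq_of_beq_eq_true
  generalize Nat.beq = bq at hb ⊢
  as_aux_lemma =>
    exact fun _ _ _ _ _ _ _ _ _ _ _ r q e a b h => e.d _ _ _ (e.u1 r a 0 zero_le_one _ k0' (hb (ri h).1))
      (e.u1 q b 0 zero_le_one _ k0' (hb (ri (ri h).2).1)) (.inl rfl) (hb (ri (ri h).2).2)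

theorem c3_go : Cd c3 := by
  delta c3
  have hb := @Nat.eq_of_beq_eq_true
  generalize Nat.beq = bq at hb ⊢
  as_aux_lemma =>
    exact fun _ _ _ _ _ _ _ _ _ _ _ r q e a b h => e.d _ _ _ (e.u0 r a 0 zero_le_one _ k0' (hb (ri h).1))
      (e.u1 q b 0 zero_le_one _ k0' (hb (ri (ri h).2).1)) (.inr (.inl rfl)) (hb (ri (ri h).2).2)

theorem c4_go : Cd c4 := by
  delta c4
  have hb := @Nat.eq_of_beq_eq_true
  generalize Nat.beq = bq at hb ⊢
  as_aux_lemma =>
    exact fun _ _ _ _ _ _ _ _ _ _ _ r q e a b h => e.d _ _ _ (e.u0 r a 0 zero_le_one _ k0' (hb (ri h).1))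
      (e.u0 q b 0 zero_le_one _ k0' (hb (ri (ri h).2).1)) (.inr (.inl rfl)) (hb (ri (ri h).2).2)

theorem c5_go : Cd c5 := by
  delta c5
  have hb := @Nat.eq_of_beq_eq_true
  generalize Nat.beq = bq at hb ⊢
  as_aux_lemma =>
    exact fun _ _ _ _ _ _ _ _ _ _ _ r q e a b h => e.d _ _ _ (e.u1 r a 0 zero_le_one _ k0' (hb (ri h).1))
      (e.u1 q b 0 zero_le_one _ k0' (hb (ri (ri h).2).1)) (.inr (.inl rfl)) (hb (ri (ri h).2).2)

theorem c6_go : Cs c6 := by
  delta c6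
  have hb := @Nat.eq_of_beq_eq_true
  generalize Nat.beq = bq at hb ⊢
  as_aux_lemma =>
    exact fun _ _ _ _ _ _ _ _ _ _ _ r e a h => e.s _ _ (e.u0 r a 1 le_rfl _ k1 (hb (ri h).1)) (.inl rfl) (hb (ri h).2)

theorem c7_go : Cs c7 := by
  delta c7
  have hb := @Nat.eq_of_beq_eq_true
  generalize Nat.beq = bq at hb ⊢
  as_aux_lemma =>
    exact fun _ _ _ _ _ _ _ _ _ _ _ r e a h => e.s _ _ (e.u1 r a 1 le_rfl _ k1 (hb (ri h).1)) (.inl rfl) (hb (ri h).2)

theorem c8_go : Cs c8 := by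
  delta c8
  have hb := @Nat.eq_of_beq_eq_true
  generalize Nat.beq = bq at hb ⊢
  as_aux_lemma =>
    exact fun _ _ _ _ _ _ _ _ _ _ _ r e a h => e.s _ _ (e.u0 r a 1 le_rfl _ k1 (hb (ri h).1)) (.inr (.inl rfl)) (hb (ri h).2)

theorem c9_go : Cs c9 := by
  delta c9
  have hb := @Nat.eq_of_beq_eq_true
  generalize Nat.beq = bq at hb ⊢
  as_aux_lemma =>
    exact fun _ _ _ _ _ _ _ _ _ _ _ r e a h => e.s _ _ (e.u1 r a 1 le_rfl _ k1 (hb (ri h).1)) (.inr (.inl rfl)) (hb (ri h).2)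

theorem v0_go : Cd v0 := by
  delta v0
  have hb := @Nat.eq_of_beq_eq_true
  generalize Nat.beq = bq at hb ⊢
  as_aux_lemma =>
    exact fun _ _ _ _ _ _ _ _ _ _ _ r q e a b h => e.d _ _ _ (e.u0 r a 0 zero_le_one _ k0' (hb (ri h).1))
      (e.u1 q b 0 zero_le_one _ k0' (hb (ri (ri h).2).1)) (.inr (.inr rfl)) (hb (ri (ri h).2).2)

theorem v1_go : Cd v1 := by
  delta v1
  have hb := @Nat.eq_of_beq_eq_true
  generalize Nat.beq = bq at hb ⊢
  as_aux_lemma =>
    exact fun _ _ _ _ _ _ _ _ _ _ _ r q e a b h => e.d _ _ _ (e.u0 r a 0 zero_le_one _ k0' (hb (ri h).1))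
      (e.u0 q b 0 zero_le_one _ k0' (hb (ri (ri h).2).1)) (.inr (.inr rfl)) (hb (ri (ri h).2).2)

theorem v2_go : Cs v2 := by
  delta v2
  have hb := @Nat.eq_of_beq_eq_true
  generalize Nat.beq = bq at hb ⊢
  as_aux_lemma =>
    exact fun _ _ _ _ _ _ _ _ _ _ _ r e a h => e.s _ _ (e.u0 r a 1 le_rfl _ k1 (hb (ri h).1)) (.inr (.inr rfl)) (hb (ri h).2)

theorem v3_go : Cs v3 := by
  delta v3
  have hb := @Nat.eq_of_beq_eq_true
  generalize Nat.beq = bq at hb ⊢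
  as_aux_lemma =>
    exact fun _ _ _ _ _ _ _ _ _ _ _ r e a h => e.s _ _ (e.u1 r a 1 le_rfl _ k1 (hb (ri h).1)) (.inr (.inr rfl)) (hb (ri h).2)

theorem g_ent (hI : IQ E m jn XT S s4 s5) (hy : Hy E H DT m i C X) (hn : X.n = 1) (hi : I = i * 10889035741470030830827987437816582766592 + 1419612298781011615649678952475016771720260989886843619185417813866810540483857042694292115229014230638747742532099027116372690731008)
    (hX : XS i X0 X1 (zx X.t (ce X.A 0) (X.P 0)) (zy E (ce X.A 0) (X.P 0)) β) (hq : X.Fr q) (hM : X.Mk M) :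
    (∃ U, Gd H DT XT S (X0 + 34084860461056) (X1 + 34084860461056) (ce X.A 0) M (X.κ q) (WK E.D 1 (X.P 0) (X.U.erase (X.P 0)) β) U) ∧
    ∀ (a b c : Bool) s N, (X.ext q).Mk N → (Bool.rec (motive := fun _ => Tr → Tr → ℕ → MV → ℕ → ℕ → ℕ → ℕ → ℕ → KT3 → KT3) mq
      (Bool.rec (mg C 0) (Bool.rec (a7 81128709954854851177730365259775 81128709954854851177730365259775 0 1419612298781011615649678952475016771720260989886843619185417813866810540483857042694292115230126086047217080772174804169130042720256 1419612298781011615649678952475016771720260989886843619185417813866810540483857042694292115230126086047217080772174804169130042720256) (a4 81128709954854851177730365259775 81128709954854851177730365259775 0 1419612298781011615649678952475016771720260989886843619185417813866810540483857042694292115230126086047217080772174804169130042720256 1419612298781011615649678952475016771720260989886843619185417813866810540483857042694292115230126086047217080772174804169130042720256)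 c) a) b) H DT I mz (X0 + 34084860461056) (X1 + 34084860461056) (ce X.A 0) (X.κ q) 1
      kz s N 255 = true → WK E.D 1 (X.P 0) (X.U.erase (X.P 0)) β := by
  have n7 : X.n < 7 := by omega
  have hy' := hy.ext n7 hq
  have e0 : (X.ext q).P 0 = X.P 0 := Cx.ext_lt hy.cf.n1
  have e1 : ce (X.ext q).A 0 = ce X.A 0 := by rw [hy.cf.ce_ext n7 hq, if_neg hy.cf.n1.ne]
  have e2 : ce (X.ext q).A 1 = X.κ q := by rw [hy.cf.ce_ext n7 hq, if_pos hn.symm]
  have n2 : (X.ext q).n = 2 := congrArg (· + 1) hn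
  have hN := zw_mk hI hy.cf hq hM
  have eU : X.U = (X.ext q).U := rfl
  have et : X.t = (X.ext q).t := rfl
  rw [← e0, ← e1, et] at hX
  rw [← e1, ← e2] at hN
  rw [← e0, ← e1, ← e2, eU]
  generalize X.ext q = Y at *
  have a0 : 0 < Y.n := by omega
  have a1 : 1 < Y.n := by omega
  have hk := kt_nil (X := Y) (D := E.D) (v := 0) (md := 0) (F := 0) (hX.nn (hy'.cf.at a0)) (kz_go (by omega))
  have k : ∀ N, Y.Mk N → (∀ S, Y.Inv N 255 S →
      Y.W E.D 1 0 (β - E.D (Y.P 0) (Y.P 1)) (Y.W E.D 0 0 β (· = ∅) 0) 2 S) → WK E.D 1 (Y.P 0) (Y.U.erase (Y.P 0)) β :=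
    fun N hN h => by
      have hI' := inv0 (r := 0) hy'.cf hN (by omega) a0 (v257 a0 (by omega)) (.inl rfl)
      rw [n2] at hI'
      refine fin_w (Cx.arr (F' := 0) (l := 0) (γ := β - E.D (Y.P 0) (Y.P 1)) hI' a1 (by unfold mb; decide)
        (fun e _ => h _ (hI'.vis hy'.cf a1 fun u => ?_) e nofun) (by linarith) (by omega))
      change mb (253 ||| 1 <<< 1) u ↔ mb 253 u ∨ _
      rw [mb_or, mb_one]
  have e := ed_of hy' a0 a1 hi hX (gk2 gE) (u := 1) nofun zk_hz (if_neg one_ne_zero).symm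
  have z : ∀ {B W T}, W = B ∨ W = B ||| zq XT (ce Y.A 1) ∨ W = B ||| zw XT S (ce Y.A 0) (ce Y.A 1) →
      M &&& (W >>> sf (ce Y.A 1)) = M →
      Y.Inv (dl (dl M (zw XT S (ce Y.A 0) (ce Y.A 1) >>> sf (ce Y.A 1))) (B >>> sf (ce Y.A 1))) 255 T →
      Y.W E.D 0 0 β (· = ∅) 0 T := fun a b c => hk 0 0 255 _ rfl ⟨c.sub, fun s hs => (c.cov s hs).imp_right fun g => by
        obtain ⟨g1, g2⟩ := mb_dl.1 g
        obtain ⟨g3, g4⟩ := mb_dl.1 g1
        have := (mb_and.1 (b.symm ▸ g3)).2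
        rcases a with rfl | rfl | rfl
        · exact absurd this g2
        · exact ((mb_or.1 (mb_shr.1 this)).elim (fun x => g2 (mb_shr.2 x))
            fun x => g4 (mb_shr.2 (zw_eq (XT := XT) ▸ mb_or.2 (.inl x)))).elim
        · exact ((mb_or.1 (mb_shr.1 this)).elim (fun x => g2 (mb_shr.2 x)) fun x => g4 (mb_shr.2 x)).elim,
      c.pen, c.top, c.ex⟩
  refine ⟨⟨fun K B => Us Y E.D 1 K (β - E.D (Y.P 0) (Y.P 1)) B (sf (ce Y.A 1)), e.u0, e.u1,
    fun B B' W a b c d => k _ hN fun S g => a.go (F := 1) g fun _ _ g => b.go (F := 0) g fun u _ g =>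
      w_nil u (z c d (inv_or g)),
    fun B W a c d => k _ hN fun S g => a.go (F := 0) g fun u _ g => w_nil u (z c d g)⟩,
    fun a b c s N hN h => k N hN fun S g => (?_ : Bm Y H DT I mz (X0 + 34084860461056) (X1 + 34084860461056) (ce Y.A 0) (ce Y.A 1) 1 kz
      (Y.W E.D 1 0 (β - E.D (Y.P 0) (Y.P 1)) (Y.W E.D 0 0 β (· = ∅) 0) 2) _) _ _ _ _ h g⟩
  repeat' refine bsel (P := Bm Y H DT I mz _ _ _ _ _ kz _) ?_ ?_ _
  exacts [a4_go e mz_go hk, a7_go e mz_go hk, mg_go hy' hi mz_go a0 a1 hX hk nofun, mq_go hy' a0 a1 hX hk]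

theorem lg_go {g : ℕ → ℕ → ℕ → ℕ → Bool} (hI : IQ E m jn XT S s4 s5) (hy : Hy E H DT m i C X) (hn : X.n = 1)
    (hi : I = i * 10889035741470030830827987437816582766592 + 1419612298781011615649678952475016771720260989886843619185417813866810540483857042694292115229014230638747742532099027116372690731008) (ex : x = ce X.A 0)
    (hX : XS i X0 X1 (zx X.t (ce X.A 0) (X.P 0)) (zy E (ce X.A 0) (X.P 0)) β)
    (h1 : ∀ s M, g X.n X.A s M = true → X.Mk M → WK E.D 1 (X.P 0) (X.U.erase (X.P 0)) β)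
    (h2 : ∀ q s M, X.Fr q → g (X.n + 1) (X.ext q).A s M = true → (X.ext q).Mk M →
      WK E.D 1 (X.P 0) (X.U.erase (X.P 0)) β) :
    ∀ s M, lg H DT MT XT S s4 s5 I C x (X0 + 34084860461056) (X1 + 34084860461056) X.A g s M = true → X.Mk M →
      WK E.D 1 (X.P 0) (X.U.erase (X.P 0)) β := by
  subst ex
  delta lg
  generalize nat_lit 9999 = n
  refine rec_ind (fun l : ℕ → ℕ → Bool => ∀ s M, l s M = true → X.Mk M → _) (fun _ _ h => Bool.noConfusion h)
    (fun _ l ih s M h hM => ?_) _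
  have k : ∀ c s', l s' (Nat.xor M (Nat.shiftLeft (nat_lit 1) c)) = true → (∀ q, X.Fr q → X.κ q = c → _) → _ :=
    fun c s' a b => by_contra fun z => z (ih _ _ a fun q hq => mb_xor (hM q hq) fun e => z (b q hq e))
  rcases bor h with ⟨-, h⟩ | ⟨-, h⟩
  swap
  · obtain ⟨c, _, -, h⟩ := frc h
    refine k c _ (ri h).2 fun q hq e => ?_
    subst e
    obtain ⟨r, a, _, h⟩ := frk (ri h).1
    obtain ⟨r', a', _, h⟩ := frk h
    obtain ⟨U, e⟩ := (g_ent hI hy hn hi hX hq hM).1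
    refine (?_ : Cd _) e a a' h
    repeat' refine bsel (P := Cd) ?_ ?_ _
    exacts [c0_go, c1_go, c2_go, c3_go, c4_go, c5_go, v0_go, v1_go]
  rw [l3] at h
  rcases bor h with ⟨-, h⟩ | ⟨-, h⟩
  · exact l2_go hI hy.cf h1 h2 ih hM (by rw [hn]; exact h)
  obtain ⟨c, _, -, h⟩ := frc h
  rcases bor h with ⟨-, h⟩ | ⟨-, h⟩ <;> refine k c _ (ri h).2 fun q hq e => ?_ <;> subst e
  · exact (g_ent hI hy hn hi hX hq hM).2 _ _ _ _ _
      (bsel (P := (X.ext q).Mk) (zs_mk hI hy.cf hq hM _) (zw_mk hI hy.cf hq hM) _) (ri h).1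
  obtain ⟨r, a, _, h⟩ := frk (ri h).1
  obtain ⟨U, e⟩ := (g_ent hI hy hn hi hX hq hM).1
  refine (?_ : Cs _) e a h
  repeat' refine bsel (P := Cs) ?_ ?_ _
  exacts [c6_go, c7_go, c8_go, c9_go, v2_go, v3_go]

theorem gf_go (hS : E.NS H i) (hT : E.TB DT m) (hi : i ≤ 262144) (hI : IQ E m jn XT S s4 s5) (hm : m ≤ 16)
    (hn : nc m h = true) (hg : gf H DT MT XT S s4 s5 i s h = true) : E.Sem h := by
  refine Env.Go.of fun t ht p T hp hT' hin => ?_
  obtain ⟨a1, a2, κ, k1, k2⟩ := node_cx hI hm hn ht hp hT' fun s hs => (hin s hs).1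
  obtain ⟨n1, n2, n3, n4⟩ := nf_spec h
  obtain ⟨z0, z1, z2⟩ := zz (E := E) (t := t) (p := p) (show bt h 40 31 < 16 by omega)
  obtain ⟨c1, c2, c3⟩ := ce_two a2.1 a2.1
  have a3 : Ac E t m (κ p) p := by rwa [k1]
  simp only [gf, fb_eq, Nat.add_eq, Nat.mul_eq, Nat.land_eq, mw, sw_eq] at hg
  rw [show ∀ x, x * 19342813113834066795298817 = x + x * 19342813113834066795298816 from fun x => by ring] at hg
  obtain ⟨X, hy, e0, e1, e2, e3, e4, e5, hN⟩ : ∃ X : Cx α, Hy E H DT m i (nf h) X ∧ X.n = 1 ∧ X.t = t ∧ X.U = insert p T ∧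
      X.P 0 = p ∧ ce X.A 0 = bt h 40 31 + 1920 ∧ bt h 40 31 + 1920 + (bt h 40 31 + 1920) * 19342813113834066795298816 = X.A ∧
      X.Mk (nm XT h (bt h 40 31)) :=
    ⟨⟨t, insert p T, κ, _, 1, fun _ => p⟩, ⟨hS, hT, hi, ⟨ht, Finset.forall_mem_insert _ _ _ |>.2 ⟨a3, fun s hs => (k2 s hs).1⟩,
      fun _ _ => Finset.mem_insert_self _ _, fun u hu => by
        obtain rfl : u = 0 := Nat.lt_one_iff.1 hu
        exact c1.trans k1.symm,
      fun u hu v hv _ => (Nat.lt_one_iff.1 hu).trans (Nat.lt_one_iff.1 hv).symm, Nat.one_pos, c3, c2.symm ▸ a2⟩, by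
        rw [n2, n3, n4]
        exact Finset.forall_mem_insert _ _ _ |>.2 ⟨⟨fun _ => le_rfl, fun _ => le_rfl, fun _ => le_rfl,
          fun _ => le_rfl⟩, fun s hs => (hin s hs).2⟩,
      fun v w e => by rw [od_small n1] at e; exact Bool.noConfusion e⟩, rfl, rfl, rfl, rfl, c1, rfl,
      fun s hs => (k2 s ((Finset.mem_insert.1 hs.1).resolve_left (hs.2 0 Nat.one_pos))).2.1⟩
  have := bt_le h 36 3
  rw [e5] at hg
  have k : ∀ (Y : Cx α) s N, Hy E H DT m i (nf h) Y → Y.n ≤ 7 → Y.t = t → Y.U = insert p T → Y.P 0 = p →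
      ce Y.A 0 = bt h 40 31 + 1920 → lw H (bt h 40 31 + 1920)
        (tj (fun x => pi i (wv (bt h 0 65535) (bt h 18 65535) (bt h 72 65535) (bt h 90 65535))) (bt h 40 31 + 1920))
        (tj (fun x => pi i (wv (bt h 72 65535) (bt h 90 65535) (bt h 0 65535) (bt h 18 65535))) (bt h 40 31 + 1920))
        (xa i h + 34084860461056) (xb i h + 34084860461056) (bt h 36 3) (mv H DT (i * 10889035741470030830827987437816582766592 + 1419612298781011615649678952475016771720260989886843619185417813866810540483857042694292115229014230638747742532099027116372690731008) (nf h))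
        (lfN H DT i (nf h) (bt h 40 31 + 1920)
          (pi i (wv (bt h 0 65535) (bt h 18 65535) (bt h 72 65535) (bt h 90 65535)))
          (pi i (wv (bt h 72 65535) (bt h 90 65535) (bt h 0 65535) (bt h 18 65535))) (xa i h) (xb i h) (bt h 36 3 + 1))
        Y.n Y.A s N = true → Y.Mk N → WK E.D (bt h 36 3 + 1) (X.P 0) (X.U.erase (X.P 0))
        (hv h (t p - (120 : ℤ)) (E.fr (bt h 40 31) p)) := fun Y s N b a e1 f2 f3 e4 g c => by
    have u1 : CU H i (cp H (pi i (wv (bt h 0 65535) (bt h 18 65535) (bt h 72 65535) (bt h 90 65535)))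
        (pi i (wv (bt h 72 65535) (bt h 90 65535) (bt h 0 65535) (bt h 18 65535)))) (ce Y.A 0 % 16)
        (zx Y.t (ce Y.A 0) (Y.P 0)) (zy E (ce Y.A 0) (Y.P 0)) (hv h (t p - (120 : ℤ)) (E.fr (bt h 40 31) p)) := by
      rw [e1, f3, e4, z0, z1, z2]
      exact cp_spec hi (bt_le _ _ _) (bt_le _ _ _) (bt_le _ _ _) (bt_le _ _ _) (bt_le _ _ _) hp.x0 hp.x1
        hp.f0 hp.f1 le_rfl
    have u2 : XS i (xa i h) (xb i h) (zx Y.t (ce Y.A 0) (Y.P 0)) (zy E (ce Y.A 0) (Y.P 0))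
        (hv h (t p - (120 : ℤ)) (E.fr (bt h 40 31) p)) := by rw [e1, f3, e4, z1, z2]; exact xs_of le_rfl
    generalize hv h _ _ = β at u1 u2 ⊢
    rw [e2, e3, ← f2, ← f3]
    refine lw_go (s := s) b rfl a c u1 u2 (fun s g => ?_) (e4.symm ▸ g)
    have n1 := b.cf.n1
    obtain ⟨N', V', g, hI'⟩ := tu_spec b.cf (inv0 (r := 0) b.cf c a n1 (v257 n1 a) (.inl rfl)) Nat.and_le_right
      (an_iff.1 g).2
    exact run (R := 0) (O' := ko0) b.cf (bk_go b fun _ _ _ => ko0_go) n1 a (by omega) u1 u2 .zero (by norm_num) hI' g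
  have k1 := fun s N => k X s N hy (by omega) e1 e2 e3 e4
  have k2 := fun q s N (c : X.Fr q) => k (X.ext q) s N (hy.ext (by omega) c) (by change X.n + 1 ≤ 7; omega) e1 e2
    ((Cx.ext_lt hy.cf.n1).trans e3) (by rw [hy.cf.ce_ext (by omega) c, if_neg hy.cf.n1.ne, e4])
  have : WK E.D (bt h 36 3 + 1) (X.P 0) (X.U.erase (X.P 0)) (hv h (t p - (120 : ℤ)) (E.fr (bt h 40 31) p)) := by
    generalize bt h 36 3 = K at *
    rw [g0] at hg
    cases K with
    | zero =>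
      exact lg_go (MT := MT) hI hy e0 rfl e4.symm (by rw [e1, e3, e4, z1, z2]; exact xs_of le_rfl) k1 k2 _ _ hg hN
    | succ K => exact ls_go (MT := MT) hI hy.cf k1 k2 k2 (pt MT s) _ (by rw [e0]; exact hg) hN
  rwa [e2, e3, Finset.erase_insert hT'] at this

theorem sem_of (h : E.Sem (x &&& 340282366920938463463374607431768211455)) : E.Sem x := by
  simp only [Env.Sem] at h
  iterate 13 rw [bt_and (by decide)] at h
  exact h

theorem nod_go (hT : E.TB DT m) (hI : IQ E m jn XT S s4 s5) (ho : xok XT = true) (hR : E.RR R m)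
    (hP : PR R m) (hm : m ≤ 16) (hi : i ≤ 262144) (e : nod H DT MT XT S s4 s5 R m i s = true)
    (ns : E.NS H i) : E.Sem (hx H (i * 8)) := by
  rcases bor e with ⟨-, e⟩ | ⟨-, e⟩
  swap
  · rw [fb_eq] at e
    exact sem_of (gf_go ns hT hi hI hm (ri e).1 (ri e).2)
  have hX : E.XB XT m := hI.xb fun a ha b hb => by
    have := al_iff.1 (al_iff.1 ho a (ha.trans_le hm)) b (hb.trans_le hm)
    simp only [Bool.not_eq_true', Nat.add_eq, Nat.mul_eq] at this
    have := Nat.ne_of_beq_eq_false this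
    unfold XX
    omega
  rw [Q.nod, nrec] at e
  split_ifs at e
  · exact node_go ns hT hX hR hP (by omega) hi e
  simp only [fb_eq, an_iff, nrec, Nat.land_eq, Nat.mul_eq] at e
  obtain ⟨a, e⟩ := e
  split_ifs at e
  exacts [sem_of (gn_go ns hT hi hI hm a e), sem_of (far_go hT hi hI hm a e)]

end

end Pool.Agent.MP_1037db_co.F

end
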