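import Pool.Agent.MP_1037db_co.Q.S0
import Pool.Agent.MP_1037db_co.Q.S2
import Pool.Agent.MP_1037db_co.Q.S3

section
set_option exponentiation.threshold 600
set_option linter.unusedSectionVars false
set_option maxRecDepth 4000

/-! What one record says about the steps of a node. -/

namespace Pool.Agent.MP_1037db_co.Q

open LP

variable {r : Rc}

theorem top_bit {T V G c : ℕ} (hT : T < 2 ^ 447) (hV : V ≤ 2 ^ 447) (hG : G + c < 2 ^ 447)
    (h : (T + 2 ^ 447 - V) &&& (G + 2 ^ 447 + c) = G + 2 ^ 447) : (T - V) &&& (G + c) = G := by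
  have a : G + 2 ^ 447 ≤ T + 2 ^ 447 - V := h.ge.trans Nat.and_le_left
  generalize e : 2 ^ 447 = B at *
  rw [show T + B - V = T - V + B * 1 by omega, show G + B + c = G + c + B * 1 by omega,
    show G + B = G + B * 1 by omega, ← e] at h
  exact (peel (by omega) (e ▸ hG) (by omega) h).1

theorem b01 {x : ℕ} (h : x ≤ 1) : x = 0 ∨ x = 1 := by omega

def Rc.y (r : Rc) : ℕ := r.uX * r.d + r.tC * (22300745198530623141540440639131231151194113 * r.d0)

def Rc.g (r : Rc) : ℕ := gx (131072 * r.a0) (131072 * (r.a0 * r.mc)) (131072 * (r.a0 * r.me)) (131072 * r.mc)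
  (131072 * r.me) (131072 * r.a3) (131072 * (r.a3 * r.mc)) (131072 * (r.a3 * r.me))

theorem m01 {x y : ℕ} (h : x ≤ 1) (k : y ≤ 1) : x * y ≤ 1 := Nat.mul_le_mul h k

theorem Rc.tQ1 (r : Rc) : r.tQ ≤ 1 := m01 (bt_le _ _ _) (Nat.sub_le _ _)

theorem Fok.qe (h : Fok r) (hA : r.tA = 1) : ∃ ref T, r.rf = ref + 2048 ∧ ref ≤ 1048575 ∧
    r.TT = T + 2 ^ 141 ∧ LP.qe r.x ref T (2 ^ 108 * (r.sd * r.be + r.ns * r.ga) +
      2 ^ 119 * (r.sd * (r.ga + 1) + r.ns * r.be))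
      (r.y &&& 26327771615106622073631788543845694075442754821128109490054168575) r.g = true := by
  obtain ⟨ref, e⟩ := Nat.exists_eq_add_of_le' (h.e4 hA)
  have e5 := h.e5
  obtain ⟨T, eT⟩ : ∃ T, r.TT = T + 2 ^ 141 :=
    Nat.exists_eq_add_of_le' (le_trans (by norm_num) (Nat.le_add_left _ _))
  refine ⟨ref, T, e, by omega, eT, Nat.beq_eq ▸ ?_⟩
  have g : r.GG = r.g + 2 ^ 447 ∧ r.g + 34084860461056 < 2 ^ 447 := by
    have b1 : r.a0 ≤ 1 := m01 r.tQ1 (Nat.sub_le _ _)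
    have b2 : r.a3 ≤ 1 := m01 r.tQ1 (Nat.sub_le _ _)
    have b3 : r.mc ≤ 1 := m01 r.tQ1 (Nat.sub_le _ _)
    have b4 : r.me ≤ 1 := m01 r.tQ1 (Nat.sub_le _ _)
    rw [Rc.GG, Rc.g, hA]
    generalize r.a0 = a, r.a3 = b, r.mc = c, r.me = d at *
    interval_cases a <;> interval_cases b <;> interval_cases c <;> interval_cases d <;> decide +kernel
  have q := h.q
  rw [hA, Nat.mul_one, g.1] at q
  have q := top_bit (h.bT.trans_lt (by norm_num)) (h.bV.trans (by norm_num)) g.2 q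
  have s : bt r.dd 72 22300745198530623141535718272648361505980415 = r.dd >>> 72 := by
    have : r.dd ≤ _ := Nat.and_le_right
    rw [Nat.shiftRight_eq_div_pow]
    exact (bt_eq _ 72 144).trans (Nat.mod_eq_of_lt (by omega))
  have a6 : (ref + 2048) &&& 6 = ref &&& 6 := by
    rw [and6, and6]
    omega
  rw [eT, Rc.VV, s, e, a6] at q
  simp only [Nat.add_eq, Nat.mul_eq, Nat.sub_eq, Nat.land_eq, Nat.shiftRight_eq']
  refine Eq.trans (congrArg (· &&& _) ?_) q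
  rw [← Nat.add_sub_add_right T (2 ^ 141)]
  congr 1
  change _ = _ + _ * (r.y &&& _ &&& _) + _ * (r.y &&& _) >>> 72
  ring

/-- the comparisons of the values -/
def SS (r : Rc) (x p0 p1 p2 p3 : ℕ) : Prop :=
  S4 (131072 * r.a0) (131072 * (r.a0 * r.mc)) (131072 * (r.a0 * r.me)) r.y 0 p0 p1 (bt x 0 65535) (bt x 18 65535) ∧
  S4 131072 (131072 * r.mc) (131072 * r.me) r.y 72 p0 p1 (bt x 72 65535) (bt x 90 65535) ∧
  S4 131072 (131072 * r.mc) (131072 * r.me) r.y 72 p2 p3 (bt x 0 65535) (bt x 18 65535) ∧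
  S4 (131072 * r.a3) (131072 * (r.a3 * r.mc)) (131072 * (r.a3 * r.me)) r.y 144 p2 p3 (bt x 72 65535) (bt x 90 65535)

theorem sel_le {t x y b : ℕ} (ht : t ≤ 1) (hx : x ≤ b) (hy : y ≤ b) : t * x + (1 - t) * y ≤ b := by
  rcases b01 ht with rfl | rfl <;> omega

theorem Rc.ke_le (r : Rc) : r.ke ≤ 318 := by
  have : r.k ≤ 255 := bt_le _ _ _
  have : r.wi ≤ 63 := by
    have := sel_le (t := r.tW) (x := r.wd) (y := 1) (bt_le _ _ _) (bt_le _ _ _) (by norm_num)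
    rwa [Nat.mul_one] at this
  rw [Rc.ke]
  omega

theorem Fok.main {j L L' I O g d : ℕ} (h : Fok r) (hA : r.tA = 1) (hj : r.tQ * r.j + r.nQ * r.jp = j)
    (hL : r.tQ * r.n0 + r.nQ * r.fL = L) (hL' : r.tQ * r.n1 = L') (hI : r.tQ * r.n2 + r.nQ * r.fI = I)
    (hO : r.tQ * r.n3 + r.nQ * r.fO = O) (hg : r.ga = g) (hd : r.de = d) (b2 : j ≤ 31) (b3 : L ≤ 1)
    (b4 : L' ≤ 1) (b5 : I ≤ 1) (b6 : O ≤ 1) (b7 : g ≤ 598) (b8 : d ≤ 598)
    (hi : r.i + r.hi ≤ 262144) : ∃ ref, r.rf = ref + 2048 ∧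
      (r.sd = 0 ∧ Cov r.x ref r.Kc j r.c1 (31 - r.c2) L I O r.al g r.be d (r.i + r.hi) ∧
        SS r r.x (bt r.h 72 65535) (bt r.h 90 65535) (bt r.h 0 65535) (bt r.h 18 65535) ∨
      r.sd = 1 ∧ Cov r.x ref r.Kc j r.c1 (31 - r.c2) L' I O (d + 1) r.be (g + 1) r.al (r.i + r.hi) ∧
        SS r r.x (bt r.h 0 65535) (bt r.h 18 65535) (bt r.h 72 65535) (bt r.h 90 65535)) := by
  obtain ⟨ref, T, e, hr, eT, q⟩ := h.qe hA
  have u : ∀ {x}, x ≤ 1 → 131072 * x ≤ 131072 := fun h => Nat.mul_le_mul_left _ h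
  have g1 : r.a0 ≤ 1 := m01 r.tQ1 (Nat.sub_le _ _)
  have g2 : r.a3 ≤ 1 := m01 r.tQ1 (Nat.sub_le _ _)
  have g3 : r.mc ≤ 1 := m01 r.tQ1 (Nat.sub_le _ _)
  have g4 : r.me ≤ 1 := m01 r.tQ1 (Nat.sub_le _ _)
  have G := And.intro (u g1) (And.intro (u (m01 g1 g3)) (And.intro (u (m01 g1 g4)) (And.intro (u g3)
    (And.intro (u g4) (And.intro (u g2) (And.intro (u (m01 g2 g3)) (u (m01 g2 g4))))))))
  have hb : r.be ≤ 598 := sel_le (bt_le _ _ _) ((bt_le _ _ _).trans (by norm_num)) (sel_le (bt_le _ _ _)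
    (Nat.succ_le_succ ((bt_le _ _ _).trans (by norm_num))) ((Nat.sub_le _ _).trans (by norm_num)))
  have ha : r.al ≤ 598 := sel_le (bt_le _ _ _) (Nat.succ_le_succ ((bt_le _ _ _).trans (by norm_num)))
    (sel_le (bt_le _ _ _) (r.ke_le.trans (by norm_num)) (Nat.succ_le_succ ((bt_le _ _ _).trans (by norm_num))))
  have c2 := h.eb hA
  rw [Rc.TT, hj, hL, hL', hI, hO, hd, Rc.ns, Rc.Pa, Rc.Pb, show 1023 - r.c2 = 31 - r.c2 + 992 by omega] at eT
  rw [Rc.ns, hg] at q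
  refine ⟨ref, e, (b01 (show r.sd ≤ 1 from bt_le _ _ _)).imp (fun s => ⟨s, ?_⟩) fun s => ⟨s, ?_⟩⟩ <;>
    rw [s] at eT q
  · exact qe_spec hr (bt_le _ _ _) b2 (h.ea hA) (Nat.sub_le _ _) b3 b5 b6 (by omega) (by omega) (by omega)
      (by omega) hi (bt_le _ _ _) (bt_le _ _ _) (bt_le _ _ _) (bt_le _ _ _) G (by
        simp only [cx, vb, Nat.add_eq, Nat.mul_eq, Nat.reduceSub] at eT ⊢
        generalize 31 - r.c2 = z at eT ⊢
        zify at eT ⊢
        linear_combination -eT) q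
  · exact qe_spec hr (bt_le _ _ _) b2 (h.ea hA) (Nat.sub_le _ _) b4 b5 b6 (by omega) (by omega) (by omega)
      (by omega) hi (bt_le _ _ _) (bt_le _ _ _) (bt_le _ _ _) (bt_le _ _ _) G (by
        simp only [cx, vb, Nat.add_eq, Nat.mul_eq, Nat.reduceSub] at eT ⊢
        generalize 31 - r.c2 = z at eT ⊢
        zify at eT ⊢
        linear_combination -eT) q

variable [G : Geo] {α : Type} {E : Env α} {H DT : Tr}

theorem cov_msk {x ref K jx c1 c2 xL xI xO A cA B cB i : ℕ}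
    (h : Cov (x &&& 340282366920938463463374607431768211455) ref K jx c1 c2 xL xI xO A cA B cB i) :
    Cov x ref K jx c1 c2 xL xI xO A cA B cB i := by
  obtain ⟨a1, a2, a3, a4, a5, a6, a7, a8, a9, a10⟩ := h
  rw [bt_and (by decide)] at a1 a2 a3 a4 a5 a6 a7 a8 a9
  exact ⟨a1, a2, a3, a4, a5, a6, a7, a8, a9, a10⟩

theorem ss_msk {x p0 p1 p2 p3 : ℕ} (h : SS r (x &&& 340282366920938463463374607431768211455) p0 p1 p2 p3) :
    SS r x p0 p1 p2 p3 := by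
  unfold SS at h
  iterate 4 rw [bt_and (x := x) (by decide)] at h
  exact h

theorem four {y p q v0 v1 v2 v3 e0 e1 e2 e3 c e g g' : ℕ} {k : ℤ} {a a' b b' x x' z z' : ℝ} (x0 : 0 ≤ x) (x1 : x ≤ 1)
    (y0 : 0 ≤ x') (y1 : x' ≤ 1) (z0 : 0 ≤ z) (z1 : z ≤ 1) (w0 : 0 ≤ z') (w1 : z' ≤ 1)
    (hc : z < z' → c = 1) (he : z' < z → e = 1) (hg : g = 1) (hg' : x' < x → g' = 1)
    (q0 : Q4 1 y 72 a a' b b' 120 k) (q1 : Q4 1 y 72 a a' b b' (120 + 1) (k + 1))
    (q2 : Q4 1 y p a a' b b' 120 (k + 1)) (q3 : Q4 1 y q a a' b b' (120 + 1) k)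
    (s0 : S4 131072 (131072 * c) (131072 * e) y 72 v0 v2 e0 e2)
    (s1 : S4 131072 (131072 * c) (131072 * e) y 72 v1 v3 e1 e3)
    (s2 : S4 (131072 * g) (131072 * (g * c)) (131072 * (g * e)) y p v0 v2 e1 e3)
    (s3 : S4 (131072 * g') (131072 * (g' * c)) (131072 * (g' * e)) y q v1 v3 e0 e2) :
    dd (a + z * (a' - a)) ((120 : ℤ) + x) (b + z' * (b' - b)) (k + x') + bil e0 e1 e2 e3 x' z' ≤
      bil v0 v1 v2 v3 x z := by
  have r := fun (p v v' w w' : ℕ) (i j : ℤ) (s : S4 131072 (131072 * c) (131072 * e) y p v v' w w')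
    (q : Q4 1 y p a a' b b' i j) => rad zero_le_one z0 z1 w0 w1 s q rfl (fun h => by rw [hc h]) fun h => by rw [he h]
  rw [hg, Nat.one_mul, Nat.one_mul] at s2
  have := conv_a zero_le_one x0 x1 y0 y1 (r _ _ _ _ _ _ _ s0 q0) (r _ _ _ _ _ _ _ s1 q1)
    (fun _ => r _ _ _ _ _ _ _ s2 q2) fun h => r _ _ _ _ _ _ _ (by rwa [hg' h, Nat.one_mul, Nat.one_mul] at s3) q3
  unfold bil
  linarith only [this]

theorem q4_msk {y p : ℕ} {a a' b b' : ℝ} {i j : ℤ} (hp : p = 0 ∨ p = 72 ∨ p = 144) (h : Q4 1 y p a a' b b' i j) :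
    Q4 1 (y &&& 26327771615106622073631788543845694075442754821128109490054168575) p a a' b b' i j := by
  unfold Q4
  rcases hp with rfl | rfl | rfl <;> iterate 4 rw [bt_and (x := y) (by decide)]
  all_goals exact h

theorem q4_rep {y p : ℕ} {a a' b b' : ℝ} {i j : ℤ} (hp : p = 0 ∨ p = 72 ∨ p = 144) (h : Q4 1 y 0 a a' b b' i j) :
    Q4 1 (22300745198530623141540440639131231151194113 * (y &&& 1180578109866989387775)) p a a' b b' i j := by
  have k : Q4 1 (y &&& 1180578109866989387775) 0 a a' b b' i j := by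
    unfold Q4
    iterate 4 rw [bt_and (x := y) (by decide)]
    exact h
  have u : y &&& 1180578109866989387775 ≤ _ := Nat.and_le_right
  generalize y &&& 1180578109866989387775 = d at k u
  have u : d < 2 ^ 72 := u.trans_lt (by norm_num)
  have lo : ∀ Y, Q4 1 (d + 2 ^ 72 * Y) 0 a a' b b' i j := fun Y => by
    have e : ∀ q, 2 ^ q * 65535 < 2 ^ 72 → bt (d + 2 ^ 72 * Y) q 65535 = bt d q 65535 := fun q hq => by
      have := and_dig (A := Y) (B := 0) u hq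
      rw [Nat.mul_zero, Nat.add_zero, Nat.and_zero, Nat.mul_zero, Nat.add_zero, LP.fld, LP.fld] at this
      exact Nat.eq_of_mul_eq_mul_left (by positivity) this
    unfold Q4
    iterate 4 rw [e _ (by norm_num)]
    exact k
  have hi : ∀ p Y, Q4 1 Y p a a' b b' i j → Q4 1 (d + 2 ^ 72 * Y) (72 + p) a a' b b' i j := fun p Y h => by
    have : (d + 2 ^ 72 * Y) >>> 72 = Y := by
      rw [Nat.shiftRight_eq_div_pow, Nat.add_mul_div_left _ _ (by positivity), Nat.div_eq_of_lt u, Nat.zero_add]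
    rw [← this] at h
    simpa only [Q4, bt_sh, Nat.add_assoc] using h
  rw [show 22300745198530623141540440639131231151194113 * d = d + 2 ^ 72 * (d + 2 ^ 72 * (d + 2 ^ 72 * 0)) by ring]
  rcases hp with rfl | rfl | rfl
  exacts [lo _, hi 0 _ (lo _), hi 72 _ (hi 0 _ (lo _))]

theorem kc_spec {c e k W n : ℕ} (a2 : e ≤ 61) (a3 : e = 61 ∨ 120 * c + 2 ≤ k + e ∧ k + W + 1 ≤ 120 * c + e)
    (h1 : k ≤ n) (h2 : n < k + W) (u w : ℤ) (hu : u = 120 ∨ u = 120 + 1) (hw : w = n ∨ w = n + 1) :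
    co (e - 1) ≤ co (u - w) := by
  rcases a3 with rfl | a3
  · exact (by norm_num : ((61 : ℕ) : ℝ) - 1 = 60) ▸ co_sixty _
  · have : (e : ℝ) ≤ 61 := by exact_mod_cast a2
    have x : |u - w - 120 * (1 - c)| ≤ e - 1 := abs_le.2 (by omega)
    exact co_anti (1 - c) (by exact_mod_cast x) (by linarith)

theorem Rc.tq (h : r.tQ = 1) : r.tV = 1 ∧ r.tZ = 0 ∧ r.nQ = 0 := by
  have a : r.tV ≤ 1 := bt_le _ _ _
  have b : r.tZ ≤ 1 := bt_le _ _ _
  rw [Rc.nQ, h]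
  rw [Rc.tQ] at h
  rcases b01 a with a | a <;> rcases b01 b with b | b <;> simp_all

theorem Fok.kc (h : Fok r) (hV : r.tV = 1) (hW : r.tW = 1) : 1 ≤ r.oe ∧ r.oe ≤ 61 ∧ ∀ n : ℕ, r.k ≤ n → n < r.ke →
    ∀ u w : ℤ, u = 120 ∨ u = 120 + 1 → w = n ∨ w = n + 1 → co (r.oe - 1) ≤ co (u - w) := by
  obtain ⟨o1, o2, o3, o4⟩ := And.intro (h.o1 hV) (And.intro h.o2 (And.intro h.o3 h.o4))
  simp only [Rc.u0, Rc.xs, Rc.uX, Rc.tC, Rc.cc, Rc.ke, hV, hW, Nat.one_mul, Nat.sub_self, Nat.mul_zero,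
    Nat.zero_mul, Nat.zero_add, Nat.add_zero] at o1 o2 o3 o4 ⊢
  have : r.oe = 61 ∨ 120 * r.c + 2 ≤ r.k + r.oe ∧ r.k + r.wi + 1 ≤ 120 * r.c + r.oe := by
    rcases b01 (show r.f6 ≤ 1 from bt_le _ _ _) with f | f <;> rw [f] at o2 o3 o4 <;> omega
  exact ⟨by omega, o1, fun n h1 h2 => kc_spec o1 this h1 h2⟩

/-- the distances that a step uses -/
theorem Fok.dist {row k : ℕ} {a a' b b' : ℝ} (h : Fok r) (hQ : r.tQ = 1) (hR : RB 1 row a a' b b')
    (hd : r.d = row >>> (72 * r.o) &&& 26327771615106622073631788543845694075442754821128109490054168575)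
    (h1 : r.k ≤ k) (h2 : k < r.ke) : Q4 1 r.y 72 a a' b b' 120 k ∧ Q4 1 r.y 72 a a' b b' (120 + 1) (k + 1) ∧
      Q4 1 r.y (144 * (1 - r.sd)) a a' b b' 120 (k + 1) ∧ Q4 1 r.y (144 * r.sd) a a' b b' (120 + 1) k := by
  obtain ⟨hV, hZ, -⟩ := Rc.tq hQ
  have eo : r.oe = r.o := by simp [Rc.oe, hZ]
  have hs := b01 (show r.sd ≤ 1 from bt_le _ _ _)
  rw [Rc.y, Rc.uX, Rc.tC, Rc.d0, hV, hd, Nat.mul_comm 72]
  rcases (b01 (show r.tW ≤ 1 from bt_le _ _ _)).symm with c | c <;> simp only [c, Nat.mul_zero, Nat.zero_mul,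
    Nat.add_zero, Nat.zero_add, Nat.sub_zero, Nat.sub_self, Nat.one_mul, Nat.mul_one]
  · obtain ⟨-, o1, o2⟩ := h.kc hV c
    rw [eo] at o1 o2
    have q : ∀ (p : ℕ) (u w : ℤ), p = 0 ∨ p = 72 ∨ p = 144 → u = 120 ∨ u = 120 + 1 → w = k ∨ w = k + 1 → Q4 1
        (22300745198530623141540440639131231151194113 * (row >>> (r.o * 72) &&&
        26327771615106622073631788543845694075442754821128109490054168575 &&& 1180578109866989387775))
        p a a' b b' u w := fun p u w hp hu hw => q4_rep hp (q4_msk (.inl rfl) (Q4.sh (p := 0)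
      (hR r.o (by omega) u w (o2 k h1 h2 u w hu hw))))
    exact ⟨q _ _ _ (by simp) (.inl rfl) (.inl rfl), q _ _ _ (by simp) (.inr rfl) (.inr rfl),
      q _ _ _ (by omega) (.inl rfl) (.inr rfl), q _ _ _ (by omega) (.inr rfl) (.inl rfl)⟩
  obtain ⟨o1, o2, o6⟩ := And.intro (h.o1 hV) (And.intro h.o2 h.o6)
  simp only [Rc.xs, Rc.uX, Rc.tC, Rc.cc, Rc.ke, Rc.wi, eo, hV, c, Nat.one_mul, Nat.sub_zero, Nat.mul_zero,
    Nat.zero_mul, Nat.zero_add, Nat.mul_one] at o1 o2 o6 h2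
  obtain rfl : k = r.k := by omega
  generalize r.k = k at *
  have hk : k % 120 < 120 := Nat.mod_lt _ (by norm_num)
  rcases hs with s | s <;> rw [s] at o1 o2 o6 ⊢
  · rw [show r.o = k % 120 by omega]
    have q : ∀ (n : ℕ) (u w : ℤ), n ≤ 2 → (n : ℝ) - 1 = w - u → Q4 1 (row >>> (k % 120 * 72) &&&
        26327771615106622073631788543845694075442754821128109490054168575) (n * 72) a a' b b' (120 + u) (k + w) :=
      fun n u w h1 h2 => by
      refine q4_msk (by omega) (Q4.sh ?_)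
      rw [← add_mul]
      refine hR _ (by omega) _ _ (le_of_eq ?_)
      push_cast
      exact co_col k u w _ (by linarith)
    have := And.intro (q 1 0 0 (by norm_num) (by norm_num)) (And.intro (q 1 1 1 (by norm_num) (by norm_num))
      (And.intro (q 2 0 1 (by norm_num) (by norm_num)) (q 0 1 0 (by norm_num) (by norm_num))))
    simp only [add_zero] at this
    exact this
  · rw [show r.o = 120 - k % 120 by omega]
    have q : ∀ (n : ℕ) (u w : ℤ), n ≤ 2 → (n : ℝ) - 1 = u - w → Q4 1 (row >>> ((120 - k % 120) * 72) &&&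
        26327771615106622073631788543845694075442754821128109490054168575) (n * 72) a a' b b' (120 + u) (k + w) :=
      fun n u w h1 h2 => by
      refine q4_msk (by omega) (Q4.sh ?_)
      rw [← add_mul]
      refine hR _ (by omega) _ _ (le_of_eq ?_)
      push_cast [Nat.cast_sub hk.le]
      rw [← co_col k u w _ rfl, ← co_neg, co, co, ← Real.cos_add_two_pi]
      congr 1
      linear_combination (-Real.pi / 60) * h2
    have := And.intro (q 1 0 0 (by norm_num) (by norm_num)) (And.intro (q 1 1 1 (by norm_num) (by norm_num))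
      (And.intro (q 0 0 1 (by norm_num) (by norm_num)) (q 2 1 0 (by norm_num) (by norm_num))))
    simp only [add_zero] at this
    exact this

/-- a step to a cell -/
theorem Fok.stp {row k : ℕ} {a a' b b' : ℝ} (h : Fok r) (hQ : r.tQ = 1) (hS : E.NS H (r.i + r.hi))
    (hx : ∀ ref, r.rf = ref + 2048 → r.x = hx H ref &&& 340282366920938463463374607431768211455)
    (hR : RB 1 row a a' b b')
    (hd : r.d = row >>> (72 * r.o) &&& 26327771615106622073631788543845694075442754821128109490054168575)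
    (hi : r.i + r.hi ≤ 262144) (h1 : r.k ≤ k) (h2 : k < r.ke) : ∃ w0 w1 w2 w3,
      E.Go r.Kc r.j r.c1 r.c2 r.n0 r.n1 r.n2 r.n3 (r.al - r.ke) (r.be - r.k) w0 w1 w2 w3 ∧
      ∀ x x' z z' : ℝ, 0 ≤ x → x ≤ 1 → 0 ≤ x' → x' ≤ 1 → 0 ≤ z → z ≤ 1 → 0 ≤ z' → z' ≤ 1 →
      (r.gL = 1 → x ≤ x') → (r.gI = 1 → z ≤ z') → (r.gO = 1 → z' ≤ z) →
      dd (a + z * (a' - a)) ((120 : ℤ) + x) (b + z' * (b' - b)) ((k : ℤ) + x') + bil w0 w1 w2 w3 x' z' ≤
        bil (bt r.h 0 65535) (bt r.h 72 65535) (bt r.h 18 65535) (bt r.h 90 65535) x z := by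
  have e2 := h.e2
  have hA : r.tA ≤ 1 := bt_le _ _ _
  have hA : r.tA = 1 := by omega
  have b2 : r.j ≤ 15 := bt_le _ _ _
  have b5 : r.k ≤ 255 := bt_le _ _ _
  have b6 := r.ke_le
  have n := (Rc.tq hQ).2.2
  obtain ⟨q0, q1, q2, q3⟩ := h.dist hQ hR hd h1 h2
  obtain ⟨ref, e, g⟩ := h.main (j := r.j) (L := r.n0) (L' := r.n1) (I := r.n2) (O := r.n3) (g := r.ke) (d := r.k)
    hA (by simp [hQ, n]) (by simp [hQ, n]) (by simp [hQ]) (by simp [hQ, n]) (by simp [hQ, n])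
    (by simp [Rc.ga, hQ, n]) (by simp [Rc.de, hQ, n]) (by omega) (bt_le _ _ _) (bt_le _ _ _) (bt_le _ _ _)
    (bt_le _ _ _) (by omega) (by omega) hi
  rw [hx ref e] at g
  have k : ∀ {g : ℕ} {x y : ℝ}, g ≤ 1 → (g = 1 → x ≤ y) → y < x → g = 0 := fun a b c =>
    (b01 a).resolve_right fun d => (b d).not_gt c
  rcases g with ⟨s, g, u⟩ | ⟨s, g, u⟩ <;> obtain ⟨s0, s1, s2, s3⟩ := ss_msk u <;> rw [s] at q2 q3
  · exact ⟨_, _, _, _, (cov_msk g).use hS (h.eb hA) (bt_le _ _ _) (bt_le _ _ _) (bt_le _ _ _),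
      fun _ _ _ _ x0 x1 y0 y1 z0 z1 w0 w1 a b c => four x0 x1 y0 y1 z0 z1 w0 w1
        (fun u => by rw [Rc.mc, hQ, k (g := r.gO) (bt_le _ _ _) c u]) (fun u => by rw [Rc.me, hQ, k (g := r.gI) (bt_le _ _ _) b u])
        (by rw [Rc.a3, hQ, s, Nat.mul_zero]) (fun u => by rw [Rc.a0, hQ, k (g := r.gL) (bt_le _ _ _) a u, Nat.zero_mul])
        q0 q1 q2 q3 s2 s1 s3 s0⟩
  · exact ⟨_, _, _, _, (cov_msk g).use' hS (h.eb hA) (bt_le _ _ _) (bt_le _ _ _) (bt_le _ _ _),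
      fun _ _ _ _ x0 x1 y0 y1 z0 z1 w0 w1 a b c => four x0 x1 y0 y1 z0 z1 w0 w1
        (fun u => by rw [Rc.mc, hQ, k (g := r.gO) (bt_le _ _ _) c u]) (fun u => by rw [Rc.me, hQ, k (g := r.gI) (bt_le _ _ _) b u])
        (by rw [Rc.a0, Rc.ns, hQ, s, Nat.mul_zero]) (fun u => by rw [Rc.a3, hQ, k (g := r.gL) (bt_le _ _ _) a u, Nat.zero_mul])
        q0 q1 q2 q3 s1 s2 s0 s3⟩

/-- a part of the points is left to an earlier node at the same point -/
theorem Fok.sty (h : Fok r) (hQ : r.tQ = 0) (hA : r.tA = 1) (hS : E.NS H (r.i + r.hi))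
    (hx : ∀ ref, r.rf = ref + 2048 → r.x = hx H ref &&& 340282366920938463463374607431768211455)
    (hi : r.i + r.hi ≤ 262144) : E.Go r.Kc r.jp r.c1 r.c2 r.fL 0 r.fI r.fO (r.al - (121 : ℕ)) (r.be - (120 : ℕ))
      (bt r.h 0 65535) (bt r.h 72 65535) (bt r.h 18 65535) (bt r.h 90 65535) := by
  have n : r.nQ = 1 := by rw [Rc.nQ, hQ]
  obtain ⟨ref, e, g⟩ := h.main (j := r.jp) (L := r.fL) (L' := 0) (I := r.fI) (O := r.fO) (g := 121) (d := 120)
    hA (by simp [hQ, n]) (by simp [hQ, n]) (by simp [hQ]) (by simp [hQ, n]) (by simp [hQ, n])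
    (by simp [Rc.ga, hQ, n]) (by simp [Rc.de, hQ, n]) (bt_le _ _ _) (bt_le _ _ _) zero_le_one (bt_le _ _ _)
    (bt_le _ _ _) (by omega) (by omega) hi
  rw [hx ref e] at g
  have k : ∀ {a b c : ℕ}, a + b ≤ c → (b : ℝ) ≤ c := fun h => by exact_mod_cast le_of_add_le_right h
  rcases g with ⟨s, g, u⟩ | ⟨s, g, u⟩ <;> obtain ⟨-, s1, s2, -⟩ := ss_msk u
  · exact ((cov_msk g).use hS (h.eb hA) (bt_le _ _ _) (bt_le _ _ _) (bt_le _ _ _)).le (k (s2.1 rfl)) (k (s1.1 rfl))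
      (k (s2.2.2.2 rfl)) (k (s1.2.2.2 rfl))
  · exact ((cov_msk g).use' hS (h.eb hA) zero_le_one (bt_le _ _ _) (bt_le _ _ _)).le (k (s1.1 rfl))
      (k (s2.1 rfl)) (k (s1.2.2.2 rfl)) (k (s2.2.2.2 rfl))

end Pool.Agent.MP_1037db_co.Q

end

section
set_option exponentiation.threshold 600
set_option linter.unusedSectionVars false
set_option maxRecDepth 4000

/-! Soundness of the checker that treats many test nodes at once. -/

namespace Pool.Agent.MP_1037db_co.Q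

open LP

noncomputable section

variable [G : Geo] {α : Type} [DecidableEq α] {E : Env α} {t : α → ℝ} {p : α} {S : Finset α} {H DT MT : Tr}

/-- the header with number `c * 256 + ` field of the word -/
def hW (H : Tr) (c w : ℕ) : ℕ := hx H ((c * 256 + bt w 8 255) * 8) &&& 340282366920938463463374607431768211455

def xW (H : Tr) (w : ℕ) : ℕ := (if w >>> 87 = 0 then 0 else H.get (w >>> 87 - 1) >>> (bt w 79 255 * 128)) &&&
  340282366920938463463374607431768211455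

def dG (DT : Tr) (XT M r : ℕ) : ℕ := if 512 ≤ r then xe XT ((bt r 4 31 - 1) * 32 + 1) (r % 16) else
  if r = 511 then M else DT.get ((bt r 4 31 - 1) * 32 + r % 16)

def dW (DT : Tr) (XT M w : ℕ) : ℕ := (if bt w 28 1023 = 0 then 0 else dG DT XT M (bt w 28 1023) >>> (72 * bt w 0 255)) &&&
  26327771615106622073631788543845694075442754821128109490054168575

theorem sh_and (Y M p o : ℕ) : 2 ^ p * M &&& Y <<< p >>> o = 2 ^ p * (Y >>> o &&& M) := by
  refine Nat.eq_of_testBit_eq fun i => ?_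
  simp only [Nat.testBit_and, Nat.testBit_two_pow_mul, Nat.testBit_shiftRight, Nat.testBit_shiftLeft]
  by_cases h : p ≤ i
  · rw [show o + i - p = o + (i - p) by omega, Bool.and_comm (Y.testBit _)]
    simp [h, show p ≤ o + i by omega]
  · simp [h]

theorem off7 (w p : ℕ) : 32640 &&& w >>> p = bt w (p + 7) 255 * 128 := by
  rw [Nat.and_comm, ← bt_sh, Nat.mul_comm]
  exact LP.fld _ 7 255

theorem g1_eq (c XT M w : ℕ) : g1 (gH H) (gD DT XT M) (Nat.shiftLeft (H.get c) 225) w =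
    w + 2 ^ 97 * xW H w + 2 ^ 225 * hW H c w + 2 ^ 353 * dW DT XT M w := by
  have e1 : Nat.land (2 ^ 97 * 340282366920938463463374607431768211455) (Nat.rec 0 (fun c _ => Nat.shiftRight (gH H c)
      (Nat.land 32640 (Nat.shiftRight w 72))) (Nat.shiftRight w 87)) = 2 ^ 97 * xW H w := by
    rw [nrec, xW, Nat.shiftRight_eq']
    split_ifs
    · simp
    · exact (sh_and _ _ 97 _).trans (by rw [Nat.land_eq, Nat.shiftRight_eq', off7])
  have e2 : Nat.land (2 ^ 225 * 340282366920938463463374607431768211455) (Nat.shiftRight (Nat.shiftLeft (H.get c) 225)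
      (Nat.land 32640 (Nat.shiftRight w 1))) = 2 ^ 225 * hW H c w := by
    refine (sh_and _ _ 225 _).trans ?_
    have := bt_le w 8 255
    have a : ((c * 256 + bt w 8 255) * 8) >>> 11 = c := by
      rw [Nat.shiftRight_eq_div_pow]
      omega
    have b : ((c * 256 + bt w 8 255) * 8) &&& 2040 = bt w 8 255 * 8 := by
      refine (LP.fld _ 3 255).trans ?_
      rw [show bt ((c * 256 + bt w 8 255) * 8) 3 255 = _ from bt_eq _ 3 8]
      omega
    rw [Nat.land_eq, Nat.shiftRight_eq', off7, hW]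
    change _ = _ * (H.get (_ >>> 11) >>> ((_ &&& 2040) * 16) &&& _)
    rw [a, b, Nat.mul_assoc]
  have e3 : Nat.land (2 ^ 353 * 26327771615106622073631788543845694075442754821128109490054168575)
      (Nat.rec 0 (fun r _ => Nat.shiftRight (gD DT XT M r) (Nat.mul 72 (Nat.land 255 w)))
      (Nat.land 1023 (Nat.shiftRight w 28))) = 2 ^ 353 * dW DT XT M w := by
    rw [nrec, dW, show Nat.land 1023 (Nat.shiftRight w 28) = bt w 28 1023 from Nat.and_comm _ _,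
      show Nat.land 255 w = bt w 0 255 from Nat.and_comm _ _]
    generalize bt w 28 1023 = r
    by_cases h : r = 0
    · simp [h]
    rw [if_neg h, if_neg h]
    refine (sh_and _ _ 353 _).trans ?_
    obtain ⟨r, rfl⟩ := Nat.exists_eq_succ_of_ne_zero h
    simp only [dG, cn_eq, Nat.ble_eq, Nat.beq_eq, Nat.succ_eq_add_one, Nat.add_sub_cancel, Nat.add_eq, Nat.mul_eq,
      Nat.sub_eq, Nat.land_eq, Nat.and_comm 15, and15, Nat.reduceEqDiff, Nat.reduceLeDiff]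
  rw [← e1, ← e2, ← e3, Nat.add_assoc]
  rfl

/-- the record of word number `y` -/
def rcd (H DT : Tr) (XT M c m e n : ℕ) (w : ℕ → ℕ) (y : ℕ) : Rc :=
  ⟨w y, xW H (w y), hW H c (w y), dW DT XT M (w y), if y + 1 < n then w (y + 1) else 0, m, e, c * 256⟩

theorem fs0_ok {XT M c m lo e u v W : ℕ} (hm : m ≤ 16) (he : e ≤ 256) (hc : c * 256 ≤ 262144)
    (h : fs0 (gH H) (gD DT XT M) (Nat.shiftLeft (H.get c) 225) m (c * 256) lo e u v W = true) :
    ∃ n w, (∀ y, w y < 2 ^ 97) ∧ 0 < n ∧ bt (w 0) 8 255 = lo ∧ 1 ≤ bt (w 0) 63 1 + bt (w 0) 65 1 + bt (w 0) 67 1 ∧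
      ∀ y < n, Fok (rcd H DT XT M c m e n w y) := by
  rw [fs0, fb_eq, fb_eq] at h
  obtain ⟨w, hw, e0⟩ := Ga.gr (u := 8192) (g64_ok (gH H) (gD DT XT M) (Nat.shiftLeft (H.get c) 225)) (p := 36864) rfl
    (Ga.gr (u := 2048) (g16_ok _ _ _) (p := 9216) (a := 0) (z := fun _ => 0) rfl
      (fun _ => ⟨fun _ => 0, fun _ => by norm_num, rfl⟩) v) u W
  change fs1 (on (ln 64 (ln 16 0 v) u)) (gr _ 8192 36864 (gr _ 2048 9216 (fun _ => 0) v) u W) _ _ _ _ = true at h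
  generalize ln 64 (ln 16 0 v) u = n, gr _ 8192 36864 (gr _ 2048 9216 (fun _ => 0) v) u W = R at e0 h
  have hO := on_ok n
  generalize on n = O at h hO
  have bx : ∀ y, xW H (w y) < 2 ^ 128 := fun _ => Nat.lt_succ_of_le Nat.and_le_right
  have bh : ∀ y, hW H c (w y) < 2 ^ 128 := fun _ => Nat.lt_succ_of_le Nat.and_le_right
  have bd : ∀ y, dW DT XT M (w y) ≤ _ := fun _ => Nat.and_le_right
  have hR : PB n R (fun y => w y + 2 ^ 97 * xW H (w y) + 2 ^ 225 * hW H c (w y) + 2 ^ 353 * dW DT XT M (w y))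
      (2 ^ 569) := ⟨e0.trans (pw_congr fun y _ => g1_eq _ _ _ _), fun y _ => by
    have := hw y
    have := bx y
    have := bh y
    have := bd y
    dsimp only
    omega⟩
  have k : ∀ y, (w y + 2 ^ 97 * xW H (w y) + 2 ^ 225 * hW H c (w y) + 2 ^ 353 * dW DT XT M (w y)) % 2 ^ 97 = w y :=
    fun y => by
    have := hw y
    omega
  have p1 := (hO.msk 158456325028528675187087900671 hR (by norm_num) (by norm_num)).congr (g := w)
    (b := 158456325028528675187087900671)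
    (fun y _ => (Nat.and_two_pow_sub_one_eq_mod _ 97).trans (k y)) fun y _ => Nat.le_of_lt_succ (hw y)
  have p2 := (hO.fld 97 340282366920938463463374607431768211455 hR (by norm_num) (by norm_num)).congr
    (g := fun y => xW H (w y)) (b := 340282366920938463463374607431768211455) (fun y _ => (bt_eq _ 97 128).trans (by
      have := hw y
      have := bx y
      omega)) fun y _ => Nat.and_le_right
  have p3 := (hO.fld 225 340282366920938463463374607431768211455 hR (by norm_num) (by norm_num)).congr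
    (g := fun y => hW H c (w y)) (b := 340282366920938463463374607431768211455)
    (fun y _ => (bt_eq _ 225 128).trans (by
      have := hw y
      have := bx y
      have := bh y
      omega)) fun y _ => Nat.and_le_right
  have p4 := (hO.fld 353 26327771615106622073631788543845694075442754821128109490054168575 hR (by norm_num)
    (by norm_num)).congr (g := fun y => dW DT XT M (w y)) (fun y _ => by
      have := hw y
      have := bx y
      have := bh y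
      rw [bt, Nat.land_eq, Nat.shiftRight_eq', Nat.shiftRight_eq_div_pow,
        show _ / 2 ^ 353 = dW DT XT M (w y) by omega, dW, Nat.and_assoc, Nat.and_self]) fun y _ => bd y
  have p5 := (hO.msk 158456325028528675187087900671 (hR.next (by norm_num)) (by norm_num) (by norm_num)).congr
    (g := fun y => if y + 1 < n then w (y + 1) else 0) (b := 158456325028528675187087900671) (fun y _ => by
      split_ifs
      exacts [(Nat.and_two_pow_sub_one_eq_mod _ 97).trans (k _), Nat.zero_and _]) fun y _ => by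
    split_ifs
    exacts [Nat.le_of_lt_succ (hw _), Nat.zero_le _]
  obtain ⟨a, h⟩ := an_iff.1 h
  obtain ⟨a1, a2⟩ := an_iff.1 a
  have a1 : bt R 8 255 = lo := Nat.eq_of_beq_eq_true a1
  have a2 : 1 ≤ bt R 63 1 + bt R 65 1 + bt R 67 1 := Nat.le_of_ble_eq_true a2
  have hd : ∀ p v, 2 ^ p * v < 2 ^ 97 → bt R p v = if 0 < n then bt (w 0) p v else 0 := fun p v u => by
    rw [hR.head (by norm_num) (u.trans (by norm_num))]
    congr 1
    have := and_dig (A := xW H (w 0) + 2 ^ 128 * hW H c (w 0) + 2 ^ 256 * dW DT XT M (w 0)) (B := 0) (hw 0) u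
    rw [Nat.mul_zero, Nat.add_zero, Nat.and_zero, Nat.mul_zero, Nat.add_zero, LP.fld, LP.fld] at this
    refine Eq.trans (congrArg (bt · p v) ?_) (Nat.eq_of_mul_eq_mul_left (Nat.two_pow_pos p) this)
    ring
  rw [hd _ _ (by norm_num)] at a1
  rw [hd _ _ (by norm_num), hd _ _ (by norm_num), hd _ _ (by norm_num)] at a2
  have n0 : 0 < n := by
    by_contra u
    simp [u] at a2
  simp only [if_pos n0] at a1 a2
  exact ⟨n, w, hw, n0, a1, a2, fun y hy => ok_of (z0_ok (ρ := rcd H DT XT M c m e n w) hO p1 p2 p3 p4 p5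
    ((hO.cst m).congr (fun _ _ => rfl) fun _ _ => hm) ((hO.cst e).congr (fun _ _ => rfl) fun _ _ => he)
    ((hO.cst _).congr (fun _ _ => rfl) fun _ _ => hc) h y hy)⟩

/-- words of the same node -/
structure Sm (r r' : Rc) : Prop where
  hi : r'.hi = r.hi
  sb : r'.sb = r.sb
  n0 : r'.n0 = r.n0
  n1 : r'.n1 = r.n1
  n2 : r'.n2 = r.n2
  n3 : r'.n3 = r.n3
  h : r'.h = r.h

theorem Sm.trans {a b c : Rc} (h : Sm a b) (k : Sm b c) : Sm a c :=
  ⟨k.hi.trans h.hi, k.sb.trans h.sb, k.n0.trans h.n0, k.n1.trans h.n1, k.n2.trans h.n2, k.n3.trans h.n3,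
    k.h.trans h.h⟩

theorem Sm.bx {a b : Rc} (h : Sm a b) : b.chi = a.chi ∧ b.clo = a.clo ∧ b.jlo = a.jlo := by
  simp only [Rc.chi, Rc.clo, Rc.jlo, Rc.a, Rc.b, Rc.hb, Rc.j1, h.sb, h.n0, h.n1, h.n3, h.h, and_self]

/-- the side of a cut -/
def Sp (E : Env α) (t : α → ℝ) (r : Rc) (s : α) : Prop := (r.sA = 1 → r.cs ≤ t s) ∧ (r.sB = 1 → t s ≤ r.cs) ∧
  (r.s1 = 1 → E.r r.cs ≤ E.ρ s) ∧ (r.s2 = 1 → E.ρ s ≤ E.r r.cs)

theorem compl {a b c d : ℕ} {x y u v : ℝ} (h : a + c + b + d = 1)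
    (n : ¬((a = 1 → x ≤ y) ∧ (b = 1 → y ≤ x) ∧ (c = 1 → u ≤ v) ∧ (d = 1 → v ≤ u))) :
    (b = 1 → x ≤ y) ∧ (a = 1 → y ≤ x) ∧ (d = 1 → u ≤ v) ∧ (c = 1 → v ≤ u) := by
  refine ⟨fun e => ?_, fun e => ?_, fun e => ?_, fun e => ?_⟩ <;> refine not_lt.1 fun g => n ⟨?_, ?_, ?_, ?_⟩ <;>
    intro f <;> first | exact absurd f (by omega) | exact g.le

theorem bt3 (w p : ℕ) : bt w p 3 = bt w p 1 + 2 * bt w (p + 1) 1 := by
  have e : ∀ q k, bt w (p + q) (2 ^ k - 1) = _ := fun q k => (bt_sh w p q _).symm.trans (bt_eq _ q k)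
  have a : bt w p 3 = _ := e 0 2
  have b : bt w p 1 = _ := e 0 1
  have c : bt w (p + 1) 1 = _ := e 1 1
  omega

section
variable {n e : ℕ} {ρ : ℕ → Rc} (ok : ∀ y < n, Fok (ρ y))
  (nx : ∀ y, (ρ y).u = if y + 1 < n then (ρ (y + 1)).w else 0)
  (hh : ∀ y y', (ρ y').hi = (ρ y).hi → (ρ y').h = (ρ y).h)
include ok nx hh

theorem link {y : ℕ} (hy : y < n) (h : 1 ≤ (ρ y).nc + (ρ y).nr) : y + 1 < n ∧ (ρ (y + 1)).tE = 1 ∧
    Sm (ρ y) (ρ (y + 1)) ∧ (ρ y).je ≤ (ρ (y + 1)).j + (ρ y).nr ∧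
    (ρ (y + 1)).k ≤ (ρ y).nc * (ρ y).kc + (ρ y).nr * (ρ y).clo ∧ (ρ y).nc + (ρ y).nr ≤ 1 := by
  have l1 := (ok y hy).l1
  have b : (ρ y).uE ≤ 1 := bt_le _ _ _
  have u : (ρ y).uE = 1 := by omega
  have l3 := (ok y hy).l3
  have c1 := (ok y hy).c1_ u
  have c2 := (ok y hy).c2_ u
  rw [u, Nat.one_mul, Nat.one_mul] at l3
  rw [Rc.uE, nx] at u
  rw [Rc.uj, nx] at c1
  rw [Rc.uk, nx] at c2
  rw [nx] at l3
  split_ifs at u c1 c2 l3 with v
  · have k : ∀ p m, bt 1048575 p m = m → bt (ρ (y + 1)).w (8 + p) m = bt (ρ y).w (8 + p) m := fun p m a => by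
      rw [← bt_sh, ← bt_sh, ← bt_and a, ← bt_and a (_ >>> _)]
      exact congrArg (bt · p m) l3.symm
    exact ⟨v, u, ⟨k 0 _ (by decide), k 8 _ (by decide), k 16 _ (by decide), k 18 _ (by decide), k 17 _ (by decide),
      k 19 _ (by decide), hh _ _ (k 0 _ (by decide))⟩, c1, c2, by omega⟩
  · exact absurd u (by decide)

theorem pair {y : ℕ} (hy : y < n) (h : (ρ y).tP = 1) : y + 1 < n ∧ (ρ y).u = (ρ (y + 1)).w ∧
    Sm (ρ y) (ρ (y + 1)) ∧ (ρ y).tA = 1 ∧ (ρ y).tQ = 0 ∧ (ρ y).tW = 0 ∧ (ρ (y + 1)).tW = 0 ∧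
    ∀ s, ¬ Sp E t (ρ y) s → Sp E t (ρ (y + 1)) s := by
  have o := ok y hy
  obtain ⟨p2, p3, e8⟩ := And.intro o.p2 (And.intro o.p3 o.e8)
  rw [h] at p2 p3
  simp only [Rc.tP, mul_eq_one, Rc.nQ] at h
  obtain ⟨v, -, u, -⟩ := link ok nx hh hy (by omega)
  have e := (nx y).trans (if_pos v)
  have e8' := (ok _ v).e8
  rw [Rc.ua, Rc.ub, e, bt3, bt3, Nat.one_mul, Nat.one_mul] at p2
  change _ = (ρ (y + 1)).cs + 256 * ((ρ (y + 1)).sB + 2 * (ρ (y + 1)).s2) +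
    1024 * ((ρ (y + 1)).sA + 2 * (ρ (y + 1)).s1) at p2
  have b : ∀ r : Rc, r.cs ≤ 255 ∧ r.sA ≤ 1 ∧ r.s1 ≤ 1 ∧ r.sB ≤ 1 ∧ r.s2 ≤ 1 := fun r =>
    ⟨bt_le _ _ _, bt_le _ _ _, bt_le _ _ _, bt_le _ _ _, bt_le _ _ _⟩
  have b1 := b (ρ y)
  have b2 := b (ρ (y + 1))
  rw [Rc.ss] at p3 e8 e8'
  have k : ∀ a b c a' b' c' : ℕ, a ≤ 255 → a' ≤ 255 → b ≤ 3 → b' ≤ 3 →
    a + 256 * b + 1024 * c = a' + 256 * b' + 1024 * c' → a = a' ∧ b = b' ∧ c = c' := by omega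
  have k := k _ _ _ _ _ _ b1.1 b2.1 (by omega) (by omega) p2
  clear p2
  refine ⟨v, e, u, h.1.1, by omega, by omega, by omega, fun s a => ?_⟩
  rw [Sp, show (ρ (y + 1)).cs = (ρ y).cs by omega, show (ρ (y + 1)).sA = (ρ y).sB by omega,
    show (ρ (y + 1)).sB = (ρ y).sA by omega, show (ρ (y + 1)).s1 = (ρ y).s2 by omega,
    show (ρ (y + 1)).s2 = (ρ y).s1 by omega]
  exact compl (by omega) a

theorem cover {j k : ℕ} : ∀ d y, n ≤ y + d → y < n →
    (ρ y).tE = 1 → (ρ y).jlo ≤ j → j ≤ (ρ y).j → (ρ y).clo ≤ k → k < (ρ y).chi → (j = (ρ y).j → (ρ y).k ≤ k) →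
    ∃ y', y ≤ y' ∧ y' < n ∧ Sm (ρ y) (ρ y') ∧ (ρ y').j = j ∧ (ρ y').k ≤ k ∧ k < (ρ y').kc := by
  intro d
  induction d with
  | zero => exact fun y a b => absurd b a.not_gt
  | succ d ih =>
    intro y a hy hE a1 a2 a3 a4 a5
    by_cases c : j = (ρ y).j ∧ k < (ρ y).kc
    · exact ⟨y, le_rfl, hy, ⟨rfl, rfl, rfl, rfl, rfl, rfl, rfl⟩, c.1.symm, a5 c.1, c.2⟩
    have c3 := (ok y hy).c3
    have c4 := (ok y hy).c4
    have e1 := (ok y hy).e1
    have hT : (ρ y).tT = 0 := by omega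
    have b1 : (ρ y).nc ≤ 1 := bt_le _ _ _
    have b2 : (ρ y).nr ≤ 1 := bt_le _ _ _
    rw [Rc.en, hE, Nat.one_mul] at c3 c4
    by_cases u : 1 ≤ (ρ y).nc + (ρ y).nr
    · obtain ⟨v, u1, u2, u3, u4, u5⟩ := link ok nx hh hy u
      obtain ⟨f1, f2, f3⟩ := u2.bx
      rw [Rc.je, hE, hT] at u3
      obtain ⟨y', g0, g1, g3, g4⟩ := ih (y + 1) (by omega) v u1 (f3 ▸ a1)
        (by rcases b01 b2 with c | c <;> omega) (f2 ▸ a3) (f1 ▸ a4) fun g => by
          rcases b01 b1 with c | c <;> rcases b01 b2 with c' | c' <;> rw [c, c'] at u4 <;> omega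
      exact ⟨y', by omega, g1, u2.trans g3, g4⟩
    · rw [show (ρ y).nc = 0 by omega] at c3 c4
      rw [show (ρ y).nr = 0 by omega] at c4
      omega

theorem nodes (he : ∀ y, (ρ y).e = e) {i : ℕ} (hi : i < e) : ∀ d y, n ≤ y + d → y < n →
    1 ≤ (ρ y).tT + (ρ y).tE + (ρ y).tS + (ρ y).tL → (ρ y).hi < i →
    ∃ y' < n, (ρ y').hi = i ∧ 1 ≤ (ρ y').tS + (ρ y').tT + (ρ y').tL := by
  intro d
  induction d with
  | zero => exact fun y a b => absurd b a.not_gt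
  | succ d ih =>
    intro y a hy a1 a2
    by_cases u : 1 ≤ (ρ y).nc + (ρ y).nr
    · obtain ⟨v, u1, u2, -⟩ := link ok nx hh hy u
      exact ih (y + 1) (by omega) v (by omega) (u2.hi ▸ a2)
    have l5 := (ok y hy).l5
    have l2 := (ok y hy).l2
    have l4 := (ok y hy).l4
    have b : (ρ y).nx ≤ 1 := bt_le _ _ _
    rw [he] at l5
    rw [show (ρ y).nx = 1 by omega, Nat.one_mul, Nat.one_mul, nx] at l4
    rw [show (ρ y).nx = 1 by omega, nx] at l2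
    split_ifs at l2 l4 with v
    · change 1 ≤ (ρ (y + 1)).tT + (ρ (y + 1)).tS + (ρ (y + 1)).tL at l2
      change (ρ (y + 1)).hi = _ at l4
      rcases eq_or_lt_of_le (show (ρ (y + 1)).hi ≤ i by omega) with g | g
      · exact ⟨y + 1, v, g, by omega⟩
      · exact ih (y + 1) (by omega) v (by omega) g
    · exact absurd l2 (by decide)

end

theorem xW_eq {w ref : ℕ} (hw : w < 2 ^ 97) (h : bt w 76 2097151 = ref + 2048) :
    xW H w = hx H ref &&& 340282366920938463463374607431768211455 := by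
  rw [show bt w 76 2097151 = _ from bt_eq w 76 21] at h
  have a : w >>> 87 = ref >>> 11 + 1 := by
    simp only [Nat.shiftRight_eq_div_pow]
    omega
  have b : ref &&& 2040 = bt w 79 255 * 8 := by
    refine (LP.fld _ 3 255).trans ?_
    rw [show bt ref 3 255 = _ from bt_eq _ 3 8, show bt w 79 255 = _ from bt_eq _ 79 8]
    omega
  rw [xW, a, if_neg (Nat.succ_ne_zero _), Nat.add_sub_cancel]
  change _ = H.get (ref >>> 11) >>> ((ref &&& 2040) * 16) &&& _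
  rw [b, Nat.mul_assoc]

variable {M c m e n XT SS s4 s5 R jn k : ℕ} {w : ℕ → ℕ} {r : Rc} {q s : α}

/-- the conditions that come from the choice of an extreme point -/
def Nn (E : Env α) (t : α → ℝ) (r : Rc) (k : ℕ) (s : α) : Prop := (r.sA = 0 → r.n0 = 1 → k ≤ t s) ∧
  (r.sB = 0 → r.n1 = 1 → t s ≤ k + 1) ∧ (r.s1 = 0 → r.n2 = 1 → E.r r.j ≤ E.ρ s) ∧
  (r.s2 = 0 → r.n3 = 1 → E.ρ s ≤ E.r (r.j + 1))

/-- the points of a node -/
def In (E : Env α) (t : α → ℝ) (h : ℕ) (p s : α) : Prop :=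
  E.Bx t (bt h 108 255) (255 - bt h 119 255 : ℕ) (bt h 46 31) (31 - bt h 52 31) s ∧
    E.Fl t p (bt h 60 1) 0 (bt h 62 1) (bt h 64 1) s

def vl (E : Env α) (t : α → ℝ) (h : ℕ) (p : α) : ℝ := hv h (t p - (120 : ℤ)) (E.fr (bt h 40 31) p)

theorem nn_of (hq : E.At t k r.j q) (hf : E.Fl t q r.n0 r.n1 r.n2 r.n3 s) : Nn E t r k s :=
  ⟨fun _ a => (by exact_mod_cast hq.a : (k : ℝ) ≤ _).trans (hf.l a), fun _ a => (hf.r a).trans (by exact_mod_cast hq.b),
    fun _ a => hq.lo.trans (hf.i a), fun _ a => (hf.o a).trans hq.hi⟩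

theorem sel2 {t u x y z : ℕ} (P : ℕ → Prop) (ht : t ≤ 1) (hu : u ≤ 1) (a : t = 1 → P x)
    (b : t = 0 → u = 1 → P y) (c : P z) : P (t * x + (1 - t) * (u * y + (1 - u) * z)) := by
  rcases b01 ht with rfl | rfl <;> rcases b01 hu with rfl | rfl <;> simp_all

theorem box (h1 : r.k ≤ k) (h2 : k < r.ke) (hb : In E t r.h p s) (hs : Sp E t r s) (hn : Nn E t r k s) :
    E.Bx t (k + (r.al - r.ke)) (k + (r.be - r.k)) r.c1 r.c2 s := by
  have a : (r.k : ℝ) ≤ k := by exact_mod_cast h1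
  have b : (k : ℝ) + 1 ≤ r.ke := by exact_mod_cast h2
  have c : (r.a : ℝ) ≤ _ := hb.1.a
  have d : _ ≤ (r.b : ℝ) := hb.1.b
  exact ⟨sel2 (fun v => k + ((v : ℝ) - r.ke) ≤ t s) (bt_le _ _ _) (bt_le _ _ _)
      (fun g => by push_cast; linarith [hs.1 g]) (fun g g' => by linarith [hn.1 g g']) (by push_cast; linarith),
    sel2 (fun v => t s ≤ k + ((v : ℝ) - r.k)) (bt_le _ _ _) (bt_le _ _ _) (fun g => by linarith [hs.2.1 g])
      (fun g g' => by push_cast; linarith [hn.2.1 g g']) (by linarith),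
    sel2 (fun v => E.r v ≤ E.ρ s) (bt_le _ _ _) (bt_le _ _ _) hs.2.2.1 hn.2.2.1 hb.1.lo,
    sel2 (fun v => E.ρ s ≤ E.r v) (bt_le _ _ _) (bt_le _ _ _) hs.2.2.2 hn.2.2.2 hb.1.hi⟩

/-- the data in a record -/
structure Rk (H DT : Tr) (XT M c : ℕ) (r : Rc) : Prop where
  x : ∀ ref, r.rf = ref + 2048 → r.x = hx H ref &&& 340282366920938463463374607431768211455
  d : r.d = dW DT XT M r.w
  i : r.i = c

theorem Rc.kw (h : r.tW = 0) : r.ke = r.k + 1 := by rw [Rc.ke, Rc.wi, h, Nat.zero_mul]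

theorem Fok.pw (h : Fok r) (g : Rk H DT XT M c r) (hQ : r.tQ = 0) (hA : r.tA = 1) (hW : r.tW = 0)
    (hS : E.NS H (c + r.hi)) (hi : c + r.hi ≤ 262144) (ht : E.Ch t) (hp : E.At t 120 (bt r.h 40 31) p) (hpS : p ∉ S)
    (hin : ∀ s ∈ S, In E t r.h p s ∧ Sp E t r s ∧ Nn E t r r.k s) : WK E.D (r.Kc + 1) p S (vl E t r.h p) := by
  have e := Rc.kw hW
  refine (h.sty hQ hA (g.i ▸ hS) g.x (g.i ▸ hi)).app ht hp hpS (fun s hs => ⟨box le_rfl (by omega) (hin s hs).1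
    (hin s hs).2.1 (hin s hs).2.2, (hin s hs).1.2⟩) ?_ ?_
  · rw [e]
    push_cast
    linarith
  · push_cast
    linarith

theorem Fok.rp (h : Fok r) (hV : r.tV = 1) : bt r.w 28 1023 = 512 * r.tZ + (r.jp + 1) * 16 + r.j ∧ r.j ≤ 15 ∧
    r.jp + 1 ≤ 31 := by
  have n1 := h.n1_
  rw [hV, Nat.one_mul, Nat.one_mul] at n1
  rw [← n1, Rc.jq, Rc.j, Rc.tZ, show bt _ 28 1023 = _ from bt_eq _ 28 10, show bt _ 32 31 = _ from bt_eq _ 32 5,
    show bt _ 28 15 = _ from bt_eq _ 28 4, show bt _ 37 1 = _ from bt_eq _ 37 1]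
  omega

theorem Fok.qw (h : Fok r) (g : Rk H DT XT M c r) (hQ : r.tQ = 1) (hS : E.NS H (c + r.hi))
    (hi : c + r.hi ≤ 262144) (hT : E.TB DT m) (hm : m ≤ 16) (a : r.jp < m) (b : r.j < m) (h1 : r.k ≤ k)
    (h2 : k < r.ke) (ht : E.Ch t) (hp : E.At t 120 r.jp p) (hq : E.At t k r.j q) (hf : In E t r.h p q) :
    ∃ T, E.D p q + T ≤ vl E t r.h p ∧ ∀ S : Finset α, q ∉ S → (∀ s ∈ S, In E t r.h p s ∧ Sp E t r s ∧
      E.Fl t q r.n0 r.n1 r.n2 r.n3 s) → WK E.D (r.Kc + 1) q S T := by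
  obtain ⟨hV, hZ, -⟩ := Rc.tq hQ
  obtain ⟨e, e1, -⟩ := h.rp hV
  rw [hZ] at e
  obtain ⟨w0, w1, w2, w3, u, v⟩ := h.stp hQ (g.i ▸ hS) g.x (hT _ a _ b) (by
    rw [g.d, dW, e, if_neg (by omega), dG, if_neg (by omega), if_neg (by omega), dr, Nat.add_eq,
      Nat.add_right_comm _ 1, show bt _ 4 31 = _ from bt_eq _ 4 5]
    congr 3
    omega) (g.i ▸ hi) h1 h2
  obtain ⟨g1, g2, g3, e9⟩ := And.intro h.g1 (And.intro h.g2 (And.intro h.g3 h.e9))
  have b1 : r.fI ≤ 1 := bt_le _ _ _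
  have b2 : r.fO ≤ 1 := bt_le _ _ _
  have b3 : r.fL ≤ 1 := bt_le _ _ _
  have v := v _ _ _ _ hp.x0 hp.x1 hq.x0 hq.x1 hp.f0 hp.f1 hq.f0 hq.f1 (fun x => by
      rw [x, show r.gI = 0 by omega, show r.gO = 0 by omega] at g1
      rw [x] at g3
      have := Rc.kw (show r.tW = 0 by omega)
      rw [show k = 120 by omega]
      exact sub_le_sub_right (hf.2.l (show r.fL = 1 by omega)) _) (fun x => by
      rw [x, show r.gO = 0 by omega] at g1 g2
      rw [show r.gL = 0 by omega] at g1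
      rw [show r.j = r.jp by omega]
      exact E.fr_le (hf.2.i (show r.fI = 1 by omega))) fun x => by
      rw [x, show r.gI = 0 by omega] at g1 g2
      rw [show r.gL = 0 by omega] at g1
      rw [show r.j = r.jp by omega]
      exact E.fr_le (hf.2.o (show r.fO = 1 by omega))
  rw [← ht.eq] at v
  exact ⟨_, (add_le_add_left (E.le p q) _).trans v, fun S a b => u t ht k q S hq a fun s hs =>
    ⟨box h1 h2 (b s hs).1 (b s hs).2.1 (nn_of hq (b s hs).2.2), (b s hs).2.2⟩⟩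

theorem Fok.zw (h : Fok r) (g : Rk H DT XT M c r) (hZ : r.tZ = 1) (hI : IQ E m jn XT SS s4 s5) (ho : xok XT = true)
    (hm : m ≤ 16) (a : r.jp < m) (b : r.j < m) (h1 : r.k ≤ k) (h2 : k < r.ke) (ht : E.Ch t) (n : p ≠ q)
    (hp : E.At t 120 r.jp p) (hq : E.At t k r.j q) : False := by
  have e7 := h.e7
  have b1 : r.tV ≤ 1 := bt_le _ _ _
  have b2 : r.tW ≤ 1 := bt_le _ _ _
  obtain ⟨e, e1, e2⟩ := h.rp (by omega)
  obtain ⟨o1, -, o3⟩ := h.kc (by omega) (by omega)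
  have n6 := h.n6 hZ
  rw [hZ] at e
  rw [g.d, dW, bt_and (by decide), e, if_neg (by omega), dG, if_pos (by omega), show bt _ 4 31 = _ from bt_eq _ 4 5,
    show (512 * 1 + (r.jp + 1) * 16 + r.j) / 2 ^ 4 % 2 ^ 5 - 1 = r.jp by omega,
    show (512 * 1 + (r.jp + 1) * 16 + r.j) % 16 = r.j by omega] at n6
  have n6 : _ ≤ xe _ _ _ := n6.trans (Nat.and_le_left.trans ((Nat.shiftRight_le _ 0).trans (Nat.shiftRight_le _ _)))
  have u := hI.pair t ht p q n _ _ _ a _ b hp hq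
  have o : ∀ x y : ℤ, x = 120 ∨ x = 120 + 1 → y = k ∨ y = k + 1 → fz (x - y) ≤ r.oe - 1 :=
    fun x y hx hy => fz_of_co (by simpa [Nat.cast_sub o1] using o3 k h1 h2 x y hx hy)
  have a1 := o _ _ (.inl rfl) (.inr rfl)
  have a2 := o _ _ (.inr rfl) (.inl rfl)
  have a3 := o _ _ (.inl rfl) (.inl rfl)
  have := al_iff.1 (al_iff.1 ho _ (a.trans_le hm)) _ (b.trans_le hm)
  simp only [Bool.not_eq_true', Nat.add_eq, Nat.mul_eq] at this
  have := Nat.ne_of_beq_eq_false this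
  unfold XX fz at u
  unfold fz at a1 a2 a3
  omega

theorem extr {a b c d : ℕ} (E : Env α) (t : α → ℝ) (h : S.Nonempty) (e : a + b + c + d = 1) :
    ∃ q ∈ S, ∀ s ∈ S, E.Fl t q a b c d s := by
  obtain ⟨rfl, rfl, rfl, rfl⟩ | ⟨rfl, rfl, rfl, rfl⟩ | ⟨rfl, rfl, rfl, rfl⟩ | ⟨rfl, rfl, rfl, rfl⟩ :
    a = 1 ∧ b = 0 ∧ c = 0 ∧ d = 0 ∨ a = 0 ∧ b = 1 ∧ c = 0 ∧ d = 0 ∨ a = 0 ∧ b = 0 ∧ c = 1 ∧ d = 0 ∨
      a = 0 ∧ b = 0 ∧ c = 0 ∧ d = 1 := by omega
  exacts [extreme E t h 0, extreme E t h 1, extreme E t h 2, extreme E t h 3]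

section
variable {ρ : ℕ → Rc} (ok : ∀ y < n, Fok (ρ y))
  (nx : ∀ y, (ρ y).u = if y + 1 < n then (ρ (y + 1)).w else 0)
  (hh : ∀ y y', (ρ y').hi = (ρ y).hi → (ρ y').h = (ρ y).h) (rk : ∀ y, Rk H DT XT M c (ρ y))
  {y : ℕ} (hy : y < n) (hS : E.NS H (c + (ρ y).hi)) (hi : c + (ρ y).hi ≤ 262144)
include ok nx hh rk hy hS hi

theorem ln_go (tL : (ρ y).tL = 1) : E.Sem (ρ y).h := by
  have o := ok y hy
  obtain ⟨p1, p8, ta, e1⟩ := And.intro o.p1 (And.intro (o.p8 tL) (And.intro o.ta o.e1))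
  have b : (ρ y).tP ≤ 1 := m01 (m01 (bt_le _ _ _) (Nat.sub_le _ _)) (m01 (Nat.sub_le _ _) (bt_le _ _ _))
  have tP : (ρ y).tP = 1 := by omega
  have p4 := o.p4 tP
  refine Env.Go.of fun t ht p S hp hpS hin => ?_
  obtain ⟨v, e, u, a1, a2, a3, a4, a5⟩ := pair (E := E) (t := t) ok nx hh hy tP
  rw [tL, show (ρ y).tT = 0 by omega] at ta
  rw [tL, Rc.uK, e] at p4
  rw [Rc.uV, e] at p8
  change (ρ (y + 1)).tV + 1 ≤ (ρ (y + 1)).tA at p8
  have b : (ρ (y + 1)).tA ≤ 1 := bt_le _ _ _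
  have nn : ∀ r : Rc, Sm (ρ y) r → ∀ s, Nn E t r r.k s := fun r g s =>
    ⟨fun _ x => absurd (g.n0 ▸ x) (by omega), fun _ x => absurd (g.n1 ▸ x) (by omega),
      fun _ x => absurd (g.n2 ▸ x) (by omega), fun _ x => absurd (g.n3 ▸ x) (by omega)⟩
  refine (WK.cut (Sp E t (ρ y)) (fun S' g => o.pw (rk y) a2 a1 a3 hS hi ht hp (fun x => hpS (g p x).1) fun s hs =>
    ⟨hin s (g s hs).1, (g s hs).2, nn _ ⟨rfl, rfl, rfl, rfl, rfl, rfl, rfl⟩ s⟩) fun S' g => u.h ▸ (ok _ v).pw (rk _)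
      (by rw [Rc.tQ, show (ρ (y + 1)).tV = 0 by omega, Nat.zero_mul]) (by omega) a4 (u.hi ▸ hS) (u.hi ▸ hi) ht
      (u.h ▸ hp) (fun x => hpS (g p x).1) fun s hs => ⟨u.h ▸ hin s (g s hs).1, a5 s (g s hs).2, nn _ u s⟩).mono ?_ le_rfl
  change _ + 1 * (ρ (y + 1)).Kc ≤ _ at p4
  change _ ≤ (ρ y).K + 1
  omega

theorem tn_go (hT : E.TB DT m) (hI : IQ E m jn XT SS s4 s5) (ho : xok XT = true) (hm : m ≤ 16)
    (mm : (ρ y).m = m) (tT : (ρ y).tT = 1) : E.Sem (ρ y).h := by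
  have o := ok y hy
  obtain ⟨e1, e3, e6, e8, ta⟩ := And.intro o.e1 (And.intro o.e3 (And.intro o.e6 (And.intro o.e8 o.ta)))
  obtain ⟨v, u1, u2, u3, u4, u5⟩ := link ok nx hh hy (by omega)
  obtain ⟨t1, t2, t5⟩ := And.intro (o.t1 tT) (And.intro (o.t2 tT) (o.t5 tT))
  rw [mm] at t1 t2
  rw [tT, show (ρ y).tL = 0 by omega] at ta
  rw [Rc.je, tT, show (ρ y).tE = 0 by omega] at u3
  rw [show (ρ y).nr = 1 by omega] at u3 u4
  rw [show (ρ y).nc = 0 by omega] at u4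
  refine Env.Go.of fun t ht p S hp hpS hin => ?_
  change WK _ ((ρ y).K + 1) _ _ (vl E t (ρ y).h p)
  change ∀ s ∈ S, In E t (ρ y).h p s at hin
  change E.At t 120 (ρ y).jp p at hp
  rcases S.eq_empty_or_nonempty with rfl | hne
  · exact WK.empty (bil_nn hp _ _ _ _)
  obtain ⟨q, hq, hf⟩ := extr (a := (ρ y).n0) (b := (ρ y).n1) (c := (ρ y).n2) (d := (ρ y).n3) E t hne (by omega)
  have hqb := hin q hq
  by_cases hsl : E.Bx t (ρ y).clo (ρ y).chi (ρ y).jlo (ρ y).jhi q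
  swap
  · rcases b01 (show (ρ y).tA ≤ 1 from bt_le _ _ _) with g | g
    · have f : (ρ y).tF = 1 := by rw [Rc.tF, tT, g]
      exact absurd (hqb.1.mono (Nat.cast_le.2 (o.t6 f)) (Nat.cast_le.2 (o.t7 f)) (o.t9 f) (o.t8 f)) hsl
    have tb := o.tb
    rw [Rc.tR, tT, g, Nat.one_mul, Nat.one_mul] at tb
    have k : ∀ p m, bt 4095 p m = m → bt (ρ y).w (46 + p) m = bt (ρ y).w (16 + p) m := fun p m a => by
      rw [← bt_sh, ← bt_sh, ← bt_and a, ← bt_and a (_ >>> _)]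
      exact congrArg (bt · p m) tb.symm
    have f0 : (ρ y).cs = (ρ y).sb := k 0 _ (by decide)
    have f1 : (ρ y).sA = (ρ y).n0 := k 8 _ (by decide)
    have f2 : (ρ y).s1 = (ρ y).n2 := k 9 _ (by decide)
    have f3 : (ρ y).sB = (ρ y).n1 := k 10 _ (by decide)
    have f4 : (ρ y).s2 = (ρ y).n3 := k 11 _ (by decide)
    have tQ : (ρ y).tQ = 0 := by rw [Rc.tQ, show (ρ y).tV = 0 by omega, Nat.zero_mul]
    have k1 := o.k1 g
    rw [Rc.ss] at e8
    refine (o.pw (rk y) tQ g (by omega) hS hi ht hp hpS fun s hs => ⟨hin s hs, ?_, fun a b => by omega,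
      fun a b => by omega, fun a b => by omega, fun a b => by omega⟩).mono (by omega) le_rfl
    rw [Sp, f0, f1, f2, f3, f4]
    rw [Rc.clo, Rc.chi, Rc.jlo, Rc.jhi] at hsl
    obtain ⟨g0, g1, g2, g3⟩ := hf s hs
    obtain ⟨q0, q1, q2, q3⟩ := hqb.1
    refine ⟨fun a => ?_, fun a => ?_, fun a => ?_, fun a => ?_⟩ <;> refine not_lt.1 fun b => hsl ?_
    · rw [a, show (ρ y).n1 = 0 by omega, show (ρ y).n2 = 0 by omega, show (ρ y).n3 = 0 by omega]
      simp only [Nat.one_mul, Nat.zero_mul, Nat.sub_self, Nat.sub_zero, Nat.add_zero, Nat.zero_add]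
      exact ⟨q0, (g0 a).trans b.le, q2, q3⟩
    · rw [a, show (ρ y).n0 = 0 by omega, show (ρ y).n2 = 0 by omega, show (ρ y).n3 = 0 by omega]
      simp only [Nat.one_mul, Nat.zero_mul, Nat.sub_self, Nat.sub_zero, Nat.add_zero, Nat.zero_add]
      exact ⟨b.le.trans (g1 a), q1, q2, q3⟩
    · rw [a, show (ρ y).n0 = 0 by omega, show (ρ y).n1 = 0 by omega, show (ρ y).n3 = 0 by omega]
      simp only [Nat.one_mul, Nat.zero_mul, Nat.sub_self, Nat.sub_zero, Nat.add_zero, Nat.zero_add]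
      exact ⟨q0, q1, q2, (g2 a).trans b.le⟩
    · rw [a, show (ρ y).n0 = 0 by omega, show (ρ y).n1 = 0 by omega, show (ρ y).n2 = 0 by omega]
      simp only [Nat.one_mul, Nat.zero_mul, Nat.sub_self, Nat.sub_zero, Nat.add_zero, Nat.zero_add]
      exact ⟨q0, q1, b.le.trans (g3 a), q3⟩
  obtain ⟨k, j, k1, k2, l1, l2, hc⟩ := hsl.cell (o.t3 tT) (o.t4 tT)
  obtain ⟨f1, f2, f3⟩ := u2.bx
  obtain ⟨y', g0, g1, g3, rfl, g5, g6⟩ := cover ok nx hh (j := j) (k := k) n (y + 1) (by omega) v u1 (f3 ▸ l1)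
    (by omega) (f2 ▸ k1) (f1 ▸ k2) fun _ => le_trans (by omega) k1
  obtain ⟨x, rfl⟩ : ∃ x, y' = x + 1 := ⟨y' - 1, by omega⟩
  have g3 := u2.trans g3
  have o' := ok _ g1
  have tV : (ρ (x + 1)).tV = 1 := (b01 (bt_le _ _ _)).resolve_left fun a => by
    rw [Rc.kc, show (ρ (x + 1)).tV = 0 from a] at g6
    omega
  rw [Rc.kc, tV, Nat.one_mul] at g6
  have jp : (ρ (x + 1)).jp = (ρ y).jp := congrArg (bt · 40 31) g3.h
  rcases (b01 (show (ρ (x + 1)).tZ ≤ 1 from bt_le _ _ _)).symm with tZ | tZ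
  · exact (o'.zw (rk _) tZ hI ho hm (by omega) (by omega) g5 g6 ht (ne_of_mem_of_not_mem hq hpS).symm (jp ▸ hp) hc).elim
  have tQ : (ρ (x + 1)).tQ = 1 := by rw [Rc.tQ, tV, tZ]
  obtain ⟨T, a1, a2⟩ := o'.qw (rk _) tQ (g3.hi ▸ hS) (g3.hi ▸ hi) hT hm (by omega) (by omega) g5 g6 ht (jp ▸ hp) hc
    (g3.h ▸ hqb)
  rw [g3.h] at a1
  rw [g3.h, g3.n0, g3.n1, g3.n2, g3.n3] at a2
  have KK : (ρ (x + 1)).K = (ρ y).K := congrArg (bt · 36 3) g3.h
  rcases Nat.eq_zero_or_pos (ρ (x + 1)).ss with ss | ss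
  · have e2 := o'.e2
    have b : (ρ (x + 1)).tA ≤ 1 := bt_le _ _ _
    have k1 := o'.k1 (by omega)
    rw [Rc.ss] at ss
    exact WK.step E.met hq ((a2 _ (Finset.notMem_erase _ _) fun s hs => ⟨hin s (Finset.mem_of_mem_erase hs),
      ⟨fun a => by omega, fun a => by omega, fun a => by omega, fun a => by omega⟩,
      hf s (Finset.mem_of_mem_erase hs)⟩).mono (by omega) le_rfl) a1
  have ox := ok x (by omega)
  have e := (nx x).trans (if_pos g1)
  have p1 := ox.p1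
  have uV : (ρ x).uV = 1 := by rwa [Rc.uV, e]
  rw [uV, Rc.ua, Rc.ub, e, bt3, bt3] at p1
  change 1 * ((ρ (x + 1)).sA + 2 * (ρ (x + 1)).s1 + ((ρ (x + 1)).sB + 2 * (ρ (x + 1)).s2)) + _ ≤ _ at p1
  rw [Rc.ss] at ss
  have b : (ρ x).tP ≤ 1 := m01 (m01 (bt_le _ _ _) (Nat.sub_le _ _)) (m01 (Nat.sub_le _ _) (bt_le _ _ _))
  have tP : (ρ x).tP = 1 := by omega
  obtain ⟨-, -, u, c1, c2, c3, c4, c5⟩ := pair (E := E) (t := t) ok nx hh (show x < n by omega) tP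
  have tL : (ρ x).tL = 0 := (b01 (bt_le _ _ _)).resolve_right fun a => by
    have := ox.p8 a
    have := bt_le (ρ x).u 64 1
    omega
  have tY : (ρ x).tY = 1 := by rw [Rc.tY, tP, tL]
  obtain ⟨p4, p5, p6⟩ := And.intro (ox.p4 tP) (And.intro (ox.p5 tY) ox.p6)
  rw [tY, Rc.uk, Rc.uj, e] at p6
  rw [Rc.uK, e] at p5
  change 1 * _ = 1 * ((ρ (x + 1)).k + 256 * (ρ (x + 1)).j) at p6
  change (ρ (x + 1)).Kc ≤ 1 at p5
  have b1 : (ρ x).k ≤ 255 := bt_le _ _ _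
  have b2 : (ρ (x + 1)).k ≤ 255 := bt_le _ _ _
  have hx := u.h.symm.trans g3.h
  have Kx : (ρ x).K = (ρ y).K := congrArg (bt · 36 3) hx
  have ke : (ρ (x + 1)).k + (ρ (x + 1)).wi = _ := Rc.kw c4
  refine WK.two E.met hq (Sp E t (ρ x)) (fun S' g => (hx ▸ ox.pw (rk x) c2 c1 c3 (u.hi ▸ g3.hi ▸ hS)
    (u.hi ▸ g3.hi ▸ hi) ht (by rwa [hx]) (fun a => hpS (g p a).1) fun s hs => ⟨hx ▸ hin s (g s hs).1, (g s hs).2.2,
      nn_of (q := q) ?_ ?_⟩ : WK _ _ _ _ (vl E t (ρ y).h p)).mono (by omega) le_rfl) (fun S' g g' => (a2 S' g fun s hs =>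
    ⟨hin s (g' s hs).1, c5 s (g' s hs).2, hf s (g' s hs).1⟩).mono (by omega) le_rfl) a1
  · rwa [show (ρ x).k = k by omega, show (ρ x).j = (ρ (x + 1)).j by omega]
  · rw [← u.n0, ← u.n1, ← u.n2, ← u.n3, g3.n0, g3.n1, g3.n2, g3.n3]
    exact hf s (g s hs).1

end

theorem sls_ok {κ : ℕ → Bool} (l : List ℕ) : ∀ M, sls H DT MT XT SS s4 s5 R m c κ l M = true →
    (∀ b, mb M (72 * b) → ∃ s, F.nod H DT MT XT SS s4 s5 R m (c + b) s = true) →
    ∃ M, κ M = true ∧ ∀ b, mb M (72 * b) → ∃ s, F.nod H DT MT XT SS s4 s5 R m (c + b) s = true := by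
  induction l with
  | nil => exact fun M a b => ⟨M, a, b⟩
  | cons s l ih =>
    have : ∀ n s M, bls H DT MT XT SS s4 s5 R m c n (sls H DT MT XT SS s4 s5 R m c κ l) s M = true →
        (∀ b, mb M (72 * b) → ∃ s, F.nod H DT MT XT SS s4 s5 R m (c + b) s = true) →
        ∃ M, κ M = true ∧ ∀ b, mb M (72 * b) → ∃ s, F.nod H DT MT XT SS s4 s5 R m (c + b) s = true := by
      intro n
      induction n with
      | zero => exact fun _ => ih
      | succ n ih =>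
        intro s M a b
        obtain ⟨a1, a2⟩ := an_iff.1 a
        exact ih _ _ a2 fun x g => (mb_or.1 g).elim (b x) fun g => ⟨_, Nat.eq_of_mul_eq_mul_left (by norm_num) (mb_one.1 g) ▸ a1⟩
    exact fun M => this _ _ M

theorem sem_msk {x : ℕ} (h : E.Sem (x &&& 340282366920938463463374607431768211455)) : E.Sem x := by
  simp only [Env.Sem] at h
  iterate 13 rw [bt_and (by decide)] at h
  exact h

theorem rnf_go {lo v v' : ℕ} {ls l : List ℕ} (hT : E.TB DT m) (hI : IQ E m jn XT SS s4 s5) (ho : xok XT = true)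
    (hR : E.RR R m) (hP : PR R m) (hm : m ≤ 16) (h : rnf H DT MT XT SS s4 s5 R m c lo e v v' ls l = true)
    (hS : E.NS H (c * 256 + lo)) : E.NS H (c * 256 + e) := by
  obtain ⟨a, h⟩ := an_iff.1 h
  obtain ⟨a1, a2⟩ := an_iff.1 a
  have a1 : e ≤ 256 := Nat.le_of_ble_eq_true a1
  have a2 : c * 256 + e ≤ 262144 := Nat.le_of_ble_eq_true a2
  obtain ⟨M, h, hM⟩ := sls_ok _ _ h fun _ g => (mb_zero g).elim
  obtain ⟨n, w, hw, n0, b1, b2, ok⟩ := fs0_ok hm a1 (by omega) h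
  intro i
  induction i using Nat.strong_induction_on with
  | _ i ih =>
  intro hi
  rcases lt_or_ge i (c * 256 + lo) with u | u
  · exact hS i u
  have ns : E.NS H i := fun k hk => ih k hk (hk.trans hi)
  have hh : ∀ y y', (rcd H DT XT M c m e n w y').hi = (rcd H DT XT M c m e n w y).hi →
      (rcd H DT XT M c m e n w y').h = (rcd H DT XT M c m e n w y).h := fun y y' a =>
    congrArg (fun x => hx H ((c * 256 + x) * 8) &&& _) a
  have rk : ∀ y, Rk H DT XT M (c * 256) (rcd H DT XT M c m e n w y) := fun y => ⟨fun _ => xW_eq (hw y), rfl, rfl⟩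
  obtain ⟨y, hy, g1, g2⟩ : ∃ y < n, bt (w y) 8 255 = i - c * 256 ∧
      1 ≤ bt (w y) 63 1 + bt (w y) 65 1 + bt (w y) 67 1 := by
    rcases eq_or_lt_of_le u with u | u
    · exact ⟨0, n0, by omega, b2⟩
    · exact nodes ok (fun _ => rfl) hh (fun _ => rfl) (show i - c * 256 < e by omega) n 0 (by omega) n0
        (le_trans b2 (by change _ ≤ bt (w 0) 65 1 + _ + bt (w 0) 63 1 + bt (w 0) 67 1; omega)) (b1.trans_lt (by omega))
  obtain rfl : i = c * 256 + bt (w y) 8 255 := by omega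
  by_cases t : bt (w y) 65 1 = 1
  · exact sem_msk (tn_go ok (fun _ => rfl) hh rk hy ns (hi.le.trans a2) hT hI ho hm rfl t)
  by_cases t' : bt (w y) 67 1 = 1
  · exact sem_msk (ln_go ok (fun _ => rfl) hh rk hy ns (hi.le.trans a2) t')
  have := bt_le (w y) 65 1
  have := bt_le (w y) 63 1
  have := bt_le (w y) 67 1
  have s : (rcd H DT XT M c m e n w y).tS = 1 := by
    change bt (w y) 63 1 = 1
    omega
  have n3 := (ok y hy).n3_
  have n4 : 511 ≤ bt (w y) 28 511 := (ok y hy).n4 s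
  have n5 := (ok y hy).n5
  have z : bt (w y) 37 1 = 0 := by
    have a : 2 * bt (w y) 37 1 ≤ bt (w y) 69 1 + _ := (ok y hy).e7
    have := bt_le (w y) 69 1
    have := (ok y hy).e6
    have := (ok y hy).e1
    omega
  have z' : bt (w y) 28 1023 = 511 := by
    rw [show bt _ 37 1 = _ from bt_eq _ 37 1] at z
    rw [show bt _ 28 511 = _ from bt_eq _ 28 9] at n4
    rw [show bt _ 28 1023 = _ from bt_eq _ 28 10]
    omega
  rw [s, Nat.one_mul, Nat.one_mul] at n3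
  change bt (w y) 0 255 = bt (w y) 8 255 at n3
  rw [s] at n5
  change 1 ≤ bt (dW DT XT M (w y)) 0 1 at n5
  rw [dW, bt_and (by decide), z', if_neg (by norm_num), dG, if_neg (by norm_num), if_pos rfl, n3, bt_sh,
    show bt M _ 1 = _ from bt_eq _ _ 1, Nat.add_zero] at n5
  obtain ⟨s, g⟩ := hM (bt (w y) 8 255) (by
    rw [mb, Nat.testBit_eq_decide_div_mod_eq, decide_eq_true_eq]
    omega)
  exact F.nod_go hT hI ho hR hP hm (by omega) g ns

theorem St.ru [Fintype α] {β : α → ℝ} {C0 a b tg D ro : ℕ} (s : St E β C0 H a m XT SS jn s4 s5 tg D) (g : Tc E DT R m ro β)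
    (x : xok XT = true) (h : Ru H DT MT XT SS s4 s5 R m a b) : St E β C0 H b m XT SS jn s4 s5 tg D := by
  induction h with
  | q h a b e =>
    simp only [an_iff, Nat.beq_eq, Nat.ble_eq] at e
    obtain ⟨⟨rfl, rfl⟩, e⟩ := e
    exact s.rnq g x h e
  | f h a b e =>
    simp only [an_iff, Nat.beq_eq] at e
    obtain ⟨rfl, rfl⟩ := e
    exact s.imp_right fun s => ⟨rnf_go g.gr.tb s.2.2.1 x g.gr.rr g.gr.pr g.hm h s.1, s.2⟩
  | app _ _ i j => exact j (i s)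

end

end Pool.Agent.MP_1037db_co.Q

end
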